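import Mathlib

/-!
# The transcendence degree of the function field of a hypersurface
-/

set_option autoImplicit false
set_option linter.all false

open MvPolynomial

namespace Pool.Agent.K6.H86.NP

section
variable {M κ : Type} [Field M] [Field κ] [Algebra M κ] {n : ℕ} {z : Fin (n + 1) → κ}
  {Q : MvPolynomial (Fin (n + 1)) M}

theorem exists_deg (hQ : Prime Q) : ∃ i, 0 < degreeOf i Q := by
  by_contra hc
  push Not at hc
  have h1 : Q.vars = ∅ := by
    ext i
    have := hc i
    rw [mem_vars_iff_degreeOf_ne_zero]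
    simp only [Finset.notMem_empty, iff_false, not_not]
    omega
  have hc1 := (vars_eq_empty_iff_eq_C (p := Q)).1 h1
  obtain ⟨c, hc'⟩ : ∃ c, Q = C c := ⟨_, hc1⟩
  apply hQ.not_unit
  have h0 : c ≠ 0 := by
    rintro rfl
    apply hQ.ne_zero
    rw [hc', map_zero]
  rw [hc']
  exact (isUnit_iff_ne_zero.2 h0).map C

theorem trdeg_hyp (hgen : IntermediateField.adjoin M (Set.range z) = ⊤) (hQ : Prime Q)
    (hker : ∀ P : MvPolynomial (Fin (n + 1)) M, aeval z P = 0 ↔ Q ∣ P) : Algebra.trdeg M κ = n := by
  classical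
  have halg : Algebra.IsAlgebraic (Algebra.adjoin M (Set.range z)) κ := by
    have h1 : Algebra.IsAlgebraic (IntermediateField.adjoin M (Set.range z)) κ := by
      rw [hgen]
      exact ⟨fun x => isAlgebraic_algebraMap (⟨x, trivial⟩ : (⊤ : IntermediateField M κ))⟩
    open scoped IntermediateField.algebraAdjoinAdjoin in
    exact (IsFractionRing.comap_isAlgebraic_iff (A := Algebra.adjoin M (Set.range z))
      (K := IntermediateField.adjoin M (Set.range z)) (C := κ)).2 h1
  apply le_antisymm
  · by_contra hc
    rw [not_le] at hc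
    have h1 : Cardinal.mk (Fin (n + 1)) ≤ Algebra.trdeg M κ := by
      rw [Cardinal.mk_fin]
      push_cast
      rw [← Cardinal.succ_natCast]
      exact Order.succ_le_of_lt hc
    have h2 := Algebra.IsAlgebraic.isTranscendenceBasis_of_le_trdeg_of_finite M (A := κ) z h1
    have h3 := h2.1
    apply hQ.ne_zero
    exact (algebraicIndependent_iff.1 h3) Q ((hker Q).2 dvd_rfl)
  · obtain ⟨i, hi⟩ := exists_deg hQ
    have h1 : AlgebraicIndependent M (fun j : {j : Fin (n + 1) // j ≠ i} => z j.1) := by
      rw [algebraicIndependent_iff]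
      intro P hP
      by_contra hP0
      have h2 : aeval z (rename (fun j : {j : Fin (n + 1) // j ≠ i} => j.1) P) = 0 := by
        rw [aeval_rename]
        exact hP
      rw [hker] at h2
      obtain ⟨c, hc⟩ := h2
      have h3 : rename (fun j : {j : Fin (n + 1) // j ≠ i} => j.1) P ≠ 0 := by
        intro h
        exact hP0 (rename_injective _ Subtype.val_injective (by rw [h, map_zero]))
      have hc0 : c ≠ 0 := by
        rintro rfl
        rw [mul_zero] at hc
        exact h3 hc
      have h4 : degreeOf i (rename (fun j : {j : Fin (n + 1) // j ≠ i} => j.1) P) = 0 := by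
        by_contra h5
        rw [← ne_eq, ← mem_vars_iff_degreeOf_ne_zero] at h5
        have h6 := vars_rename (fun j : {j : Fin (n + 1) // j ≠ i} => j.1) P h5
        rw [Finset.mem_image] at h6
        obtain ⟨j, -, hj⟩ := h6
        exact j.2 hj
      rw [hc, degreeOf_mul_eq hQ.ne_zero hc0] at h4
      omega
    have h2 := h1.lift_cardinalMk_le_trdeg
    have h3 : Cardinal.mk {j : Fin (n + 1) // j ≠ i} = n := by
      rw [Cardinal.mk_fintype, Fintype.card_subtype_compl]
      simp
    rw [h3] at h2
    simpa using h2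

end

/-- every prime factor of `a` divides `b` -/
theorem dvd_pow_of {R : Type} [CommRing R] [IsDomain R] [UniqueFactorizationMonoid R] {a b : R}
    (ha : a ≠ 0) (h : ∀ p, Prime p → p ∣ a → p ∣ b) : ∃ k : ℕ, a ∣ b ^ k := by
  revert h
  induction a using UniqueFactorizationMonoid.induction_on_prime with
  | h₁ => exact fun _ => (ha rfl).elim
  | h₂ x hx => exact fun _ => ⟨0, hx.dvd⟩
  | h₃ a p ha0 hp ih =>
    intro h
    obtain ⟨k, hk⟩ := ih ha0 fun q hq hqa => h q hq (hqa.mul_left p)
    refine ⟨k + 1, ?_⟩
    rw [pow_succ, mul_comm]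
    exact mul_dvd_mul hk (h p hp (dvd_mul_right _ _))

end Pool.Agent.K6.H86.NP
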