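import Pool.Agent.K6.H86.NP.Pla
import Pool.Agent.K6.H86.NP.Trd

/-!
# The rank of the group of the divisor classes, from the units
-/

set_option autoImplicit false
set_option linter.all false

open Module IsDedekindDomain FF

namespace Pool.Agent.K6.H86.NP

section
variable {M : Type} [Field M] {σ : Type} {L : Type} [Field L] [Algebra M L]

/-- a product of representatives of the primes -/
theorem prod_of_primes {R ι : Type} [CommRing R] [IsDomain R] [UniqueFactorizationMonoid R]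
    [Fintype ι] (Q : ι → R) (hQ : ∀ i, Prime (Q i)) {X : R} (hX : X ≠ 0)
    (h : ∀ p, Prime p → p ∣ X → ∃ i, Q i ∣ p) : ∃ (n : ι → ℕ) (c : R), IsUnit c ∧
      X = c * ∏ i, Q i ^ n i := by
  classical
  revert h
  induction X using UniqueFactorizationMonoid.induction_on_prime with
  | h₁ => exact fun _ => (hX rfl).elim
  | h₂ x hx => exact fun _ => ⟨0, x, hx, by simp⟩
  | h₃ a p ha hp ih =>
    intro h
    obtain ⟨n, c, hc, hn⟩ := ih ha fun q hq hqa => h q hq (hqa.mul_left p)
    obtain ⟨i, w, hw⟩ := h p hp (dvd_mul_right _ _)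
    have hwu : IsUnit w := (hp.irreducible.isUnit_or_isUnit hw).resolve_left (hQ i).not_unit
    refine ⟨n + Pi.single i 1, w * c, hwu.mul hc, ?_⟩
    have h1 : ∏ j, Q j ^ ((n + Pi.single i 1 : ι → ℕ) j) = (∏ j, Q j ^ n j) * Q i := by
      have h2 : ∀ j, Q j ^ ((n + Pi.single i 1 : ι → ℕ) j) =
          Q j ^ n j * (if j = i then Q i else 1) := by
        intro j
        rw [Pi.add_apply, pow_add]
        congr 1
        by_cases hj : j = i
        · subst hj
          rw [Pi.single_eq_same, pow_one, if_pos rfl]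
        · rw [Pi.single_eq_of_ne hj, pow_zero, if_neg hj]
      rw [Finset.prod_congr rfl fun j _ => h2 j, Finset.prod_mul_distrib,
        Finset.prod_ite_eq' Finset.univ i (fun _ => Q i), if_pos (Finset.mem_univ _)]
    rw [h1, hw, hn]
    ring

/-- the exponents of a constant product vanish -/
theorem pw_const {R ι : Type} [CommRing R] [IsDomain R] [Fintype ι] (Q : ι → R)
    (hQ : ∀ i, Prime (Q i)) (hne : ∀ i j, Q i ∣ Q j → i = j) (v : R →+* L)
    (hv : Function.Injective v) (m : ι → ℤ) {c d : R} (hc : IsUnit c) (hd : IsUnit d)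
    (h : v c = v d * pw (fun i => v (Q i)) m) : m = 0 := by
  classical
  have hv0 : ∀ i, v (Q i) ≠ 0 := fun i => (map_ne_zero_iff v hv).2 (hQ i).ne_zero
  -- positive and negative parts
  have h1 : ∀ i, v (Q i) ^ m i = v (Q i) ^ (m i).toNat / v (Q i) ^ (-(m i)).toNat := by
    intro i
    rw [eq_div_iff (pow_ne_zero _ (hv0 i)), ← zpow_natCast, ← zpow_natCast, ← zpow_add₀ (hv0 i)]
    congr 1
    omega
  have h2 : c * ∏ i, Q i ^ (-(m i)).toNat = d * ∏ i, Q i ^ (m i).toNat := by
    apply hv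
    rw [map_mul, map_mul, map_prod, map_prod, h]
    unfold pw
    rw [Finset.prod_congr rfl fun i _ => h1 i, Finset.prod_div_distrib]
    simp only [map_pow]
    rw [mul_assoc, div_mul_cancel₀]
    exact Finset.prod_ne_zero_iff.2 fun i _ => pow_ne_zero _ (hv0 i)
  have key : ∀ (c d : R), IsUnit c → IsUnit d → ∀ n n' : ι → ℕ, (∀ i, n i = 0 ∨ n' i = 0) →
      c * ∏ i, Q i ^ n i = d * ∏ i, Q i ^ n' i → ∀ i, n i = 0 := by
    intro c d hc hd n n' hnn h i
    by_contra hi
    have h3 : Q i ∣ d * ∏ i, Q i ^ n' i := by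
      rw [← h]
      refine Dvd.dvd.mul_left ?_ c
      refine (dvd_pow_self (Q i) hi).trans (Finset.dvd_prod_of_mem _ (Finset.mem_univ i))
    rcases (hQ i).dvd_or_dvd h3 with h4 | h4
    · exact (hQ i).not_unit (isUnit_of_dvd_unit h4 hd)
    · obtain ⟨j, -, hj⟩ := (hQ i).exists_mem_finset_dvd h4
      have h5 := hne i j ((hQ i).dvd_of_dvd_pow hj)
      subst h5
      rcases hnn i with h6 | h6
      · exact hi h6
      · rw [h6, pow_zero] at hj
        exact (hQ i).not_unit (isUnit_of_dvd_one hj)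
  have h3 := key c d hc hd _ _ (fun i => by omega) h2
  have h4 := key d c hd hc _ _ (fun i => by omega) h2.symm
  funext i
  have := h3 i
  have := h4 i
  show m i = 0
  omega

theorem pw_nat {ι : Type} [Fintype ι] (Q : ι → L) (n : ι → ℕ) :
    pw Q (fun i => (n i : ℤ)) = ∏ i, Q i ^ n i := by
  unfold pw
  exact Finset.prod_congr rfl fun i _ => zpow_natCast _ _

theorem pw_neg {ι : Type} [Fintype ι] (Q : ι → L) (m : ι → ℤ) : pw Q (-m) = (pw Q m)⁻¹ := by
  unfold pw
  rw [← Finset.prod_inv_distrib]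
  exact Finset.prod_congr rfl fun i _ => by rw [Pi.neg_apply, zpow_neg]

theorem pw_sum {ι κ : Type} [Fintype ι] (Q : ι → L) (hQ : ∀ i, Q i ≠ 0) (s : Finset κ)
    (m : κ → ι → ℤ) : pw Q (∑ k ∈ s, m k) = ∏ k ∈ s, pw Q (m k) := by
  classical
  induction s using Finset.induction_on with
  | empty => rw [Finset.sum_empty, Finset.prod_empty, pw_zero]
  | insert k s hk ih => rw [Finset.sum_insert hk, Finset.prod_insert hk, pw_add hQ, ih]

theorem pw_smul {ι : Type} [Fintype ι] (Q : ι → L) (n : ℤ) (m : ι → ℤ) :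
    pw Q (n • m) = pw Q m ^ n := by
  unfold pw
  rw [← Finset.prod_zpow]
  refine Finset.prod_congr rfl fun i _ => ?_
  rw [Pi.smul_apply, smul_eq_mul, mul_comm, zpow_mul]

end

section
variable {M K L : Type} [Field M] [Field K] [Field L] [Algebra M K] [Algebra K L] [Algebra M L]
  [IsScalarTower M K L] [CharZero K] [IsFF K L]

/-- the functions which are regular at the places at which `u` is regular and `g` is a unit -/
def DD (K : Type) {L : Type} [Field K] [Field L] [Algebra K L] (u g x : L) : Prop :=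
  ∀ P : Place K L, P.Reg u → P.ord g = 0 → P.Reg x

omit [CharZero K] [IsFF K L] in
theorem DD.mul {u g x y : L} (hx : DD K u g x) (hy : DD K u g y) : DD K u g (x * y) :=
  fun P h1 h2 => P.reg_mul (hx P h1 h2) (hy P h1 h2)

omit [CharZero K] [IsFF K L] in
theorem DD.const {u g : L} (c : K) : DD K u g (algebraMap K L c) := fun P _ _ => P.reg_const c

/-- **The rank** of the group of the divisor classes. -/
theorem rank_main (hKL : ∀ x : L, IsAlgebraic K x → x ∈ Set.range (algebraMap K L)) {u g : L}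
    (hu : Transcendental K u) (hg0 : g ≠ 0) (hgreg : ∀ P : Place K L, P.Reg u → P.Reg g)
    (T : Finset (Place K L)) (hT : T.Nonempty)
    (hTm : ∀ P : Place K L, P ∉ T ↔ P.Reg u ∧ P.ord g = 0) {s t : ℕ}
    (va : MvPolynomial (Fin s) M →+* L) (hva : Function.Injective va)
    (hvaC : ∀ c : M, va (MvPolynomial.C c) = algebraMap M L c)
    (hvaL : ∀ x : L, ∃ S T, T ≠ 0 ∧ x = va S / va T)
    (vw : MvPolynomial (Fin t) M →+* K) (hvw : Function.Injective vw)
    (hvwC : ∀ c : M, vw (MvPolynomial.C c) = algebraMap M K c)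
    (hvwK : ∀ x : K, ∃ S T, T ≠ 0 ∧ x = vw S / vw T)
    (E : Subring L) (Hν : MvPolynomial (Fin s) M) (hHν : Hν ≠ 0) (HN : MvPolynomial (Fin t) M)
    (hHN : HN ≠ 0) (hE1 : ∀ X, va X ∈ E) (hE2 : ∀ Y, algebraMap K L (vw Y) ∈ E)
    (hEν : (va Hν)⁻¹ ∈ E) (hEν' : ∀ x ∈ E, ∃ (k : ℕ) (X : _), va Hν ^ k * x = va X)
    (hEN : (algebraMap K L (vw HN))⁻¹ ∈ E)
    (hEp : ∀ p, Prime p → ¬ p ∣ HN → ∀ x ∈ E, ∀ y ∈ E,
      (∃ z ∈ E, x * y = algebraMap K L (vw p) * z) →
      (∃ z ∈ E, x = algebraMap K L (vw p) * z) ∨ (∃ z ∈ E, y = algebraMap K L (vw p) * z))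
    (hEp' : ∀ p, Prime p → ¬ p ∣ HN → ∀ Y,
      (∃ z ∈ E, algebraMap K L (vw Y) = algebraMap K L (vw p) * z) → p ∣ Y)
    (hD1 : ∀ x ∈ E, DD K u g x)
    (hD2 : ∀ x, DD K u g x → ∃ Y, Y ≠ 0 ∧ algebraMap K L (vw Y) * x ∈ E)
    {ι : Type} [Fintype ι] (Q : ι → MvPolynomial (Fin s) M) (hQ : ∀ i, Prime (Q i))
    (hQH : ∀ i, Q i ∣ Hν) (hQne : ∀ i j, Q i ∣ Q j → i = j)
    (hQall : ∀ P, Prime P → P ∣ Hν → ∃ i, Q i ∣ P)
    {κ : Type} [Fintype κ] (p : κ → MvPolynomial (Fin t) M) (hp : ∀ i, Prime (p i))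
    (hpH : ∀ i, p i ∣ HN) (hpne : ∀ i j, p i ∣ p j → i = j)
    (hpall : ∀ P, Prime P → P ∣ HN → ∃ i, p i ∣ P) :
    Module.Finite ℤ (Pic0 K L) ∧
      finrank ℤ (Pic0 K L) + Fintype.card ι + 1 = T.card + Fintype.card κ := by
  classical
  set kl := algebraMap K L with hkl
  have hkli : Function.Injective kl := kl.injective
  have hvwL : Function.Injective (fun Y => kl (vw Y)) := hkli.comp hvw
  have hν0 : va Hν ≠ 0 := (map_ne_zero_iff va hva).2 hHν
  have hN0 : kl (vw HN) ≠ 0 := fun h => hHN (hvwL (by simpa using h))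
  have hunitM : ∀ {m : ℕ} (X : MvPolynomial (Fin m) M), IsUnit X → ∃ c : M, c ≠ 0 ∧
      X = MvPolynomial.C c := by
    intro m X hX
    obtain ⟨c, hc, hXc⟩ := MvPolynomial.isUnit_iff_eq_C_of_isReduced.1 hX
    exact ⟨c, hc.ne_zero, hXc⟩
  have hMK : ∀ c : M, kl (algebraMap M K c) = algebraMap M L c := fun c =>
    (IsScalarTower.algebraMap_apply M K L c).symm
  -- constants
  have hordK : ∀ (c : K) (P : Place K L), c ≠ 0 → P.ord (kl c) = 0 := fun c P hc =>
    P.ord_eq_zero_of_isAlgebraic ((map_ne_zero_iff kl hkli).2 hc) (isAlgebraic_algebraMap c)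
  have hconst : ∀ f : L, f ≠ 0 → (∀ P : Place K L, P.ord f = 0) → ∃ c : K, kl c = f := by
    intro f hf hP
    by_contra hc
    have htr : Transcendental K f := fun h => hc (hKL f h)
    obtain ⟨S, hS, -, hS3⟩ := zeros htr
    have : S = ∅ := by
      rw [Finset.eq_empty_iff_forall_notMem]
      intro P hPS
      rw [hS, hP P] at hPS
      exact lt_irrefl _ hPS
    rw [this, Finset.sum_empty] at hS3
    have hfin := IsFF.finite htr
    exact (Module.finrank_pos (R := IntermediateField.adjoin K {f}) (M := L)).ne hS3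
  -- the units of `E`
  have hEunit : ∀ x y : L, x ∈ E → y ∈ E → x * y = 1 → ∃ (m : ι → ℤ) (c : M), c ≠ 0 ∧
      x = algebraMap M L c * pw (fun i => va (Q i)) m := by
    intro x y hx hy hxy
    obtain ⟨k, X, hX⟩ := hEν' x hx
    obtain ⟨l, Y, hY⟩ := hEν' y hy
    have hQ0 : ∀ i, va (Q i) ≠ 0 := fun i => (map_ne_zero_iff va hva).2 (hQ i).ne_zero
    have h1 : X * Y = Hν ^ (k + l) := by
      apply hva
      rw [map_mul, ← hX, ← hY, map_pow, pow_add]
      linear_combination (va Hν ^ k * va Hν ^ l) * hxy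
    have hX0 : X ≠ 0 := by
      rintro rfl
      rw [zero_mul] at h1
      exact pow_ne_zero _ hHν h1.symm
    have key : ∀ (Z : MvPolynomial (Fin s) M) (n : ℕ), Z ≠ 0 → Z ∣ Hν ^ n →
        ∃ (m : ι → ℕ) (c : M), c ≠ 0 ∧ va Z = algebraMap M L c * ∏ i, va (Q i) ^ m i := by
      intro Z n hZ0 hZ
      obtain ⟨m, c, hc, hm⟩ := prod_of_primes Q hQ hZ0 fun q hq hqZ =>
        hQall q hq (hq.dvd_of_dvd_pow (hqZ.trans hZ))
      obtain ⟨c', hc', rfl⟩ := hunitM c hc
      refine ⟨m, c', hc', ?_⟩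
      rw [hm, map_mul, hvaC, map_prod]
      simp only [map_pow]
    obtain ⟨m, c, hc, hm⟩ := key X (k + l) hX0 ⟨Y, h1.symm⟩
    obtain ⟨m', c', hc', hm'⟩ := key (Hν ^ k) k (pow_ne_zero _ hHν) dvd_rfl
    refine ⟨(fun i => (m i : ℤ)) + -(fun i => (m' i : ℤ)), c / c', div_ne_zero hc hc', ?_⟩
    rw [pw_add hQ0, pw_neg, pw_nat, pw_nat, map_div₀]
    have h2 : x = va X / va (Hν ^ k) := by
      rw [eq_div_iff ((map_ne_zero_iff va hva).2 (pow_ne_zero _ hHν)), ← hX, map_pow]
      ring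
    rw [h2, hm, hm']
    have h3 : algebraMap M L c' ≠ 0 := (map_ne_zero_iff _ (algebraMap M L).injective).2 hc'
    have h4 : (∏ i, va (Q i) ^ m' i) ≠ 0 := Finset.prod_ne_zero_iff.2 fun i _ => pow_ne_zero _ (hQ0 i)
    field_simp
  have hQ0 : ∀ i, va (Q i) ≠ 0 := fun i => (map_ne_zero_iff va hva).2 (hQ i).ne_zero
  have hpN : ∀ q, q ∣ HN → (kl (vw q))⁻¹ ∈ E := by
    rintro q ⟨z, hz⟩
    have h1 : kl (vw HN) = kl (vw q) * kl (vw z) := by rw [hz, map_mul, map_mul]
    have h2 : kl (vw q) ≠ 0 := by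
      intro h
      rw [h, zero_mul] at h1
      exact hN0 h1
    have h3 : (kl (vw q))⁻¹ = (kl (vw HN))⁻¹ * kl (vw z) := by
      rw [h1]
      have h4 : kl (vw z) ≠ 0 := by
        intro h
        rw [h, mul_zero] at h1
        exact hN0 h1
      field_simp
    rw [h3]
    exact E.mul_mem hEN (hE2 z)
  -- the elements of `𝒟`
  have hDsplit : ∀ Z : MvPolynomial (Fin t) M, Z ≠ 0 → ∀ e ∈ E, ∀ e' ∈ E, e * e' = kl (vw Z) →
      ∃ (b : K) (x y : L), b ≠ 0 ∧ x ∈ E ∧ y ∈ E ∧ x * y = 1 ∧ e = kl b * x := by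
    intro Z
    induction Z using UniqueFactorizationMonoid.induction_on_prime with
    | h₁ => exact fun h => (h rfl).elim
    | h₂ c hc =>
      intro _ e he e' he' h
      obtain ⟨c', hc', rfl⟩ := hunitM c hc
      rw [hvwC] at h
      refine ⟨1, e, e' * kl (algebraMap M K c'⁻¹), one_ne_zero, he, ?_, ?_, ?_⟩
      · refine E.mul_mem he' ?_
        rw [← hvwC]
        exact hE2 _
      · rw [← mul_assoc, h, ← map_mul, ← map_mul, mul_inv_cancel₀ hc', map_one, map_one]
      · rw [map_one, one_mul]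
    | h₃ Z' q hZ' hq ih =>
      intro hne e he e' he' h
      rw [map_mul, map_mul] at h
      have hq0 : kl (vw q) ≠ 0 := fun h0 => hq.ne_zero (hvwL (by simpa using h0))
      by_cases hqN : q ∣ HN
      · refine ih hZ' e he (e' * (kl (vw q))⁻¹) (E.mul_mem he' (hpN q hqN)) ?_
        rw [← mul_assoc, h]
        field_simp
      · rcases hEp q hq hqN e he e' he' ⟨kl (vw Z'), hE2 _, h⟩ with ⟨z, hz, h1⟩ | ⟨z, hz, h1⟩
        · obtain ⟨b, x, y, hb, hx, hy, hxy, hzb⟩ := ih hZ' z hz e' he' (by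
            apply mul_left_cancel₀ hq0
            rw [← h, h1]
            ring)
          refine ⟨vw q * b, x, y, mul_ne_zero (fun h0 => hq0 (by rw [h0, map_zero])) hb, hx, hy,
            hxy, ?_⟩
          rw [h1, hzb, map_mul]
          ring
        · exact ih hZ' e he z hz (by
            apply mul_left_cancel₀ hq0
            rw [← h, h1]
            ring)
  have hDunit : ∀ f : L, f ≠ 0 → DD K u g f → DD K u g f⁻¹ → ∃ (m : ι → ℤ) (c : K), c ≠ 0 ∧
      f = kl c * pw (fun i => va (Q i)) m := by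
    intro f hf h1 h2
    obtain ⟨Y, hY0, hY⟩ := hD2 f h1
    obtain ⟨Y', hY'0, hY'⟩ := hD2 f⁻¹ h2
    have hYk : kl (vw Y) ≠ 0 := fun h0 => hY0 (hvwL (by simpa using h0))
    obtain ⟨b, x, y, hb, hx, hy, hxy, he⟩ := hDsplit (Y * Y') (mul_ne_zero hY0 hY'0) _ hY _ hY' (by
      rw [map_mul, map_mul]
      field_simp)
    obtain ⟨m, c, hc, hm⟩ := hEunit x y hx hy hxy
    refine ⟨m, b * algebraMap M K c / vw Y, ?_, ?_⟩
    · refine div_ne_zero (mul_ne_zero hb ((map_ne_zero_iff _ (algebraMap M K).injective).2 hc)) ?_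
      intro h0
      exact hYk (by rw [h0, map_zero])
    · have h3 : f = kl b * x / kl (vw Y) := by
        rw [← he]
        field_simp
      rw [h3, hm, map_div₀, map_mul, hMK]
      ring
  -- fractions
  have hDfrac : ∀ x, DD K u g x → ∃ S T, T ≠ 0 ∧ x = va S / va T ∧ DD K u g (va T)⁻¹ := by
    intro x hx
    obtain ⟨Y, hY0, hY⟩ := hD2 x hx
    have hYk : kl (vw Y) ≠ 0 := fun h0 => hY0 (hvwL (by simpa using h0))
    obtain ⟨k, X, hX⟩ := hEν' _ hY
    obtain ⟨l, Z, hZ⟩ := hEν' _ (hE2 Y)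
    have hZ0 : Z ≠ 0 := by
      rintro rfl
      rw [map_zero] at hZ
      exact mul_ne_zero (pow_ne_zero _ hν0) hYk hZ
    refine ⟨X * Hν ^ l, Z * Hν ^ k, mul_ne_zero hZ0 (pow_ne_zero _ hHν), ?_, ?_⟩
    · rw [map_mul, map_mul, map_pow, map_pow, ← hX, ← hZ]
      field_simp
    · rw [map_mul, map_pow, ← hZ, mul_inv, mul_inv, ← inv_pow, ← inv_pow]
      refine DD.mul (DD.mul (hD1 _ (E.pow_mem hEν _)) ?_) (hD1 _ (E.pow_mem hEν _))
      rw [← map_inv₀]
      exact DD.const _
  have hkill : ∀ P : Place K L, P ∉ T → ∀ x : L, x ≠ 0 → DD K u g x → DD K u g x⁻¹ → P.ord x = 0 := by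
    intro P hP x hx0 h1 h2
    obtain ⟨h3, h4⟩ := (hTm P).1 hP
    have h5 := (P.reg_iff hx0).1 (h1 P h3 h4)
    have h6 := (P.reg_iff (inv_ne_zero hx0)).1 (h2 P h3 h4)
    rw [P.ord_inv] at h6
    omega
  have hDT : ∀ x : L, x ≠ 0 → (∀ P, P ∉ T → P.ord x = 0) → DD K u g x := by
    intro x hx0 h P h1 h2
    rw [P.reg_iff hx0, h P ((hTm P).2 ⟨h1, h2⟩)]
  have hvapos : ∀ P : Place K L, P ∉ T → ∀ X, X ≠ 0 → 0 ≤ P.ord (va X) := by
    intro P hP X hX
    obtain ⟨h3, h4⟩ := (hTm P).1 hP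
    exact (P.reg_iff ((map_ne_zero_iff va hva).2 hX)).1 (hD1 _ (hE1 X) P h3 h4)
  -- the divisors of the primes
  have h4 : ∀ P, P ∉ T → ∃ f : L, f ≠ 0 ∧ P.ord f = 1 ∧ ∀ P', P' ∉ T → P' ≠ P → P'.ord f = 0 := by
    intro P hP
    obtain ⟨hPu, hPg⟩ := (hTm P).1 hP
    have hex : ∃ X, X ≠ 0 ∧ 0 < P.ord (va X) := by
      obtain ⟨t, ht0, ht⟩ := P.surj
      obtain ⟨S, T', hT', hST⟩ := hvaL t
      have hS0 : S ≠ 0 := by
        rintro rfl
        rw [map_zero, zero_div] at hST
        exact ht0 hST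
      refine ⟨S, hS0, ?_⟩
      rw [hST, P.ord_div ((map_ne_zero_iff va hva).2 hS0) ((map_ne_zero_iff va hva).2 hT')] at ht
      have := hvapos P hP T' hT'
      omega
    have hex2 : ∃ q, Prime q ∧ 0 < P.ord (va q) := by
      obtain ⟨X, hX0, hX⟩ := hex
      revert hX
      induction X using UniqueFactorizationMonoid.induction_on_prime with
      | h₁ => exact (hX0 rfl).elim
      | h₂ c hc =>
        intro h
        obtain ⟨c', hc', rfl⟩ := hunitM c hc
        rw [hvaC, ← hMK, hordK _ P ((map_ne_zero_iff _ (algebraMap M K).injective).2 hc')] at h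
        exact (lt_irrefl _ h).elim
      | h₃ a q ha hq ih =>
        intro h
        by_cases h1 : 0 < P.ord (va q)
        · exact ⟨q, hq, h1⟩
        · refine ih ha ?_
          rw [map_mul, P.ord_mul ((map_ne_zero_iff va hva).2 hq.ne_zero)
            ((map_ne_zero_iff va hva).2 ha)] at h
          omega
    obtain ⟨q, hq, hqP⟩ := hex2
    have hq0 : va q ≠ 0 := (map_ne_zero_iff va hva).2 hq.ne_zero
    have hpd := prime_div hu hg0 hgreg hq0 (fun P' h1 h2 => hD1 _ (hE1 q) P' h1 h2) (by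
      intro x y hx hy hxy
      obtain ⟨S, T₁, hT₁, hx', hxT⟩ := hDfrac x hx
      obtain ⟨S', T₂, hT₂, hy', hyT⟩ := hDfrac y hy
      obtain ⟨S'', T₃, hT₃, hz', hzT⟩ := hDfrac _ hxy
      have e1 : va T₁ ≠ 0 := (map_ne_zero_iff va hva).2 hT₁
      have e2 : va T₂ ≠ 0 := (map_ne_zero_iff va hva).2 hT₂
      have e3 : va T₃ ≠ 0 := (map_ne_zero_iff va hva).2 hT₃
      have h5 : S * S' * T₃ = q * (S'' * T₁ * T₂) := by
        apply hva
        rw [map_mul, map_mul, map_mul, map_mul, map_mul]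
        rw [hx', hy'] at hz'
        field_simp at hz'
        linear_combination hz'
      have h6 : ¬ q ∣ T₃ := by
        rintro ⟨z, hz⟩
        have h7 : DD K u g (va q)⁻¹ := by
          have h8 : (va q)⁻¹ = va z * (va T₃)⁻¹ := by
            rw [hz, map_mul]
            have : va z ≠ 0 := by
              intro h0
              rw [hz, map_mul, h0, mul_zero] at e3
              exact e3 rfl
            field_simp
          rw [h8]
          exact DD.mul (hD1 _ (hE1 z)) hzT
        have h9 := hkill P hP _ hq0 (hD1 _ (hE1 q)) h7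
        omega
      have h7 : q ∣ S * S' := (hq.dvd_or_dvd (a := S * S') (b := T₃) ⟨_, h5⟩).resolve_right h6
      rcases hq.dvd_or_dvd h7 with ⟨z, hz⟩ | ⟨z, hz⟩
      · left
        have h8 : x / va q = va z * (va T₁)⁻¹ := by
          rw [hx', hz, map_mul]
          field_simp
        rw [h8]
        exact DD.mul (hD1 _ (hE1 z)) hxT
      · right
        have h8 : y / va q = va z * (va T₂)⁻¹ := by
          rw [hy', hz, map_mul]
          field_simp
        rw [h8]
        exact DD.mul (hD1 _ (hE1 z)) hyT) hPu hPg hqP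
    refine ⟨va q, hq0, hpd.1, fun P' hP' hne => ?_⟩
    obtain ⟨h1, h2⟩ := (hTm P').1 hP'
    exact hpd.2 P' h1 h2 hne
  -- the primes over `HN` as units of `E`
  have hpE : ∀ k, ∃ (m : ι → ℤ) (c : M), c ≠ 0 ∧
      kl (vw (p k)) = algebraMap M L c * pw (fun i => va (Q i)) m := by
    intro k
    refine hEunit _ _ (hE2 (p k)) (hpN (p k) (hpH k)) (mul_inv_cancel₀ ?_)
    exact fun h0 => (hp k).ne_zero (hvwL (by simpa using h0))
  choose Em cm hcm hEm using hpE
  have hpw0 : ∀ m : ι → ℤ, pw (fun i => va (Q i)) m ≠ 0 := fun m => pw_ne hQ0 m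
  have hpwN : ∀ n : κ → ℤ, ∃ c : M, c ≠ 0 ∧ pw (fun k => kl (vw (p k))) n =
      algebraMap M L c * pw (fun i => va (Q i)) (∑ k, n k • Em k) := by
    intro n
    refine ⟨∏ k, cm k ^ n k, Finset.prod_ne_zero_iff.2 fun k _ => zpow_ne_zero _ (hcm k), ?_⟩
    rw [pw_sum _ hQ0, map_prod, ← Finset.prod_mul_distrib]
    refine Finset.prod_congr rfl fun k _ => ?_
    show kl (vw (p k)) ^ n k = _
    rw [hEm k, mul_zpow, map_zpow₀, pw_smul]
  have hvw' : Function.Injective (kl.comp vw) := hvwL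
  have hEind : LinearIndependent ℤ Em := by
    rw [Fintype.linearIndependent_iff]
    intro n hn
    obtain ⟨c, hc, hcn⟩ := hpwN n
    rw [hn, pw_zero, mul_one] at hcn
    have h1 := pw_const p hp hpne (kl.comp vw) hvw' n (c := MvPolynomial.C c) (d := 1)
      ((isUnit_iff_ne_zero.2 hc).map MvPolynomial.C) isUnit_one (by
        rw [map_one, one_mul, RingHom.comp_apply, hvwC, hMK, ← hcn]
        rfl)
    exact fun k => congrFun h1 k
  have hrel : ∀ m : ι → ℤ, (∀ P : Place K L, P.ord (pw (fun i => va (Q i)) m) = 0) ↔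
      m ∈ Submodule.span ℤ (Set.range Em) := by
    intro m
    constructor
    · intro h
      obtain ⟨y, hy⟩ := hconst _ (hpw0 m) h
      have hy0 : y ≠ 0 := by
        rintro rfl
        rw [map_zero] at hy
        exact hpw0 m hy.symm
      -- `pw` is a unit of `E`
      have hQinv : ∀ i, (va (Q i))⁻¹ ∈ E := by
        intro i
        obtain ⟨z, hz⟩ := hQH i
        have h1 : (va (Q i))⁻¹ = (va Hν)⁻¹ * va z := by
          rw [hz, map_mul]
          have : va z ≠ 0 := by
            intro h0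
            rw [hz, map_mul, h0, mul_zero] at hν0
            exact hν0 rfl
          field_simp
        rw [h1]
        exact E.mul_mem hEν (hE1 z)
      have hpwE : ∀ m : ι → ℤ, pw (fun i => va (Q i)) m ∈ E := by
        intro m
        unfold pw
        refine Subring.prod_mem _ fun i _ => ?_
        rcases Int.eq_nat_or_neg (m i) with ⟨n, hn | hn⟩
        · rw [hn, zpow_natCast]
          exact E.pow_mem (hE1 _) _
        · rw [hn, zpow_neg, zpow_natCast, ← inv_pow]
          exact E.pow_mem (hQinv i) _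
      have hyE : kl y ∈ E := by rw [hy]; exact hpwE m
      have hyE' : (kl y)⁻¹ ∈ E := by rw [hy, ← pw_neg]; exact hpwE (-m)
      -- coprime fractions
      obtain ⟨A, B, hB0, hcop, hyAB⟩ : ∃ A B : MvPolynomial (Fin t) M, B ≠ 0 ∧ IsRelPrime A B ∧
          y = vw A / vw B := by
        obtain ⟨A, B, hB, hAB⟩ := hvwK y
        obtain ⟨A', B', C', hrp, hA', hB'⟩ := UniqueFactorizationMonoid.exists_reduced_factors' A B hB
        have hB'0 : B' ≠ 0 := by
          rintro rfl
          rw [mul_zero] at hB'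
          exact hB hB'.symm
        have hC'0 : C' ≠ 0 := by
          rintro rfl
          rw [zero_mul] at hB'
          exact hB hB'.symm
        refine ⟨A', B', hB'0, hrp, ?_⟩
        rw [hAB, ← hA', ← hB', map_mul, map_mul, mul_div_mul_left]
        exact (map_ne_zero_iff vw hvw).2 hC'0
      have hB1 : kl (vw B) ≠ 0 := fun h0 => hB0 (hvwL (by simpa using h0))
      have hA0 : A ≠ 0 := by
        rintro rfl
        rw [map_zero, zero_div] at hyAB
        exact hy0 hyAB
      have hA1 : kl (vw A) ≠ 0 := fun h0 => hA0 (hvwL (by simpa using h0))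
      have hyAB' : kl y = kl (vw A) / kl (vw B) := by rw [hyAB, map_div₀]
      have hAp : ∀ q, Prime q → q ∣ A → ∃ i, p i ∣ q := by
        intro q hq hqA
        by_contra hc
        have hqN : ¬ q ∣ HN := fun h0 => hc (hpall q hq h0)
        obtain ⟨A₁, hA₁⟩ := hqA
        have h1 : q ∣ B := by
          refine hEp' q hq hqN B ⟨kl (vw A₁) * (kl y)⁻¹, E.mul_mem (hE2 _) hyE', ?_⟩
          rw [hyAB', hA₁, map_mul, map_mul]
          have e1 : kl (vw q) ≠ 0 := fun h0 => hq.ne_zero (hvwL (by simpa using h0))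
          have e2 : kl (vw A₁) ≠ 0 := by
            intro h0
            rw [hA₁, map_mul, map_mul, h0, mul_zero] at hA1
            exact hA1 rfl
          field_simp
        exact hq.not_unit (hcop (hA₁ ▸ dvd_mul_right _ _) h1)
      have hBp : ∀ q, Prime q → q ∣ B → ∃ i, p i ∣ q := by
        intro q hq hqB
        by_contra hc
        have hqN : ¬ q ∣ HN := fun h0 => hc (hpall q hq h0)
        obtain ⟨B₁, hB₁⟩ := hqB
        have h1 : q ∣ A := by
          refine hEp' q hq hqN A ⟨kl (vw B₁) * kl y, E.mul_mem (hE2 _) hyE, ?_⟩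
          rw [hyAB', hB₁, map_mul, map_mul]
          have e1 : kl (vw q) ≠ 0 := fun h0 => hq.ne_zero (hvwL (by simpa using h0))
          have e2 : kl (vw B₁) ≠ 0 := by
            intro h0
            rw [hB₁, map_mul, map_mul, h0, mul_zero] at hB1
            exact hB1 rfl
          field_simp
        exact hq.not_unit (hcop h1 (hB₁ ▸ dvd_mul_right _ _))
      obtain ⟨nA, cA, hcA, hnA⟩ := prod_of_primes p hp hA0 hAp
      obtain ⟨nB, cB, hcB, hnB⟩ := prod_of_primes p hp hB0 hBp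
      obtain ⟨cA', hcA', rfl⟩ := hunitM cA hcA
      obtain ⟨cB', hcB', rfl⟩ := hunitM cB hcB
      have hp0 : ∀ k, kl (vw (p k)) ≠ 0 := fun k h0 => (hp k).ne_zero (hvwL (by simpa using h0))
      have hyn : kl y = algebraMap M L (cA' / cB') * pw (fun k => kl (vw (p k)))
          ((fun k => (nA k : ℤ)) + -(fun k => (nB k : ℤ))) := by
        rw [pw_add hp0, pw_neg, pw_nat, pw_nat, hyAB', hnA, hnB, map_div₀]
        simp only [map_mul, map_prod, map_pow, hvwC, hMK]
        have h3 : algebraMap M L cB' ≠ 0 := (map_ne_zero_iff _ (algebraMap M L).injective).2 hcB'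
        have h5 : (∏ k, kl (vw (p k)) ^ nB k) ≠ 0 :=
          Finset.prod_ne_zero_iff.2 fun k _ => pow_ne_zero _ (hp0 k)
        field_simp
      obtain ⟨c, hc, hcn⟩ := hpwN ((fun k => (nA k : ℤ)) + -(fun k => (nB k : ℤ)))
      rw [hcn] at hyn
      set n : κ → ℤ := (fun k => (nA k : ℤ)) + -(fun k => (nB k : ℤ)) with hn
      have h1 : va (MvPolynomial.C 1) = va (MvPolynomial.C (cA' / cB' * c)) *
          pw (fun i => va (Q i)) ((∑ k, n k • Em k) + -m) := by
        rw [pw_add hQ0, pw_neg, hvaC, hvaC, map_one, map_mul, ← hy, hyn]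
        have h3 : algebraMap M L (cA' / cB') ≠ 0 := (map_ne_zero_iff _ (algebraMap M L).injective).2
          (div_ne_zero hcA' hcB')
        have h5 : algebraMap M L c ≠ 0 := (map_ne_zero_iff _ (algebraMap M L).injective).2 hc
        have h6 := hpw0 (∑ k, n k • Em k)
        field_simp
      have h2 := pw_const Q hQ hQne va hva _ (isUnit_one.map MvPolynomial.C)
        ((isUnit_iff_ne_zero.2 (mul_ne_zero (div_ne_zero hcA' hcB') hc)).map MvPolynomial.C) h1
      have h3 : m = ∑ k, n k • Em k := by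
        have := add_neg_eq_zero.1 h2
        exact this.symm
      rw [h3, Submodule.mem_span_range_iff_exists_fun]
      exact ⟨n, rfl⟩
    · intro h P
      rw [Submodule.mem_span_range_iff_exists_fun] at h
      obtain ⟨n, hn⟩ := h
      obtain ⟨c, hc, hcn⟩ := hpwN n
      rw [hn] at hcn
      have h1 : pw (fun i => va (Q i)) m = kl ((∏ k, vw (p k) ^ n k) / algebraMap M K c) := by
        have hc' : algebraMap M L c ≠ 0 := (map_ne_zero_iff _ (algebraMap M L).injective).2 hc
        rw [map_div₀, hMK, eq_div_iff hc', mul_comm, ← hcn, map_prod]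
        unfold pw
        exact Finset.prod_congr rfl fun k _ => by rw [map_zpow₀]
      rw [h1]
      refine hordK _ P (div_ne_zero (Finset.prod_ne_zero_iff.2 fun k _ => zpow_ne_zero _ ?_)
        ((map_ne_zero_iff _ (algebraMap M K).injective).2 hc))
      exact (map_ne_zero_iff vw hvw).2 (hp k).ne_zero
  refine rank_pic T hT h4 (fun i => va (Q i)) hQ0 ?_ ?_ Em hEind hrel
  · intro i P hP
    obtain ⟨z, hz⟩ := hQH i
    have h1 : P.ord (va Hν) = 0 := hkill P hP _ hν0 (hD1 _ (hE1 _)) (hD1 _ hEν)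
    have hz0 : z ≠ 0 := by
      rintro rfl
      rw [mul_zero] at hz
      exact hHν hz
    rw [hz, map_mul, P.ord_mul (hQ0 i) ((map_ne_zero_iff va hva).2 hz0)] at h1
    have h2 := hvapos P hP (Q i) (hQ i).ne_zero
    have h3 := hvapos P hP z hz0
    omega
  · intro f hf h
    obtain ⟨m, c, hc, hm⟩ := hDunit f hf (hDT f hf h) (hDT _ (inv_ne_zero hf) fun P hP => by
      rw [P.ord_inv, h P hP, neg_zero])
    exact ⟨m, kl c, (map_ne_zero_iff kl hkli).2 hc, fun P => hordK c P hc, hm⟩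

end

end Pool.Agent.K6.H86.NP
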