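import Pool.Agent.K6.H86.NP.Cnv
import Pool.Agent.K6.H86.NP.Rk

/-!
# The rank from a convenient model
-/

set_option autoImplicit false
set_option linter.all false

open Polynomial FF NumberField

namespace Pool.Agent.K6.H86.NP

open Pool.Agent.R410.LW (ev ev_C ev_X ev_eq ev_eq' FG)

section
variable {M L : Type} [Field M] [Field L] [Algebra M L]

theorem aeval_mem {m : ℕ} (x : Fin m → L) (S : MvPolynomial (Fin m) M) :
    MvPolynomial.aeval x S ∈ PP (algebraMap M L).range x := by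
  induction S using MvPolynomial.induction_on with
  | C c => rw [MvPolynomial.aeval_C]; exact le_PP _ x ⟨c, rfl⟩
  | add p q hp hq => rw [map_add]; exact add_mem hp hq
  | mul_X p i hp => rw [map_mul, MvPolynomial.aeval_X]; exact mul_mem hp (x_mem_PP _ x i)

theorem mem_PPM {m : ℕ} {x : Fin m → L} {y : L} :
    y ∈ PP (algebraMap M L).range x ↔ ∃ p : MvPolynomial (Fin m) M, MvPolynomial.aeval x p = y := by
  constructor
  · intro hy
    have h : PP (algebraMap M L).range x ≤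
        ((MvPolynomial.aeval x : MvPolynomial (Fin m) M →ₐ[M] L).range).toSubring := by
      refine PP_le ?_ fun i => ⟨MvPolynomial.X i, MvPolynomial.aeval_X _ _⟩
      rintro _ ⟨c, rfl⟩
      exact ⟨MvPolynomial.C c, MvPolynomial.aeval_C _ _⟩
    exact h hy
  · rintro ⟨p, rfl⟩
    exact aeval_mem x p

/-- the polynomial ring over the field -/
noncomputable def evMe {m : ℕ} {x : Fin m → L} (hx : AlgebraicIndependent M x) :
    MvPolynomial (Fin m) M ≃+* PP (algebraMap M L).range x :=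
  RingEquiv.ofBijective (((MvPolynomial.aeval x : MvPolynomial (Fin m) M →ₐ[M] L) :
    MvPolynomial (Fin m) M →+* L).codRestrict (PP (algebraMap M L).range x) (aeval_mem x))
    ⟨fun p q h => hx (congrArg Subtype.val h), fun ⟨y, hy⟩ => by
      obtain ⟨p, hp⟩ := mem_PPM.1 hy
      exact ⟨p, Subtype.ext hp⟩⟩

theorem evMe_apply {m : ℕ} {x : Fin m → L} (hx : AlgebraicIndependent M x)
    (p : MvPolynomial (Fin m) M) :
    ((evMe hx p : PP (algebraMap M L).range x) : L) = MvPolynomial.aeval x p := rfl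

end

section
variable {M K L : Type} [Field M] [CharZero M] [Field K] [CharZero K] [Field L] [Algebra M K]
  [Algebra K L] [Algebra M L] [IsScalarTower M K L] [IsFF K L]

/-- **The rank** from the data of a convenient model. -/
theorem Cnv.rank {s t : ℕ} {a : Fin s → L} {wK : Fin t → K} {u : L} {R₀ R A₁ A₂ : Subring L}
    {θ g h n t₀ c' : L} {G₁ G₂ : Finset L} {f : R[X][X]} {b₀ : R[X]}
    (D : Cnv M K a (fun i => algebraMap K L (wK i)) u R₀ R A₁ A₂ θ g h n t₀ c' G₁ G₂ f b₀)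
    (hKL : ∀ x : L, IsAlgebraic K x → x ∈ Set.range (algebraMap K L)) (hu : Transcendental K u)
    (ha : AlgebraicIndependent M a) (haL : IntermediateField.adjoin M (Set.range a) = ⊤)
    (hw : AlgebraicIndependent M wK) (hwK : IntermediateField.adjoin M (Set.range wK) = ⊤)
    {N₁ : L} (hN₁ : N₁ ∈ PP R₀ (fun i => algebraMap K L (wK i))) (hN₁0 : N₁ ≠ 0)
    (hN₁n : ∃ x ∈ PP R₀ (fun i => algebraMap K L (wK i)), N₁ = n * x)
    (hN₁t : ∃ x ∈ R, N₁ = t₀ * x) {j : ℕ} (hj : h ^ j * N₁ ∈ PP R₀ a)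
    (T : Finset (Place K L)) (hT : T.Nonempty)
    (hTm : ∀ P : Place K L, P ∉ T ↔ P.Reg u ∧ P.ord g = 0)
    (Hν : MvPolynomial (Fin s) M) (hHν : MvPolynomial.aeval a Hν = h * (h ^ j * N₁))
    (HN : MvPolynomial (Fin t) M) (hHN : algebraMap K L (MvPolynomial.aeval wK HN) = N₁)
    {ι : Type} [Fintype ι] (Q : ι → MvPolynomial (Fin s) M) (hQ : ∀ i, Prime (Q i))
    (hQH : ∀ i, Q i ∣ Hν) (hQne : ∀ i j, Q i ∣ Q j → i = j)
    (hQall : ∀ P, Prime P → P ∣ Hν → ∃ i, Q i ∣ P)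
    {κ : Type} [Fintype κ] (p : κ → MvPolynomial (Fin t) M) (hp : ∀ i, Prime (p i))
    (hpH : ∀ i, p i ∣ HN) (hpne : ∀ i j, p i ∣ p j → i = j)
    (hpall : ∀ P, Prime P → P ∣ HN → ∃ i, p i ∣ P) :
    Module.Finite ℤ (Pic0 K L) ∧
      Module.finrank ℤ (Pic0 K L) + Fintype.card ι + 1 = T.card + Fintype.card κ := by
  classical
  set w : Fin t → L := fun i => algebraMap K L (wK i) with hw'
  have hwL : AlgebraicIndependent M w := by
    have := hw.map' (f := IsScalarTower.toAlgHom M K L) (algebraMap K L).injective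
    exact this
  have hae : ∀ Y : MvPolynomial (Fin t) M, algebraMap K L (MvPolynomial.aeval wK Y) =
      MvPolynomial.aeval w Y := by
    intro Y
    have h1 := MvPolynomial.aeval_algebraMap_apply (A := K) L wK Y
    exact h1.symm
  set Mr : Subring L := (algebraMap M L).range with hMr
  have hR₀M : R₀ ≤ Mr := fun x hx => D.r0M x hx
  set R₁ := PP R₀ w with hR₁
  set PW := PP Mr w with hPW
  have hR₁PW : R₁ ≤ PW := PP_mono hR₀M w
  have hN₁W : N₁ ∈ PW := hR₁PW hN₁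
  set RM := locS PW hN₁W with hRM
  have hN₁i : N₁⁻¹ ∈ RM := inv_mem_locS hN₁W
  have hPWR : PW ≤ RM := le_locS hN₁W
  have hRRM : R ≤ RM := by
    rw [D.hR]
    refine locS_le D.hn D.hn0 (hR₁PW.trans hPWR) ?_
    obtain ⟨x, hx, hxn⟩ := hN₁n
    exact inv_mem_of_dvd hxn hN₁0 hN₁i (hPWR (hR₁PW hx))
  have hPWK : PW ≤ (algebraMap K L).range := by
    refine PP_le ?_ fun i => ⟨wK i, rfl⟩
    rintro _ ⟨c, rfl⟩
    exact ⟨algebraMap M K c, (IsScalarTower.algebraMap_apply M K L c).symm⟩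
  have hRMK' : RM ≤ (algebraMap K L).range := by
    refine locS_le hN₁W hN₁0 hPWK ?_
    obtain ⟨c, hc⟩ := hPWK hN₁W
    rw [← hc, ← map_inv₀]
    exact ⟨_, rfl⟩
  have hRMK : ∀ x ∈ RM, x ∈ Set.range (algebraMap K L) := fun x hx => hRMK' hx
  -- the equation over `RM`
  let ιR : R →+* RM := Subring.inclusion hRRM
  have htoK : (toK RM hRMK).comp ιR = toK R D.mdl.le_K := by
    refine RingHom.ext fun x => ?_
    apply (algebraMap K L).injective
    rw [RingHom.comp_apply, algebraMap_toK, algebraMap_toK]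
    rfl
  set f' := f.map (mapRingHom ιR) with hf'
  have hf'm : f'.Monic := D.fm.map _
  have hf'0 : 0 < f'.natDegree := by rw [hf', D.fm.natDegree_map]; exact D.f0
  have hTi2 : Function.Injective (mapRingHom (toK RM hRMK)) :=
    Polynomial.map_injective _ (toK_injective RM hRMK)
  have hf'K : f'.map (mapRingHom (toK RM hRMK)) = f.map (mapRingHom (toK R D.mdl.le_K)) := by
    rw [hf', Polynomial.map_map, mapRingHom_comp, htoK]
  have hf'ker : ∀ P, EL RM u θ P = 0 ↔ f' ∣ P := by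
    intro P
    rw [EL_toK hRMK, D.fkerK, ← hf'K, Polynomial.map_dvd_map _ hTi2 hf'm]
  set CM := CC RM u θ with hCM
  have hC₁ : CC R₁ u θ ≤ CM := CC_mono (hR₁PW.trans hPWR) u θ
  have hCR : CC R u θ ≤ CM := CC_mono hRRM u θ
  have hgE : g ∈ CM := hC₁ D.hg
  set E := locS CM hgE with hE
  have hCE : CM ≤ E := le_locS hgE
  have hgi : g⁻¹ ∈ E := inv_mem_locS hgE
  have hloc1 : locS (CC R₁ u θ) D.hg ≤ E := locS_le D.hg D.hg0 (hC₁.trans hCE) hgi
  have hMrE : Mr ≤ E := (le_PP Mr w).trans (hPWR.trans ((le_CC RM u θ).trans hCE))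
  have hRME : RM ≤ E := (le_CC RM u θ).trans hCE
  have hloc2 : locS (PP R₀ a) D.hh ≤ E := by rw [← D.loc]; exact hloc1
  have hhi : h⁻¹ ∈ E := hloc2 (inv_mem_locS D.hh)
  have hhE : h ∈ E := hloc2 (le_locS D.hh D.hh)
  have hPaE : PP Mr a ≤ E := PP_le hMrE fun i => hloc2 (le_locS D.hh (x_mem_PP R₀ a i))
  have hN₁E : N₁ ∈ E := hRME (hPWR hN₁W)
  have hN₁iE : N₁⁻¹ ∈ E := hRME hN₁i
  have hν0 : h * (h ^ j * N₁) ≠ 0 := mul_ne_zero D.hh0 (mul_ne_zero (pow_ne_zero _ D.hh0) hN₁0)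
  have hνP : h * (h ^ j * N₁) ∈ PP Mr a :=
    PP_mono hR₀M a (Subring.mul_mem _ D.hh hj)
  set Eν := locS (PP Mr a) hνP with hEν
  have hνi : (h * (h ^ j * N₁))⁻¹ ∈ Eν := inv_mem_locS hνP
  have hPEν : PP Mr a ≤ Eν := le_locS hνP
  have hhPM : h ∈ PP Mr a := PP_mono hR₀M a D.hh
  have hjPM : h ^ j * N₁ ∈ PP Mr a := PP_mono hR₀M a hj
  have hhiν : h⁻¹ ∈ Eν := inv_mem_of_dvd rfl hν0 hνi (hPEν hjPM)
  have hloc3 : locS (PP R₀ a) D.hh ≤ Eν := locS_le D.hh D.hh0 ((PP_mono hR₀M a).trans hPEν) hhiν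
  have hloc4 : locS (CC R₁ u θ) D.hg ≤ Eν := by rw [D.loc]; exact hloc3
  have hPWν : PW ≤ Eν := PP_le ((le_PP Mr a).trans hPEν) fun i =>
    hloc4 (le_locS D.hg (le_CC R₁ u θ (x_mem_PP R₀ w i)))
  have hN₁iν : N₁⁻¹ ∈ Eν := inv_mem_of_dvd (a := h * (h ^ j * N₁)) (b := N₁) (c := h ^ (j + 1))
    (by ring) hν0 hνi (Subring.pow_mem _ (hPEν hhPM) _)
  have hEEν : E ≤ Eν := by
    refine locS_le hgE D.hg0 (CC_le (locS_le hN₁W hN₁0 hPWν hN₁iν) ?_ ?_) ?_
    · exact hloc4 (le_locS D.hg (u_mem_CC R₁ u θ))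
    · exact hloc4 (le_locS D.hg (t_mem_CC R₁ u θ))
    · exact hloc4 (inv_mem_locS D.hg)
  -- the polynomial rings
  let va : MvPolynomial (Fin s) M →+* L := (MvPolynomial.aeval a : MvPolynomial (Fin s) M →ₐ[M] L)
  let vw : MvPolynomial (Fin t) M →+* K := (MvPolynomial.aeval wK : MvPolynomial (Fin t) M →ₐ[M] K)
  have hva : ∀ X, va X = MvPolynomial.aeval a X := fun X => rfl
  have hvw : ∀ X, algebraMap K L (vw X) = MvPolynomial.aeval w X := fun X => hae X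
  have hHNw : MvPolynomial.aeval w HN = N₁ := by rw [← hae]; exact hHN
  have hHN0 : HN ≠ 0 := by
    rintro rfl
    rw [map_zero] at hHNw
    exact hN₁0 hHNw.symm
  have hHν0 : Hν ≠ 0 := by
    rintro rfl
    rw [map_zero] at hHν
    exact hν0 hHν.symm
  -- the primes
  have hprimes : ∀ q : MvPolynomial (Fin t) M, Prime q → ¬ q ∣ HN →
      (∀ x ∈ E, ∀ y ∈ E, (∃ z ∈ E, x * y = MvPolynomial.aeval w q * z) →
        (∃ z ∈ E, x = MvPolynomial.aeval w q * z) ∨ (∃ z ∈ E, y = MvPolynomial.aeval w q * z)) ∧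
      ∀ Y : MvPolynomial (Fin t) M, (∃ z ∈ E, MvPolynomial.aeval w Y =
        MvPolynomial.aeval w q * z) → q ∣ Y := by
    intro q hq hqN
    obtain ⟨Γ, iΓ, π, hπ⟩ := exists_pi hq
    let e := evMe hwL
    let φ₀ : PW →+* Γ := π.comp (e.symm : PW →+* MvPolynomial (Fin t) M)
    have hφ₀ : ∀ Y (h : MvPolynomial.aeval w Y ∈ PW), φ₀ ⟨_, h⟩ = π Y := by
      intro Y h
      show π (e.symm _) = _
      congr 1
      rw [RingEquiv.symm_apply_eq]
      exact Subtype.ext rfl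
    have hφN : φ₀ ⟨N₁, hN₁W⟩ ≠ 0 := by
      have h1 : (⟨N₁, hN₁W⟩ : PW) = ⟨MvPolynomial.aeval w HN, by rw [hHNw]; exact hN₁W⟩ :=
        Subtype.ext hHNw.symm
      rw [h1, hφ₀, ne_eq, hπ]
      exact hqN
    let φ : RM →+* Γ := extHom hN₁W (fun b hb => hb) φ₀ hφN
    have hφ : ∀ x (h1 : x ∈ PW) (h2 : x ∈ RM), φ ⟨x, h2⟩ = φ₀ ⟨x, h1⟩ :=
      extHom_agr hN₁W (fun b hb => hb) φ₀ hφN
    have hqW : MvPolynomial.aeval w q ∈ PW := aeval_mem w q
    have hkerφ : ∀ x (hx : x ∈ RM), φ ⟨x, hx⟩ = 0 ↔ ∃ y ∈ RM, x = MvPolynomial.aeval w q * y := by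
      intro x hx
      constructor
      · intro h0
        obtain ⟨m, hm⟩ := id hx
        obtain ⟨Y, hY⟩ := mem_PPM.1 hm
        have h1 : φ₀ ⟨_, hm⟩ = 0 := by
          rw [← hφ _ hm (hPWR hm)]
          have h2 : (⟨N₁ ^ m * x, hPWR hm⟩ : RM) = ⟨N₁ ^ m, hPWR (PW.pow_mem hN₁W m)⟩ * ⟨x, hx⟩ :=
            rfl
          rw [h2, map_mul, h0, mul_zero]
        have h2 : (⟨N₁ ^ m * x, hm⟩ : PW) = ⟨MvPolynomial.aeval w Y, by rw [hY]; exact hm⟩ :=
          Subtype.ext hY.symm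
        rw [h2, hφ₀, hπ] at h1
        obtain ⟨z, rfl⟩ := h1
        refine ⟨(N₁⁻¹) ^ m * MvPolynomial.aeval w z, RM.mul_mem (RM.pow_mem hN₁i m)
          (hPWR (aeval_mem w z)), ?_⟩
        rw [map_mul] at hY
        have h3 : x = (N₁⁻¹) ^ m * (N₁ ^ m * x) := by
          rw [← mul_assoc, ← mul_pow, inv_mul_cancel₀ hN₁0, one_pow, one_mul]
        rw [h3, ← hY]
        ring
      · rintro ⟨y, hy, rfl⟩
        have h1 : (⟨MvPolynomial.aeval w q * y, hx⟩ : RM) =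
          ⟨MvPolynomial.aeval w q, hPWR hqW⟩ * ⟨y, hy⟩ := rfl
        rw [h1, map_mul, hφ _ hqW, hφ₀, (hπ q).2 dvd_rfl, zero_mul]
    have hφt : ∀ h : t₀ ∈ R, (φ.comp ιR) ⟨t₀, h⟩ ≠ 0 := by
      intro ht h0
      obtain ⟨x, hx, hxt⟩ := hN₁t
      apply hφN
      rw [← hφ _ hN₁W (hPWR hN₁W)]
      have h1 : (⟨N₁, hPWR hN₁W⟩ : RM) = ιR ⟨t₀, ht⟩ * ιR ⟨x, hx⟩ := Subtype.ext hxt
      rw [h1, map_mul]
      have h2 : φ (ιR ⟨t₀, ht⟩) = 0 := h0
      rw [h2, zero_mul]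
    obtain ⟨hirr, hlc⟩ := D.irr Γ (φ.comp ιR) hφt
    have hirr' : Irreducible (f'.map (mapRingHom φ)) := by
      rw [hf', Polynomial.map_map, mapRingHom_comp]
      exact hirr
    have hb₀ : (b₀.map ιR).map φ ≠ 0 := by
      rw [Polynomial.map_map]
      intro h0
      apply hlc
      have := congrArg (fun P => P.coeff b₀.natDegree) h0
      simpa [coeff_map] using this
    have hgb : g * c' = eval₂ RM.subtype u (b₀.map ιR) := by
      rw [eval₂_map]
      exact D.hgb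
    obtain ⟨h1, h2⟩ := prime_ext hf'm hf'0 hf'ker φ hirr' (hPWR hqW) hkerφ hgE D.hg0
      (hCR D.hc') (b₀.map ιR) hgb hb₀
    refine ⟨h1, fun Y hY => ?_⟩
    obtain ⟨y, hy, hYy⟩ := h2 (MvPolynomial.aeval w Y) (hPWR (aeval_mem w Y)) hY
    obtain ⟨m, hm⟩ := hy
    obtain ⟨z, hz⟩ := mem_PPM.1 hm
    have h3 : HN ^ m * Y = q * z := by
      apply hwL
      show MvPolynomial.aeval w _ = MvPolynomial.aeval w _
      rw [map_mul, map_mul, map_pow, hHNw, hz, hYy]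
      ring
    rcases hq.dvd_or_dvd (⟨z, h3⟩ : q ∣ HN ^ m * Y) with h4 | h4
    · exact (hqN (hq.dvd_of_dvd_pow h4)).elim
    · exact h4
  -- the ring `𝒟`
  have hureg : ∀ P : Place K L, P.Reg u → P.Reg θ := by
    intro P hP
    refine reg_of_int P hP ((D.mdl.int₁ θ).2 ⟨1, R.one_mem, one_ne_zero, ?_⟩)
    rw [one_mul, D.hA₁]
    exact g_mem_AD R u D.hθ
  have hCMreg : ∀ P : Place K L, P.Reg u → CM ≤ P.O.toSubring := by
    intro P hP
    refine CC_le ?_ hP (hureg P hP)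
    intro x hx
    obtain ⟨c, rfl⟩ := hRMK x hx
    exact P.reg_const c
  have hD1 : ∀ x ∈ E, DD K u g x := by
    intro x hx P hP hPg
    have h1 : E ≤ P.O.toSubring := by
      refine locS_le hgE D.hg0 (hCMreg P hP) ?_
      show P.Reg g⁻¹
      rw [P.reg_iff (inv_ne_zero D.hg0), P.ord_inv, hPg, neg_zero]
    exact h1 hx
  have hgreg : ∀ P : Place K L, P.Reg u → P.Reg g := fun P hP => hCMreg P hP hgE
  refine rank_main hKL hu D.hg0 hgreg T hT hTm va (fun x y h => ha h)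
    (fun c => MvPolynomial.aeval_C _ _) ?_ vw (fun x y h => hw h) (fun c => MvPolynomial.aeval_C _ _)
    ?_ E Hν hHν0 HN hHN0 ?_ ?_ ?_ ?_ ?_ ?_ ?_ hD1 ?_ Q hQ hQH hQne hQall p hp hpH hpne hpall
  · intro x
    obtain ⟨S, T', hT', hx⟩ := frac_of_gen haL x
    exact ⟨S, T', by rintro rfl; exact hT' (map_zero _), hx⟩
  · intro x
    obtain ⟨S, T', hT', hx⟩ := frac_of_gen hwK x
    exact ⟨S, T', by rintro rfl; exact hT' (map_zero _), hx⟩
  · exact fun X => hPaE (aeval_mem a X)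
  · intro Y
    rw [hvw]
    exact hRME (hPWR (aeval_mem w Y))
  · rw [hva, hHν, mul_inv, mul_inv, ← inv_pow]
    exact E.mul_mem hhi (E.mul_mem (E.pow_mem hhi _) hN₁iE)
  · intro x hx
    obtain ⟨m, hm⟩ := hEEν hx
    obtain ⟨X, hX⟩ := mem_PPM.1 hm
    exact ⟨m, X, by rw [hva, hva, hHν, hX]⟩
  · rw [hvw, hHNw]
    exact hN₁iE
  · intro q hq hqN
    rw [hvw]
    exact (hprimes q hq hqN).1
  · intro q hq hqN Y hY
    rw [hvw, hvw] at hY
    exact (hprimes q hq hqN).2 Y hY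
  · intro x hx
    by_cases hx0 : x = 0
    · exact ⟨1, one_ne_zero, by rw [hx0, mul_zero]; exact E.zero_mem⟩
    -- a power of `g`
    let m : ℕ := ∑ P ∈ T, (P.ord x).natAbs
    have h1 : ∀ P : Place K L, P.Reg u → P.Reg (g ^ m * x) := by
      intro P hP
      have h2 := (P.reg_iff D.hg0).1 (hgreg P hP)
      rw [P.reg_iff (mul_ne_zero (pow_ne_zero _ D.hg0) hx0), P.ord_mul (pow_ne_zero _ D.hg0) hx0,
        P.ord_pow]
      by_cases hPT : P ∈ T
      · have h3 : (P.ord x).natAbs ≤ m := Finset.single_le_sum (f := fun P => (P.ord x).natAbs)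
          (fun _ _ => Nat.zero_le _) hPT
        have h4 : 1 ≤ P.ord g := by
          by_contra hc
          have h5 : P.ord g = 0 := by omega
          exact ((hTm P).2 ⟨hP, h5⟩) hPT
        have h5 : (m : ℤ) ≤ (m : ℤ) * P.ord g := le_mul_of_one_le_right (by positivity) h4
        omega
      · obtain ⟨-, h3⟩ := (hTm P).1 hPT
        rw [h3, mul_zero, zero_add]
        exact (P.reg_iff hx0).1 (hx P hP h3)
    obtain ⟨r, hr, hr0, hrx⟩ := (D.mdl.int₁ _).1 ((int_iff hu _).2 h1)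
    have hA₁E : A₁ ≤ E := by
      rw [D.hA₁]
      exact AD_le (hRRM.trans hRME) (hCE (u_mem_CC RM u θ)) fun z hz => hloc1 (D.hG₁ z hz)
    have h2 : r * x ∈ E := by
      have h3 : r * x = (g⁻¹) ^ m * (r * (g ^ m * x)) := by
        have : (g⁻¹) ^ m * (r * (g ^ m * x)) = ((g⁻¹) * g) ^ m * (r * x) := by ring
        rw [this, inv_mul_cancel₀ D.hg0, one_pow, one_mul]
      rw [h3]
      exact E.mul_mem (E.pow_mem hgi _) (hA₁E hrx)
    have hr' := hr
    rw [D.hR] at hr'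
    obtain ⟨l, hl⟩ := hr'
    obtain ⟨Y, hY⟩ := mem_PPM.1 (hR₁PW hl)
    refine ⟨Y, ?_, ?_⟩
    · rintro rfl
      rw [map_zero] at hY
      exact mul_ne_zero (pow_ne_zero _ D.hn0) hr0 hY.symm
    · rw [hvw, hY, mul_assoc]
      exact E.mul_mem (E.pow_mem (hRME (hPWR (hR₁PW D.hn))) _) h2

end

end Pool.Agent.K6.H86.NP
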