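import Pool.Agent.K6.H86.NP.Idn
import Pool.Agent.K6.H86.NP.Rkc

/-!
# The asymptotics for a convenient model
-/

set_option autoImplicit false
set_option linter.all false

open Polynomial FF NumberField

namespace Pool.Agent.K6.H86.NP

open Pool.Agent.R410.LW (ev ev_C ev_X ev_eq ev_eq' FG)
open Pool.Agent.R410.NG (Asy Ff)
open Pool.Agent.R410.BS (cF cF_le cB cB_nonneg)

/-- the values are bounded -/
theorem asy_bound {T : Ff} {e : ℕ} {r : ℝ} (h : Asy T e r) : ∃ (C : ℝ) (m : ℕ), 0 ≤ C ∧ m ≠ 0 ∧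
    ∀ (F : Type) [Field F] [Finite F], ((m : ℕ) : F) ≠ 0 → |T F| ≤ C * (Nat.card F : ℝ) ^ e := by
  obtain ⟨κ, i1, L, i2, i3, a, ha, C, N, hC, hN, h1⟩ := h
  refine ⟨C + cB L a, N, add_nonneg hC (cB_nonneg L a), hN, fun F _ _ hF => ?_⟩
  have h2 := h1 F hF
  have hq1 : (1 : ℝ) ≤ Nat.card F := by exact_mod_cast Nat.card_pos
  have hs1 : (1 : ℝ) ≤ √(Nat.card F : ℝ) := Real.one_le_sqrt.2 hq1
  have h3 : |T F - cF L a F * (Nat.card F : ℝ) ^ e| ≤ C * (Nat.card F : ℝ) ^ e :=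
    (le_mul_of_one_le_right (abs_nonneg _) hs1).trans h2
  have h4 : |cF L a F * (Nat.card F : ℝ) ^ e| ≤ cB L a * (Nat.card F : ℝ) ^ e := by
    rw [abs_mul, abs_of_nonneg (a := (Nat.card F : ℝ) ^ e) (by positivity)]
    exact mul_le_mul_of_nonneg_right (cF_le L a F) (by positivity)
  have h5 : |T F| ≤ |T F - cF L a F * (Nat.card F : ℝ) ^ e| + |cF L a F * (Nat.card F : ℝ) ^ e| := by
    have h6 := abs_add_le (T F - cF L a F * (Nat.card F : ℝ) ^ e) (cF L a F * (Nat.card F : ℝ) ^ e)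
    rwa [sub_add_cancel] at h6
  linarith

theorem asy_mulq_pow {T : Ff} {e : ℕ} {r : ℝ} (h : Asy T e r) (t : ℕ) :
    Asy (fun F _ _ => (Nat.card F : ℝ) ^ t * T F) (e + t) r := by
  induction t with
  | zero =>
    refine Asy.congr h 1 one_ne_zero fun F _ _ _ => ?_
    rw [pow_zero, one_mul]
  | succ t ih =>
    refine Asy.congr ih.mulq 1 one_ne_zero fun F _ _ _ => ?_
    rw [pow_succ]
    ring

theorem asy_q1 {T : Ff} {e : ℕ} {r : ℝ} (h : Asy T e r) :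
    Asy (fun F _ _ => ((Nat.card F : ℝ) + 1) * T F) (e + 1) r := by
  obtain ⟨C, m, hC, hm, h1⟩ := asy_bound h
  refine Asy.near h.mulq ⟨C, m, hC, hm, fun F _ _ hF => ?_⟩
  have h2 := h1 F hF
  have hq1 : (1 : ℝ) ≤ Nat.card F := by exact_mod_cast Nat.card_pos
  have hsq : √(Nat.card F : ℝ) ≤ Nat.card F := by
    rw [Real.sqrt_le_left (by linarith)]
    nlinarith
  have e1 : ((Nat.card F : ℝ) + 1) * T F - (Nat.card F : ℝ) * T F = T F := by ring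
  rw [e1]
  calc |T F| * √(Nat.card F : ℝ) ≤ (C * (Nat.card F : ℝ) ^ e) * Nat.card F :=
        mul_le_mul h2 hsq (Real.sqrt_nonneg _) (by positivity)
    _ = _ := by rw [pow_succ]; ring

section
variable {L : Type} [Field L]

theorem ov_int {A : Subring L} {F : Type} [Field F] (χ : A →+* F) :
    Ov (Int.castRingHom L) (Int.castRingHom F) χ := by
  intro o ho
  have : (⟨Int.castRingHom L o, ho⟩ : A) = (o : A) := Subtype.ext (by simp)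
  rw [this, map_intCast]
  simp

end

section
variable {M K L : Type} [Field M] [CharZero M] [Field K] [CharZero K] [Field L] [Algebra M K]
  [Algebra K L] [Algebra M L] [IsScalarTower M K L] [IsFF K L]

/-- the transcendence degree -/
theorem trdeg_gen {M K : Type} [Field M] [Field K] [Algebra M K] {t : ℕ} {w : Fin t → K}
    (hw : AlgebraicIndependent M w) (hwK : IntermediateField.adjoin M (Set.range w) = ⊤) :
    Algebra.trdeg M K = t := by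
  have halg : Algebra.IsAlgebraic (Algebra.adjoin M (Set.range w)) K := by
    have h1 : Algebra.IsAlgebraic (IntermediateField.adjoin M (Set.range w)) K := by
      rw [hwK]
      exact ⟨fun x => isAlgebraic_algebraMap (⟨x, trivial⟩ : (⊤ : IntermediateField M K))⟩
    open scoped IntermediateField.algebraAdjoinAdjoin in
    exact (IsFractionRing.comap_isAlgebraic_iff (A := Algebra.adjoin M (Set.range w))
      (K := IntermediateField.adjoin M (Set.range w)) (C := K)).2 h1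
  have h2 : IsTranscendenceBasis M w := by
    rw [isTranscendenceBasis_iff_algebraicIndependent_isAlgebraic]
    exact ⟨hw, halg⟩
  have := h2.lift_cardinalMk_eq_trdeg
  simpa using this.symm

/-- the zeros of `g` at which `u` is regular -/
theorem fin_zeros {u g : L} (hg0 : g ≠ 0) : ∃ T : Finset (Place K L),
    ∀ P, P ∈ T ↔ P.Reg u ∧ 0 < P.ord g := by
  classical
  by_cases hg : Transcendental K g
  · obtain ⟨S, hS, -, -⟩ := zeros hg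
    refine ⟨S.filter fun P => P.Reg u, fun P => ?_⟩
    rw [Finset.mem_filter, hS, and_comm]
  · refine ⟨∅, fun P => ?_⟩
    have h1 : IsAlgebraic K g := by
      rw [Transcendental, not_not] at hg
      exact hg
    have h2 := P.ord_eq_zero_of_isAlgebraic hg0 h1
    simp only [Finset.notMem_empty, false_iff, not_and, not_lt, h2, le_refl, implies_true]

/-- a nonzero coefficient -/
theorem exists_coef {S : Type} [CommRing S] {m : ℕ} {H : MvPolynomial (Fin m) S} (hH : H ≠ 0) :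
    ∃ c : S, c ≠ 0 ∧ ∀ (F : Type) [Field F] (φ : S →+* F), φ c ≠ 0 → MvPolynomial.map φ H ≠ 0 := by
  obtain ⟨d, hd⟩ := MvPolynomial.ne_zero_iff.1 hH
  refine ⟨_, hd, fun F _ φ hφ h0 => hφ ?_⟩
  have := congrArg (MvPolynomial.coeff d) h0
  rwa [MvPolynomial.coeff_map, MvPolynomial.coeff_zero] at this

theorem asy_zero_count {S : Subring L} (hS : ∀ x ∈ S, x ∈ Set.range (algebraMap M L))
    (fS : FGr S) (hfr : ∀ x ∈ (algebraMap M L).range, ∃ c ∈ S, c ≠ 0 ∧ c * x ∈ S) {d : ℕ}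
    (hd : Algebra.trdeg ℚ M = d) {m : ℕ} {x : Fin (m + 1) → L} (hx : AlgebraicIndependent M x)
    {c₀ y : L} (hc₀ : c₀ ∈ S) (hc₀0 : c₀ ≠ 0) (hy : y ∈ PP S x) (H : MvPolynomial (Fin (m + 1)) S)
    (hH : evP S x H = y) (hcH : ∀ (F : Type) [Field F] (φ : S →+* F), φ ⟨c₀, hc₀⟩ ≠ 0 →
      MvPolynomial.map φ H ≠ 0)
    {ι : Type} [Fintype ι] (Q : ι → MvPolynomial (Fin (m + 1)) M) (hQ : ∀ i, Prime (Q i))
    (hQH : ∀ i, Q i ∣ MvPolynomial.map (toK S hS) H) (hne : ∀ i j, Q i ∣ Q j → i = j)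
    (hall : ∀ P, Prime P → P ∣ MvPolynomial.map (toK S hS) H → ∃ i, Q i ∣ P) :
    Asy (fun F _ _ => (Nat.card {χ : PP S x →+* F //
      χ ⟨c₀, le_PP S x hc₀⟩ ≠ 0 ∧ χ ⟨y, hy⟩ = 0} : ℝ)) (d + m) (Fintype.card ι) := by
  classical
  have hft := fS.ft
  letI : Algebra S M := (toK S hS).toAlgebra
  have hfr' : IsFractionRing S M := by
    have hf : FaithfulSMul S M := (faithfulSMul_iff_algebraMap_injective S M).2 (toK_injective S hS)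
    refine IsFractionRing.of_field S M fun z => ?_
    obtain ⟨c, hc, hc0, hcz⟩ := hfr _ ⟨z, rfl⟩
    refine ⟨⟨_, hcz⟩, ⟨c, hc⟩, ?_⟩
    apply (algebraMap M L).injective
    rw [map_div₀]
    show _ = algebraMap M L (toK S hS ⟨_, hcz⟩) / algebraMap M L (toK S hS ⟨c, hc⟩)
    rw [algebraMap_toK, algebraMap_toK, mul_div_cancel_left₀ _ hc0]
  have h1 := asy_poly (A₀ := S) (M := M) hd (H := H) (c₀ := ⟨c₀, hc₀⟩)
    (fun h => hc₀0 (congrArg Subtype.val h)) hcH Q hQ hQH hne hall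
  refine Asy.congr h1 1 one_ne_zero fun F _ _ _ => ?_
  congr 1
  refine Nat.card_congr ((homPP hS hx F).subtypeEquiv fun χ => ?_)
  rw [homPP_apply, homPP_apply, and_comm]
  have e1 : (⟨evP S x H, evP_mem S x H⟩ : PP S x) = ⟨y, hy⟩ := Subtype.ext hH
  have e2 : (⟨evP S x (MvPolynomial.C ⟨c₀, hc₀⟩), evP_mem S x _⟩ : PP S x) =
    ⟨c₀, le_PP S x hc₀⟩ := Subtype.ext (evP_C S x _)
  rw [e1, e2]

theorem asy_base_count {S : Subring L} (hS : ∀ x ∈ S, x ∈ Set.range (algebraMap M L))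
    (fS : FGr S) (hfr : ∀ x ∈ (algebraMap M L).range, ∃ c ∈ S, c ≠ 0 ∧ c * x ∈ S) {d : ℕ}
    (hd : Algebra.trdeg ℚ M = d) {c₀ : L} (hc₀ : c₀ ∈ S) (hc₀0 : c₀ ≠ 0) :
    Asy (fun F _ _ => (Nat.card {φ : S →+* F // φ ⟨c₀, hc₀⟩ ≠ 0} : ℝ)) d 1 := by
  have hft := fS.ft
  have h1 := asy_fac (toK S hS) (by
    rw [eq_top_iff]
    intro z _
    obtain ⟨c, hc, hc0, hcz⟩ := hfr _ ⟨z, rfl⟩
    have h2 : z = toK S hS ⟨_, hcz⟩ / toK S hS ⟨c, hc⟩ := by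
      apply (algebraMap M L).injective
      rw [map_div₀, algebraMap_toK, algebraMap_toK, mul_div_cancel_left₀ _ hc0]
    rw [h2]
    exact div_mem (Subfield.subset_closure ⟨_, rfl⟩) (Subfield.subset_closure ⟨_, rfl⟩)) hd
    (u := ⟨c₀, hc₀⟩) (fun h0 => hc₀0 (by
      have := congrArg (algebraMap M L) h0
      rwa [algebraMap_toK, map_zero] at this))
  refine Asy.congr h1 1 one_ne_zero fun F _ _ _ => ?_
  congr 1
  refine Nat.card_congr (Equiv.subtypeEquivRight fun φ => ?_)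
  refine ⟨fun h => ⟨fun x hx => ?_, h⟩, fun h => h.2⟩
  have : x = 0 := toK_injective S hS (by rw [hx, map_zero])
  rw [this, map_zero]

theorem card_le_of_imp {α : Type} [Finite α] {P Z : α → Prop} (h : ∀ x, P x → Z x) :
    (Nat.card {x // P x} : ℝ) ≤ Nat.card {x // Z x} := by
  exact_mod_cast Nat.card_le_card_of_injective (fun x : {x // P x} => (⟨x.1, h x.1 x.2⟩ : {x // Z x}))
    (fun x y h => Subtype.ext (congrArg (fun w : {x // Z x} => w.1) h))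

/-- **The asymptotics for a convenient model.** -/
theorem Cnv.asy {t d : ℕ} {a : Fin (t + 2) → L} {wK : Fin (t + 1) → K} {u : L}
    {R₀ R A₁ A₂ : Subring L} {θ g h n t₀ c' : L} {G₁ G₂ : Finset L} {f : R[X][X]} {b₀ : R[X]}
    (D : Cnv M K a (fun i => algebraMap K L (wK i)) u R₀ R A₁ A₂ θ g h n t₀ c' G₁ G₂ f b₀)
    (hKL : ∀ x : L, IsAlgebraic K x → x ∈ Set.range (algebraMap K L)) (hu : Transcendental K u)
    (ha : AlgebraicIndependent M a) (haL : IntermediateField.adjoin M (Set.range a) = ⊤)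
    (hw : AlgebraicIndependent M wK) (hwK : IntermediateField.adjoin M (Set.range wK) = ⊤)
    (hd : Algebra.trdeg ℚ M = d) :
    ∃ N ∈ R, N ≠ 0 ∧ Good R A₁ A₂ u N ∧ Module.Finite ℤ (Pic0 K L) ∧
      Asy (fun F _ _ => TT R A₁ A₂ u (Int.castRingHom L) F (Int.castRingHom F) N) (d + t + 1)
        (Module.finrank ℤ (Pic0 K L)) ∧
      ∀ (O : Type) [CommRing O] (ρ : O →+* L), (∀ o, ρ o ∈ R₀) →
        ∃ (C : ℝ) (m : ℕ), 0 ≤ C ∧ m ≠ 0 ∧ ∀ (F : Type) [Field F] [Finite F], ((m : ℕ) : F) ≠ 0 →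
          ∀ ψ : O →+* F, |TT R A₁ A₂ u ρ F ψ N| ≤ C * (Nat.card F : ℝ) ^ (d + t + 1) := by
  classical
  set w : Fin (t + 1) → L := fun i => algebraMap K L (wK i) with hw'
  have hwL : AlgebraicIndependent M w := by
    have := hw.map' (f := IsScalarTower.toAlgHom M K L) (algebraMap K L).injective
    exact this
  have hae : ∀ Y : MvPolynomial (Fin (t + 1)) M, algebraMap K L (MvPolynomial.aeval wK Y) =
      MvPolynomial.aeval w Y := fun Y => (MvPolynomial.aeval_algebraMap_apply (A := K) L wK Y).symm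
  have hR₁R : PP R₀ w ≤ R := by rw [D.hR]; exact le_locS D.hn
  have hR₀R : R₀ ≤ R := (le_PP R₀ w).trans hR₁R
  have hnR : n ∈ R := hR₁R D.hn
  -- the denominator
  obtain ⟨l, hl⟩ : ∃ l : ℕ, n ^ l * t₀ ∈ PP R₀ w := by
    have := D.ht₀
    rw [D.hR] at this
    exact this
  set N₁ := n * (n ^ l * t₀) with hN₁def
  have hN₁ : N₁ ∈ PP R₀ w := Subring.mul_mem _ D.hn hl
  have hN₁0 : N₁ ≠ 0 := mul_ne_zero D.hn0 (mul_ne_zero (pow_ne_zero _ D.hn0) D.ht₀0)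
  have hN₁n : ∃ x ∈ PP R₀ w, N₁ = n * x := ⟨_, hl, rfl⟩
  have hN₁t : ∃ x ∈ R, N₁ = t₀ * x := ⟨n ^ (l + 1), R.pow_mem hnR _, by rw [hN₁def]; ring⟩
  obtain ⟨j, hj⟩ : ∃ j : ℕ, h ^ j * N₁ ∈ PP R₀ a := by
    have h1 : N₁ ∈ locS (PP R₀ a) D.hh := by
      rw [← D.loc]
      exact le_locS D.hg (le_CC _ u θ hN₁)
    exact h1
  have hνP : h * (h ^ j * N₁) ∈ PP R₀ a := Subring.mul_mem _ D.hh hj
  have hν0 : h * (h ^ j * N₁) ≠ 0 := mul_ne_zero D.hh0 (mul_ne_zero (pow_ne_zero _ D.hh0) hN₁0)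
  obtain ⟨Hν, hHν⟩ := mem_PP.1 hνP
  obtain ⟨HN, hHN⟩ := mem_PP.1 hN₁
  have hHν0 : Hν ≠ 0 := by
    rintro rfl
    rw [map_zero] at hHν
    exact hν0 hHν.symm
  have hHN0 : HN ≠ 0 := by
    rintro rfl
    rw [map_zero] at hHN
    exact hN₁0 hHN.symm
  obtain ⟨c₁, hc₁0, hc₁⟩ := exists_coef hHν0
  obtain ⟨c₂, hc₂0, hc₂⟩ := exists_coef hHN0
  set c₀ : L := ((c₁ * c₂ : R₀) : L) with hc₀def
  have hc₀ : c₀ ∈ R₀ := (c₁ * c₂).2
  have hc₀0 : c₀ ≠ 0 := fun h0 => mul_ne_zero hc₁0 hc₂0 (Subtype.ext h0)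
  have hcc : (⟨c₀, hc₀⟩ : R₀) = c₁ * c₂ := rfl
  have hcHν : ∀ (F : Type) [Field F] (φ : R₀ →+* F), φ ⟨c₀, hc₀⟩ ≠ 0 →
      MvPolynomial.map φ Hν ≠ 0 := by
    intro F _ φ hφ
    rw [hcc, map_mul] at hφ
    exact hc₁ F φ (left_ne_zero_of_mul hφ)
  have hcHN : ∀ (F : Type) [Field F] (φ : R₀ →+* F), φ ⟨c₀, hc₀⟩ ≠ 0 →
      MvPolynomial.map φ HN ≠ 0 := by
    intro F _ φ hφ
    rw [hcc, map_mul] at hφ
    exact hc₂ F φ (right_ne_zero_of_mul hφ)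
  have hN : c₀ * N₁ ∈ R := R.mul_mem (hR₀R hc₀) (hR₁R hN₁)
  have hcN0 : c₀ * N₁ ≠ 0 := mul_ne_zero hc₀0 hN₁0
  -- the polynomials over `M`
  have hHνM : MvPolynomial.aeval a (MvPolynomial.map (toK R₀ D.r0M) Hν) = h * (h ^ j * N₁) := by
    rw [← evP_toK, hHν]
  have hHNM : algebraMap K L (MvPolynomial.aeval wK (MvPolynomial.map (toK R₀ D.r0M) HN)) = N₁ := by
    rw [hae, ← evP_toK, hHN]
  have hHνM0 : MvPolynomial.map (toK R₀ D.r0M) Hν ≠ 0 := by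
    intro h0
    rw [h0, map_zero] at hHνM
    exact hν0 hHνM.symm
  have hHNM0 : MvPolynomial.map (toK R₀ D.r0M) HN ≠ 0 := by
    intro h0
    rw [h0, map_zero, map_zero] at hHNM
    exact hN₁0 hHNM.symm
  obtain ⟨ι, iι, Q, hQ, hQH, hQne, hQall⟩ := exists_reps hHνM0
  obtain ⟨κ, iκ, p, hp, hpH, hpne, hpall⟩ := exists_reps hHNM0
  -- the places
  have hu0 : u ≠ 0 := by
    rintro rfl
    exact hu isAlgebraic_zero
  have hui : Transcendental K u⁻¹ := fun h => hu (by simpa using h.inv)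
  obtain ⟨T₁, hT₁⟩ := fin_zeros (K := K) (u := u) D.hg0
  obtain ⟨T₂, hT₂, hT₂s⟩ := poles (k := K) hu
  have hθA : θ ∈ A₁ := by
    rw [D.hA₁]
    exact g_mem_AD R u D.hθ
  have hg₁ : g ∈ A₁ := CC_le (hR₁R.trans D.mdl.le₁) D.mdl.mem₁ hθA D.hg
  have hgreg : ∀ P : Place K L, P.Reg u → P.Reg g := fun P hP =>
    reg_of_int P hP ((D.mdl.int₁ g).2 ⟨1, R.one_mem, one_ne_zero, by rwa [one_mul]⟩)
  have hdisj : Disjoint T₁ T₂ := by
    rw [Finset.disjoint_left]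
    intro P h1 h2
    have h3 := ((hT₁ P).1 h1).1
    rw [P.reg_iff hu0] at h3
    have h4 := (hT₂ P).1 h2
    omega
  have hTm : ∀ P : Place K L, P ∉ T₁ ∪ T₂ ↔ P.Reg u ∧ P.ord g = 0 := by
    intro P
    rw [Finset.mem_union, not_or, hT₁, hT₂]
    constructor
    · rintro ⟨h1, h2⟩
      have h3 : P.Reg u := (P.reg_iff hu0).2 (by omega)
      refine ⟨h3, ?_⟩
      have h4 := (P.reg_iff D.hg0).1 (hgreg P h3)
      by_contra h5
      exact h1 ⟨h3, by omega⟩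
    · rintro ⟨h1, h2⟩
      have h3 := (P.reg_iff hu0).1 h1
      exact ⟨fun h4 => by omega, by omega⟩
  have hTne : (T₁ ∪ T₂).Nonempty := by
    have hT₂ne : T₂.Nonempty := by
      rw [Finset.nonempty_iff_ne_empty]
      intro h0
      rw [h0, Finset.sum_empty] at hT₂s
      have hfin := IsFF.finite hu
      exact (Module.finrank_pos (R := IntermediateField.adjoin K {u}) (M := L)).ne hT₂s
    exact hT₂ne.mono Finset.subset_union_right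
  obtain ⟨hfin, hrank⟩ := D.rank hKL hu ha haL hw hwK hN₁ hN₁0 hN₁n hN₁t hj (T₁ ∪ T₂) hTne hTm _
    hHνM _ hHNM Q hQ hQH hQne hQall p hp hpH hpne hpall
  rw [Finset.card_union_of_disjoint hdisj] at hrank
  -- the transcendence degree
  have htr : Algebra.trdeg ℚ K = (d + t + 1 : ℕ) := by
    have h3 := trdeg_gen hw hwK
    have h4 := trdeg_add_eq ℚ M (A := K)
    rw [hd, h3] at h4
    rw [← h4]
    push_cast
    ring
  -- the counts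
  have hNφ : ∀ (F : Type) [Field F] (φ : R →+* F), φ ⟨c₀ * N₁, hN⟩ ≠ 0 →
      φ b₀.leadingCoeff ≠ 0 := by
    intro F _ φ hφ
    refine (D.irr F φ fun ht h0 => hφ ?_).2
    obtain ⟨x, hx, hxt⟩ := hN₁t
    have h1 : (⟨c₀ * N₁, hN⟩ : R) = ⟨t₀, ht⟩ * (⟨c₀, hR₀R hc₀⟩ * ⟨x, hx⟩) := by
      apply Subtype.ext
      show c₀ * N₁ = t₀ * (c₀ * x)
      rw [hxt]
      ring
    rw [h1, map_mul, h0, zero_mul]
  have hc'A : c' ∈ A₁ := CC_le D.mdl.le₁ D.mdl.mem₁ hθA D.hc'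
  have B0 := asy_base_count D.r0M D.fg0 D.fr0 hd hc₀ hc₀0
  have B1 := asy_zero_count D.r0M D.fg0 D.fr0 hd (m := t + 1) ha hc₀ hc₀0 hνP Hν hHν hcHν Q hQ hQH
    hQne hQall
  have B2 := asy_zero_count D.r0M D.fg0 D.fr0 hd (m := t) hwL hc₀ hc₀0 hN₁ HN hHN hcHN p hp hpH
    hpne hpall
  have B3 := asy_places hu D.mdl.fgR D.mdl.fg₁ D.mdl.le₁ D.mdl.le_K D.mdl.mem₁ D.mdl.frac G₁ D.hA₁
    D.int₁ D.mdl.int₁ hg₁ D.hg0 T₁ hT₁ hN hcN0 b₀ hc'A D.hgb hNφ htr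
  have B4 := asy_places hui D.mdl.fgR D.mdl.fg₂ D.mdl.le₂ D.mdl.le_K D.mdl.mem₂ D.mdl.frac G₂ D.hA₂
    D.int₂ D.mdl.int₂ D.mdl.mem₂ (inv_ne_zero hu0) T₂ (fun P => by
      rw [hT₂, P.reg_iff (inv_ne_zero hu0), P.ord_inv]
      constructor
      · intro h1
        constructor <;> omega
      · rintro ⟨-, h1⟩
        omega) hN hcN0 X (c := 1) A₂.one_mem (by rw [mul_one, eval₂_X])
      (fun F _ φ _ => by rw [leadingCoeff_X, map_one]; exact one_ne_zero) htr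
  refine ⟨c₀ * N₁, hN, hcN0, ?_, hfin, ?_, ?_⟩
  · obtain ⟨x, hx, hxt⟩ := hN₁t
    have h1 := D.good (c₀ * x) (R.mul_mem (hR₀R hc₀) hx)
    have h2 : c₀ * N₁ = t₀ * (c₀ * x) := by rw [hxt]; ring
    rw [h2]
    exact h1
  · -- the absolute count
    have C0 := (asy_mulq_pow B0 (t + 1)).neg
    have C1 := B1.neg
    have C2 := asy_q1 B2
    have e1 : d + (t + 1) = d + t + 1 := by ring
    rw [e1] at C0 C1
    have C5 := (((C0.add C1).add C2).add B3).add B4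
    have e2 : ((((-1 : ℝ) + -(Fintype.card ι : ℝ)) + (Fintype.card κ : ℝ)) + (T₁.card : ℝ)) +
        (T₂.card : ℝ) = (Module.finrank ℤ (Pic0 K L) : ℝ) := by
      have h1 : ((Module.finrank ℤ (Pic0 K L) + Fintype.card ι + 1 : ℕ) : ℝ) =
        ((T₁.card + T₂.card + Fintype.card κ : ℕ) : ℝ) := by rw [hrank]
      push_cast at h1
      linarith
    rw [e2] at C5
    refine Asy.congr C5 1 one_ne_zero fun F _ _ _ => ?_
    rw [D.TT_id ha hwL rfl hN₁ hN₁0 hN₁n hj hc₀ hc₀0 hR₀R hN hg₁ (ρ := Int.castRingHom L)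
      (fun o => by rw [eq_intCast]; exact intCast_mem _ o)]
    have f0 : Nat.card {φ : R₀ →+* F // Ov (Int.castRingHom L) (Int.castRingHom F) φ ∧
        φ ⟨c₀, hc₀⟩ ≠ 0} = Nat.card {φ : R₀ →+* F // φ ⟨c₀, hc₀⟩ ≠ 0} :=
      Nat.card_congr (Equiv.subtypeEquivRight fun φ => and_iff_right (ov_int φ))
    have f1 : Nat.card {χ : PP R₀ a →+* F // Ov (Int.castRingHom L) (Int.castRingHom F) χ ∧
        (χ ⟨c₀, le_PP R₀ a hc₀⟩ ≠ 0 ∧ χ ⟨h * (h ^ j * N₁), (PP R₀ a).mul_mem D.hh hj⟩ = 0)} =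
        Nat.card {χ : PP R₀ a →+* F // χ ⟨c₀, le_PP R₀ a hc₀⟩ ≠ 0 ∧
          χ ⟨h * (h ^ j * N₁), hνP⟩ = 0} :=
      Nat.card_congr (Equiv.subtypeEquivRight fun φ => and_iff_right (ov_int φ))
    have f2 : Nat.card {χ : PP R₀ w →+* F // Ov (Int.castRingHom L) (Int.castRingHom F) χ ∧
        (χ ⟨c₀, le_PP R₀ w hc₀⟩ ≠ 0 ∧ χ ⟨N₁, hN₁⟩ = 0)} =
        Nat.card {χ : PP R₀ w →+* F // χ ⟨c₀, le_PP R₀ w hc₀⟩ ≠ 0 ∧ χ ⟨N₁, hN₁⟩ = 0} :=
      Nat.card_congr (Equiv.subtypeEquivRight fun φ => and_iff_right (ov_int φ))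
    have f3 : Nat.card {χ : A₁ →+* F // (Ov (Int.castRingHom L) (Int.castRingHom F) χ ∧
        χ ⟨c₀ * N₁, D.mdl.le₁ hN⟩ ≠ 0) ∧ χ ⟨g, hg₁⟩ = 0} =
        Nat.card {χ : A₁ →+* F // χ ⟨g, hg₁⟩ = 0 ∧ χ ⟨c₀ * N₁, D.mdl.le₁ hN⟩ ≠ 0} :=
      Nat.card_congr (Equiv.subtypeEquivRight fun φ => by
        rw [and_iff_right (ov_int φ), and_comm])
    have f4 : Nat.card {χ : A₂ →+* F // (Ov (Int.castRingHom L) (Int.castRingHom F) χ ∧
        χ ⟨c₀ * N₁, D.mdl.le₂ hN⟩ ≠ 0) ∧ χ ⟨u⁻¹, D.mdl.mem₂⟩ = 0} =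
        Nat.card {χ : A₂ →+* F // χ ⟨u⁻¹, D.mdl.mem₂⟩ = 0 ∧ χ ⟨c₀ * N₁, D.mdl.le₂ hN⟩ ≠ 0} :=
      Nat.card_congr (Equiv.subtypeEquivRight fun φ => by
        rw [and_iff_right (ov_int φ), and_comm])
    rw [f0, f1, f2, f3, f4]
    ring
  · -- the bound
    intro O _ ρ hρ
    obtain ⟨K0, m0, hK0, hm0, g0⟩ := asy_bound B0
    obtain ⟨K1, m1, hK1, hm1, g1⟩ := asy_bound B1
    obtain ⟨K2, m2, hK2, hm2, g2⟩ := asy_bound B2
    obtain ⟨K3, m3, hK3, hm3, g3⟩ := asy_bound B3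
    obtain ⟨K4, m4, hK4, hm4, g4⟩ := asy_bound B4
    refine ⟨K0 + K1 + 2 * K2 + K3 + K4, m0 * m1 * m2 * m3 * m4, by positivity, by positivity,
      fun F _ _ hF ψ => ?_⟩
    push_cast at hF
    have n4 := right_ne_zero_of_mul hF
    have hF3 := left_ne_zero_of_mul hF
    have n3 := right_ne_zero_of_mul hF3
    have hF2 := left_ne_zero_of_mul hF3
    have n2 := right_ne_zero_of_mul hF2
    have hF1 := left_ne_zero_of_mul hF2
    have n1 := right_ne_zero_of_mul hF1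
    have n0 := left_ne_zero_of_mul hF1
    have b0 := g0 F n0
    have b1 := g1 F n1
    have b2 := g2 F n2
    have b3 := g3 F n3
    have b4 := g4 F n4
    have i0 := fin_hom D.fg0 F
    have i1 := fin_hom (fg_PP D.fg0 a) F
    have i2 := fin_hom (fg_PP D.fg0 w) F
    have i3 := fin_hom D.mdl.fg₁ F
    have i4 := fin_hom D.mdl.fg₂ F
    rw [D.TT_id ha hwL rfl hN₁ hN₁0 hN₁n hj hc₀ hc₀0 hR₀R hN hg₁ hρ ψ]
    have f0 : (Nat.card {φ : R₀ →+* F // Ov ρ ψ φ ∧ φ ⟨c₀, hc₀⟩ ≠ 0} : ℝ) ≤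
        Nat.card {φ : R₀ →+* F // φ ⟨c₀, hc₀⟩ ≠ 0} := card_le_of_imp fun _ h => h.2
    have f1 : (Nat.card {χ : PP R₀ a →+* F // Ov ρ ψ χ ∧
        (χ ⟨c₀, le_PP R₀ a hc₀⟩ ≠ 0 ∧ χ ⟨h * (h ^ j * N₁), (PP R₀ a).mul_mem D.hh hj⟩ = 0)} : ℝ) ≤
        Nat.card {χ : PP R₀ a →+* F // χ ⟨c₀, le_PP R₀ a hc₀⟩ ≠ 0 ∧
          χ ⟨h * (h ^ j * N₁), hνP⟩ = 0} := card_le_of_imp fun _ h => h.2
    have f2 : (Nat.card {χ : PP R₀ w →+* F // Ov ρ ψ χ ∧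
        (χ ⟨c₀, le_PP R₀ w hc₀⟩ ≠ 0 ∧ χ ⟨N₁, hN₁⟩ = 0)} : ℝ) ≤
        Nat.card {χ : PP R₀ w →+* F // χ ⟨c₀, le_PP R₀ w hc₀⟩ ≠ 0 ∧ χ ⟨N₁, hN₁⟩ = 0} :=
      card_le_of_imp fun _ h => h.2
    have f3 : (Nat.card {χ : A₁ →+* F // (Ov ρ ψ χ ∧
        χ ⟨c₀ * N₁, D.mdl.le₁ hN⟩ ≠ 0) ∧ χ ⟨g, hg₁⟩ = 0} : ℝ) ≤
        Nat.card {χ : A₁ →+* F // χ ⟨g, hg₁⟩ = 0 ∧ χ ⟨c₀ * N₁, D.mdl.le₁ hN⟩ ≠ 0} :=
      card_le_of_imp fun _ h => ⟨h.2, h.1.2⟩
    have f4 : (Nat.card {χ : A₂ →+* F // (Ov ρ ψ χ ∧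
        χ ⟨c₀ * N₁, D.mdl.le₂ hN⟩ ≠ 0) ∧ χ ⟨u⁻¹, D.mdl.mem₂⟩ = 0} : ℝ) ≤
        Nat.card {χ : A₂ →+* F // χ ⟨u⁻¹, D.mdl.mem₂⟩ = 0 ∧ χ ⟨c₀ * N₁, D.mdl.le₂ hN⟩ ≠ 0} :=
      card_le_of_imp fun _ h => ⟨h.2, h.1.2⟩
    rw [abs_of_nonneg (Nat.cast_nonneg _)] at b0 b1 b2 b3 b4
    have f0' := f0.trans b0
    have f1' := f1.trans b1
    have f2' := f2.trans b2
    have f3' := f3.trans b3
    have f4' := f4.trans b4
    set q : ℝ := (Nat.card F : ℝ) with hq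
    have hq1 : (1 : ℝ) ≤ q := by
      rw [hq]
      exact_mod_cast Nat.card_pos
    set y0 : ℝ := (Nat.card {φ : R₀ →+* F // Ov ρ ψ φ ∧ φ ⟨c₀, hc₀⟩ ≠ 0} : ℝ)
    set y1 : ℝ := (Nat.card {χ : PP R₀ a →+* F // Ov ρ ψ χ ∧
        (χ ⟨c₀, le_PP R₀ a hc₀⟩ ≠ 0 ∧ χ ⟨h * (h ^ j * N₁), (PP R₀ a).mul_mem D.hh hj⟩ = 0)} : ℝ)
    set y2 : ℝ := (Nat.card {χ : PP R₀ w →+* F // Ov ρ ψ χ ∧
        (χ ⟨c₀, le_PP R₀ w hc₀⟩ ≠ 0 ∧ χ ⟨N₁, hN₁⟩ = 0)} : ℝ)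
    set y3 : ℝ := (Nat.card {χ : A₁ →+* F // (Ov ρ ψ χ ∧
        χ ⟨c₀ * N₁, D.mdl.le₁ hN⟩ ≠ 0) ∧ χ ⟨g, hg₁⟩ = 0} : ℝ)
    set y4 : ℝ := (Nat.card {χ : A₂ →+* F // (Ov ρ ψ χ ∧
        χ ⟨c₀ * N₁, D.mdl.le₂ hN⟩ ≠ 0) ∧ χ ⟨u⁻¹, D.mdl.mem₂⟩ = 0} : ℝ)
    have z0 : 0 ≤ y0 := Nat.cast_nonneg _
    have z1 : 0 ≤ y1 := Nat.cast_nonneg _
    have z2 : 0 ≤ y2 := Nat.cast_nonneg _
    have z3 : 0 ≤ y3 := Nat.cast_nonneg _
    have z4 : 0 ≤ y4 := Nat.cast_nonneg _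
    have x0 : q ^ (t + 1) * y0 ≤ K0 * q ^ (d + t + 1) := by
      calc q ^ (t + 1) * y0 ≤ q ^ (t + 1) * (K0 * q ^ d) := by gcongr
        _ = K0 * q ^ (d + t + 1) := by ring
    have x1 : y1 ≤ K1 * q ^ (d + t + 1) := f1'
    have x2 : (q + 1) * y2 ≤ 2 * K2 * q ^ (d + t + 1) := by
      calc (q + 1) * y2 ≤ (2 * q) * (K2 * q ^ (d + t)) := by
            gcongr
            linarith
        _ = 2 * K2 * q ^ (d + t + 1) := by ring
    have x0' : 0 ≤ q ^ (t + 1) * y0 := by positivity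
    have x2' : 0 ≤ (q + 1) * y2 := by positivity
    have xe : (K0 + K1 + 2 * K2 + K3 + K4) * q ^ (d + t + 1) = K0 * q ^ (d + t + 1) +
      K1 * q ^ (d + t + 1) + 2 * K2 * q ^ (d + t + 1) + K3 * q ^ (d + t + 1) +
      K4 * q ^ (d + t + 1) := by ring
    rw [xe, abs_le]
    clear_value y0 y1 y2 y3 y4
    constructor
    · linarith
    · linarith

end

end Pool.Agent.K6.H86.NP
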