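import Pool.Agent.R410.NG.Asy

/-!
# The number of the points of a closed subscheme with given components
-/

set_option autoImplicit false
set_option linter.all false

open Polynomial NumberField

namespace Pool.Agent.K6.H86.NP

open Pool.Agent.R410.NG (Asy Ff)
open Pool.Agent.R410.BS (landau_all good_le hom_le cF)
open Pool.Agent.R410.LW (FG frac_of_closure)

section
variable {A : Type} [CommRing A] {κ : Type} [Field κ] (τ : A →+* κ)

/-- the homomorphisms which factor through the image of `τ` -/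
def Fac {F : Type} [Field F] (φ : A →+* F) : Prop := ∀ x, τ x = 0 → φ x = 0

/-- the homomorphisms which factor through the image of `τ` -/
noncomputable def facEquiv (F : Type) [Field F] (u : A) (Z : Prop → Prop) :
    {φ : A →+* F // Fac τ φ ∧ Z (φ u = 0)} ≃
      {φ : τ.range →+* F // Z (φ ⟨τ u, u, rfl⟩ = 0)} where
  toFun φ := ⟨τ.rangeRestrict.liftOfSurjective τ.rangeRestrict_surjective
    ⟨φ.1, fun x hx => φ.2.1 x (congrArg Subtype.val hx)⟩, by
      have h : τ.rangeRestrict.liftOfSurjective τ.rangeRestrict_surjective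
        ⟨φ.1, fun x hx => φ.2.1 x (congrArg Subtype.val hx)⟩ ⟨τ u, u, rfl⟩ = φ.1 u :=
        RingHom.liftOfRightInverse_comp_apply τ.rangeRestrict _ _
          ⟨φ.1, fun x hx => φ.2.1 x (congrArg Subtype.val hx)⟩ u
      rw [h]
      exact φ.2.2⟩
  invFun ψ := ⟨ψ.1.comp τ.rangeRestrict, fun x hx => by
      have : τ.rangeRestrict x = 0 := Subtype.ext hx
      rw [RingHom.comp_apply, this, map_zero], ψ.2⟩
  left_inv φ := by
    apply Subtype.ext
    refine RingHom.ext fun x => ?_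
    exact RingHom.liftOfRightInverse_comp_apply τ.rangeRestrict _
      (Function.rightInverse_surjInv τ.rangeRestrict_surjective)
          ⟨φ.1, fun x hx => φ.2.1 x (congrArg Subtype.val hx)⟩ x
  right_inv ψ := by
    apply Subtype.ext
    refine RingHom.ext fun x => ?_
    obtain ⟨x, rfl⟩ := τ.rangeRestrict_surjective x
    exact RingHom.liftOfRightInverse_comp_apply τ.rangeRestrict _
      (Function.rightInverse_surjInv τ.rangeRestrict_surjective)
      ⟨ψ.1.comp τ.rangeRestrict, fun x hx => by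
        rw [RingHom.mem_ker] at hx ⊢
        rw [RingHom.comp_apply, hx, map_zero]⟩ x

variable [Algebra.FiniteType ℤ A]

theorem ft_range : Algebra.FiniteType ℤ τ.range := by
  let f : A →ₐ[ℤ] τ.range := τ.rangeRestrict.toIntAlgHom
  exact Algebra.FiniteType.of_surjective f τ.rangeRestrict_surjective

theorem fg_of (hcl : Subfield.closure (Set.range τ) = ⊤) : FG κ := by
  classical
  obtain ⟨G, hG⟩ := (inferInstance : Algebra.FiniteType ℤ A).out
  refine ⟨G.image τ, ?_⟩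
  rw [eq_top_iff, ← hcl, Subfield.closure_le]
  rintro _ ⟨x, rfl⟩
  have hx : x ∈ Algebra.adjoin ℤ (G : Set A) := by rw [hG]; trivial
  induction hx using Algebra.adjoin_induction with
  | mem x hx => exact Subfield.subset_closure (by rw [Finset.coe_image]; exact ⟨x, hx, rfl⟩)
  | algebraMap n =>
    have : τ (algebraMap ℤ A n) = (n : κ) := by simp
    rw [this]
    exact intCast_mem _ n
  | add x y _ _ h1 h2 => rw [map_add]; exact add_mem h1 h2
  | mul x y _ _ h1 h2 => rw [map_mul]; exact mul_mem h1 h2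

variable [CharZero κ]

theorem asy_fac (hcl : Subfield.closure (Set.range τ) = ⊤) {e : ℕ} (he : Algebra.trdeg ℚ κ = e)
    {u : A} (hu : τ u ≠ 0) :
    Asy (fun F _ _ => (Nat.card {φ : A →+* F // Fac τ φ ∧ φ u ≠ 0} : ℝ)) e 1 := by
  have h1 := ft_range τ
  have h2 : IsFractionRing τ.range κ := frac_of_closure (fun x y h => Subtype.ext h) (by
    rw [← hcl]
    congr 1
    ext z
    constructor
    · rintro ⟨⟨_, x, rfl⟩, rfl⟩
      exact ⟨x, rfl⟩
    · rintro ⟨x, rfl⟩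
      exact ⟨⟨τ x, x, rfl⟩, rfl⟩)
  obtain ⟨L, iL, nL, hL⟩ := landau_all (fg_of τ hcl) he
  obtain ⟨C, N, hC, hN, h⟩ := hL τ.range ⟨τ u, u, rfl⟩ (fun h => hu (congrArg Subtype.val h))
  refine ⟨Unit, inferInstance, fun _ => L, fun _ => iL, fun _ => nL, fun _ => 1, by simp, C, N, hC,
    hN, ?_⟩
  intro F _ _ hF
  have h3 := h F hF
  have h4 : cF (fun _ : Unit => L) (fun _ => 1) F = (Nat.card (𝓞 L →+* F) : ℝ) := by
    unfold cF
    simp
  have h5 : Nat.card {φ : A →+* F // Fac τ φ ∧ φ u ≠ 0} =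
      Nat.card {φ : τ.range →+* F // φ ⟨τ u, u, rfl⟩ ≠ 0} := Nat.card_congr (facEquiv τ F u Not)
  show |(Nat.card {φ : A →+* F // Fac τ φ ∧ φ u ≠ 0} : ℝ) - _| * _ ≤ _
  rw [h4, h5]
  exact h3

theorem le_fac {e : ℕ} (he : Algebra.trdeg ℚ κ ≤ e) {u : A} (hu : τ u ≠ 0) :
    ∃ (C : ℝ) (N : ℕ), 0 ≤ C ∧ N ≠ 0 ∧ ∀ (F : Type) [Field F] [Finite F], ((N : ℕ) : F) ≠ 0 →
      (Nat.card {φ : A →+* F // Fac τ φ ∧ φ u = 0} : ℝ) * Nat.card F ≤ C * (Nat.card F : ℝ) ^ e := by
  have h1 := ft_range τ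
  obtain ⟨C, N, hC, hN, h⟩ := good_le (R := τ.range) (K := κ) (fun x y h => Subtype.ext h) he
    (u := ⟨τ u, u, rfl⟩) (fun h => hu (congrArg Subtype.val h))
  refine ⟨C, N, hC, hN, fun F _ _ hF => ?_⟩
  have h2 := (h F hF).2
  have h5 : Nat.card {φ : A →+* F // Fac τ φ ∧ φ u = 0} =
      Nat.card {φ : τ.range →+* F // φ ⟨τ u, u, rfl⟩ = 0} := Nat.card_congr (facEquiv τ F u id)
  rw [h5]
  exact h2

end

section
variable {A : Type} [CommRing A] [Algebra.FiniteType ℤ A]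

/-- **The number of the points of a closed subscheme with given components.** -/
theorem asy_union {ι : Type} [Fintype ι] (κ : ι → Type) [∀ i, Field (κ i)] [∀ i, CharZero (κ i)]
    (τ : ∀ i, A →+* κ i) (hcl : ∀ i, Subfield.closure (Set.range (τ i)) = ⊤) {e : ℕ}
    (he : ∀ i, Algebra.trdeg ℚ (κ i) = e) {g c₀ : A} (hg : ∀ i, τ i g = 0) (hc₀ : ∀ i, τ i c₀ ≠ 0)
    (hne : ∀ i j, i ≠ j → ∃ x, τ j x = 0 ∧ τ i x ≠ 0) (S : Submonoid A)
    (hrad : ∀ x : A, (∀ i, τ i x = 0) → ∃ c ∈ S, ∃ (k : ℕ) (y : A), c * x ^ k = g * y)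
    (hbd : ∀ c ∈ S, ∃ (C : ℝ) (N : ℕ), 0 ≤ C ∧ N ≠ 0 ∧ ∀ (F : Type) [Field F] [Finite F],
      ((N : ℕ) : F) ≠ 0 → (Nat.card {φ : A →+* F // φ g = 0 ∧ φ c₀ ≠ 0 ∧ φ c = 0} : ℝ) *
        Nat.card F ≤ C * (Nat.card F : ℝ) ^ e) :
    Asy (fun F _ _ => (Nat.card {φ : A →+* F // φ g = 0 ∧ φ c₀ ≠ 0} : ℝ)) e (Fintype.card ι) := by
  classical
  have hnoeth : IsNoetherianRing A := Algebra.FiniteType.isNoetherianRing ℤ A
  -- the ideal
  let J : Ideal A := ⨅ i, RingHom.ker (τ i)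
  have memJ : ∀ x, x ∈ J ↔ ∀ i, τ i x = 0 := by
    intro x
    rw [Submodule.mem_iInf]
    rfl
  obtain ⟨G, hG⟩ : ∃ G : Finset A, Ideal.span (G : Set A) = J :=
    (IsNoetherian.noetherian J)
  have hGJ : ∀ x ∈ G, ∀ i, τ i x = 0 := by
    intro x hx
    rw [← memJ, ← hG]
    exact Ideal.subset_span hx
  choose! c hcS k y hy using hrad
  set cc : A := ∏ x ∈ G, c x with hcc
  have hccS : cc ∈ S := Submonoid.prod_mem _ fun x hx => hcS x (hGJ x hx)
  have hfac : ∀ (F : Type) [Field F] (φ : A →+* F), φ g = 0 → φ cc ≠ 0 → ∃ i, Fac (τ i) φ := by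
    intro F _ φ hφg hφc
    have h1 : ∀ x ∈ G, φ x = 0 := by
      intro x hx
      have h2 : φ (c x) ≠ 0 := by
        rw [hcc, map_prod] at hφc
        exact Finset.prod_ne_zero_iff.1 hφc x hx
      have h3 := congrArg φ (hy x (hGJ x hx))
      rw [map_mul, map_mul, hφg, zero_mul, map_pow] at h3
      have hk : k x ≠ 0 := by
        intro h0
        rw [h0, pow_zero, mul_one] at h3
        exact h2 h3
      exact (pow_eq_zero_iff hk).1 ((mul_eq_zero.1 h3).resolve_left h2)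
    have h2 : J ≤ RingHom.ker φ := by
      rw [← hG, Ideal.span_le]
      intro x hx
      exact h1 x hx
    have h3 : (RingHom.ker φ).IsPrime := RingHom.ker_isPrime φ
    have h4 : (Finset.univ : Finset ι).inf (fun i => RingHom.ker (τ i)) ≤ RingHom.ker φ := by
      rw [Finset.inf_univ_eq_iInf]
      exact h2
    rw [Ideal.IsPrime.inf_le' h3] at h4
    obtain ⟨i, -, hi⟩ := h4
    exact ⟨i, fun x hx => hi hx⟩
  obtain ⟨C0, N0, hC0, hN0, g0⟩ := hbd cc hccS
  choose! x hx1 hx2 using hne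
  choose! C1 N1 hC1 hN1 g1 using fun i j : ι => fun hij : i ≠ j =>
    le_fac (τ i) (he i).le (hx2 i j hij)
  -- the main term
  have hmain := Asy.sum (Finset.univ : Finset ι)
    (fun i => (fun F _ _ => (Nat.card {φ : A →+* F // Fac (τ i) φ ∧ φ c₀ ≠ 0} : ℝ)))
    (e := e) (fun _ => 1) fun i _ => asy_fac (τ i) (hcl i) (he i) (hc₀ i)
  have h1 : ∑ i : ι, (1 : ℝ) = Fintype.card ι := by simp
  rw [h1] at hmain
  have hpair : ∀ p ∈ (Finset.univ : Finset (ι × ι)).filter (fun p => p.1 ≠ p.2), 0 ≤ C1 p.1 p.2 ∧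
      N1 p.1 p.2 ≠ 0 := fun p hp => ⟨hC1 _ _ (Finset.mem_filter.1 hp).2, hN1 _ _ (Finset.mem_filter.1 hp).2⟩
  refine hmain.near ⟨C0 + ∑ p ∈ (Finset.univ : Finset (ι × ι)).filter (fun p => p.1 ≠ p.2), C1 p.1 p.2,
    N0 * ∏ p ∈ (Finset.univ : Finset (ι × ι)).filter (fun p => p.1 ≠ p.2), N1 p.1 p.2,
    add_nonneg hC0 (Finset.sum_nonneg fun p hp => (hpair p hp).1),
    mul_ne_zero hN0 (Finset.prod_ne_zero_iff.2 fun p hp => (hpair p hp).2), ?_⟩
  intro F _ _ hF
  rw [Nat.cast_mul, Nat.cast_prod] at hF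
  have b0 := g0 F (left_ne_zero_of_mul hF)
  have b1 : ∀ p ∈ (Finset.univ : Finset (ι × ι)).filter (fun p => p.1 ≠ p.2),
      (Nat.card {φ : A →+* F // Fac (τ p.1) φ ∧ φ (x p.1 p.2) = 0} : ℝ) * Nat.card F ≤
        C1 p.1 p.2 * (Nat.card F : ℝ) ^ e := fun p hp =>
    g1 _ _ (Finset.mem_filter.1 hp).2 F (Finset.prod_ne_zero_iff.1 (right_ne_zero_of_mul hF) p hp)
  have hfin : Finite (A →+* F) := inferInstance
  let _ : Fintype (A →+* F) := Fintype.ofFinite _
  -- finsets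
  let U : Finset (A →+* F) := Finset.univ.filter fun φ => φ g = 0 ∧ φ c₀ ≠ 0
  let V : ι → Finset (A →+* F) := fun i => Finset.univ.filter fun φ => Fac (τ i) φ ∧ φ c₀ ≠ 0
  let W : Finset (A →+* F) := Finset.univ.filter fun φ => φ g = 0 ∧ φ c₀ ≠ 0 ∧ φ cc = 0
  let Z : ι × ι → Finset (A →+* F) := fun p =>
    Finset.univ.filter fun φ => Fac (τ p.1) φ ∧ φ (x p.1 p.2) = 0
  have cU : (Nat.card {φ : A →+* F // φ g = 0 ∧ φ c₀ ≠ 0} : ℝ) = U.card := by
    rw [Nat.card_eq_fintype_card, Fintype.card_subtype]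
  have cV : ∀ i, (Nat.card {φ : A →+* F // Fac (τ i) φ ∧ φ c₀ ≠ 0} : ℝ) = (V i).card := by
    intro i
    rw [Nat.card_eq_fintype_card, Fintype.card_subtype]
  have cW : (Nat.card {φ : A →+* F // φ g = 0 ∧ φ c₀ ≠ 0 ∧ φ cc = 0} : ℝ) = W.card := by
    rw [Nat.card_eq_fintype_card, Fintype.card_subtype]
  have cZ : ∀ p : ι × ι, (Nat.card {φ : A →+* F // Fac (τ p.1) φ ∧ φ (x p.1 p.2) = 0} : ℝ) =
      (Z p).card := by
    intro p
    rw [Nat.card_eq_fintype_card, Fintype.card_subtype]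
  rw [cU]
  simp only [cV]
  rw [cW] at b0
  have b1' : ∀ p ∈ (Finset.univ : Finset (ι × ι)).filter (fun p => p.1 ≠ p.2),
      ((Z p).card : ℝ) * Nat.card F ≤ C1 p.1 p.2 * (Nat.card F : ℝ) ^ e := by
    intro p hp
    rw [← cZ]
    exact b1 p hp
  have hVU : ∀ i, V i ⊆ U := by
    intro i φ hφ
    rw [Finset.mem_filter] at hφ ⊢
    exact ⟨hφ.1, hφ.2.1 g (hg i), hφ.2.2⟩
  have hUV : U ⊆ (Finset.univ.biUnion V) ∪ W := by
    intro φ hφ
    rw [Finset.mem_filter] at hφ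
    rw [Finset.mem_union]
    by_cases hc : φ cc = 0
    · right
      rw [Finset.mem_filter]
      exact ⟨hφ.1, hφ.2.1, hφ.2.2, hc⟩
    · left
      obtain ⟨i, hi⟩ := hfac F φ hφ.2.1 hc
      rw [Finset.mem_biUnion]
      exact ⟨i, Finset.mem_univ _, Finset.mem_filter.2 ⟨hφ.1, hi, hφ.2.2⟩⟩
  have up : (U.card : ℝ) ≤ ∑ i, ((V i).card : ℝ) + W.card := by
    have h2 := (Finset.card_le_card hUV).trans ((Finset.card_union_le _ _).trans
      (Nat.add_le_add_right Finset.card_biUnion_le _))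
    exact_mod_cast h2
  have lo : ∑ i, ((V i).card : ℝ) ≤ U.card +
      ∑ p ∈ (Finset.univ : Finset (ι × ι)).filter (fun p => p.1 ≠ p.2), ((Z p).card : ℝ) := by
    have h3 : ∀ i, V i ⊆ (V i).filter (fun φ => ∀ j, j ≠ i → φ ∉ V j) ∪
        (Finset.univ.filter (fun j : ι => i ≠ j)).biUnion (fun j => Z (i, j)) := by
      intro i φ hφ
      rw [Finset.mem_union, Finset.mem_filter, Finset.mem_biUnion]
      by_cases hc : ∀ j, j ≠ i → φ ∉ V j
      · exact Or.inl ⟨hφ, hc⟩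
      · right
        push Not at hc
        obtain ⟨j, hj, hφj⟩ := hc
        refine ⟨j, Finset.mem_filter.2 ⟨Finset.mem_univ _, Ne.symm hj⟩, ?_⟩
        have h5 := (Finset.mem_filter.1 hφ).2.1
        have h6 := (Finset.mem_filter.1 hφj).2.1
        exact Finset.mem_filter.2 ⟨Finset.mem_univ _, h5, h6 _ (hx1 i j (Ne.symm hj))⟩
    have h4 : ∀ i, (V i).card ≤ ((V i).filter (fun φ => ∀ j, j ≠ i → φ ∉ V j)).card +
        ∑ j ∈ Finset.univ.filter (fun j : ι => i ≠ j), (Z (i, j)).card := fun i =>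
      (Finset.card_le_card (h3 i)).trans ((Finset.card_union_le _ _).trans
        (Nat.add_le_add_left Finset.card_biUnion_le _))
    have h5 : ∑ i, ((V i).filter (fun φ => ∀ j, j ≠ i → φ ∉ V j)).card ≤ U.card := by
      rw [← Finset.card_biUnion]
      · refine Finset.card_le_card ?_
        intro φ hφ
        rw [Finset.mem_biUnion] at hφ
        obtain ⟨i, -, hi⟩ := hφ
        exact hVU i (Finset.mem_filter.1 hi).1
      · intro i _ j _ hij
        rw [Function.onFun, Finset.disjoint_left]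
        intro φ h6 h7
        exact (Finset.mem_filter.1 h6).2 j (Ne.symm hij) (Finset.mem_filter.1 h7).1
    have h6 : ∑ i, ∑ j ∈ Finset.univ.filter (fun j : ι => i ≠ j), (Z (i, j)).card =
        ∑ p ∈ (Finset.univ : Finset (ι × ι)).filter (fun p => p.1 ≠ p.2), (Z p).card := by
      rw [Finset.sum_filter, ← Finset.univ_product_univ, Finset.sum_product]
      refine Finset.sum_congr rfl fun i _ => ?_
      rw [Finset.sum_filter]
    have h7 : ∑ i, (V i).card ≤ U.card +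
        ∑ p ∈ (Finset.univ : Finset (ι × ι)).filter (fun p => p.1 ≠ p.2), (Z p).card := by
      rw [← h6]
      calc ∑ i, (V i).card ≤ ∑ i, (((V i).filter (fun φ => ∀ j, j ≠ i → φ ∉ V j)).card +
            ∑ j ∈ Finset.univ.filter (fun j : ι => i ≠ j), (Z (i, j)).card) :=
            Finset.sum_le_sum fun i _ => h4 i
        _ ≤ _ := by
            rw [Finset.sum_add_distrib]
            exact Nat.add_le_add_right h5 _
    exact_mod_cast h7
  set q : ℝ := (Nat.card F : ℝ) with hq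
  have hq1 : (1 : ℝ) ≤ q := by
    rw [hq]
    exact_mod_cast Nat.card_pos
  have hsq : √q ≤ q := by
    rw [Real.sqrt_le_left (by linarith)]
    nlinarith
  have hs0 : 0 ≤ √q := Real.sqrt_nonneg _
  have hZ0 : (0 : ℝ) ≤ ∑ p ∈ (Finset.univ : Finset (ι × ι)).filter (fun p => p.1 ≠ p.2),
      ((Z p).card : ℝ) := Finset.sum_nonneg fun p _ => Nat.cast_nonneg _
  have habs : |(U.card : ℝ) - ∑ i, ((V i).card : ℝ)| ≤ W.card +
      ∑ p ∈ (Finset.univ : Finset (ι × ι)).filter (fun p => p.1 ≠ p.2), ((Z p).card : ℝ) := by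
    rw [abs_le]
    have : (0 : ℝ) ≤ W.card := Nat.cast_nonneg _
    constructor <;> linarith
  calc |(U.card : ℝ) - ∑ i, ((V i).card : ℝ)| * √q ≤ (W.card +
      ∑ p ∈ (Finset.univ : Finset (ι × ι)).filter (fun p => p.1 ≠ p.2), ((Z p).card : ℝ)) * q :=
        mul_le_mul habs hsq hs0 (add_nonneg (Nat.cast_nonneg _) hZ0)
    _ ≤ _ := by
        rw [add_mul, add_mul, Finset.sum_mul, Finset.sum_mul]
        exact add_le_add b0 (Finset.sum_le_sum b1')

end

end Pool.Agent.K6.H86.NP
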