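import Pool.Agent.K6.H86.NP.Gh

/-!
# A convenient model
-/

set_option autoImplicit false
set_option linter.all false

open Polynomial FF NumberField

namespace Pool.Agent.K6.H86.NP

open Pool.Agent.R410.LW (ev ev_C ev_X ev_eq ev_eq' FG)

section
variable {K L : Type} [Field K] [Field L] [Algebra K L]

theorem int_of_poly {v z : L} {p : K[X][X]} (hp : p.Monic)
    (h : ev (algebraMap K L) (v, z) p = 0) : IsIntegral (Algebra.adjoin K ({v} : Set L)) z := by
  let j : K[X] →+* Algebra.adjoin K ({v} : Set L) :=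
    (aeval (⟨v, Algebra.self_mem_adjoin_singleton K v⟩ : Algebra.adjoin K ({v} : Set L)) :
      K[X] →ₐ[K] Algebra.adjoin K ({v} : Set L))
  have hj : ∀ p : K[X], ((j p : Algebra.adjoin K ({v} : Set L)) : L) =
      eval₂ (algebraMap K L) v p := by
    intro p
    have h1 : ((Algebra.adjoin K ({v} : Set L)).val : Algebra.adjoin K ({v} : Set L) →+* L).comp j =
        eval₂RingHom (algebraMap K L) v := by
      apply Polynomial.ringHom_ext
      · intro c
        rw [RingHom.comp_apply, coe_eval₂RingHom, eval₂_C]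
        show (((aeval (⟨v, Algebra.self_mem_adjoin_singleton K v⟩ :
          Algebra.adjoin K ({v} : Set L)) (C c) : Algebra.adjoin K ({v} : Set L))) : L) = _
        rw [aeval_C]
        rfl
      · rw [RingHom.comp_apply, coe_eval₂RingHom, eval₂_X]
        show (((aeval (⟨v, Algebra.self_mem_adjoin_singleton K v⟩ :
          Algebra.adjoin K ({v} : Set L)) (X : K[X]) : Algebra.adjoin K ({v} : Set L))) : L) = _
        rw [aeval_X]
    exact congrArg (fun g => g p) h1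
  refine ⟨p.map j, hp.map j, ?_⟩
  have h1 : ev (algebraMap K L) (v, z) p =
      eval₂ (algebraMap (Algebra.adjoin K ({v} : Set L)) L) z (p.map j) := by
    rw [eval₂_map]
    unfold ev
    rw [coe_eval₂RingHom]
    congr 1
    apply RingHom.ext
    intro q
    exact (hj q).symm
  rw [← h1]
  exact h

/-- the elements of `AD R v G` are integral -/
theorem AD_int {R : Subring L} (hR : ∀ x ∈ R, x ∈ Set.range (algebraMap K L)) {v : L} {G : Finset L}
    (hG : ∀ g ∈ G, IsIntegral (Algebra.adjoin K ({v} : Set L)) g) {z : L} (hz : z ∈ AD R v G) :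
    IsIntegral (Algebra.adjoin K ({v} : Set L)) z := by
  have h1 : AD R v G ≤ (integralClosure (Algebra.adjoin K ({v} : Set L)) L).toSubring := by
    refine AD_le ?_ ?_ ?_
    · intro x hx
      obtain ⟨c, rfl⟩ := hR x hx
      have h5 : algebraMap K L c = algebraMap (Algebra.adjoin K ({v} : Set L)) L
        (algebraMap K (Algebra.adjoin K ({v} : Set L)) c) := rfl
      rw [h5]
      exact isIntegral_algebraMap
    · have : v = algebraMap (Algebra.adjoin K ({v} : Set L)) L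
        ⟨v, Algebra.self_mem_adjoin_singleton K v⟩ := rfl
      rw [this]
      exact isIntegral_algebraMap
    · exact hG
  exact h1 hz

theorem int_const_mul {v c z : L} (hc : c ∈ Set.range (algebraMap K L)) (hc0 : c ≠ 0)
    (hz : IsIntegral (Algebra.adjoin K ({v} : Set L)) (c * z)) :
    IsIntegral (Algebra.adjoin K ({v} : Set L)) z := by
  obtain ⟨c, rfl⟩ := hc
  have h4 : z = algebraMap K L c⁻¹ * (algebraMap K L c * z) := by
    rw [← mul_assoc, ← map_mul, inv_mul_cancel₀ (by rintro rfl; exact hc0 (map_zero _)), map_one,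
      one_mul]
  rw [h4]
  refine IsIntegral.mul ?_ hz
  have h5 : algebraMap K L c⁻¹ = algebraMap (Algebra.adjoin K ({v} : Set L)) L
    (algebraMap K (Algebra.adjoin K ({v} : Set L)) c⁻¹) := rfl
  rw [h5]
  exact isIntegral_algebraMap

end

/-- The data of a convenient model. -/
structure Cnv (M K : Type) {L : Type} [Field M] [Field K] [Field L] [Algebra K L] [Algebra M L]
    {s t : ℕ} (a : Fin s → L) (w : Fin t → L) (u : L) (R₀ R A₁ A₂ : Subring L)
    (θ g h n t₀ c' : L) (G₁ G₂ : Finset L) (f : R[X][X]) (b₀ : R[X]) : Prop where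
  fg0 : FGr R₀
  r0M : ∀ x ∈ R₀, x ∈ Set.range (algebraMap M L)
  fr0 : ∀ x ∈ (algebraMap M L).range, ∃ c ∈ R₀, c ≠ 0 ∧ c * x ∈ R₀
  fr1 : ∀ x ∈ (algebraMap K L).range, ∃ c ∈ PP R₀ w, c ≠ 0 ∧ c * x ∈ PP R₀ w
  hn : n ∈ PP R₀ w
  hn0 : n ≠ 0
  hR : R = locS (PP R₀ w) hn
  hA₁ : A₁ = AD R u G₁
  hA₂ : A₂ = AD R u⁻¹ G₂
  hθ : θ ∈ G₁
  int₁ : ∀ z ∈ G₁, ∃ p : R[X][X], p.Monic ∧ EL R u z p = 0
  int₂ : ∀ z ∈ G₂, ∃ p : R[X][X], p.Monic ∧ EL R u⁻¹ z p = 0
  mdl : IsModel K u R A₁ A₂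
  hg : g ∈ CC (PP R₀ w) u θ
  hh : h ∈ PP R₀ a
  hg0 : g ≠ 0
  hh0 : h ≠ 0
  loc : locS (CC (PP R₀ w) u θ) hg = locS (PP R₀ a) hh
  hG₁ : ∀ z ∈ G₁, z ∈ locS (CC (PP R₀ w) u θ) hg
  fm : f.Monic
  f0 : 0 < f.natDegree
  fker : ∀ p, EL R u θ p = 0 ↔ f ∣ p
  fkerK : ∀ p : K[X][X], ev (algebraMap K L) (u, θ) p = 0 ↔
    f.map (mapRingHom (toK R mdl.le_K)) ∣ p
  hc' : c' ∈ CC R u θ
  hgb : g * c' = eval₂ R.subtype u b₀
  ht₀ : t₀ ∈ R
  ht₀0 : t₀ ≠ 0
  good : ∀ s ∈ R, Good R A₁ A₂ u (t₀ * s)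
  irr : ∀ (F : Type) [Field F] (φ : R →+* F), (∀ h : t₀ ∈ R, φ ⟨t₀, h⟩ ≠ 0) →
    Irreducible (f.map (mapRingHom φ)) ∧ φ b₀.leadingCoeff ≠ 0

section
variable {M K L : Type} [Field M] [CharZero M] [Field K] [CharZero K] [Field L] [Algebra M K]
  [Algebra K L] [Algebra M L] [IsScalarTower M K L] [IsFF K L]

/-- **The existence of a convenient model.** -/
theorem exists_cnv {k : Type} [Field k] [NumberField k] (hM : FG M) (ρ : 𝓞 k →+* L)
    (hρ : ∀ o, ρ o ∈ Set.range (algebraMap M L)) {s t : ℕ} {a : Fin s → L}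
    (ha : IntermediateField.adjoin M (Set.range a) = ⊤) {wK : Fin t → K}
    (hw : IntermediateField.adjoin M (Set.range wK) = ⊤)
    (hKL : ∀ x : L, IsAlgebraic K x → x ∈ Set.range (algebraMap K L)) {u : L}
    (hu : Transcendental K u) :
    ∃ (R₀ R A₁ A₂ : Subring L) (θ g h n t₀ c' : L) (G₁ G₂ : Finset L) (f : R[X][X]) (b₀ : R[X]),
      Cnv M K a (fun i => algebraMap K L (wK i)) u R₀ R A₁ A₂ θ g h n t₀ c' G₁ G₂ f b₀ ∧
      ∀ o, ρ o ∈ R₀ := by
  classical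
  obtain ⟨R₀, fg0, r0M, fr0, hρ0⟩ := exists_R0 hM ρ hρ
  set w : Fin t → L := fun i => algebraMap K L (wK i) with hw'
  have hMK : ∀ x ∈ (algebraMap M L).range, x ∈ (algebraMap K L).range := by
    rintro _ ⟨c, rfl⟩
    exact ⟨algebraMap M K c, (IsScalarTower.algebraMap_apply M K L c).symm⟩
  have hR₁K : PP R₀ w ≤ (algebraMap K L).range :=
    PP_le (fun x hx => hMK x (r0M x hx)) fun i => ⟨wK i, rfl⟩
  have fr1 : ∀ x ∈ (algebraMap K L).range, ∃ c ∈ PP R₀ w, c ≠ 0 ∧ c * x ∈ PP R₀ w := by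
    rintro _ ⟨x, rfl⟩
    obtain ⟨S, T, hT, hx⟩ := frac_of_gen hw x
    have key : ∀ S : MvPolynomial (Fin t) M,
        algebraMap K L (MvPolynomial.aeval wK S) ∈ PP (algebraMap M L).range w := by
      intro S
      induction S using MvPolynomial.induction_on with
      | C c =>
        rw [MvPolynomial.aeval_C]
        exact le_PP _ w ⟨c, IsScalarTower.algebraMap_apply M K L c⟩
      | add p q hp hq => rw [map_add, map_add]; exact add_mem hp hq
      | mul_X p i hp =>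
        rw [map_mul, map_mul, MvPolynomial.aeval_X]
        exact mul_mem hp (x_mem_PP _ w i)
    obtain ⟨c, hc, hc0, hcT⟩ := spread_PP fr0 (key T)
    obtain ⟨c', hc', hc'0, hcS⟩ := spread_PP fr0 (key S)
    have hT' : algebraMap K L (MvPolynomial.aeval wK T) ≠ 0 :=
      (map_ne_zero_iff _ (algebraMap K L).injective).2 hT
    refine ⟨c * c' * algebraMap K L (MvPolynomial.aeval wK T), ?_,
      mul_ne_zero (mul_ne_zero hc0 hc'0) hT', ?_⟩
    · have : c * c' * algebraMap K L (MvPolynomial.aeval wK T) =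
        c' * (c * algebraMap K L (MvPolynomial.aeval wK T)) := by ring
      rw [this]
      exact Subring.mul_mem _ (le_PP R₀ w hc') hcT
    · have : c * c' * algebraMap K L (MvPolynomial.aeval wK T) * algebraMap K L x =
          c * (c' * algebraMap K L (MvPolynomial.aeval wK S)) := by
        rw [hx, map_div₀]
        field_simp
      rw [this]
      exact Subring.mul_mem _ (le_PP R₀ w hc) hcS
  obtain ⟨θ, fK, Om, iOm, hOm, aOm, fKm, fK0, fKirr, fKker, hθgen⟩ := theta_poly hKL hu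
  have hui : Transcendental K u⁻¹ := fun h => hu (by simpa using h.inv)
  obtain ⟨Z₁, hZ₁, hZ₁g⟩ := gen_int hu
  obtain ⟨Z₂, hZ₂, hZ₂g⟩ := gen_int hui
  have hfKθ : ev (algebraMap K L) (u, θ) fK = 0 := (fKker fK).2 dvd_rfl
  have hθint : IsIntegral (Algebra.adjoin K ({u} : Set L)) θ := int_of_poly fKm hfKθ
  obtain ⟨g, h, hg, hh, hg0, hh0, hloc, hGl⟩ := exists_gh fr0 ha fr1 hθgen (Z₁ ∪ {θ})
  obtain ⟨bK, c', hbK, hc', hgc⟩ := exists_norm hu fKm hfKθ (CC_mono hR₁K u θ hg) hg0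
  obtain ⟨c₁, hc₁, hc₁0, hc₁c⟩ := spread_CC fr1 hc'
  have ex1 : ∀ z, ∃ p : K[X][X], z ∈ Z₁ → p.Monic ∧ ev (algebraMap K L) (u, z) p = 0 := by
    intro z
    by_cases hz : z ∈ Z₁
    · obtain ⟨p, hp⟩ := int_poly (hZ₁ z hz)
      exact ⟨p, fun _ => hp⟩
    · exact ⟨0, fun h => (hz h).elim⟩
  have ex2 : ∀ z, ∃ p : K[X][X], z ∈ Z₂ → p.Monic ∧ ev (algebraMap K L) (u⁻¹, z) p = 0 := by
    intro z
    by_cases hz : z ∈ Z₂
    · obtain ⟨p, hp⟩ := int_poly (hZ₂ z hz)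
      exact ⟨p, fun _ => hp⟩
    · exact ⟨0, fun h => (hz h).elim⟩
  choose p₁ hp₁ using ex1
  choose p₂ hp₂ using ex2
  obtain ⟨n₀, hn₀, hn₀0, hn₀c⟩ := coef_den fr1 ({fK, C bK} ∪ Z₁.image p₁ ∪ Z₂.image p₂)
  have hn : n₀ * c₁ ∈ PP R₀ w := Subring.mul_mem _ hn₀ hc₁
  have hn0 : n₀ * c₁ ≠ 0 := mul_ne_zero hn₀0 hc₁0
  obtain ⟨R, hR⟩ : ∃ R, R = locS (PP R₀ w) hn := ⟨_, rfl⟩
  have hR₁R : PP R₀ w ≤ R := by rw [hR]; exact le_locS hn
  have hRK : ∀ x ∈ R, x ∈ Set.range (algebraMap K L) := by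
    have h1 : R ≤ (algebraMap K L).range := by
      rw [hR]
      refine locS_le hn hn0 hR₁K ?_
      obtain ⟨c, hc⟩ := hR₁K hn
      rw [← hc, ← map_inv₀]
      exact ⟨_, rfl⟩
    exact fun x hx => h1 hx
  have hc₁i : c₁⁻¹ ∈ R := by
    rw [hR]
    exact inv_mem_of_dvd (a := n₀ * c₁) (b := c₁) (c := n₀) (by ring) hn0 (inv_mem_locS hn)
      (le_locS hn hn₀)
  have hcf : ∀ p ∈ ({fK, C bK} ∪ Z₁.image p₁ ∪ Z₂.image p₂ : Finset K[X][X]), ∀ i j,
      algebraMap K L ((p.coeff i).coeff j) ∈ R := by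
    intro p hp i j
    rw [hR]
    refine ⟨1, ?_⟩
    have : (n₀ * c₁) ^ 1 * algebraMap K L ((p.coeff i).coeff j) =
      c₁ * (n₀ * algebraMap K L ((p.coeff i).coeff j)) := by ring
    rw [this]
    exact Subring.mul_mem _ hc₁ (hn₀c p hp i j)
  have hTi := toK_injective R hRK
  have hTi2 : Function.Injective (mapRingHom (toK R hRK)) := Polynomial.map_injective _ hTi
  obtain ⟨f, hf⟩ := lift2 hRK fK (hcf fK (by simp))
  obtain ⟨b₀, hb₀⟩ := lift1 hRK bK (by
    intro j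
    have := hcf (C bK) (by simp) 0 j
    rwa [coeff_C_zero] at this)
  have fm : f.Monic := Polynomial.monic_of_injective hTi2 (by rw [hf]; exact fKm)
  have f0 : 0 < f.natDegree := by
    rw [← Polynomial.natDegree_map_eq_of_injective hTi2, hf]
    exact fK0
  have fker : ∀ p, EL R u θ p = 0 ↔ f ∣ p := by
    intro p
    rw [EL_toK hRK, fKker, ← hf, Polynomial.map_dvd_map _ hTi2 fm]
  have firr : Irreducible (f.map (mapRingHom ((algebraMap K Om).comp (toK R hRK)))) := by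
    rw [← mapRingHom_comp, ← Polynomial.map_map, hf]
    exact fKirr
  have hb₀0 : b₀ ≠ 0 := by
    rintro rfl
    rw [Polynomial.map_zero] at hb₀
    exact hbK hb₀.symm
  have hc'R : c' ∈ CC R u θ := by
    have h1 : c' = c₁⁻¹ * (c₁ * c') := by
      rw [← mul_assoc, inv_mul_cancel₀ hc₁0, one_mul]
    rw [h1]
    exact Subring.mul_mem _ (le_CC R u θ hc₁i) (CC_mono hR₁R u θ hc₁c)
  have hgb : g * c' = eval₂ R.subtype u b₀ := by
    rw [eval_toK hRK, hb₀]
    exact hgc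
  have hfrR : ∀ x ∈ (algebraMap K L).range, ∃ c ∈ R, c ≠ 0 ∧ c * x ∈ R := by
    intro x hx
    obtain ⟨c, hc, hc0, hcx⟩ := fr1 x hx
    exact ⟨c, hR₁R hc, hc0, hR₁R hcx⟩
  -- the integral equations
  have int₁ : ∀ z ∈ Z₁ ∪ {θ}, ∃ p : R[X][X], p.Monic ∧ EL R u z p = 0 := by
    intro z hz
    rcases Finset.mem_union.1 hz with hz | hz
    · obtain ⟨q, hq⟩ := lift2 hRK (p₁ z) (hcf (p₁ z) (by
        refine Finset.mem_union_left _ (Finset.mem_union_right _ (Finset.mem_image_of_mem _ hz))))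
      refine ⟨q, Polynomial.monic_of_injective hTi2 (by rw [hq]; exact (hp₁ z hz).1), ?_⟩
      rw [EL_toK hRK, hq]
      exact (hp₁ z hz).2
    · rw [Finset.mem_singleton] at hz
      subst hz
      exact ⟨f, fm, (fker f).2 dvd_rfl⟩
  have int₂ : ∀ z ∈ Z₂, ∃ p : R[X][X], p.Monic ∧ EL R u⁻¹ z p = 0 := by
    intro z hz
    obtain ⟨q, hq⟩ := lift2 hRK (p₂ z) (hcf (p₂ z) (by
      refine Finset.mem_union_right _ (Finset.mem_image_of_mem _ hz)))
    refine ⟨q, Polynomial.monic_of_injective hTi2 (by rw [hq]; exact (hp₂ z hz).1), ?_⟩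
    rw [EL_toK hRK, hq]
    exact (hp₂ z hz).2
  have fgR : FGr R := by
    rw [hR]
    exact (fg_PP fg0 w).locS hn hn0
  have hG₁int : ∀ z ∈ Z₁ ∪ {θ}, IsIntegral (Algebra.adjoin K ({u} : Set L)) z := by
    intro z hz
    rcases Finset.mem_union.1 hz with hz | hz
    · exact hZ₁ z hz
    · rw [Finset.mem_singleton] at hz
      rw [hz]
      exact hθint
  have frac : ∀ x : K, ∃ a ∈ R, ∃ b ∈ R, b ≠ 0 ∧ algebraMap K L x = a / b := by
    intro x
    obtain ⟨c, hc, hc0, hcx⟩ := hfrR _ ⟨x, rfl⟩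
    exact ⟨_, hcx, c, hc, hc0, by rw [mul_div_cancel_left₀ _ hc0]⟩
  have mdl : IsModel K u R (AD R u (Z₁ ∪ {θ})) (AD R u⁻¹ Z₂) :=
    { fgR := fgR
      fg₁ := fg_AD fgR u _
      fg₂ := fg_AD fgR u⁻¹ _
      le₁ := le_AD R u _
      le₂ := le_AD R u⁻¹ _
      le_K := hRK
      frac := frac
      mem₁ := v_mem_AD R u _
      mem₂ := v_mem_AD R u⁻¹ _
      int₁ := by
        intro z
        constructor
        · intro hz
          have h1 := hZ₁g z hz
          have h2 : AD (algebraMap K L).range u Z₁ ≤ AD (algebraMap K L).range u (Z₁ ∪ {θ}) :=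
            AD_le (le_AD _ u _) (v_mem_AD _ u _) fun x hx =>
              g_mem_AD _ u (Finset.mem_union_left _ hx)
          exact spread_AD hfrR (h2 h1)
        · rintro ⟨r, hr, hr0, hrz⟩
          exact int_const_mul (hRK r hr) hr0 (AD_int hRK hG₁int hrz)
      int₂ := by
        intro z
        constructor
        · intro hz
          exact spread_AD hfrR (hZ₂g z hz)
        · rintro ⟨r, hr, hr0, hrz⟩
          exact int_const_mul (hRK r hr) hr0 (AD_int hRK hZ₂ hrz) }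
  have hgR : g ∈ CC R u θ := CC_mono hR₁R u θ hg
  have hAloc : AD R u (Z₁ ∪ {θ}) ≤ locS (CC R u θ) hgR := by
    refine AD_le ((le_CC R u θ).trans (le_locS hgR)) (le_locS hgR (u_mem_CC R u θ)) fun z hz => ?_
    obtain ⟨m, hm⟩ := hGl z hz
    exact ⟨m, CC_mono hR₁R u θ hm⟩
  obtain ⟨t₀, ht₀, ht₀0, good, irr⟩ := good_of fgR hRK frac fm f0 firr fker
    (g_mem_AD R u (Finset.mem_union_right _ (Finset.mem_singleton_self θ))) (le_AD R u _)
    (le_AD R u⁻¹ _) (v_mem_AD R u _) (v_mem_AD R u⁻¹ _) (Z₁ ∪ {θ}) Z₂ rfl int₁ rfl int₂ hgR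
    (fun b hb => hAloc hb) b₀ hb₀0 hc'R hgb
  exact ⟨R₀, R, AD R u (Z₁ ∪ {θ}), AD R u⁻¹ Z₂, θ, g, h, n₀ * c₁, t₀, c', Z₁ ∪ {θ}, Z₂, f, b₀,
    ⟨fg0, r0M, fr0, fr1, hn, hn0, hR, rfl, rfl, Finset.mem_union_right _ (Finset.mem_singleton_self θ),
      int₁, int₂, mdl, hg, hh, hg0, hh0, hloc, hGl, fm, f0, fker, fun p => by rw [fKker, hf], hc'R,
      hgb, ht₀, ht₀0, good, irr⟩,
    hρ0⟩

end

end Pool.Agent.K6.H86.NP
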