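import Pool.Agent.K6.H86.NP.Wei

/-!
# Primes of the base which stay prime
-/

set_option autoImplicit false
set_option linter.all false

open Polynomial

namespace Pool.Agent.K6.H86.NP

open Pool.Agent.R410.LW (ev ev_C ev_X ev_eq ev_eq')

section
variable {L : Type} [Field L]

/-- elements of a localization of a subring: products with integral powers -/
theorem locS_mono {A B : Subring L} {a b : L} (ha : a ∈ A) (hb : b ∈ B) (hAB : A ≤ B) (ha0 : a ≠ 0)
    (h : a⁻¹ ∈ locS B hb) : locS A ha ≤ locS B hb :=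
  locS_le ha ha0 (hAB.trans (le_locS hb)) h

theorem exists_pi {A : Type} [CommRing A] [IsDomain A] {f : A} (hf : Prime f) :
    ∃ (Γ : Type) (_ : Field Γ) (π : A →+* Γ), ∀ x, π x = 0 ↔ f ∣ x := by
  have hpr : (Ideal.span {f}).IsPrime := (Ideal.span_singleton_prime hf.ne_zero).2 hf
  have hdom : IsDomain (A ⧸ Ideal.span {f}) := (Ideal.Quotient.isDomain_iff_prime _).2 hpr
  refine ⟨FractionRing (A ⧸ Ideal.span {f}), inferInstance,
    (algebraMap (A ⧸ Ideal.span {f}) (FractionRing (A ⧸ Ideal.span {f}))).comp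
      (Ideal.Quotient.mk (Ideal.span {f})), fun x => ?_⟩
  rw [RingHom.comp_apply, ← Ideal.mem_span_singleton, ← Ideal.Quotient.eq_zero_iff_mem]
  constructor
  · intro h
    exact IsFractionRing.injective _ (FractionRing (A ⧸ Ideal.span {f})) (h.trans (map_zero _).symm)
  · intro h
    rw [h, map_zero]

/-- **Primes which stay prime.** -/
theorem prime_ext {R : Subring L} {u θ : L} {f : R[X][X]} (hf : f.Monic) (hf0 : 0 < f.natDegree)
    (hker : ∀ p, EL R u θ p = 0 ↔ f ∣ p) {Kr : Type} [Field Kr] (φ : R →+* Kr)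
    (hirr : Irreducible (f.map (mapRingHom φ))) {p : L} (hp : p ∈ R)
    (hφ : ∀ x (hx : x ∈ R), φ ⟨x, hx⟩ = 0 ↔ ∃ y ∈ R, x = p * y) {g c' : L} (hg : g ∈ CC R u θ)
    (hg0 : g ≠ 0) (hc' : c' ∈ CC R u θ) (b₀ : R[X]) (hgb : g * c' = eval₂ R.subtype u b₀)
    (hb₀ : b₀.map φ ≠ 0) :
    (∀ x ∈ locS (CC R u θ) hg, ∀ y ∈ locS (CC R u θ) hg,
      (∃ z ∈ locS (CC R u θ) hg, x * y = p * z) →
      (∃ z ∈ locS (CC R u θ) hg, x = p * z) ∨ (∃ z ∈ locS (CC R u θ) hg, y = p * z)) ∧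
    ∀ s (hs : s ∈ R), (∃ z ∈ locS (CC R u θ) hg, s = p * z) → ∃ y ∈ R, s = p * y := by
  classical
  set fφ := f.map (mapRingHom φ) with hfφ
  have hprime : Prime fφ := hirr.prime
  have hfm : fφ.Monic := hf.map _
  have hfd : fφ.natDegree = f.natDegree := hf.natDegree_map _
  obtain ⟨Γ, iΓ, π₀, hπ₀⟩ := exists_pi hprime
  let π := π₀.comp (mapRingHom (mapRingHom φ))
  have hπ : ∀ P : R[X][X], π P = 0 ↔ fφ ∣ P.map (mapRingHom φ) := fun P => hπ₀ _
  have hle0 : ∀ P : R[X][X], toCC R u θ P = 0 → π P = 0 := by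
    intro P hP
    have hP' : EL R u θ P = 0 := congrArg Subtype.val hP
    rw [hker] at hP'
    obtain ⟨c, rfl⟩ := hP'
    rw [hπ, Polynomial.map_mul]
    exact dvd_mul_right _ _
  obtain ⟨χ, hχ⟩ : ∃ χ : CC R u θ →+* Γ, ∀ P, χ (toCC R u θ P) = π P := by
    refine lift_exists (toCC R u θ) (toCC_surjective R u θ) π ?_
    exact hle0
  -- the kernel
  have hkerχ : ∀ x : CC R u θ, χ x = 0 → ∃ z ∈ CC R u θ, (x : L) = p * z := by
    intro x hx
    obtain ⟨P, rfl⟩ := toCC_surjective R u θ x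
    have h1 : EL R u θ P = EL R u θ (P %ₘ f) := by
      have h2 := congrArg (EL R u θ) (modByMonic_add_div P f)
      rw [map_add, map_mul, (hker f).2 dvd_rfl, zero_mul, add_zero] at h2
      exact h2.symm
    rw [hχ, hπ] at hx
    have h2 : (P %ₘ f).map (mapRingHom φ) = 0 := by
      have h3 : fφ ∣ (P %ₘ f).map (mapRingHom φ) := by
        have h4 := congrArg (Polynomial.map (mapRingHom φ)) (modByMonic_add_div P f)
        rw [Polynomial.map_add, Polynomial.map_mul] at h4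
        rw [← h4] at hx
        exact (dvd_add_left (dvd_mul_right _ _)).1 hx
      by_contra hne
      have h4 := natDegree_le_of_dvd h3 hne
      have h5 : ((P %ₘ f).map (mapRingHom φ)).natDegree ≤ (P %ₘ f).natDegree := natDegree_map_le
      have h6 : (P %ₘ f).natDegree < f.natDegree := natDegree_modByMonic_lt P hf (by
        rintro rfl
        rw [natDegree_one] at hf0
        exact lt_irrefl _ hf0)
      rw [hfd] at h4
      omega
    -- all the coefficients are divisible by `p`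
    have h3 : ∀ Q : R[X][X], Q.map (mapRingHom φ) = 0 → ∃ z ∈ CC R u θ, EL R u θ Q = p * z := by
      intro Q hQ
      have h4 : ∀ q : R[X], q.map φ = 0 → ∃ z ∈ CC R u θ, eval₂ R.subtype u q = p * z := by
        intro q hq
        have h5 : ∀ i, ∃ y ∈ R, ((q.coeff i : R) : L) = p * y := by
          intro i
          rw [← hφ _ (q.coeff i).2]
          have := congrArg (fun p => p.coeff i) hq
          simpa [coeff_map] using this
        choose y hy hyp using h5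
        refine ⟨∑ i ∈ q.support, y i * u ^ i, Subring.sum_mem _ fun i _ =>
          Subring.mul_mem _ (le_CC R u θ (hy i)) (Subring.pow_mem _ (u_mem_CC R u θ) _), ?_⟩
        rw [eval₂_eq_sum, sum_def, Finset.mul_sum]
        refine Finset.sum_congr rfl fun i _ => ?_
        show ((q.coeff i : R) : L) * u ^ i = _
        rw [hyp i]
        ring
      have h5 : ∀ i, ∃ z ∈ CC R u θ, eval₂ R.subtype u (Q.coeff i) = p * z := by
        intro i
        apply h4
        have := congrArg (fun p => p.coeff i) hQ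
        simpa [coeff_map] using this
      choose y hy hyp using h5
      refine ⟨∑ i ∈ Q.support, y i * θ ^ i, Subring.sum_mem _ fun i _ =>
        Subring.mul_mem _ (hy i) (Subring.pow_mem _ (t_mem_CC R u θ) _), ?_⟩
      have h6 : EL R u θ Q = Q.sum fun i q => eval₂ R.subtype u q * θ ^ i := by
        unfold EL ev
        rw [coe_eval₂RingHom, eval₂_eq_sum]
        rfl
      rw [h6, sum_def, Finset.mul_sum]
      refine Finset.sum_congr rfl fun i _ => ?_
      rw [hyp i]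
      ring
    obtain ⟨z, hz, hz'⟩ := h3 _ h2
    exact ⟨z, hz, by rw [toCC_apply, h1, hz']⟩
  have hχR : ∀ (q : R[X]) (h : eval₂ R.subtype u q ∈ CC R u θ), χ ⟨_, h⟩ = 0 → q.map φ = 0 := by
    intro q h h1
    have h2 : (⟨eval₂ R.subtype u q, h⟩ : CC R u θ) = toCC R u θ (C q) := Subtype.ext (EL_C R u θ q).symm
    rw [h2, hχ, hπ, Polynomial.map_C] at h1
    by_contra hne
    have h3 : (C (q.map φ) : Kr[X][X]) ≠ 0 := C_ne_zero.2 hne
    have h4 := natDegree_le_of_dvd h1 h3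
    rw [hfd, natDegree_C] at h4
    omega
  have hgχ : χ ⟨g, hg⟩ ≠ 0 := by
    intro h0
    have h1 : eval₂ R.subtype u b₀ ∈ CC R u θ := eval_mem (le_CC R u θ) (u_mem_CC R u θ) _
    refine hb₀ (hχR b₀ h1 ?_)
    have h2 : (⟨eval₂ R.subtype u b₀, h1⟩ : CC R u θ) = ⟨g, hg⟩ * ⟨c', hc'⟩ := Subtype.ext hgb.symm
    rw [h2, map_mul, h0, zero_mul]
  -- the extension
  let E := locS (CC R u θ) hg
  let χE : E →+* Γ := extHom hg (fun b hb => hb) χ hgχ
  have hχE : ∀ x (h1 : x ∈ CC R u θ) (h2 : x ∈ E), χE ⟨x, h2⟩ = χ ⟨x, h1⟩ :=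
    extHom_agr hg (fun b hb => hb) χ hgχ
  have hpE : p ∈ E := le_locS hg (le_CC R u θ hp)
  have hkerE : ∀ x : E, χE x = 0 → ∃ z ∈ E, (x : L) = p * z := by
    rintro ⟨x, n, hn⟩ hx
    have h1 : χ ⟨_, hn⟩ = 0 := by
      rw [← hχE _ hn (le_locS hg hn)]
      have h2 : (⟨g ^ n * x, le_locS hg hn⟩ : E) = ⟨g ^ n, le_locS hg (Subring.pow_mem _ hg n)⟩ *
        ⟨x, n, hn⟩ := rfl
      rw [h2, map_mul, hx, mul_zero]
    obtain ⟨z, hz, hz'⟩ := hkerχ _ h1
    refine ⟨(g⁻¹) ^ n * z, E.mul_mem (E.pow_mem (inv_mem_locS hg) _) (le_locS hg hz), ?_⟩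
    show x = _
    have h2 : g ^ n * x = p * z := hz'
    have h3 : x = (g⁻¹) ^ n * (g ^ n * x) := by
      rw [← mul_assoc, ← mul_pow, inv_mul_cancel₀ hg0, one_pow, one_mul]
    rw [h3, h2]
    ring
  have hp0 : χE ⟨p, hpE⟩ = 0 := by
    rw [hχE p (le_CC R u θ hp)]
    have h1 : (⟨p, le_CC R u θ hp⟩ : CC R u θ) = toCC R u θ (C (C ⟨p, hp⟩)) :=
      Subtype.ext (EL_CC R u θ ⟨p, hp⟩).symm
    rw [h1, hχ, hπ, Polynomial.map_C]
    have h2 : φ ⟨p, hp⟩ = 0 := (hφ p hp).2 ⟨1, R.one_mem, by rw [mul_one]⟩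
    rw [coe_mapRingHom, Polynomial.map_C, h2]
    simp
  constructor
  · rintro x hx y hy ⟨z, hz, hxy⟩
    have h1 : χE ⟨x, hx⟩ * χE ⟨y, hy⟩ = 0 := by
      rw [← map_mul]
      have h2 : (⟨x, hx⟩ * ⟨y, hy⟩ : E) = ⟨p, hpE⟩ * ⟨z, hz⟩ := Subtype.ext hxy
      rw [h2, map_mul, hp0, zero_mul]
    rcases mul_eq_zero.1 h1 with h2 | h2
    · exact Or.inl (hkerE _ h2)
    · exact Or.inr (hkerE _ h2)
  · rintro s hs ⟨z, hz, hsz⟩
    rw [← hφ s hs]
    have hsE : s ∈ E := le_locS hg (le_CC R u θ hs)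
    have h1 : χE ⟨s, hsE⟩ = 0 := by
      have h2 : (⟨s, hsE⟩ : E) = ⟨p, hpE⟩ * ⟨z, hz⟩ := Subtype.ext hsz
      rw [h2, map_mul, hp0, zero_mul]
    rw [hχE s (le_CC R u θ hs)] at h1
    have h3 : eval₂ R.subtype u (C ⟨s, hs⟩) = s := by rw [eval₂_C]; rfl
    have h4 : (⟨s, le_CC R u θ hs⟩ : CC R u θ) = ⟨eval₂ R.subtype u (C ⟨s, hs⟩), by
      rw [h3]; exact le_CC R u θ hs⟩ := Subtype.ext h3.symm
    rw [h4] at h1
    have h5 := hχR _ _ h1
    rw [Polynomial.map_C] at h5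
    exact C_eq_zero.1 h5

end

end Pool.Agent.K6.H86.NP
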