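import Pool.Agent.K6.H86.NP.Asc
import Pool.Agent.R410.NG.Res

/-!
# The residue for every model
-/

set_option autoImplicit false
set_option linter.all false

open Polynomial FF NumberField IsDedekindDomain Filter Topology

namespace Pool.Agent.K6.H86.NP

open Pool.Agent.R410.LW (FG)
open Pool.Agent.R410.NG (Asy Ff residue_fun)
open Pool.Agent.R410.BS (cF cF_le cB cB_nonneg)
open Pool.Agent.Y707.PR (HasResidue)
open Pool.Agent.Y707.DK (bound_fin)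
open Pool.Agent.H921R2.TatePole (kerPrime)

section
variable {L : Type} [Field L]

/-- the number of the points does not change under isomorphisms -/
theorem pts_iso (R A₁ A₂ : Subring L) (u : L) {F F' : Type} [Field F] [Field F'] (e : F ≃+* F')
    (φ : R →+* F) : pts R A₁ A₂ u F' ((e : F →+* F').comp φ) = pts R A₁ A₂ u F φ := by
  have key : ∀ {A : Subring L} (Z : (A →+* F) → Prop) (Z' : (A →+* F') → Prop),
      (∀ χ, Z χ ↔ Z' ((e : F →+* F').comp χ)) →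
      Nat.card {χ : A →+* F' // Z' χ} = Nat.card {χ : A →+* F // Z χ} := by
    intro A Z Z' h
    refine (Nat.card_congr ?_).symm
    refine
      { toFun := fun χ => ⟨(e : F →+* F').comp χ.1, (h χ.1).1 χ.2⟩
        invFun := fun χ => ⟨(e.symm : F' →+* F).comp χ.1, by
          rw [h]
          have h1 : (e : F →+* F').comp ((e.symm : F' →+* F).comp χ.1) = χ.1 :=
            RingHom.ext fun x => e.apply_symm_apply _
          rw [h1]
          exact χ.2⟩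
        left_inv := fun χ => Subtype.ext (RingHom.ext fun x => e.symm_apply_apply _)
        right_inv := fun χ => Subtype.ext (RingHom.ext fun x => e.apply_symm_apply _) }
  have hagr : ∀ {A : Subring L} (χ : A →+* F), Agr φ χ ↔
      Agr ((e : F →+* F').comp φ) ((e : F →+* F').comp χ) := by
    intro A χ
    constructor
    · intro h x h1 h2
      show e (χ _) = e (φ _)
      rw [h x h1 h2]
    · intro h x h1 h2
      exact e.injective (h x h1 h2)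
  unfold pts
  rw [key (fun χ : A₁ →+* F => Agr φ χ) _ hagr]
  congr 1
  refine key _ _ fun χ => ?_
  rw [hagr]
  refine and_congr_right fun _ => forall_congr' fun h => ?_
  show _ ↔ e (χ _) = 0
  rw [map_eq_zero_iff e e.injective]

/-- the sums do not change under isomorphisms -/
theorem TT_iso (R A₁ A₂ : Subring L) (u : L) {O : Type} [CommRing O] (ρ : O →+* L) {F F' : Type}
    [Field F] [Field F'] (e : F ≃+* F') (ψ : O →+* F) (N : L) :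
    TT R A₁ A₂ u ρ F' ((e : F →+* F').comp ψ) N = TT R A₁ A₂ u ρ F ψ N := by
  unfold TT
  let E : {φ : R →+* F // Ov ρ ψ φ ∧ ∀ h : N ∈ R, φ ⟨N, h⟩ ≠ 0} ≃
      {φ : R →+* F' // Ov ρ ((e : F →+* F').comp ψ) φ ∧ ∀ h : N ∈ R, φ ⟨N, h⟩ ≠ 0} :=
    { toFun := fun φ => ⟨(e : F →+* F').comp φ.1, fun o ho => by
        show e (φ.1 _) = e (ψ o)
        rw [φ.2.1 o ho], fun h => by
        show e (φ.1 _) ≠ 0
        exact (map_ne_zero_iff e e.injective).2 (φ.2.2 h)⟩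
      invFun := fun φ => ⟨(e.symm : F' →+* F).comp φ.1, fun o ho => by
        show e.symm (φ.1 _) = ψ o
        rw [φ.2.1 o ho]
        show e.symm (e (ψ o)) = ψ o
        rw [e.symm_apply_apply], fun h => by
        show e.symm (φ.1 _) ≠ 0
        exact (map_ne_zero_iff e.symm e.symm.injective).2 (φ.2.2 h)⟩
      left_inv := fun φ => Subtype.ext (RingHom.ext fun x => e.symm_apply_apply _)
      right_inv := fun φ => Subtype.ext (RingHom.ext fun x => e.apply_symm_apply _) }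
  rw [← finsum_comp_equiv E]
  refine finsum_congr fun φ => ?_
  have h1 : pts R A₁ A₂ u F' (E φ).1 = pts R A₁ A₂ u F φ.1 := pts_iso R A₁ A₂ u e φ.1
  rw [h1, Nat.card_congr e.toEquiv]

variable {K : Type} [Field K] [Algebra K L] [CharZero K]

/-- **The comparison of two models.** -/
theorem TT_two {R A₁ A₂ R' A₁' A₂' : Subring L} {u : L} (h : IsModel K u R A₁ A₂)
    (h' : IsModel K u R' A₁' A₂') {e : ℕ} (he : Algebra.trdeg ℚ K ≤ e) {N N' : L} (hN : N ∈ R)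
    (hN0 : N ≠ 0) (hg : Good R A₁ A₂ u N) (hN' : N' ∈ R') (hN'0 : N' ≠ 0)
    (hg' : Good R' A₁' A₂' u N') :
    (∃ N₀ ∈ R, N₀ ≠ 0 ∧ Good R A₁ A₂ u N₀) ∧
    ∀ (O : Type) [CommRing O] (ρ : O →+* L), (∀ o, ρ o ∈ R) → (∀ o, ρ o ∈ R') →
      ∃ (C : ℝ) (m : ℕ), 0 ≤ C ∧ m ≠ 0 ∧ ∀ (F : Type) [Field F] [Finite F], ((m : ℕ) : F) ≠ 0 →
        ∀ ψ : O →+* F, |TT R A₁ A₂ u ρ F ψ N - TT R' A₁' A₂' u ρ F ψ N'| * √(Nat.card F : ℝ) ≤
          C * (Nat.card F : ℝ) ^ e := by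
  refine ⟨⟨N, hN, hN0, hg⟩, ?_⟩
  intro O _ ρ hρ hρ'
  have H := h.sup h'
  have hR : R ≤ R ⊔ R' := le_sup_left
  have hR' : R' ≤ R ⊔ R' := le_sup_right
  have h1 : A₁ ≤ A₁ ⊔ A₁' := le_sup_left
  have h1' : A₁' ≤ A₁ ⊔ A₁' := le_sup_right
  have h2 : A₂ ≤ A₂ ⊔ A₂' := le_sup_left
  have h2' : A₂' ≤ A₂ ⊔ A₂' := le_sup_right
  obtain ⟨s, hs, hs0, e0, e1, e2⟩ := h.den H h1 h2
  obtain ⟨s', hs', hs'0, e0', e1', e2'⟩ := h'.den H h1' h2'
  have pw : ∀ {A : Subring L} {x y b : L} (hx : x ∈ A), (∃ n : ℕ, y ^ n * b ∈ A) →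
      ∃ n : ℕ, (x * y) ^ n * b ∈ A := by
    rintro A x y b hx ⟨n, hn⟩
    refine ⟨n, ?_⟩
    rw [mul_pow, mul_assoc]
    exact A.mul_mem (A.pow_mem hx _) hn
  have hNs : N * s ∈ R := R.mul_mem hN hs
  have hNs' : N' * s' ∈ R' := R'.mul_mem hN' hs'
  have hNs0 : N * s ≠ 0 := mul_ne_zero hN0 hs0
  have hNs'0 : N' * s' ≠ 0 := mul_ne_zero hN'0 hs'0
  have g1 : Good R A₁ A₂ u (N * s) := hg.mul hN hs
  have g1' : Good R' A₁' A₂' u (N' * s') := hg'.mul hN' hs'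
  have E0 : ∀ b ∈ R ⊔ R', ∃ n : ℕ, (N * s) ^ n * b ∈ R := fun b hb => pw hN (e0 b hb)
  have E1 : ∀ b ∈ A₁ ⊔ A₁', ∃ n : ℕ, (N * s) ^ n * b ∈ A₁ := fun b hb => pw (h.le₁ hN) (e1 b hb)
  have E2 : ∀ b ∈ A₂ ⊔ A₂', ∃ n : ℕ, (N * s) ^ n * b ∈ A₂ := fun b hb => pw (h.le₂ hN) (e2 b hb)
  have E0' : ∀ b ∈ R ⊔ R', ∃ n : ℕ, (N' * s') ^ n * b ∈ R' := fun b hb => pw hN' (e0' b hb)
  have E1' : ∀ b ∈ A₁ ⊔ A₁', ∃ n : ℕ, (N' * s') ^ n * b ∈ A₁' := fun b hb =>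
    pw (h'.le₁ hN') (e1' b hb)
  have E2' : ∀ b ∈ A₂ ⊔ A₂', ∃ n : ℕ, (N' * s') ^ n * b ∈ A₂' := fun b hb =>
    pw (h'.le₂ hN') (e2' b hb)
  have G1 : Good (R ⊔ R') (A₁ ⊔ A₁') (A₂ ⊔ A₂') u (N * s) := g1.up h H hR h1 h2 hNs E0 E1 E2
  have G1' : Good (R ⊔ R') (A₁ ⊔ A₁') (A₂ ⊔ A₂') u (N' * s') :=
    g1'.up h' H hR' h1' h2' hNs' E0' E1' E2'
  obtain ⟨C1, m1, hC1, hm1, n1⟩ := near_mul h.fgR h.le_K he hN hg hs hs0 ρ
  obtain ⟨C2, m2, hC2, hm2, n2⟩ := near_mul H.fgR H.le_K he (hR hNs) G1 (hR' hNs') hNs'0 ρ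
  obtain ⟨C3, m3, hC3, hm3, n3⟩ := near_mul H.fgR H.le_K he (hR' hNs') G1' (hR hNs) hNs0 ρ
  obtain ⟨C4, m4, hC4, hm4, n4⟩ := near_mul h'.fgR h'.le_K he hN' hg' hs' hs'0 ρ
  refine ⟨C1 + C2 + C3 + C4, m1 * m2 * m3 * m4, by positivity, by positivity, ?_⟩
  intro F _ _ hF ψ
  push_cast at hF
  have b1 := n1 F (left_ne_zero_of_mul (left_ne_zero_of_mul (left_ne_zero_of_mul hF))) ψ
  have b2 := n2 F (right_ne_zero_of_mul (left_ne_zero_of_mul (left_ne_zero_of_mul hF))) ψ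
  have b3 := n3 F (right_ne_zero_of_mul (left_ne_zero_of_mul hF)) ψ
  have b4 := n4 F (right_ne_zero_of_mul hF) ψ
  have c1 := TT_cmp h H hR h1 h2 hNs E0 E1 E2 ρ hρ ψ
  have c2 := TT_cmp h' H hR' h1' h2' hNs' E0' E1' E2' ρ hρ' ψ
  rw [c1] at b1
  rw [c2] at b4
  rw [mul_comm (N' * s') (N * s)] at b3
  set x0 := TT R A₁ A₂ u ρ F ψ N
  set x1 := TT (R ⊔ R') (A₁ ⊔ A₁') (A₂ ⊔ A₂') u ρ F ψ (N * s)
  set x2 := TT (R ⊔ R') (A₁ ⊔ A₁') (A₂ ⊔ A₂') u ρ F ψ (N * s * (N' * s'))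
  set x3 := TT (R ⊔ R') (A₁ ⊔ A₁') (A₂ ⊔ A₂') u ρ F ψ (N' * s')
  set x4 := TT R' A₁' A₂' u ρ F ψ N'
  have hs1 : 0 ≤ √(Nat.card F : ℝ) := Real.sqrt_nonneg _
  have t1 : |x0 - x4| ≤ |x0 - x1| + |x1 - x2| + |x3 - x2| + |x4 - x3| := by
    have a1 := abs_sub_le x0 x1 x4
    have a2 := abs_sub_le x1 x2 x4
    have a3 := abs_sub_le x2 x3 x4
    rw [abs_sub_comm x2 x3, abs_sub_comm x3 x4] at a3
    linarith
  calc |x0 - x4| * √(Nat.card F : ℝ) ≤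
      (|x0 - x1| + |x1 - x2| + |x3 - x2| + |x4 - x3|) * √(Nat.card F : ℝ) :=
        mul_le_mul_of_nonneg_right t1 hs1
    _ = |x0 - x1| * √(Nat.card F : ℝ) + |x1 - x2| * √(Nat.card F : ℝ) +
        |x3 - x2| * √(Nat.card F : ℝ) + |x4 - x3| * √(Nat.card F : ℝ) := by ring
    _ ≤ _ := by
        rw [add_mul, add_mul, add_mul]
        linarith

/-- a good denominator of an arbitrary model -/
theorem exists_good {R A₁ A₂ R' A₁' A₂' : Subring L} {u : L} (h : IsModel K u R A₁ A₂)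
    (h' : IsModel K u R' A₁' A₂') {N' : L} (hN' : N' ∈ R') (hN'0 : N' ≠ 0)
    (hg' : Good R' A₁' A₂' u N') : ∃ N ∈ R, N ≠ 0 ∧ Good R A₁ A₂ u N := by
  have H := h.sup h'
  have hR : R ≤ R ⊔ R' := le_sup_left
  have hR' : R' ≤ R ⊔ R' := le_sup_right
  have h1 : A₁ ≤ A₁ ⊔ A₁' := le_sup_left
  have h1' : A₁' ≤ A₁ ⊔ A₁' := le_sup_right
  have h2 : A₂ ≤ A₂ ⊔ A₂' := le_sup_left
  have h2' : A₂' ≤ A₂ ⊔ A₂' := le_sup_right
  obtain ⟨s, hs, hs0, e0, e1, e2⟩ := h.den H h1 h2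
  obtain ⟨s', hs', hs'0, e0', e1', e2'⟩ := h'.den H h1' h2'
  have pw : ∀ {A : Subring L} {x y b : L} (hx : x ∈ A), (∃ n : ℕ, y ^ n * b ∈ A) →
      ∃ n : ℕ, (x * y) ^ n * b ∈ A := by
    rintro A x y b hx ⟨n, hn⟩
    refine ⟨n, ?_⟩
    rw [mul_pow, mul_assoc]
    exact A.mul_mem (A.pow_mem hx _) hn
  have hNs' : N' * s' ∈ R' := R'.mul_mem hN' hs'
  have g1' : Good R' A₁' A₂' u (N' * s') := hg'.mul hN' hs'
  have G1' : Good (R ⊔ R') (A₁ ⊔ A₁') (A₂ ⊔ A₂') u (N' * s') :=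
    g1'.up h' H hR' h1' h2' hNs' (fun b hb => pw hN' (e0' b hb))
      (fun b hb => pw (h'.le₁ hN') (e1' b hb)) fun b hb => pw (h'.le₂ hN') (e2' b hb)
  obtain ⟨m, hm⟩ := e0 _ (hR' hNs')
  have hx : s ^ m * (N' * s') * s ∈ R := R.mul_mem hm hs
  refine ⟨s ^ m * (N' * s') * s, hx, mul_ne_zero (mul_ne_zero (pow_ne_zero _ hs0)
    (mul_ne_zero hN'0 hs'0)) hs0, ?_⟩
  refine Good.down h H hR h1 h2 hx (fun b hb => pw hm (e0 b hb))
    (fun b hb => pw (h.le₁ hm) (e1 b hb)) (fun b hb => pw (h.le₂ hm) (e2 b hb)) ?_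
  have h3 : s ^ m * (N' * s') * s = (N' * s') * s ^ (m + 1) := by ring
  rw [h3]
  exact G1'.mul (hR' hNs') (Subring.pow_mem _ (hR hs) _)

end

section
variable {k : Type} [Field k] [NumberField k] {L : Type} [Field L]

/-- The average over the points `φ` above the prime `v` of the base `Spec R` with `N ≠ 0` of the
trace of the Frobenius `q_v + 1 - #X_φ`. -/
noncomputable def average (ρ : 𝓞 k →+* L) (R A₁ A₂ : Subring L) (u N : L) (e : ℕ)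
    (v : HeightOneSpectrum (𝓞 k)) : ℝ :=
  (∑ᶠ φ : {φ : R →+* 𝓞 k ⧸ v.asIdeal // Ov ρ (Ideal.Quotient.mk v.asIdeal) φ ∧
      ∀ h : N ∈ R, φ ⟨N, h⟩ ≠ 0},
    ((Nat.card (𝓞 k ⧸ v.asIdeal) : ℝ) + 1 - pts R A₁ A₂ u (𝓞 k ⧸ v.asIdeal) φ.1)) /
    (Nat.card (𝓞 k ⧸ v.asIdeal) : ℝ) ^ e

theorem average_eq (ρ : 𝓞 k →+* L) (R A₁ A₂ : Subring L) (u N : L) (e : ℕ)
    (v : HeightOneSpectrum (𝓞 k)) : -average ρ R A₁ A₂ u N e v =
      ((Nat.card (𝓞 k ⧸ v.asIdeal) : ℝ) ^ e)⁻¹ *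
        TT R A₁ A₂ u ρ (𝓞 k ⧸ v.asIdeal) (Ideal.Quotient.mk v.asIdeal) N := by
  unfold average TT
  rw [div_eq_inv_mul, ← mul_neg]
  congr 1
  rw [← finsum_neg_distrib]
  refine finsum_congr fun φ => ?_
  ring

theorem average_ker (ρ : 𝓞 k →+* L) (R A₁ A₂ : Subring L) (u N : L) (e : ℕ) (p : Nat.Primes)
    (ψ : 𝓞 k →+* ZMod (p : ℕ)) :
    letI : Fact (p : ℕ).Prime := ⟨p.2⟩
    (((p : ℕ) : ℝ) ^ e)⁻¹ * TT R A₁ A₂ u ρ (ZMod (p : ℕ)) ψ N =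
      -average ρ R A₁ A₂ u N e (kerPrime p ψ).1.1 := by
  letI : Fact (p : ℕ).Prime := ⟨p.2⟩
  have hsurj : Function.Surjective ψ := ZMod.ringHom_surjective ψ
  let e' : (𝓞 k ⧸ (kerPrime p ψ).1.1.asIdeal) ≃+* ZMod (p : ℕ) :=
    RingHom.quotientKerEquivOfSurjective hsurj
  have he : (e' : (𝓞 k ⧸ (kerPrime p ψ).1.1.asIdeal) →+* ZMod (p : ℕ)).comp
      (Ideal.Quotient.mk (kerPrime p ψ).1.1.asIdeal) = ψ := by
    ext x
    rfl
  have h1 := TT_iso R A₁ A₂ u ρ e' (Ideal.Quotient.mk (kerPrime p ψ).1.1.asIdeal) N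
  rw [he] at h1
  rw [average_eq]
  have h2 : Nat.card (𝓞 k ⧸ (kerPrime p ψ).1.1.asIdeal) = (p : ℕ) := by
    rw [Nat.card_congr e'.toEquiv, Nat.card_eq_fintype_card, ZMod.card]
  rw [h2, h1]

end

section
variable {k M K L : Type} [Field k] [NumberField k] [Field M] [CharZero M] [Algebra k M] [Field K]
  [CharZero K] [Field L] [Algebra M K] [Algebra K L] [Algebra M L] [IsScalarTower M K L] [IsFF K L]

/-- the structure map -/
noncomputable def rhoM (k M L : Type) [Field k] [Field M] [Algebra k M] [Field L] [Algebra M L] :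
    𝓞 k →+* L := (algebraMap M L).comp ((algebraMap k M).comp (algebraMap (𝓞 k) k))

/-- **The analytic form of the conjecture of Nagao** for the curves whose function field is purely
transcendental over a finitely generated field. -/
theorem main (hM : FG M) {d : ℕ} (hd : Algebra.trdeg ℚ M = d) {t : ℕ}
    {w : Fin (t + 1) → K} (hw : AlgebraicIndependent M w)
    (hwK : IntermediateField.adjoin M (Set.range w) = ⊤) {a : Fin (t + 2) → L}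
    (ha : AlgebraicIndependent M a) (haL : IntermediateField.adjoin M (Set.range a) = ⊤)
    (hKL : ∀ x : L, IsAlgebraic K x → x ∈ Set.range (algebraMap K L)) {u : L}
    (hu : u ∉ Set.range (algebraMap K L)) {R A₁ A₂ : Subring L} (hmod : IsModel K u R A₁ A₂)
    (hO : ∀ o : 𝓞 k, rhoM k M L o ∈ R) :
    Module.Finite ℤ (Pic0 K L) ∧ (∃ N ∈ R, N ≠ 0 ∧ Good R A₁ A₂ u N) ∧
      ∀ N ∈ R, N ≠ 0 → Good R A₁ A₂ u N → ∀ S : Finset (HeightOneSpectrum (𝓞 k)),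
        HasResidue S (fun v => -average (rhoM k M L) R A₁ A₂ u N (d + t + 1) v) 1
          (Module.finrank ℤ (Pic0 K L)) := by
  classical
  have huT : Transcendental K u := fun h => hu (hKL u h)
  obtain ⟨R₀, R', A₁', A₂', θ, g, h, n, t₀, c', G₁, G₂, f, b₀, D, hρ⟩ := exists_cnv hM (rhoM k M L)
    (fun o => ⟨_, rfl⟩) haL hwK hKL huT
  obtain ⟨N', hN', hN'0, hg', hfin, hasy, hbd⟩ := D.asy hKL huT ha haL hw hwK hd
  have hR₀R : R₀ ≤ R' := by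
    rw [D.hR]
    exact (le_PP R₀ _).trans (le_locS D.hn)
  have hρR' : ∀ o, rhoM k M L o ∈ R' := fun o => hR₀R (hρ o)
  have htr : Algebra.trdeg ℚ K ≤ (d + t + 1 : ℕ) := by
    have h3 := trdeg_gen hw hwK
    have h4 := trdeg_add_eq ℚ M (A := K)
    rw [hd, h3] at h4
    rw [← h4]
    push_cast
    exact le_of_eq (by ring)
  refine ⟨hfin, exists_good hmod D.mdl hN' hN'0 hg', ?_⟩
  intro N hN hN0 hg S
  have hcmp := (TT_two hmod D.mdl htr hN hN0 hg hN' hN'0 hg').2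
  obtain ⟨C0, m0, hC0, hm0, g0⟩ := hcmp (𝓞 k) (rhoM k M L) hO hρR'
  obtain ⟨C3, m3, hC3, hm3, g3⟩ := hcmp ℤ (Int.castRingHom L)
    (fun o => by rw [eq_intCast]; exact intCast_mem _ o)
    (fun o => by rw [eq_intCast]; exact intCast_mem _ o)
  obtain ⟨C1, m1, hC1, hm1, g1⟩ := hbd (𝓞 k) (rhoM k M L) hρ
  obtain ⟨κ, i1, Lf, i2, i3, al, hal, C2, m2, hC2, hm2, g2⟩ := hasy
  -- the average is bounded
  have hb : ∀ᶠ v : HeightOneSpectrum (𝓞 k) in cofinite,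
      |-average (rhoM k M L) R A₁ A₂ u N (d + t + 1) v| ≤ C0 + C1 := by
    have hm : (((m0 * m1 : ℕ)) : 𝓞 k) ≠ 0 := by
      exact_mod_cast mul_ne_zero hm0 hm1
    filter_upwards [Pool.Agent.Y707.PC.ae_notMem hm] with v hv
    have hfin := Pool.Agent.H341R2.finite_v v
    have hmv : (((m0 * m1 : ℕ)) : 𝓞 k ⧸ v.asIdeal) ≠ 0 := by
      intro h0
      apply hv
      rw [← Ideal.Quotient.eq_zero_iff_mem, map_natCast]
      exact h0
    rw [Nat.cast_mul] at hmv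
    have e0 := g0 (𝓞 k ⧸ v.asIdeal) (left_ne_zero_of_mul hmv) (Ideal.Quotient.mk v.asIdeal)
    have e1 := g1 (𝓞 k ⧸ v.asIdeal) (right_ne_zero_of_mul hmv) (Ideal.Quotient.mk v.asIdeal)
    rw [average_eq]
    set q : ℝ := (Nat.card (𝓞 k ⧸ v.asIdeal) : ℝ) with hq
    have hq1 : (1 : ℝ) ≤ q := by
      rw [hq]
      exact_mod_cast Nat.card_pos
    have hs1 : 1 ≤ √q := Real.one_le_sqrt.2 hq1
    have hqe : (0 : ℝ) < q ^ (d + t + 1) := by positivity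
    rw [abs_mul, abs_of_pos (inv_pos.2 hqe), inv_mul_le_iff₀ hqe]
    set x0 := TT R A₁ A₂ u (rhoM k M L) (𝓞 k ⧸ v.asIdeal) (Ideal.Quotient.mk v.asIdeal) N
    set x1 := TT R' A₁' A₂' u (rhoM k M L) (𝓞 k ⧸ v.asIdeal) (Ideal.Quotient.mk v.asIdeal) N'
    have e2 : |x0 - x1| ≤ C0 * q ^ (d + t + 1) :=
      (le_mul_of_one_le_right (abs_nonneg _) hs1).trans e0
    have e3 := abs_sub_abs_le_abs_sub x0 x1
    linarith
  obtain ⟨B', hB'⟩ := bound_fin hb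
  have hr : ∑ j, al j = (((Module.finrank ℤ (Pic0 K L) : ℕ) : ℤ) : ℝ) := by
    rw [hal]
    push_cast
    rfl
  have hres := residue_fun hB' Lf al hr (D := C3 + C2) ?_ S
  · have e1 : ((((Module.finrank ℤ (Pic0 K L) : ℕ) : ℤ) : ℝ)) =
      ((Module.finrank ℤ (Pic0 K L) : ℕ) : ℝ) := by push_cast; rfl
    rw [e1] at hres
    exact hres
  have hcof : ∀ᶠ p : Nat.Primes in Filter.cofinite, ((m3 * m2 : ℕ) : ZMod (p : ℕ)) ≠ 0 := by
    have hfin : {p : Nat.Primes | ((m3 * m2 : ℕ) : ZMod (p : ℕ)) = 0}.Finite := by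
      refine Set.Finite.of_injOn (f := fun p : Nat.Primes => (p : ℕ))
        (t := ((m3 * m2).primeFactors : Set ℕ)) ?_ ?_ (Finset.finite_toSet _)
      · intro p hp
        rw [Set.mem_ofPred_eq, ZMod.natCast_eq_zero_iff] at hp
        exact Nat.mem_primeFactors.2 ⟨p.2, hp, mul_ne_zero hm3 hm2⟩
      · intro p _ q _ h
        exact Subtype.ext h
    rw [Filter.eventually_cofinite]
    simpa only [ne_eq, not_not] using hfin
  filter_upwards [hcof] with p hp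
  have : Fact (p : ℕ).Prime := ⟨p.2⟩
  have hfin := Pool.Agent.H921R2.TatePole.hom_finite (K := k) p
  let _ := Fintype.ofFinite (𝓞 k →+* ZMod (p : ℕ))
  rw [Nat.cast_mul] at hp
  have hcard : (Nat.card (ZMod (p : ℕ)) : ℝ) = ((p : ℕ) : ℝ) := by
    rw [Nat.card_eq_fintype_card, ZMod.card]
  have e0 := g3 (ZMod (p : ℕ)) (left_ne_zero_of_mul hp) (Int.castRingHom _)
  have e2 := g2 (ZMod (p : ℕ)) (right_ne_zero_of_mul hp)
  rw [hcard] at e0 e2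
  set q : ℝ := ((p : ℕ) : ℝ) with hq
  have hq0 : (0 : ℝ) < q := by
    rw [hq]
    exact_mod_cast p.2.pos
  have hqe : (0 : ℝ) < q ^ (d + t + 1) := by positivity
  have hs : 0 < √q := Real.sqrt_pos.2 hq0
  have e3 : ∑ᶠ ψ : 𝓞 k →+* ZMod (p : ℕ),
      -average (rhoM k M L) R A₁ A₂ u N (d + t + 1) (kerPrime p ψ).1.1 =
      (q ^ (d + t + 1))⁻¹ * TT R A₁ A₂ u (Int.castRingHom L) (ZMod (p : ℕ))
        (Int.castRingHom (ZMod (p : ℕ))) N := by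
    rw [← TT_sum hmod.fgR hO N, finsum_eq_sum_of_fintype, finsum_eq_sum_of_fintype, Finset.mul_sum]
    exact Finset.sum_congr rfl fun ψ _ =>
      (average_ker (rhoM k M L) R A₁ A₂ u N (d + t + 1) p ψ).symm
  have e5 : ((p : ℕ) : ℝ) ^ (-(1 / 2) : ℝ) = (√q)⁻¹ := by
    rw [hq, Real.sqrt_eq_rpow, ← Real.rpow_neg hq0.le]
  rw [e3, e5]
  set x0 := TT R A₁ A₂ u (Int.castRingHom L) (ZMod (p : ℕ)) (Int.castRingHom (ZMod (p : ℕ))) N
  set x1 := TT R' A₁' A₂' u (Int.castRingHom L) (ZMod (p : ℕ)) (Int.castRingHom (ZMod (p : ℕ))) N'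
  have e6 : (q ^ (d + t + 1))⁻¹ * x0 - cF Lf al (ZMod (p : ℕ)) =
      (x0 - cF Lf al (ZMod (p : ℕ)) * q ^ (d + t + 1)) / q ^ (d + t + 1) := by
    field_simp
  rw [e6, abs_div, abs_of_pos hqe, div_le_iff₀ hqe, ← div_eq_mul_inv, div_mul_eq_mul_div,
    le_div_iff₀ hs]
  calc |x0 - cF Lf al (ZMod (p : ℕ)) * q ^ (d + t + 1)| * √q ≤
      (|x0 - x1| + |x1 - cF Lf al (ZMod (p : ℕ)) * q ^ (d + t + 1)|) * √q :=
        mul_le_mul_of_nonneg_right (abs_sub_le _ _ _) hs.le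
    _ ≤ (C3 + C2) * q ^ (d + t + 1) := by
        rw [add_mul, add_mul]
        exact add_le_add e0 e2

end

end Pool.Agent.K6.H86.NP
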