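import Pool.Agent.K6.H86.NP.Pic

/-!
# Places and integral closures
-/

set_option autoImplicit false
set_option linter.all false

open Module IsDedekindDomain IntermediateField FF

namespace Pool.Agent.K6.H86.NP

section
variable (K : Type) {L : Type} [Field K] [Field L] [Algebra K L]

/-- the integral closure of `K[v]` -/
abbrev Bc (v : L) := integralClosure (Algebra.adjoin K ({v} : Set L)) L

variable [CharZero K] [IsFF K L]

theorem bc_facts {v : L} (hv : Transcendental K v) : IsDedekindDomain (Bc K v) ∧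
    IsFractionRing (Bc K v) L ∧ Module.Finite (Algebra.adjoin K ({v} : Set L)) (Bc K v) ∧
    IsScalarTower K (Bc K v) L := by
  open scoped algebraAdjoinAdjoin in
  let A := Algebra.adjoin K ({v} : Set L)
  let e := Polynomial.algEquivOfTranscendental K v hv
  have hpid : IsPrincipalIdealRing A := IsPrincipalIdealRing.of_surjective e.toRingEquiv e.surjective
  have hded : IsDedekindDomain A := inferInstance
  have hfin := IsFF.finite hv
  have hchar : CharZero K⟮v⟯ := charZero_of_injective_algebraMap (algebraMap K K⟮v⟯).injective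
  have hsep : Algebra.IsSeparable K⟮v⟯ L := inferInstance
  have h1 : IsDedekindDomain (integralClosure A L) := integralClosure.isDedekindDomain A K⟮v⟯ L
  have h2 : IsFractionRing (integralClosure A L) L :=
    integralClosure.isFractionRing_of_finite_extension K⟮v⟯ L
  have h3 : Module.Finite A (integralClosure A L) := IsIntegralClosure.finite A K⟮v⟯ L _
  refine ⟨h1, h2, h3, ?_⟩
  refine IsScalarTower.of_algebraMap_eq fun c => ?_
  rw [IsScalarTower.algebraMap_apply K A (integralClosure A L),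
    ← IsScalarTower.algebraMap_apply A (integralClosure A L) L,
    ← IsScalarTower.algebraMap_apply K A L]

variable {K}

theorem reg_adjoin {v : L} (P : Place K L) (h : P.Reg v) (a : Algebra.adjoin K ({v} : Set L)) :
    P.Reg (algebraMap (Algebra.adjoin K ({v} : Set L)) L a) := by
  obtain ⟨a, ha⟩ := a
  change P.Reg a
  induction ha using Algebra.adjoin_induction with
  | mem x hx =>
    rw [Set.mem_singleton_iff] at hx
    subst hx
    exact h
  | algebraMap r => exact P.reg_const r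
  | add x y _ _ hx hy => exact P.reg_add hx hy
  | mul x y _ _ hx hy => exact P.reg_mul hx hy

theorem reg_of_int {v z : L} (P : Place K L) (h : P.Reg v)
    (hz : IsIntegral (Algebra.adjoin K ({v} : Set L)) z) : P.Reg z :=
  P.reg_of_isIntegral (reg_adjoin P h) hz

/-- the place of a prime of the integral closure -/
theorem place_eq {v : L} (hv : Transcendental K v) (P : Place K L) (h : P.Reg v) :
    letI := (bc_facts K hv).1
    letI := (bc_facts K hv).2.1
    letI := (bc_facts K hv).2.2.2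
    ∃ 𝔓 : HeightOneSpectrum (Bc K v), placeOf 𝔓 = P := by
  letI := (bc_facts K hv).1
  letI := (bc_facts K hv).2.1
  letI := (bc_facts K hv).2.2.2
  exact exists_placeOf_eq P fun b => reg_of_int P h b.2

/-- The elements of the integral closure. -/
theorem int_iff {v : L} (hv : Transcendental K v) (z : L) :
    IsIntegral (Algebra.adjoin K ({v} : Set L)) z ↔ ∀ P : Place K L, P.Reg v → P.Reg z := by
  letI := (bc_facts K hv).1
  letI := (bc_facts K hv).2.1
  letI := (bc_facts K hv).2.2.2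
  constructor
  · exact fun hz P hP => reg_of_int P hP hz
  · intro h
    by_cases hz0 : z = 0
    · rw [hz0]
      exact isIntegral_zero
    have hvB : IsIntegral (Algebra.adjoin K ({v} : Set L)) v := by
      have : v = algebraMap (Algebra.adjoin K ({v} : Set L)) L
        ⟨v, Algebra.self_mem_adjoin_singleton K v⟩ := rfl
      rw [this]
      exact isIntegral_algebraMap
    have h1 : ∀ 𝔓 : HeightOneSpectrum (Bc K v), 𝔓.valuation L z ≤ 1 := by
      intro 𝔓
      have h2 : (placeOf (k := K) (L := L) 𝔓).Reg v := placeOf_reg 𝔓 ⟨v, hvB⟩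
      have h3 := h _ h2
      exact (placeOf_nonneg 𝔓 hz0).1 (((placeOf (k := K) (L := L) 𝔓).reg_iff hz0).1 h3)
    have h2 := HeightOneSpectrum.mem_integers_of_valuation_le_one (R := Bc K v) L z h1
    obtain ⟨y, rfl⟩ := h2
    exact y.2

theorem exists_sep {v : L} (hv : Transcendental K v) {P P' : Place K L} (h : P.Reg v)
    (h' : P'.Reg v) (hne : P ≠ P') :
    ∃ z : L, IsIntegral (Algebra.adjoin K ({v} : Set L)) z ∧ P'.red z = 0 ∧ P.red z ≠ 0 := by
  letI := (bc_facts K hv).1
  letI := (bc_facts K hv).2.1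
  letI := (bc_facts K hv).2.2.2
  obtain ⟨𝔓, rfl⟩ := place_eq hv P h
  obtain ⟨𝔓', rfl⟩ := place_eq hv P' h'
  have h1 : ¬ 𝔓'.asIdeal ≤ 𝔓.asIdeal := by
    intro hle
    have h2 := 𝔓'.isMaximal.eq_of_le 𝔓.isPrime.ne_top hle
    apply hne
    congr 1
    exact HeightOneSpectrum.ext h2.symm
  obtain ⟨z, hz1, hz2⟩ := Set.not_subset.1 h1
  exact ⟨z, z.2, (placeOf_red_eq_zero 𝔓' z).2 hz1, fun h3 => hz2 ((placeOf_red_eq_zero 𝔓 z).1 h3)⟩

theorem red_surj {v : L} (hv : Transcendental K v) {P : Place K L} (h : P.Reg v) (c : P.RF) :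
    ∃ z : L, IsIntegral (Algebra.adjoin K ({v} : Set L)) z ∧ P.red z = c := by
  letI := (bc_facts K hv).1
  letI := (bc_facts K hv).2.1
  letI := (bc_facts K hv).2.2.2
  obtain ⟨𝔓, rfl⟩ := place_eq hv P h
  obtain ⟨z, hz⟩ := placeOf_redHom_surjective (k := K) (L := L) 𝔓 c
  exact ⟨z, z.2, hz⟩

theorem exists_unif {v : L} (hv : Transcendental K v) {P : Place K L} (h : P.Reg v) :
    ∃ z : L, IsIntegral (Algebra.adjoin K ({v} : Set L)) z ∧ z ≠ 0 ∧ P.ord z = 1 := by
  letI := (bc_facts K hv).1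
  letI := (bc_facts K hv).2.1
  letI := (bc_facts K hv).2.2.2
  obtain ⟨𝔓, rfl⟩ := place_eq hv P h
  obtain ⟨π, hπ⟩ := 𝔓.intValuation_exists_uniformizer
  have h1 : (placeOf (k := K) (L := L) 𝔓).ord (π : L) = 1 := by
    rw [placeOf_ord]
    have h2 : 𝔓.valuation L ((π : Bc K v) : L) = 𝔓.intValuation π :=
      HeightOneSpectrum.valuation_of_algebraMap 𝔓 π
    rw [h2, hπ, WithZero.log_exp]
    rfl
  refine ⟨π, π.2, ?_, h1⟩
  intro h0
  rw [h0, Place.ord_zero] at h1
  exact zero_ne_one h1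

/-- **The divisor of a prime element.** -/
theorem prime_div {v : L} (hv : Transcendental K v) {g q : L} (hg0 : g ≠ 0)
    (hg : ∀ P : Place K L, P.Reg v → P.Reg g) (hq0 : q ≠ 0)
    (hq : ∀ P : Place K L, P.Reg v → P.ord g = 0 → P.Reg q)
    (hpr : ∀ x y : L, (∀ P : Place K L, P.Reg v → P.ord g = 0 → P.Reg x) →
      (∀ P : Place K L, P.Reg v → P.ord g = 0 → P.Reg y) →
      (∀ P : Place K L, P.Reg v → P.ord g = 0 → P.Reg (x * y / q)) →
      (∀ P : Place K L, P.Reg v → P.ord g = 0 → P.Reg (x / q)) ∨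
      (∀ P : Place K L, P.Reg v → P.ord g = 0 → P.Reg (y / q)))
    {P : Place K L} (hP : P.Reg v) (hPg : P.ord g = 0) (hPq : 0 < P.ord q) :
    P.ord q = 1 ∧ ∀ P' : Place K L, P'.Reg v → P'.ord g = 0 → P' ≠ P → P'.ord q = 0 := by
  letI := (bc_facts K hv).1
  letI := (bc_facts K hv).2.1
  letI := (bc_facts K hv).2.2.2
  let Dq : L → Prop := fun x => ∀ P : Place K L, P.Reg v → P.ord g = 0 → P.Reg x
  have hDadd : ∀ x y, Dq x → Dq y → Dq (x + y) := fun x y hx hy P h1 h2 =>
    P.reg_add (hx P h1 h2) (hy P h1 h2)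
  have hDmul : ∀ x y, Dq x → Dq y → Dq (x * y) := fun x y hx hy P h1 h2 =>
    P.reg_mul (hx P h1 h2) (hy P h1 h2)
  have hDB : ∀ x : Bc K v, Dq x := fun x P h1 _ => reg_of_int P h1 x.2
  let J : Ideal (Bc K v) :=
    { carrier := {x | Dq ((x : L) / q)}
      zero_mem' := by
        intro P _ _
        rw [show ((0 : Bc K v) : L) / q = 0 by simp]
        exact P.reg_zero
      add_mem' := by
        intro x y hx hy
        show Dq (((x : L) + y) / q)
        rw [add_div]
        exact hDadd _ _ hx hy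
      smul_mem' := by
        intro c x hx
        show Dq (((c : L) * x) / q)
        rw [mul_div_assoc]
        exact hDmul _ _ (hDB c) hx }
  have memJ : ∀ x : Bc K v, x ∈ J ↔ Dq ((x : L) / q) := fun x => Iff.rfl
  have key : ∀ (P' : Place K L), P'.Reg v → P'.ord g = 0 → 0 < P'.ord q → ∀ x : L,
      Dq (x / q) → P'.Reg x ∧ (x = 0 ∨ 0 < P'.ord x) := by
    intro P' h1 h2 h3 x hx
    by_cases hx0 : x = 0
    · subst hx0
      exact ⟨P'.reg_zero, Or.inl rfl⟩
    · have h4 := hx P' h1 h2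
      rw [P'.reg_iff (div_ne_zero hx0 hq0), P'.ord_div hx0 hq0] at h4
      have h5 : 0 < P'.ord x := by omega
      exact ⟨(P'.reg_iff hx0).2 h5.le, Or.inr h5⟩
  have hJtop : J ≠ ⊤ := by
    intro h
    have h1 : (1 : Bc K v) ∈ J := by rw [h]; trivial
    have h2 := key P hP hPg hPq 1 h1
    rcases h2.2 with h3 | h3
    · exact one_ne_zero h3
    · rw [P.ord_one] at h3
      exact lt_irrefl _ h3
  have hJprime : J.IsPrime := by
    refine ⟨hJtop, ?_⟩
    intro x y hxy
    exact hpr x y (hDB x) (hDB y) hxy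
  have hle : ∀ 𝔓 : HeightOneSpectrum (Bc K v), (placeOf (k := K) (L := L) 𝔓).Reg v →
      (placeOf (k := K) (L := L) 𝔓).ord g = 0 → 0 < (placeOf (k := K) (L := L) 𝔓).ord q →
      J ≤ 𝔓.asIdeal := by
    intro 𝔓 h1 h2 h3 x hx
    have h4 := key _ h1 h2 h3 x hx
    rw [← placeOf_red_eq_zero (k := K) (L := L) 𝔓 x]
    exact (Place.red_eq_zero_iff _ h4.1).2 h4.2
  -- `J` is not zero
  have hJ0 : J ≠ ⊥ := by
    obtain ⟨a, b, hb, hab⟩ := IsFractionRing.div_surjective (A := Bc K v) q
    have hb0 : (b : L) ≠ 0 := fun h => nonZeroDivisors.ne_zero hb (Subtype.ext h)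
    have ha : (a : L) = q * b := by
      rw [← hab]
      exact (div_mul_cancel₀ _ hb0).symm
    have haJ : a ∈ J := by
      rw [memJ, ha, mul_div_cancel_left₀ _ hq0]
      exact hDB b
    intro h
    rw [h, Ideal.mem_bot] at haJ
    have : (a : L) = 0 := by rw [haJ]; rfl
    rw [ha] at this
    exact (mul_ne_zero hq0 hb0) this
  have hJmax : J.IsMaximal := hJprime.isMaximal hJ0
  obtain ⟨𝔓, rfl⟩ := place_eq hv P hP
  have hJP : J = 𝔓.asIdeal := hJmax.eq_of_le 𝔓.isPrime.ne_top (hle 𝔓 hP hPg hPq)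
  constructor
  · obtain ⟨z, hz, hz0, hz1⟩ := exists_unif hv hP
    have hzJ : (⟨z, hz⟩ : Bc K v) ∈ J := by
      rw [hJP, ← placeOf_red_eq_zero (k := K) (L := L) 𝔓]
      refine (Place.red_eq_zero_iff _ (((placeOf (k := K) (L := L) 𝔓).reg_iff hz0).2
        (by omega))).2 (Or.inr ?_)
      show 0 < (placeOf (k := K) (L := L) 𝔓).ord z
      omega
    have h1 := hzJ _ hP hPg
    have h2 : ((⟨z, hz⟩ : Bc K v) : L) = z := rfl
    rw [h2, Place.reg_iff _ (div_ne_zero hz0 hq0), Place.ord_div _ hz0 hq0, hz1] at h1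
    omega
  · intro P' h1 h2 hne
    by_contra hc
    have h3 : 0 < P'.ord q := by
      have := (P'.reg_iff hq0).1 (hq P' h1 h2)
      omega
    obtain ⟨𝔓', rfl⟩ := place_eq hv P' h1
    have h4 : J = 𝔓'.asIdeal := hJmax.eq_of_le 𝔓'.isPrime.ne_top (hle 𝔓' h1 h2 h3)
    apply hne
    congr 1
    exact HeightOneSpectrum.ext (h4.symm.trans hJP)

end

end Pool.Agent.K6.H86.NP
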