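import Pool.Agent.K6.H86.NP.Spr
import Pool.Agent.K6.H86.NP.Pla

/-!
# Generators of the function field
-/

set_option autoImplicit false
set_option linter.all false

open Polynomial FF

namespace Pool.Agent.K6.H86.NP

open Pool.Agent.R410.LW (ev ev_C ev_X ev_eq ev_eq' structure_one)

section
variable {M L : Type} [Field M] [Field L] [Algebra M L]

theorem frac_of_gen {m : ℕ} {x : Fin m → L} (h : IntermediateField.adjoin M (Set.range x) = ⊤)
    (y : L) : ∃ S T : MvPolynomial (Fin m) M, MvPolynomial.aeval x T ≠ 0 ∧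
      y = MvPolynomial.aeval x S / MvPolynomial.aeval x T := by
  have hy : y ∈ IntermediateField.adjoin M (Set.range x) := by rw [h]; trivial
  rw [IntermediateField.mem_adjoin_range_iff] at hy
  obtain ⟨r, s, hrs⟩ := hy
  by_cases hs : MvPolynomial.aeval x s = 0
  · refine ⟨0, 1, by rw [map_one]; exact one_ne_zero, ?_⟩
    rw [hrs, hs, div_zero, map_zero, zero_div]
  · exact ⟨r, s, hs, hrs⟩

end

section
variable {K L : Type} [Field K] [Field L] [Algebra K L]

/-- the two variable evaluation over the field -/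
noncomputable abbrev EK (u θ : L) := ev (algebraMap K L) (u, θ)

/-- **A primitive element** with an absolutely irreducible equation. -/
theorem theta_poly [CharZero K] [IsFF K L]
    (hKL : ∀ x : L, IsAlgebraic K x → x ∈ Set.range (algebraMap K L)) {u : L}
    (hu : Transcendental K u) : ∃ (θ : L) (f : K[X][X]) (Om : Type) (_ : Field Om)
      (_ : IsAlgClosed Om) (_ : Algebra K Om), f.Monic ∧ 0 < f.natDegree ∧
      Irreducible (f.map (mapRingHom (algebraMap K Om))) ∧
      (∀ p : K[X][X], ev (algebraMap K L) (u, θ) p = 0 ↔ f ∣ p) ∧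
      IntermediateField.adjoin K {u, θ} = ⊤ := by
  have hfin := IsFF.finite hu
  obtain ⟨F₁, hF₁, θ, f, Om, iOm, hOm, aOm, hfm, hf0, hirr, hker, hgen⟩ := structure_one u hu
  have hF : ∀ x ∈ F₁.toSubring, x ∈ Set.range (algebraMap K L) := by
    intro x hx
    apply hKL
    have h1 : IsAlgebraic K (⟨x, hx⟩ : F₁) := Algebra.IsAlgebraic.isAlgebraic _
    have h2 := h1.algHom (IntermediateField.val F₁)
    exact h2
  let e : F₁ →+* K := toK (K := K) F₁.toSubring hF
  have he : ∀ x : F₁, algebraMap K L (e x) = x := algebraMap_toK F₁.toSubring hF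
  have hei : Function.Injective e := e.injective
  have he1 : ∀ c : K, e (algebraMap K F₁ c) = c := by
    intro c
    apply (algebraMap K L).injective
    rw [he]
    rfl
  have he2 : ∀ x : F₁, algebraMap K F₁ (e x) = x := by
    intro x
    apply Subtype.ext
    exact he x
  refine ⟨θ, f.map (mapRingHom e), Om, iOm, hOm, ((algebraMap F₁ Om).comp (algebraMap K F₁)).toAlgebra,
    hfm.map _, by rw [hfm.natDegree_map]; exact hf0, ?_, ?_, hgen⟩
  · rw [Polynomial.map_map]
    have h1 : (mapRingHom (@algebraMap K Om _ _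
        ((algebraMap F₁ Om).comp (algebraMap K F₁)).toAlgebra)).comp (mapRingHom e) =
        mapRingHom (algebraMap F₁ Om) := by
      rw [mapRingHom_comp]
      congr 1
      refine RingHom.ext fun x => ?_
      show algebraMap F₁ Om (algebraMap K F₁ (e x)) = _
      rw [he2]
    rw [h1]
    exact hirr
  · intro p
    have h1 : ev (algebraMap K L) (u, θ) p =
        eval₂ (eval₂RingHom (algebraMap F₁ L) u) θ (p.map (mapRingHom (algebraMap K F₁))) := by
      rw [eval₂_map]
      unfold ev
      rw [coe_eval₂RingHom]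
      congr 1
      apply Polynomial.ringHom_ext
      · intro c
        rw [coe_eval₂RingHom, eval₂_C, RingHom.comp_apply, coe_mapRingHom, Polynomial.map_C,
          coe_eval₂RingHom, eval₂_C]
        rfl
      · rw [coe_eval₂RingHom, eval₂_X, RingHom.comp_apply, coe_mapRingHom, Polynomial.map_X,
          coe_eval₂RingHom, eval₂_X]
    rw [h1, hker]
    have h2 : (mapRingHom (algebraMap K F₁)).comp (mapRingHom e) = RingHom.id _ := by
      rw [mapRingHom_comp]
      apply Polynomial.ringHom_ext
      · intro x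
        rw [coe_mapRingHom, Polynomial.map_C, RingHom.comp_apply, he2]
        rfl
      · rw [coe_mapRingHom, Polynomial.map_X]
        rfl
    have h3 : (mapRingHom e).comp (mapRingHom (algebraMap K F₁)) = RingHom.id _ := by
      rw [mapRingHom_comp]
      apply Polynomial.ringHom_ext
      · intro x
        rw [coe_mapRingHom, Polynomial.map_C, RingHom.comp_apply, he1]
        rfl
      · rw [coe_mapRingHom, Polynomial.map_X]
        rfl
    constructor
    · rintro ⟨c, hc⟩
      refine ⟨c.map (mapRingHom e), ?_⟩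
      have h4 := congrArg (Polynomial.map (mapRingHom e)) hc
      rw [Polynomial.map_map, h3, Polynomial.map_id, Polynomial.map_mul] at h4
      exact h4
    · rintro ⟨c, rfl⟩
      refine ⟨c.map (mapRingHom (algebraMap K F₁)), ?_⟩
      rw [Polynomial.map_mul, Polynomial.map_map, h2, Polynomial.map_id]

/-- the elements of the field as fractions -/
theorem frac_CC {u θ : L} (h : IntermediateField.adjoin K {u, θ} = ⊤) (y : L) :
    ∃ b ∈ CC (algebraMap K L).range u θ, b ≠ 0 ∧ b * y ∈ CC (algebraMap K L).range u θ := by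
  have hy : y ∈ IntermediateField.adjoin K {u, θ} := by rw [h]; trivial
  rw [IntermediateField.mem_adjoin_iff_div] at hy
  obtain ⟨r, hr, s, hs, hrs⟩ := hy
  have hle : (Algebra.adjoin K ({u, θ} : Set L)).toSubring ≤ CC (algebraMap K L).range u θ := by
    intro x hx
    have hx' : x ∈ Algebra.adjoin K ({u, θ} : Set L) := hx
    clear hx
    induction hx' using Algebra.adjoin_induction with
    | mem x hx =>
      simp only [Set.mem_insert_iff, Set.mem_singleton_iff] at hx
      rcases hx with rfl | rfl
      · exact u_mem_CC _ x θ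
      · exact t_mem_CC _ u x
    | algebraMap c => exact le_CC _ u θ ⟨c, rfl⟩
    | add x y _ _ h1 h2 => exact add_mem h1 h2
    | mul x y _ _ h1 h2 => exact mul_mem h1 h2
  by_cases hs0 : s = 0
  · refine ⟨1, Subring.one_mem _, one_ne_zero, ?_⟩
    rw [hs0, div_zero] at hrs
    rw [hrs, mul_zero]
    exact Subring.zero_mem _
  · refine ⟨s, hle hs, hs0, ?_⟩
    rw [hrs, mul_div_cancel₀ _ hs0]
    exact hle hr

/-- the integral closure is finitely generated -/
theorem gen_int [CharZero K] [IsFF K L] {v : L} (hv : Transcendental K v) : ∃ G : Finset L,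
    (∀ g ∈ G, IsIntegral (Algebra.adjoin K ({v} : Set L)) g) ∧
    ∀ z, IsIntegral (Algebra.adjoin K ({v} : Set L)) z → z ∈ AD (algebraMap K L).range v G := by
  classical
  have hfin := (bc_facts K hv).2.2.1
  obtain ⟨G, hG⟩ := hfin.fg_top
  refine ⟨G.image Subtype.val, ?_, ?_⟩
  · intro g hg
    obtain ⟨g', -, rfl⟩ := Finset.mem_image.1 hg
    exact g'.2
  · intro z hz
    have h1 : (⟨z, hz⟩ : Bc K v) ∈ Submodule.span (Algebra.adjoin K ({v} : Set L)) (G : Set (Bc K v)) := by
      rw [hG]
      trivial
    have h2 : ∀ w : Bc K v, w ∈ Submodule.span (Algebra.adjoin K ({v} : Set L)) (G : Set (Bc K v)) →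
        (w : L) ∈ AD (algebraMap K L).range v (G.image Subtype.val) := by
      intro w hw
      induction hw using Submodule.span_induction with
      | mem w hw => exact g_mem_AD _ v (Finset.mem_image.2 ⟨w, hw, rfl⟩)
      | zero => exact Subring.zero_mem _
      | add x y _ _ hx hy => exact add_mem hx hy
      | smul a x _ hx =>
        have h3 : ((a • x : Bc K v) : L) = (a : L) * x := rfl
        rw [h3]
        refine mul_mem ?_ hx
        clear h3
        obtain ⟨a, ha⟩ := a
        show a ∈ _
        induction ha using Algebra.adjoin_induction with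
        | mem x hx =>
          rw [Set.mem_singleton_iff.1 hx]
          exact v_mem_AD _ v _
        | algebraMap c => exact le_AD _ v _ ⟨c, rfl⟩
        | add x y _ _ h1 h2 => exact add_mem h1 h2
        | mul x y _ _ h1 h2 => exact mul_mem h1 h2
    exact h2 _ h1

/-- **Norms**: each element divides a polynomial in `u`. -/
theorem exists_norm {u θ : L} {f : K[X][X]} (hu : Transcendental K u) (hf : f.Monic)
    (hfθ : ev (algebraMap K L) (u, θ) f = 0) {g : L} (hg : g ∈ CC (algebraMap K L).range u θ)
    (hg0 : g ≠ 0) : ∃ (b₀ : K[X]) (c' : L), b₀ ≠ 0 ∧ c' ∈ CC (algebraMap K L).range u θ ∧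
      g * c' = eval₂ (algebraMap K L) u b₀ := by
  classical
  let S := CC (algebraMap K L).range u θ
  let j : K[X] →+* S := eval₂RingHom ((algebraMap K L).codRestrict S fun c => le_CC _ u θ ⟨c, rfl⟩)
    ⟨u, u_mem_CC _ u θ⟩
  have hj : ∀ p : K[X], ((j p : S) : L) = eval₂ (algebraMap K L) u p := by
    intro p
    have h1 : (S.subtype).comp j = eval₂RingHom (algebraMap K L) u := by
      apply Polynomial.ringHom_ext
      · intro c
        rw [RingHom.comp_apply, coe_eval₂RingHom, eval₂_C, coe_eval₂RingHom, eval₂_C]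
        rfl
      · rw [RingHom.comp_apply, coe_eval₂RingHom, eval₂_X, coe_eval₂RingHom, eval₂_X]
        rfl
    exact congrArg (fun g => g p) h1
  letI : Algebra K[X] S := j.toAlgebra
  have hji : Function.Injective j := by
    intro p q h
    have h1 : eval₂ (algebraMap K L) u p = eval₂ (algebraMap K L) u q := by
      rw [← hj, ← hj, h]
    exact (transcendental_iff_injective.1 hu) h1
  -- `θ` is integral
  have hθ : IsIntegral K[X] (⟨θ, t_mem_CC _ u θ⟩ : S) := by
    refine ⟨f, hf, ?_⟩
    apply Subtype.ext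
    have h1 : ((S.subtype).comp (eval₂RingHom (algebraMap K[X] S) ⟨θ, t_mem_CC _ u θ⟩)) =
        ev (algebraMap K L) (u, θ) := by
      apply Polynomial.ringHom_ext
      · intro p
        rw [RingHom.comp_apply, coe_eval₂RingHom, eval₂_C, ev_C]
        exact hj p
      · rw [RingHom.comp_apply, coe_eval₂RingHom, eval₂_X, ev_X]
        rfl
    exact (congrArg (fun g => g f) h1).trans hfθ
  have hint : ∀ x : S, IsIntegral K[X] x := by
    rintro ⟨x, hx⟩
    let B : Subring L :=
      { carrier := {x | ∃ h : x ∈ S, IsIntegral K[X] (⟨x, h⟩ : S)}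
        zero_mem' := ⟨S.zero_mem, isIntegral_zero⟩
        one_mem' := ⟨S.one_mem, isIntegral_one⟩
        add_mem' := by
          rintro x y ⟨hx, h1⟩ ⟨hy, h2⟩
          exact ⟨S.add_mem hx hy, h1.add h2⟩
        mul_mem' := by
          rintro x y ⟨hx, h1⟩ ⟨hy, h2⟩
          exact ⟨S.mul_mem hx hy, h1.mul h2⟩
        neg_mem' := by
          rintro x ⟨hx, h1⟩
          exact ⟨S.neg_mem hx, h1.neg⟩ }
    have h1 : S ≤ B := by
      refine CC_le ?_ ?_ ?_
      · rintro _ ⟨c, rfl⟩
        refine ⟨le_CC _ u θ ⟨c, rfl⟩, ?_⟩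
        have h2 : (⟨algebraMap K L c, le_CC _ u θ ⟨c, rfl⟩⟩ : S) = algebraMap K[X] S (C c) := by
          apply Subtype.ext
          show _ = ((j (C c) : S) : L)
          rw [hj, eval₂_C]
        rw [h2]
        exact isIntegral_algebraMap
      · refine ⟨u_mem_CC _ u θ, ?_⟩
        have h2 : (⟨u, u_mem_CC _ u θ⟩ : S) = algebraMap K[X] S X := by
          apply Subtype.ext
          show _ = ((j X : S) : L)
          rw [hj, eval₂_X]
        rw [h2]
        exact isIntegral_algebraMap
      · exact ⟨t_mem_CC _ u θ, hθ⟩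
    obtain ⟨h2, h3⟩ := h1 hx
    exact h3
  have h1 : IsAlgebraic K[X] (⟨g, hg⟩ : S) := (hint _).isAlgebraic
  obtain ⟨b₀, hb₀, ⟨c', hc'⟩, hcc⟩ := h1.exists_nonzero_dvd (mem_nonZeroDivisors_of_ne_zero
    fun h => hg0 (congrArg Subtype.val h))
  refine ⟨b₀, c', hb₀, hc', ?_⟩
  rw [← hj]
  exact (congrArg Subtype.val hcc).symm

end

end Pool.Agent.K6.H86.NP
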