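import Pool.Agent.K6.H86.NP.Fld

/-!
# Common localizations
-/

set_option autoImplicit false
set_option linter.all false

open Polynomial FF NumberField

namespace Pool.Agent.K6.H86.NP

open Pool.Agent.R410.LW (ev ev_C ev_X ev_eq ev_eq' FG)

section
variable {M L : Type} [Field M] [Field L] [Algebra M L]

theorem exists_R0 {k : Type} [Field k] [NumberField k] (hM : FG M) (ρ : 𝓞 k →+* L)
    (hρ : ∀ o, ρ o ∈ Set.range (algebraMap M L)) : ∃ R₀ : Subring L, FGr R₀ ∧
      (∀ x ∈ R₀, x ∈ Set.range (algebraMap M L)) ∧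
      (∀ x ∈ (algebraMap M L).range, ∃ c ∈ R₀, c ≠ 0 ∧ c * x ∈ R₀) ∧ ∀ o, ρ o ∈ R₀ := by
  classical
  obtain ⟨S, hS⟩ := hM
  obtain ⟨G, hG⟩ := (inferInstance : Algebra.FiniteType ℤ (𝓞 k)).out
  set R₀ : Subring L := Subring.closure ((S.image (algebraMap M L) : Finset L) : Set L) ⊔
    Subring.closure ((G.image ρ : Finset L) : Set L) with hR₀
  have hρR : ∀ o, ρ o ∈ R₀ := by
    intro o
    have ho : o ∈ Algebra.adjoin ℤ (G : Set (𝓞 k)) := by rw [hG]; trivial
    induction ho using Algebra.adjoin_induction with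
    | mem x hx =>
      exact (le_sup_right : Subring.closure ((G.image ρ : Finset L) : Set L) ≤ R₀)
        (Subring.subset_closure (by rw [Finset.coe_image]; exact ⟨x, hx, rfl⟩))
    | algebraMap n =>
      have : ρ (algebraMap ℤ (𝓞 k) n) = (n : L) := by simp
      rw [this]
      exact intCast_mem _ n
    | add x y _ _ h1 h2 => rw [map_add]; exact add_mem h1 h2
    | mul x y _ _ h1 h2 => rw [map_mul]; exact mul_mem h1 h2
  refine ⟨R₀, FGr.sup ⟨_, rfl⟩ ⟨_, rfl⟩, ?_, ?_, hρR⟩
  · have h1 : R₀ ≤ (algebraMap M L).range := by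
      refine sup_le ?_ ?_
      · rw [Subring.closure_le]
        intro x hx
        rw [Finset.coe_image] at hx
        obtain ⟨y, -, rfl⟩ := hx
        exact ⟨y, rfl⟩
      · rw [Subring.closure_le]
        intro x hx
        rw [Finset.coe_image] at hx
        obtain ⟨y, -, rfl⟩ := hx
        exact hρ y
    exact fun x hx => h1 hx
  · rintro _ ⟨x, rfl⟩
    have hx : x ∈ Subfield.closure (S : Set M) := by rw [hS]; trivial
    rw [Subfield.mem_closure_iff] at hx
    obtain ⟨y, hy, z, hz, rfl⟩ := hx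
    have key : ∀ y ∈ Subring.closure (S : Set M), algebraMap M L y ∈ R₀ := by
      intro y hy
      have h1 : Subring.closure (S : Set M) ≤ R₀.comap (algebraMap M L) := by
        rw [Subring.closure_le]
        intro s hs
        exact (le_sup_left : _ ≤ R₀) (Subring.subset_closure (by
          rw [Finset.coe_image]; exact ⟨s, hs, rfl⟩))
      exact h1 hy
    by_cases hz0 : z = 0
    · refine ⟨1, R₀.one_mem, one_ne_zero, ?_⟩
      rw [hz0, div_zero, map_zero, mul_zero]
      exact R₀.zero_mem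
    · refine ⟨algebraMap M L z, key z hz, (map_ne_zero_iff _ (algebraMap M L).injective).2 hz0, ?_⟩
      rw [← map_mul, mul_div_cancel₀ _ hz0]
      exact key y hy

/-- representatives of the prime factors -/
theorem exists_reps {R : Type} [CommRing R] [IsDomain R] [UniqueFactorizationMonoid R] {H : R}
    (hH : H ≠ 0) : ∃ (ι : Type) (_ : Fintype ι) (Q : ι → R), (∀ i, Prime (Q i)) ∧
      (∀ i, Q i ∣ H) ∧ (∀ i j, Q i ∣ Q j → i = j) ∧ ∀ P, Prime P → P ∣ H → ∃ i, Q i ∣ P := by
  classical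
  induction H using UniqueFactorizationMonoid.induction_on_prime with
  | h₁ => exact (hH rfl).elim
  | h₂ x hx =>
    exact ⟨Empty, inferInstance, fun i => i.elim, fun i => i.elim, fun i => i.elim,
      fun i => i.elim, fun P hP hPx => (hP.not_unit (isUnit_of_dvd_unit hPx hx)).elim⟩
  | h₃ a p ha hp ih =>
    obtain ⟨ι, iι, Q, h1, h2, h3, h4⟩ := ih ha
    by_cases hc : ∃ i, Q i ∣ p
    · refine ⟨ι, iι, Q, h1, fun i => (h2 i).mul_left p, h3, fun P hP hPa => ?_⟩
      rcases hP.dvd_or_dvd hPa with h5 | h5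
      · obtain ⟨i, hi⟩ := hc
        exact ⟨i, hi.trans (hP.associated_of_dvd hp h5).symm.dvd⟩
      · exact h4 P hP h5
    · refine ⟨Option ι, inferInstance, fun o => o.elim p Q, ?_, ?_, ?_, ?_⟩
      · rintro (_ | i)
        · exact hp
        · exact h1 i
      · rintro (_ | i)
        · exact dvd_mul_right _ _
        · exact (h2 i).mul_left p
      · rintro (_ | i) (_ | j) hij
        · rfl
        · exfalso
          exact hc ⟨j, (hp.associated_of_dvd (h1 j) hij).symm.dvd⟩
        · exact (hc ⟨i, hij⟩).elim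
        · rw [h3 i j hij]
      · intro P hP hPa
        rcases hP.dvd_or_dvd hPa with h5 | h5
        · exact ⟨none, (hP.associated_of_dvd hp h5).symm.dvd⟩
        · obtain ⟨i, hi⟩ := h4 P hP h5
          exact ⟨some i, hi⟩

end

section
variable {K L : Type} [Field K] [Field L] [Algebra K L]

/-- an integral equation with coefficients in the polynomial ring -/
theorem int_poly {v z : L} (hz : IsIntegral (Algebra.adjoin K ({v} : Set L)) z) :
    ∃ p : K[X][X], p.Monic ∧ ev (algebraMap K L) (v, z) p = 0 := by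
  obtain ⟨P, hP, hPz⟩ := hz
  let j : K[X] →+* Algebra.adjoin K ({v} : Set L) :=
    (aeval (⟨v, Algebra.self_mem_adjoin_singleton K v⟩ : Algebra.adjoin K ({v} : Set L)) :
      K[X] →ₐ[K] Algebra.adjoin K ({v} : Set L))
  have hj : ∀ p : K[X], ((j p : Algebra.adjoin K ({v} : Set L)) : L) =
      eval₂ (algebraMap K L) v p := by
    intro p
    have h1 : ((Algebra.adjoin K ({v} : Set L)).val : Algebra.adjoin K ({v} : Set L) →+* L).comp j =
        eval₂RingHom (algebraMap K L) v := by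
      apply Polynomial.ringHom_ext
      · intro c
        rw [RingHom.comp_apply, coe_eval₂RingHom, eval₂_C]
        show (((aeval (⟨v, Algebra.self_mem_adjoin_singleton K v⟩ :
          Algebra.adjoin K ({v} : Set L)) (C c) : Algebra.adjoin K ({v} : Set L))) : L) = _
        rw [aeval_C]
        rfl
      · rw [RingHom.comp_apply, coe_eval₂RingHom, eval₂_X]
        show (((aeval (⟨v, Algebra.self_mem_adjoin_singleton K v⟩ :
          Algebra.adjoin K ({v} : Set L)) (X : K[X]) : Algebra.adjoin K ({v} : Set L))) : L) = _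
        rw [aeval_X]
    exact congrArg (fun g => g p) h1
  have hjs : Function.Surjective j := by
    rintro ⟨x, hx⟩
    induction hx using Algebra.adjoin_induction with
    | mem x hx =>
      refine ⟨X, Subtype.ext ?_⟩
      rw [hj, eval₂_X]
      exact (Set.mem_singleton_iff.1 hx).symm
    | algebraMap c =>
      refine ⟨C c, Subtype.ext ?_⟩
      rw [hj, eval₂_C]
    | add x y hx hy h1 h2 =>
      obtain ⟨p, hp⟩ := h1
      obtain ⟨q, hq⟩ := h2
      exact ⟨p + q, by rw [map_add, hp, hq]; rfl⟩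
    | mul x y hx hy h1 h2 =>
      obtain ⟨p, hp⟩ := h1
      obtain ⟨q, hq⟩ := h2
      exact ⟨p * q, by rw [map_mul, hp, hq]; rfl⟩
  have hPl : P ∈ Polynomial.lifts j := by
    rw [Polynomial.mem_lifts]
    exact Polynomial.map_surjective j hjs P
  obtain ⟨p, hpP, -, hpm⟩ := lifts_and_natDegree_eq_and_monic hPl hP
  refine ⟨p, hpm, ?_⟩
  have h1 : ev (algebraMap K L) (v, z) p =
      eval₂ (algebraMap (Algebra.adjoin K ({v} : Set L)) L) z (p.map j) := by
    rw [eval₂_map]
    unfold ev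
    rw [coe_eval₂RingHom]
    congr 1
    apply RingHom.ext
    intro q
    exact (hj q).symm
  rw [h1, hpP]
  exact hPz

variable {R : Subring L} (hR : ∀ x ∈ R, x ∈ Set.range (algebraMap K L))

theorem lift1 (p : K[X]) (h : ∀ j, algebraMap K L (p.coeff j) ∈ R) :
    ∃ q : R[X], q.map (toK R hR) = p := by
  have h1 : p ∈ Polynomial.lifts (toK R hR) := by
    rw [Polynomial.lifts_iff_coeff_lifts]
    intro j
    refine ⟨⟨_, h j⟩, ?_⟩
    apply (algebraMap K L).injective
    rw [algebraMap_toK]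
  rw [Polynomial.mem_lifts] at h1
  exact h1

theorem lift2 (p : K[X][X]) (h : ∀ i j, algebraMap K L ((p.coeff i).coeff j) ∈ R) :
    ∃ q : R[X][X], q.map (mapRingHom (toK R hR)) = p := by
  have h1 : p ∈ Polynomial.lifts (mapRingHom (toK R hR)) := by
    rw [Polynomial.lifts_iff_coeff_lifts]
    intro i
    obtain ⟨q, hq⟩ := lift1 hR (p.coeff i) (h i)
    exact ⟨q, hq⟩
  rw [Polynomial.mem_lifts] at h1
  exact h1

theorem EL_toK (u θ : L) (q : R[X][X]) :
    EL R u θ q = ev (algebraMap K L) (u, θ) (q.map (mapRingHom (toK R hR))) := by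
  have h : EL R u θ = (ev (algebraMap K L) (u, θ)).comp (mapRingHom (mapRingHom (toK R hR))) := by
    apply Polynomial.ringHom_ext
    · intro p
      rw [EL_C, RingHom.comp_apply, coe_mapRingHom, Polynomial.map_C, ev_C, coe_mapRingHom,
        eval₂_map]
      congr 1
      apply RingHom.ext
      intro x
      exact (algebraMap_toK R hR x).symm
    · rw [EL_X, RingHom.comp_apply, coe_mapRingHom, Polynomial.map_X, ev_X]
  exact congrArg (fun g => g q) h

theorem eval_toK (u : L) (q : R[X]) :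
    eval₂ R.subtype u q = eval₂ (algebraMap K L) u (q.map (toK R hR)) := by
  rw [eval₂_map]
  congr 1
  apply RingHom.ext
  intro x
  exact (algebraMap_toK R hR x).symm

/-- the coefficients of finitely many polynomials -/
theorem coef_den {R₁ : Subring L} (h : ∀ x ∈ (algebraMap K L).range, ∃ c ∈ R₁, c ≠ 0 ∧ c * x ∈ R₁)
    (Y : Finset K[X][X]) : ∃ n ∈ R₁, n ≠ 0 ∧
      ∀ p ∈ Y, ∀ i j, n * algebraMap K L ((p.coeff i).coeff j) ∈ R₁ := by
  classical
  let G : Finset L := Y.biUnion fun p => p.support.biUnion fun i =>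
    (p.coeff i).support.image fun j => algebraMap K L ((p.coeff i).coeff j)
  obtain ⟨n, hn, hn0, hnG⟩ := common_den (le_refl R₁) G (fun y hy => by
    simp only [G, Finset.mem_biUnion, Finset.mem_image] at hy
    obtain ⟨p, -, i, -, j, -, rfl⟩ := hy
    exact h _ ⟨_, rfl⟩)
  refine ⟨n, hn, hn0, fun p hp i j => ?_⟩
  by_cases hi : i ∈ p.support
  · by_cases hj : j ∈ (p.coeff i).support
    · refine hnG _ ?_
      simp only [G, Finset.mem_biUnion, Finset.mem_image]
      exact ⟨p, hp, i, hi, j, hj, rfl⟩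
    · rw [notMem_support_iff.1 hj, map_zero, mul_zero]
      exact R₁.zero_mem
  · rw [notMem_support_iff.1 hi, coeff_zero, map_zero, mul_zero]
    exact R₁.zero_mem

end

section
variable {M K L : Type} [Field M] [Field K] [Field L] [Algebra M K] [Algebra K L] [Algebra M L]
  [IsScalarTower M K L]

/-- **The common localization** of the two coordinate rings. -/
theorem exists_gh {s t : ℕ} {R₀ : Subring L}
    (hfr0 : ∀ x ∈ (algebraMap M L).range, ∃ c ∈ R₀, c ≠ 0 ∧ c * x ∈ R₀) {a : Fin s → L}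
    (ha : IntermediateField.adjoin M (Set.range a) = ⊤) {w : Fin t → L}
    (hfr1 : ∀ x ∈ (algebraMap K L).range, ∃ c ∈ PP R₀ w, c ≠ 0 ∧ c * x ∈ PP R₀ w) {u θ : L}
    (hθ : IntermediateField.adjoin K {u, θ} = ⊤) (Z : Finset L) :
    ∃ (g h : L) (hg : g ∈ CC (PP R₀ w) u θ) (hh : h ∈ PP R₀ a), g ≠ 0 ∧ h ≠ 0 ∧
      locS (CC (PP R₀ w) u θ) hg = locS (PP R₀ a) hh ∧
      ∀ z ∈ Z, z ∈ locS (CC (PP R₀ w) u θ) hg := by
  classical
  set R₁ := PP R₀ w with hR₁
  set C₁ := CC R₁ u θ with hC₁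
  set P := PP R₀ a with hP
  have h01 : R₀ ≤ R₁ := le_PP R₀ w
  have h1C : R₁ ≤ C₁ := le_CC R₁ u θ
  -- denominators in `C₁`
  have dC : ∀ y : L, ∃ b ∈ C₁, b ≠ 0 ∧ b * y ∈ C₁ := by
    intro y
    obtain ⟨b, hb, hb0, hby⟩ := frac_CC hθ y
    obtain ⟨c, hc, hc0, hcb⟩ := spread_CC hfr1 hb
    obtain ⟨c', hc', hc'0, hcb'⟩ := spread_CC hfr1 hby
    refine ⟨c * c' * b, ?_, mul_ne_zero (mul_ne_zero hc0 hc'0) hb0, ?_⟩
    · have : c * c' * b = c' * (c * b) := by ring
      rw [this]
      exact C₁.mul_mem (h1C hc') hcb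
    · have : c * c' * b * y = c * (c' * (b * y)) := by ring
      rw [this]
      exact C₁.mul_mem (h1C hc) hcb'
  -- denominators in `P`
  have dP : ∀ y : L, ∃ b ∈ P, b ≠ 0 ∧ b * y ∈ P := by
    intro y
    obtain ⟨S, T, hT, hy⟩ := frac_of_gen ha y
    have key : ∀ S : MvPolynomial (Fin s) M, MvPolynomial.aeval a S ∈ PP (algebraMap M L).range a := by
      intro S
      induction S using MvPolynomial.induction_on with
      | C c => rw [MvPolynomial.aeval_C]; exact le_PP _ a ⟨c, rfl⟩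
      | add p q hp hq => rw [map_add]; exact add_mem hp hq
      | mul_X p i hp => rw [map_mul, MvPolynomial.aeval_X]; exact mul_mem hp (x_mem_PP _ a i)
    obtain ⟨c, hc, hc0, hcT⟩ := spread_PP hfr0 (key T)
    obtain ⟨c', hc', hc'0, hcS⟩ := spread_PP hfr0 (key S)
    refine ⟨c * c' * MvPolynomial.aeval a T, ?_, mul_ne_zero (mul_ne_zero hc0 hc'0) hT, ?_⟩
    · have : c * c' * MvPolynomial.aeval a T = c' * (c * MvPolynomial.aeval a T) := by ring
      rw [this]
      exact P.mul_mem (le_PP R₀ a hc') hcT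
    · have : c * c' * MvPolynomial.aeval a T * y = c * (c' * MvPolynomial.aeval a S) := by
        rw [hy]
        field_simp
      rw [this]
      exact P.mul_mem (le_PP R₀ a hc) hcS
  have cden : ∀ (A : Subring L), (∀ y : L, ∃ b ∈ A, b ≠ 0 ∧ b * y ∈ A) → ∀ G : Finset L,
      ∃ c ∈ A, c ≠ 0 ∧ ∀ y ∈ G, c * y ∈ A := fun A h G =>
    common_den (le_refl A) G fun y _ => h y
  obtain ⟨g₀, hg₀, hg₀0, hg₀Z⟩ := cden C₁ dC (Z ∪ Finset.univ.image a)
  obtain ⟨h, hh, hh0, hhG⟩ := cden P dP ({u, θ, g₀⁻¹} ∪ Finset.univ.image w)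
  have inv_div : ∀ {A : Subring L} {c y : L} (hc : c ∈ A) (hc0 : c ≠ 0), c * y ∈ A →
      y ∈ locS A hc := by
    intro A c y hc hc0 hy
    exact ⟨1, by rwa [pow_one]⟩
  -- `P` in the localization
  have hPg₀ : P ≤ locS C₁ hg₀ := by
    refine PP_le ((h01.trans h1C).trans (le_locS hg₀)) fun i => ?_
    exact inv_div hg₀ hg₀0 (hg₀Z _ (Finset.mem_union_right _ (Finset.mem_image.2
      ⟨i, Finset.mem_univ _, rfl⟩)))
  obtain ⟨m, hm⟩ := hPg₀ hh
  have hg : g₀ ^ (m + 1) * h ∈ C₁ := by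
    have : g₀ ^ (m + 1) * h = g₀ * (g₀ ^ m * h) := by ring
    rw [this]
    exact C₁.mul_mem hg₀ hm
  have hg0 : g₀ ^ (m + 1) * h ≠ 0 := mul_ne_zero (pow_ne_zero _ hg₀0) hh0
  have hg₀i : g₀⁻¹ ∈ locS C₁ hg := by
    refine inv_mem_of_dvd (a := g₀ ^ (m + 1) * h) (b := g₀) (c := g₀ ^ m * h) (by ring) hg0
      (inv_mem_locS hg) (le_locS hg hm)
  have hhi : h⁻¹ ∈ locS C₁ hg := by
    refine inv_mem_of_dvd (a := g₀ ^ (m + 1) * h) (b := h) (c := g₀ ^ (m + 1)) (by ring) hg0
      (inv_mem_locS hg) (le_locS hg (C₁.pow_mem hg₀ _))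
  have hZi : ∀ y ∈ Z ∪ Finset.univ.image a, y ∈ locS C₁ hg := by
    intro y hy
    have : y = g₀⁻¹ * (g₀ * y) := by
      rw [← mul_assoc, inv_mul_cancel₀ hg₀0, one_mul]
    rw [this]
    exact Subring.mul_mem _ hg₀i (le_locS hg (hg₀Z y hy))
  refine ⟨g₀ ^ (m + 1) * h, h, hg, hh, hg0, hh0, ?_, fun z hz =>
    hZi z (Finset.mem_union_left _ hz)⟩
  have hG : ∀ y ∈ ({u, θ, g₀⁻¹} ∪ Finset.univ.image w : Finset L), y ∈ locS P hh := fun y hy =>
    inv_div hh hh0 (hhG y hy)
  apply le_antisymm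
  · refine locS_le hg hg0 ?_ ?_
    · refine CC_le (PP_le ((le_PP R₀ a).trans (le_locS hh)) fun i => ?_) ?_ ?_
      · exact hG _ (Finset.mem_union_right _ (Finset.mem_image.2 ⟨i, Finset.mem_univ _, rfl⟩))
      · exact hG _ (Finset.mem_union_left _ (by simp))
      · exact hG _ (Finset.mem_union_left _ (by simp))
    · rw [mul_inv, ← inv_pow]
      exact Subring.mul_mem _ (Subring.pow_mem _ (hG _ (Finset.mem_union_left _ (by simp))) _)
        (inv_mem_locS hh)
  · refine locS_le hh hh0 (PP_le ((h01.trans h1C).trans (le_locS hg)) fun i => ?_) hhi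
    exact hZi _ (Finset.mem_union_right _ (Finset.mem_image.2 ⟨i, Finset.mem_univ _, rfl⟩))

end

end Pool.Agent.K6.H86.NP
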