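import Pool.Agent.K6.H86.NP.Plc

/-!
# The exact identity for the number of the points
-/

set_option autoImplicit false
set_option linter.all false

open Polynomial FF NumberField

namespace Pool.Agent.K6.H86.NP

open Pool.Agent.R410.LW (ev ev_C ev_X ev_eq ev_eq' FG)
open Pool.Agent.R410.NG (Asy Ff)

section
variable {M L : Type} [Field M] [Field L] [Algebra M L]

/-- the points of affine space over a base -/
noncomputable def homPP {m : ℕ} {S : Subring L} (hS : ∀ x ∈ S, x ∈ Set.range (algebraMap M L))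
    {x : Fin m → L} (hx : AlgebraicIndependent M x) (F : Type) [Field F] :
    (PP S x →+* F) ≃ (MvPolynomial (Fin m) S →+* F) where
  toFun χ := χ.comp (evPe hS hx : MvPolynomial (Fin m) S →+* PP S x)
  invFun φ := φ.comp ((evPe hS hx).symm : PP S x →+* MvPolynomial (Fin m) S)
  left_inv χ := by
    refine RingHom.ext fun y => ?_
    show χ (evPe hS hx ((evPe hS hx).symm y)) = χ y
    rw [RingEquiv.apply_symm_apply]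
  right_inv φ := by
    refine RingHom.ext fun y => ?_
    show φ ((evPe hS hx).symm (evPe hS hx y)) = φ y
    rw [RingEquiv.symm_apply_apply]

theorem homPP_apply {m : ℕ} {S : Subring L} (hS : ∀ x ∈ S, x ∈ Set.range (algebraMap M L))
    {x : Fin m → L} (hx : AlgebraicIndependent M x) {F : Type} [Field F] (χ : PP S x →+* F)
    (H : MvPolynomial (Fin m) S) : homPP hS hx F χ H = χ ⟨evP S x H, evP_mem S x H⟩ := rfl

theorem poly_count {m : ℕ} {S : Subring L} (hS : ∀ x ∈ S, x ∈ Set.range (algebraMap M L))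
    (fS : FGr S) {x : Fin m → L} (hx : AlgebraicIndependent M x) {c₀ y : L} (hc₀ : c₀ ∈ S)
    (hy : y ∈ PP S x) {O : Type} [CommRing O] {ρ : O →+* L} (hρ : ∀ o, ρ o ∈ S) {F : Type} [Field F]
    [Finite F] (ψ : O →+* F) :
    (Nat.card {χ : PP S x →+* F // Ov ρ ψ χ ∧
      χ ⟨c₀ * y, (PP S x).mul_mem (le_PP S x hc₀) hy⟩ ≠ 0} : ℝ) =
      (Nat.card F : ℝ) ^ m * Nat.card {φ : S →+* F // Ov ρ ψ φ ∧ φ ⟨c₀, hc₀⟩ ≠ 0} -
      Nat.card {χ : PP S x →+* F // Ov ρ ψ χ ∧ (χ ⟨c₀, le_PP S x hc₀⟩ ≠ 0 ∧ χ ⟨y, hy⟩ = 0)} := by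
  classical
  have i0 := fin_hom fS F
  have i1 := fin_hom (fg_PP fS x) F
  have h1 := card_split (α := PP S x →+* F) (fun χ => Ov ρ ψ χ ∧ χ ⟨c₀, le_PP S x hc₀⟩ ≠ 0)
    (fun χ => χ ⟨y, hy⟩ ≠ 0)
  have h2 : Nat.card {χ : PP S x →+* F // Ov ρ ψ χ ∧ χ ⟨c₀, le_PP S x hc₀⟩ ≠ 0} =
      (Nat.card F) ^ m * Nat.card {φ : S →+* F // Ov ρ ψ φ ∧ φ ⟨c₀, hc₀⟩ ≠ 0} := by
    have e : {χ : PP S x →+* F // Ov ρ ψ χ ∧ χ ⟨c₀, le_PP S x hc₀⟩ ≠ 0} ≃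
        (Fin m → F) × {φ : S →+* F // Ov ρ ψ φ ∧ φ ⟨c₀, hc₀⟩ ≠ 0} :=
      { toFun := fun χ => ((mvE (homPP hS hx F χ.1)).2, ⟨rst (le_PP S x) χ.1,
          (ov_rst (le_PP S x) hρ ψ χ.1).2 χ.2.1, χ.2.2⟩)
        invFun := fun z => ⟨(homPP hS hx F).symm (mvE.symm (z.2.1, z.1)), by
          have key : rst (le_PP S x) ((homPP hS hx F).symm (mvE.symm (z.2.1, z.1))) = z.2.1 := by
            refine RingHom.ext fun c => ?_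
            have h3 : (evPe hS hx).symm ⟨(c : L), le_PP S x c.2⟩ = MvPolynomial.C c := by
              rw [RingEquiv.symm_apply_eq]
              exact Subtype.ext (evP_C S x c).symm
            show (mvE.symm (z.2.1, z.1)) ((evPe hS hx).symm ⟨(c : L), le_PP S x c.2⟩) = _
            rw [h3]
            exact congrArg (fun w => w.1 c) (mvE.apply_symm_apply (z.2.1, z.1))
          constructor
          · rw [← ov_rst (le_PP S x) hρ, key]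
            exact z.2.2.1
          · have h4 : ((homPP hS hx F).symm (mvE.symm (z.2.1, z.1))) ⟨c₀, le_PP S x hc₀⟩ =
              rst (le_PP S x) ((homPP hS hx F).symm (mvE.symm (z.2.1, z.1))) ⟨c₀, hc₀⟩ := rfl
            rw [h4, key]
            exact z.2.2.2⟩
        left_inv := fun χ => by
          apply Subtype.ext
          apply (homPP hS hx F).injective
          rw [Equiv.apply_symm_apply]
          apply mvE.injective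
          rw [Equiv.apply_symm_apply]
          refine Prod.ext ?_ rfl
          refine RingHom.ext fun c => ?_
          show χ.1 ⟨(c : L), _⟩ = χ.1 ⟨evP S x (MvPolynomial.C c), _⟩
          congr 1
          exact Subtype.ext (evP_C S x c).symm
        right_inv := fun z => by
          refine Prod.ext ?_ ?_
          · show (mvE (homPP hS hx F ((homPP hS hx F).symm (mvE.symm (z.2.1, z.1))))).2 = z.1
            rw [Equiv.apply_symm_apply, Equiv.apply_symm_apply]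
          · apply Subtype.ext
            show rst (le_PP S x) ((homPP hS hx F).symm (mvE.symm (z.2.1, z.1))) = z.2.1
            refine RingHom.ext fun c => ?_
            have h3 : (evPe hS hx).symm ⟨(c : L), le_PP S x c.2⟩ = MvPolynomial.C c := by
              rw [RingEquiv.symm_apply_eq]
              exact Subtype.ext (evP_C S x c).symm
            show (mvE.symm (z.2.1, z.1)) ((evPe hS hx).symm ⟨(c : L), le_PP S x c.2⟩) = _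
            rw [h3]
            exact congrArg (fun w => w.1 c) (mvE.apply_symm_apply (z.2.1, z.1)) }
    rw [Nat.card_congr e, Nat.card_prod, Nat.card_fun, Nat.card_eq_fintype_card (α := Fin m),
      Fintype.card_fin]
  rw [h2] at h1
  have h3 : Nat.card {χ : PP S x →+* F // (Ov ρ ψ χ ∧ χ ⟨c₀, le_PP S x hc₀⟩ ≠ 0) ∧
      χ ⟨y, hy⟩ ≠ 0} = Nat.card {χ : PP S x →+* F // Ov ρ ψ χ ∧
      χ ⟨c₀ * y, (PP S x).mul_mem (le_PP S x hc₀) hy⟩ ≠ 0} := by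
    refine Nat.card_congr (Equiv.subtypeEquivRight fun χ => ?_)
    have h4 : (⟨c₀ * y, (PP S x).mul_mem (le_PP S x hc₀) hy⟩ : PP S x) =
      ⟨c₀, le_PP S x hc₀⟩ * ⟨y, hy⟩ := rfl
    rw [h4, map_mul, and_assoc]
    refine and_congr_right fun _ => ?_
    exact mul_ne_zero_iff.symm
  have h4 : Nat.card {χ : PP S x →+* F // (Ov ρ ψ χ ∧ χ ⟨c₀, le_PP S x hc₀⟩ ≠ 0) ∧
      ¬ χ ⟨y, hy⟩ ≠ 0} = Nat.card {χ : PP S x →+* F // Ov ρ ψ χ ∧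
      (χ ⟨c₀, le_PP S x hc₀⟩ ≠ 0 ∧ χ ⟨y, hy⟩ = 0)} := by
    refine Nat.card_congr (Equiv.subtypeEquivRight fun χ => ?_)
    rw [not_not, and_assoc]
  rw [h3, h4] at h1
  have h5 : ((Nat.card F : ℝ)) ^ m * Nat.card {φ : S →+* F // Ov ρ ψ φ ∧ φ ⟨c₀, hc₀⟩ ≠ 0} =
      (Nat.card {χ : PP S x →+* F // Ov ρ ψ χ ∧
        χ ⟨c₀ * y, (PP S x).mul_mem (le_PP S x hc₀) hy⟩ ≠ 0} : ℝ) +
      Nat.card {χ : PP S x →+* F // Ov ρ ψ χ ∧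
        (χ ⟨c₀, le_PP S x hc₀⟩ ≠ 0 ∧ χ ⟨y, hy⟩ = 0)} := by
    exact_mod_cast h1
  rw [h5]
  ring

end

section
variable {M K L : Type} [Field M] [Field K] [Field L] [Algebra K L] [Algebra M L]

/-- **The exact identity.** -/
theorem Cnv.TT_id {s t : ℕ} {a : Fin s → L} {w : Fin t → L} {u : L} {R₀ R A₁ A₂ : Subring L}
    {θ g h n t₀ c' : L} {G₁ G₂ : Finset L} {f : R[X][X]} {b₀ : R[X]}
    (D : Cnv M K a w u R₀ R A₁ A₂ θ g h n t₀ c' G₁ G₂ f b₀) (ha : AlgebraicIndependent M a)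
    (hw : AlgebraicIndependent M w) (hst : s = t + 1) {N₁ : L} (hN₁ : N₁ ∈ PP R₀ w) (hN₁0 : N₁ ≠ 0)
    (hN₁n : ∃ x ∈ PP R₀ w, N₁ = n * x) {j : ℕ} (hj : h ^ j * N₁ ∈ PP R₀ a) {c₀ : L} (hc₀ : c₀ ∈ R₀)
    (hc₀0 : c₀ ≠ 0) (hR₀ : R₀ ≤ R) (hN : c₀ * N₁ ∈ R) (hg₁ : g ∈ A₁)
    {O : Type} [CommRing O] {ρ : O →+* L} (hρ : ∀ o, ρ o ∈ R₀) {F : Type} [Field F] [Finite F]
    (ψ : O →+* F) :
    TT R A₁ A₂ u ρ F ψ (c₀ * N₁) =
      -((Nat.card F : ℝ) ^ t * Nat.card {φ : R₀ →+* F // Ov ρ ψ φ ∧ φ ⟨c₀, hc₀⟩ ≠ 0}) -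
      Nat.card {χ : PP R₀ a →+* F // Ov ρ ψ χ ∧ (χ ⟨c₀, le_PP R₀ a hc₀⟩ ≠ 0 ∧
        χ ⟨h * (h ^ j * N₁), (PP R₀ a).mul_mem D.hh hj⟩ = 0)} +
      ((Nat.card F : ℝ) + 1) * Nat.card {χ : PP R₀ w →+* F // Ov ρ ψ χ ∧
        (χ ⟨c₀, le_PP R₀ w hc₀⟩ ≠ 0 ∧ χ ⟨N₁, hN₁⟩ = 0)} +
      Nat.card {χ : A₁ →+* F // (Ov ρ ψ χ ∧ χ ⟨c₀ * N₁, D.mdl.le₁ hN⟩ ≠ 0) ∧ χ ⟨g, hg₁⟩ = 0} +
      Nat.card {χ : A₂ →+* F // (Ov ρ ψ χ ∧ χ ⟨c₀ * N₁, D.mdl.le₂ hN⟩ ≠ 0) ∧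
        χ ⟨u⁻¹, D.mdl.mem₂⟩ = 0} := by
  classical
  have hR₁R : PP R₀ w ≤ R := by rw [D.hR]; exact le_locS D.hn
  have hcN0 : c₀ * N₁ ≠ 0 := mul_ne_zero hc₀0 hN₁0
  have hcN₁ : c₀ * N₁ ∈ PP R₀ w := (PP R₀ w).mul_mem (le_PP R₀ w hc₀) hN₁
  rw [TT_eq D.mdl.fgR D.mdl.fg₁ D.mdl.fg₂ D.mdl.le₁ D.mdl.le₂ D.mdl.mem₂ (fun o => hR₀ (hρ o)) ψ hN]
  have i1 := fin_hom D.mdl.fg₁ F
  -- the base
  have e0 : Nat.card {φ : R →+* F // Ov ρ ψ φ ∧ φ ⟨c₀ * N₁, hN⟩ ≠ 0} =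
      Nat.card {φ : PP R₀ w →+* F // Ov ρ ψ φ ∧ φ ⟨c₀ * N₁, hcN₁⟩ ≠ 0} := by
    refine loc_card hR₁R hcN₁ ?_ (fun χ => Ov ρ ψ χ) (fun χ => Ov ρ ψ χ) fun χ =>
      (ov_rst hR₁R (fun o => le_PP R₀ w (hρ o)) ψ χ).symm
    intro b hb
    rw [D.hR] at hb
    obtain ⟨k, hk⟩ := hb
    obtain ⟨x, hx, hxn⟩ := hN₁n
    refine ⟨k, ?_⟩
    have : (c₀ * N₁) ^ k * b = (c₀ * x) ^ k * (n ^ k * b) := by rw [hxn]; ring
    rw [this]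
    exact Subring.mul_mem _ (Subring.pow_mem _ (Subring.mul_mem _ (le_PP R₀ w hc₀) hx) _) hk
  have e1 := poly_count D.r0M D.fg0 hw hc₀ hN₁ hρ ψ (F := F)
  -- the total space
  have e2 := card_split (α := A₁ →+* F) (fun χ => Ov ρ ψ χ ∧ χ ⟨c₀ * N₁, D.mdl.le₁ hN⟩ ≠ 0)
    (fun χ => χ ⟨g, hg₁⟩ ≠ 0)
  have hgN : g * (c₀ * N₁) ∈ A₁ := A₁.mul_mem hg₁ (D.mdl.le₁ hN)
  have e3 : Nat.card {χ : A₁ →+* F // (Ov ρ ψ χ ∧ χ ⟨c₀ * N₁, D.mdl.le₁ hN⟩ ≠ 0) ∧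
      χ ⟨g, hg₁⟩ ≠ 0} = Nat.card {χ : A₁ →+* F // Ov ρ ψ χ ∧ χ ⟨g * (c₀ * N₁), hgN⟩ ≠ 0} := by
    refine Nat.card_congr (Equiv.subtypeEquivRight fun χ => ?_)
    have h4 : (⟨g * (c₀ * N₁), hgN⟩ : A₁) = ⟨g, hg₁⟩ * ⟨c₀ * N₁, D.mdl.le₁ hN⟩ := rfl
    rw [h4, map_mul, and_assoc]
    refine and_congr_right fun _ => ?_
    rw [mul_ne_zero_iff, and_comm]
  have e4 : Nat.card {χ : A₁ →+* F // (Ov ρ ψ χ ∧ χ ⟨c₀ * N₁, D.mdl.le₁ hN⟩ ≠ 0) ∧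
      ¬ χ ⟨g, hg₁⟩ ≠ 0} = Nat.card {χ : A₁ →+* F // (Ov ρ ψ χ ∧
        χ ⟨c₀ * N₁, D.mdl.le₁ hN⟩ ≠ 0) ∧ χ ⟨g, hg₁⟩ = 0} := by
    refine Nat.card_congr (Equiv.subtypeEquivRight fun χ => ?_)
    rw [not_not]
  have hνP : h * (h ^ j * N₁) ∈ PP R₀ a := (PP R₀ a).mul_mem D.hh hj
  have hcν : c₀ * (h * (h ^ j * N₁)) ∈ PP R₀ a := (PP R₀ a).mul_mem (le_PP R₀ a hc₀) hνP
  have hcν0 : c₀ * (h * (h ^ j * N₁)) ≠ 0 :=
    mul_ne_zero hc₀0 (mul_ne_zero D.hh0 (mul_ne_zero (pow_ne_zero _ D.hh0) hN₁0))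
  have hgN0 : g * (c₀ * N₁) ≠ 0 := mul_ne_zero D.hg0 hcN0
  -- the two localizations agree
  have hloc : locS A₁ hgN = locS (PP R₀ a) hcν := by
    set E := locS (PP R₀ a) hcν with hE
    set E' := locS A₁ hgN with hE'
    have hPE : PP R₀ a ≤ E := le_locS hcν
    have hi : (c₀ * (h * (h ^ j * N₁)))⁻¹ ∈ E := inv_mem_locS hcν
    have hhi : h⁻¹ ∈ E := inv_mem_of_dvd (c := c₀ * (h ^ j * N₁)) (by ring) hcν0 hi
      (hPE ((PP R₀ a).mul_mem (le_PP R₀ a hc₀) hj))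
    have hci : c₀⁻¹ ∈ E := inv_mem_of_dvd (c := h * (h ^ j * N₁)) (by ring) hcν0 hi (hPE hνP)
    have hNi : N₁⁻¹ ∈ E := inv_mem_of_dvd (c := c₀ * h ^ (j + 1)) (by ring) hcν0 hi
      (hPE ((PP R₀ a).mul_mem (le_PP R₀ a hc₀) ((PP R₀ a).pow_mem D.hh _)))
    have hl : locS (PP R₀ a) D.hh ≤ E := locS_le D.hh D.hh0 hPE hhi
    have hl' : locS (CC (PP R₀ w) u θ) D.hg ≤ E := by rw [D.loc]; exact hl
    have hC₁ : CC (PP R₀ w) u θ ≤ E := (le_locS D.hg).trans hl'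
    have hR₁E : PP R₀ w ≤ E := (le_CC _ u θ).trans hC₁
    have hRE : R ≤ E := by
      rw [D.hR]
      refine locS_le D.hn D.hn0 hR₁E ?_
      obtain ⟨x, hx, hxn⟩ := hN₁n
      exact inv_mem_of_dvd hxn hN₁0 hNi (hR₁E hx)
    have hgi' : (g * (c₀ * N₁))⁻¹ ∈ E' := inv_mem_locS hgN
    have hA₁E' : A₁ ≤ E' := le_locS hgN
    have hgi2 : g⁻¹ ∈ E' := inv_mem_of_dvd rfl hgN0 hgi' (hA₁E' (D.mdl.le₁ hN))
    have hR₁A : PP R₀ w ≤ A₁ := hR₁R.trans D.mdl.le₁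
    have hθA : θ ∈ A₁ := by
      rw [D.hA₁]
      exact g_mem_AD R u D.hθ
    have hl2 : locS (CC (PP R₀ w) u θ) D.hg ≤ E' :=
      locS_le D.hg D.hg0 ((CC_le hR₁A D.mdl.mem₁ hθA).trans hA₁E') hgi2
    have hl3 : locS (PP R₀ a) D.hh ≤ E' := by rw [← D.loc]; exact hl2
    apply le_antisymm
    · refine locS_le hgN hgN0 ?_ ?_
      · rw [D.hA₁]
        exact AD_le hRE (hC₁ (u_mem_CC _ u θ)) fun z hz => hl' (D.hG₁ z hz)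
      · rw [mul_inv, mul_inv]
        exact E.mul_mem (hl' (inv_mem_locS D.hg)) (E.mul_mem hci hNi)
    · refine locS_le hcν hcν0 ((le_locS D.hh).trans hl3) ?_
      have hhi' : h⁻¹ ∈ E' := hl3 (inv_mem_locS D.hh)
      have hc₀A : c₀ ∈ A₁ := D.mdl.le₁ (hR₀ hc₀)
      have hN₁A : N₁ ∈ A₁ := hR₁A hN₁
      have hci' : c₀⁻¹ ∈ E' := inv_mem_of_dvd (a := g * (c₀ * N₁)) (c := g * N₁) (by ring) hgN0 hgi'
        (hA₁E' (A₁.mul_mem hg₁ hN₁A))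
      have hNi' : N₁⁻¹ ∈ E' := inv_mem_of_dvd (a := g * (c₀ * N₁)) (c := g * c₀) (by ring) hgN0 hgi'
        (hA₁E' (A₁.mul_mem hg₁ hc₀A))
      rw [mul_inv, mul_inv, mul_inv, ← inv_pow]
      exact E'.mul_mem hci' (E'.mul_mem hhi' (E'.mul_mem (E'.pow_mem hhi' _) hNi'))
  have e5 : Nat.card {χ : A₁ →+* F // Ov ρ ψ χ ∧ χ ⟨g * (c₀ * N₁), hgN⟩ ≠ 0} =
      Nat.card {χ : PP R₀ a →+* F // Ov ρ ψ χ ∧ χ ⟨c₀ * (h * (h ^ j * N₁)), hcν⟩ ≠ 0} :=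
    loc_loc hgN hcν hgN0 hcν0 hloc ρ (fun o => D.mdl.le₁ (hR₀ (hρ o)))
      (fun o => le_PP R₀ a (hρ o)) ψ
  have e6 := poly_count D.r0M D.fg0 ha hc₀ hνP hρ ψ (F := F)
  rw [e3, e4, e5] at e2
  rw [e0, e2]
  push_cast
  rw [e1, e6]
  subst hst
  ring

end

end Pool.Agent.K6.H86.NP
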