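import Pool.Agent.K6.H86.NP.Sub

/-!
# Models of a curve
-/

set_option autoImplicit false
set_option linter.all false

open Polynomial

namespace Pool.Agent.K6.H86.NP

section
variable {L : Type} [Field L]

/-- The subring is finitely generated. -/
def FGr (A : Subring L) : Prop := ∃ G : Finset L, Subring.closure (G : Set L) = A

theorem FGr.ft {A : Subring L} (h : FGr A) : Algebra.FiniteType ℤ A := by
  classical
  obtain ⟨G, hG⟩ := h
  have hGA : ∀ x ∈ G, x ∈ A := fun x hx => by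
    rw [← hG]
    exact Subring.subset_closure hx
  refine ⟨⟨G.attach.image fun x => ⟨x.1, hGA x.1 x.2⟩, ?_⟩⟩
  rw [eq_top_iff]
  rintro ⟨x, hx⟩ -
  have hx' : x ∈ Subring.closure (G : Set L) := by rw [hG]; exact hx
  have key : ∀ (y : L) (hy : y ∈ Subring.closure (G : Set L)) (hyA : y ∈ A),
      (⟨y, hyA⟩ : A) ∈ Algebra.adjoin ℤ
        ((G.attach.image fun x => (⟨x.1, hGA x.1 x.2⟩ : A) : Finset A) : Set A) := by
    intro y hy
    induction hy using Subring.closure_induction with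
    | mem y hy =>
      intro hyA
      refine Algebra.subset_adjoin ?_
      rw [Finset.coe_image]
      exact ⟨⟨y, hy⟩, by simp, rfl⟩
    | zero => intro _; exact zero_mem _
    | one => intro _; exact one_mem _
    | add y z hy hz h1 h2 =>
      intro _
      have hyA : y ∈ A := by rw [← hG]; exact hy
      have hzA : z ∈ A := by rw [← hG]; exact hz
      exact add_mem (h1 hyA) (h2 hzA)
    | neg y hy h1 =>
      intro _
      have hyA : y ∈ A := by rw [← hG]; exact hy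
      exact neg_mem (h1 hyA)
    | mul y z hy hz h1 h2 =>
      intro _
      have hyA : y ∈ A := by rw [← hG]; exact hy
      have hzA : z ∈ A := by rw [← hG]; exact hz
      exact mul_mem (h1 hyA) (h2 hzA)
  exact key x hx' hx

theorem FGr.sup {A B : Subring L} (hA : FGr A) (hB : FGr B) : FGr (A ⊔ B) := by
  classical
  obtain ⟨G, rfl⟩ := hA
  obtain ⟨H, rfl⟩ := hB
  refine ⟨G ∪ H, ?_⟩
  rw [Finset.coe_union, Subring.closure_union]

/-- a common denominator -/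
theorem den_fg {R A B : Subring L} (hRA : R ≤ A) (hB : FGr B)
    (h : ∀ b ∈ B, ∃ r ∈ R, r ≠ 0 ∧ r * b ∈ A) :
    ∃ s ∈ R, s ≠ 0 ∧ ∀ b ∈ B, ∃ n : ℕ, s ^ n * b ∈ A := by
  classical
  obtain ⟨G, hG⟩ := hB
  have hGB : ∀ g ∈ G, g ∈ B := fun x hx => by
    rw [← hG]
    exact Subring.subset_closure hx
  choose! d hd hd0 hdb using h
  set s := ∏ g ∈ G, d g with hs
  have hsR : s ∈ R := Subring.prod_mem _ fun g hg => hd g (hGB g hg)
  refine ⟨s, hsR, Finset.prod_ne_zero_iff.2 fun g hg => hd0 g (hGB g hg), ?_⟩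
  have hBl : B ≤ locS A (hRA hsR) := by
    rw [← hG, Subring.closure_le]
    intro g hg
    refine ⟨1, ?_⟩
    rw [pow_one, hs, ← Finset.prod_erase_mul G _ hg, mul_assoc]
    exact A.mul_mem (hRA (Subring.prod_mem _ fun g' hg' => hd g' (hGB g' (Finset.mem_of_mem_erase hg'))))
      (hdb g (hGB g hg))
  exact fun b hb => hBl hb

variable {K : Type} [Field K] [Algebra K L]

variable (K) in
/-- A model of the smooth projective curve over `K` with the function field `L`: `R` is a finitely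
generated ring with the field of fractions `K`, and `A₁`, `A₂` are finitely generated rings
which become over `K` the integral closures of `K[u]` and `K[1/u]` in `L`, the coordinate rings of
the two parts `u ≠ ∞` and `u ≠ 0` of the curve. -/
structure IsModel (u : L) (R A₁ A₂ : Subring L) : Prop where
  fgR : FGr R
  fg₁ : FGr A₁
  fg₂ : FGr A₂
  le₁ : R ≤ A₁
  le₂ : R ≤ A₂
  le_K : ∀ x ∈ R, x ∈ Set.range (algebraMap K L)
  frac : ∀ x : K, ∃ a ∈ R, ∃ b ∈ R, b ≠ 0 ∧ algebraMap K L x = a / b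
  mem₁ : u ∈ A₁
  mem₂ : u⁻¹ ∈ A₂
  int₁ : ∀ z : L, IsIntegral (Algebra.adjoin K ({u} : Set L)) z ↔ ∃ r ∈ R, r ≠ 0 ∧ r * z ∈ A₁
  int₂ : ∀ z : L, IsIntegral (Algebra.adjoin K ({u⁻¹} : Set L)) z ↔ ∃ r ∈ R, r ≠ 0 ∧ r * z ∈ A₂

theorem int_aux {v : L} {R R' A A' : Subring L} (hle : R ≤ A)
    (hK : ∀ x ∈ R', x ∈ Set.range (algebraMap K L)) (hK0 : ∀ x ∈ R, x ∈ Set.range (algebraMap K L))
    (h : ∀ z : L, IsIntegral (Algebra.adjoin K ({v} : Set L)) z ↔ ∃ r ∈ R, r ≠ 0 ∧ r * z ∈ A)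
    (h' : ∀ z : L, IsIntegral (Algebra.adjoin K ({v} : Set L)) z ↔ ∃ r ∈ R', r ≠ 0 ∧ r * z ∈ A')
    (z : L) : IsIntegral (Algebra.adjoin K ({v} : Set L)) z ↔
      ∃ r ∈ R ⊔ R', r ≠ 0 ∧ r * z ∈ A ⊔ A' := by
  constructor
  · intro hz
    obtain ⟨r, hr, hr0, hrz⟩ := (h z).1 hz
    exact ⟨r, (le_sup_left : R ≤ R ⊔ R') hr, hr0, (le_sup_left : A ≤ A ⊔ A') hrz⟩
  · rintro ⟨r, hr, hr0, hrz⟩
    have h1 : A ⊔ A' ≤ (integralClosure (Algebra.adjoin K ({v} : Set L)) L).toSubring := by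
      refine sup_le ?_ ?_
      · intro x hx
        exact (h x).2 ⟨1, R.one_mem, one_ne_zero, by rwa [one_mul]⟩
      · intro x hx
        exact (h' x).2 ⟨1, R'.one_mem, one_ne_zero, by rwa [one_mul]⟩
    have h2 : R ⊔ R' ≤ (algebraMap K L).range := sup_le (fun x hx => hK0 x hx) (fun x hx => hK x hx)
    obtain ⟨c, rfl⟩ := h2 hr
    have h3 : IsIntegral (Algebra.adjoin K ({v} : Set L)) (algebraMap K L c * z) := h1 hrz
    have h4 : z = algebraMap K L c⁻¹ * (algebraMap K L c * z) := by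
      rw [← mul_assoc, ← map_mul, inv_mul_cancel₀ (by rintro rfl; exact hr0 (map_zero _)), map_one,
        one_mul]
    rw [h4]
    refine IsIntegral.mul ?_ h3
    have h5 : algebraMap K L c⁻¹ = algebraMap (Algebra.adjoin K ({v} : Set L)) L
      (algebraMap K (Algebra.adjoin K ({v} : Set L)) c⁻¹) := rfl
    rw [h5]
    exact isIntegral_algebraMap

theorem IsModel.sup {u : L} {R A₁ A₂ R' A₁' A₂' : Subring L} (h : IsModel K u R A₁ A₂)
    (h' : IsModel K u R' A₁' A₂') : IsModel K u (R ⊔ R') (A₁ ⊔ A₁') (A₂ ⊔ A₂') where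
  fgR := h.fgR.sup h'.fgR
  fg₁ := h.fg₁.sup h'.fg₁
  fg₂ := h.fg₂.sup h'.fg₂
  le₁ := sup_le_sup h.le₁ h'.le₁
  le₂ := sup_le_sup h.le₂ h'.le₂
  le_K := by
    have h2 : R ⊔ R' ≤ (algebraMap K L).range :=
      sup_le (fun x hx => h.le_K x hx) (fun x hx => h'.le_K x hx)
    exact fun x hx => h2 hx
  frac := fun x => by
    obtain ⟨a, ha, b, hb, h1, h2⟩ := h.frac x
    exact ⟨a, (le_sup_left : R ≤ R ⊔ R') ha, b, (le_sup_left : R ≤ R ⊔ R') hb, h1, h2⟩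
  mem₁ := (le_sup_left : A₁ ≤ A₁ ⊔ A₁') h.mem₁
  mem₂ := (le_sup_left : A₂ ≤ A₂ ⊔ A₂') h.mem₂
  int₁ := int_aux h.le₁ h'.le_K h.le_K h.int₁ h'.int₁
  int₂ := int_aux h.le₂ h'.le_K h.le_K h.int₂ h'.int₂

theorem IsModel.mul_mem_R {u : L} {R A₁ A₂ : Subring L} (h : IsModel K u R A₁ A₂) {b : L}
    (hb : b ∈ Set.range (algebraMap K L)) : ∃ r ∈ R, r ≠ 0 ∧ r * b ∈ R := by
  obtain ⟨x, rfl⟩ := hb
  obtain ⟨a, ha, b, hb, h1, h2⟩ := h.frac x
  refine ⟨b, hb, h1, ?_⟩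
  rw [h2, mul_div_cancel₀ _ h1]
  exact ha

/-- a common denominator for a larger model -/
theorem IsModel.den {u : L} {R A₁ A₂ R' A₁' A₂' : Subring L} (h : IsModel K u R A₁ A₂)
    (h' : IsModel K u R' A₁' A₂') (h1 : A₁ ≤ A₁') (h2 : A₂ ≤ A₂') :
    ∃ s ∈ R, s ≠ 0 ∧ (∀ b ∈ R', ∃ n : ℕ, s ^ n * b ∈ R) ∧ (∀ b ∈ A₁', ∃ n : ℕ, s ^ n * b ∈ A₁) ∧
      ∀ b ∈ A₂', ∃ n : ℕ, s ^ n * b ∈ A₂ := by
  obtain ⟨s, hs, hs0, hsb⟩ := den_fg (le_refl R) h'.fgR fun b hb => h.mul_mem_R (h'.le_K b hb)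
  obtain ⟨s₁, hs₁, hs₁0, hsb₁⟩ := den_fg h.le₁ h'.fg₁ fun b hb => (h.int₁ b).1
    ((h'.int₁ b).2 ⟨1, R'.one_mem, one_ne_zero, by rwa [one_mul]⟩)
  obtain ⟨s₂, hs₂, hs₂0, hsb₂⟩ := den_fg h.le₂ h'.fg₂ fun b hb => (h.int₂ b).1
    ((h'.int₂ b).2 ⟨1, R'.one_mem, one_ne_zero, by rwa [one_mul]⟩)
  refine ⟨s * s₁ * s₂, R.mul_mem (R.mul_mem hs hs₁) hs₂, mul_ne_zero (mul_ne_zero hs0 hs₁0) hs₂0,
    ?_, ?_, ?_⟩
  · intro b hb
    obtain ⟨n, hn⟩ := hsb b hb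
    refine ⟨n, ?_⟩
    have : (s * s₁ * s₂) ^ n * b = s₁ ^ n * s₂ ^ n * (s ^ n * b) := by ring
    rw [this]
    exact R.mul_mem (R.mul_mem (R.pow_mem hs₁ _) (R.pow_mem hs₂ _)) hn
  · intro b hb
    obtain ⟨n, hn⟩ := hsb₁ b hb
    refine ⟨n, ?_⟩
    have : (s * s₁ * s₂) ^ n * b = s ^ n * s₂ ^ n * (s₁ ^ n * b) := by ring
    rw [this]
    exact A₁.mul_mem (h.le₁ (R.mul_mem (R.pow_mem hs _) (R.pow_mem hs₂ _))) hn
  · intro b hb
    obtain ⟨n, hn⟩ := hsb₂ b hb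
    refine ⟨n, ?_⟩
    have : (s * s₁ * s₂) ^ n * b = s ^ n * s₁ ^ n * (s₂ ^ n * b) := by ring
    rw [this]
    exact A₂.mul_mem (h.le₂ (R.mul_mem (R.pow_mem hs _) (R.pow_mem hs₁ _))) hn

end

end Pool.Agent.K6.H86.NP
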