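import Pool.Agent.Helper386.D5V.Helper386_FF_RR

/-!
# The rank of the group of the divisor classes of degree zero of a curve
-/

set_option autoImplicit false
set_option linter.all false

open Module IsDedekindDomain IntermediateField FF

namespace Pool.Agent.K6.H86.NP

section
variable (K L : Type) [Field K] [Field L] [Algebra K L] [CharZero K] [IsFF K L]

/-- The degree of a divisor, as a linear map. -/
noncomputable def degL : (Place K L →₀ ℤ) →ₗ[ℤ] ℤ :=
  (AddMonoidHom.mk' (fun D : Place K L →₀ ℤ => ddeg D) (fun D E => ddeg_add D E)).toIntLinearMap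

theorem degL_apply (D : Place K L →₀ ℤ) : degL K L D = ddeg D := rfl

theorem divisor_mul' {f g : L} (hf : f ≠ 0) (hg : g ≠ 0) :
    divisor K (f * g) = divisor K f + divisor K g := by
  ext P
  rw [Finsupp.add_apply, divisor_apply, divisor_apply, divisor_apply, P.ord_mul hf hg]

theorem divisor_inv' (f : L) : divisor K f⁻¹ = -divisor K f := by
  ext P
  rw [Finsupp.neg_apply, divisor_apply, divisor_apply, P.ord_inv]

theorem divisor_one' : divisor K (1 : L) = 0 := by
  ext P
  rw [divisor_apply, P.ord_one]
  rfl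

/-- The principal divisors. -/
noncomputable def prin : Submodule ℤ (Place K L →₀ ℤ) :=
  AddSubgroup.toIntSubmodule
    { carrier := {D | ∃ f : L, f ≠ 0 ∧ divisor K f = D}
      zero_mem' := ⟨1, one_ne_zero, divisor_one' K L⟩
      add_mem' := by
        rintro _ _ ⟨f, hf, rfl⟩ ⟨g, hg, rfl⟩
        exact ⟨f * g, mul_ne_zero hf hg, divisor_mul' K L hf hg⟩
      neg_mem' := by
        rintro _ ⟨f, hf, rfl⟩
        exact ⟨f⁻¹, inv_ne_zero hf, divisor_inv' K L f⟩ }

theorem mem_prin {D : Place K L →₀ ℤ} : D ∈ prin K L ↔ ∃ f : L, f ≠ 0 ∧ divisor K f = D := Iff.rfl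

/-- The group of the divisor classes of degree zero. -/
abbrev Pic0 : Type := LinearMap.ker (degL K L) ⧸ (prin K L).comap (LinearMap.ker (degL K L)).subtype

theorem prin_le : prin K L ≤ LinearMap.ker (degL K L) := by
  rintro _ ⟨f, hf, rfl⟩
  rw [LinearMap.mem_ker, degL_apply, ddeg_divisor]

end

section
variable {K L : Type} [Field K] [Field L] [Algebra K L] [CharZero K] [IsFF K L]

theorem rn {V W : Type} [AddCommGroup V] [AddCommGroup W] [Module.Finite ℤ V] (f : V →ₗ[ℤ] W) :
    finrank ℤ (LinearMap.range f) + finrank ℤ (LinearMap.ker f) = finrank ℤ V := by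
  rw [← Submodule.finrank_quotient_add_finrank (LinearMap.ker f),
    LinearEquiv.finrank_eq f.quotKerEquivRange]

/-- the product of integral powers -/
noncomputable def pw {ι : Type} [Fintype ι] (Q : ι → L) (m : ι → ℤ) : L := ∏ i, Q i ^ m i

theorem pw_ne {ι : Type} [Fintype ι] {Q : ι → L} (hQ : ∀ i, Q i ≠ 0) (m : ι → ℤ) : pw Q m ≠ 0 :=
  Finset.prod_ne_zero_iff.2 fun i _ => zpow_ne_zero _ (hQ i)

theorem pw_add {ι : Type} [Fintype ι] {Q : ι → L} (hQ : ∀ i, Q i ≠ 0) (m n : ι → ℤ) :
    pw Q (m + n) = pw Q m * pw Q n := by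
  unfold pw
  rw [← Finset.prod_mul_distrib]
  exact Finset.prod_congr rfl fun i _ => zpow_add₀ (hQ i) _ _

theorem pw_zero {ι : Type} [Fintype ι] {Q : ι → L} : pw Q 0 = 1 := by
  unfold pw
  simp

/-- **The rank of the group of the divisor classes of degree zero.** -/
theorem rank_pic (T : Finset (Place K L)) (hT : T.Nonempty)
    (h4 : ∀ P, P ∉ T → ∃ f : L, f ≠ 0 ∧ P.ord f = 1 ∧ ∀ P', P' ∉ T → P' ≠ P → P'.ord f = 0)
    {ι κ : Type} [Fintype ι] [Fintype κ] (Q : ι → L) (hQ : ∀ i, Q i ≠ 0)
    (hQT : ∀ i, ∀ P, P ∉ T → P.ord (Q i) = 0)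
    (hgen : ∀ f : L, f ≠ 0 → (∀ P, P ∉ T → P.ord f = 0) →
      ∃ (m : ι → ℤ) (c : L), c ≠ 0 ∧ (∀ P : Place K L, P.ord c = 0) ∧ f = c * pw Q m)
    (E : κ → ι → ℤ) (hE : LinearIndependent ℤ E)
    (hrel : ∀ m : ι → ℤ, (∀ P : Place K L, P.ord (pw Q m) = 0) ↔ m ∈ Submodule.span ℤ (Set.range E)) :
    Module.Finite ℤ (Pic0 K L) ∧
      finrank ℤ (Pic0 K L) + Fintype.card ι + 1 = T.card + Fintype.card κ := by
  classical
  -- the divisors with support in `T`
  set V : Submodule ℤ (Place K L →₀ ℤ) := Finsupp.supported ℤ ℤ (T : Set (Place K L)) with hV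
  let eV : V ≃ₗ[ℤ] ((T : Set (Place K L)) →₀ ℤ) := Finsupp.supportedEquivFinsupp _
  have hVfin : Module.Finite ℤ V := Module.Finite.equiv eV.symm
  have hVfree : Module.Free ℤ V := Module.Free.of_equiv eV.symm
  have hVrank : finrank ℤ V = T.card := by
    rw [LinearEquiv.finrank_eq eV]
    simp
  have memV : ∀ D : Place K L →₀ ℤ, D ∈ V ↔ ∀ P, P ∉ T → D P = 0 := by
    intro D
    rw [hV, Finsupp.mem_supported']
    rfl
  -- the degree on `V`
  let dV : V →ₗ[ℤ] ℤ := (degL K L).comp V.subtype
  have hdV : finrank ℤ (LinearMap.range dV) = 1 := by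
    obtain ⟨P, hP⟩ := hT
    have h1 : (P.deg : ℤ) ∈ LinearMap.range dV := by
      refine ⟨⟨Finsupp.single P 1, ?_⟩, ?_⟩
      · rw [memV]
        intro P' hP'
        rw [Finsupp.single_apply, if_neg]
        rintro rfl
        exact hP' hP
      · show ddeg (Finsupp.single P 1) = _
        rw [ddeg_single, one_mul]
    have h2 : (P.deg : ℤ) ≠ 0 := by exact_mod_cast P.deg_pos.ne'
    have h3 : finrank ℤ (LinearMap.range dV) ≤ 1 := by
      have := Submodule.finrank_le (LinearMap.range dV)
      simpa using this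
    have h4 : finrank ℤ (LinearMap.range dV) ≠ 0 := by
      intro h0
      have h5 : LinearMap.range dV = ⊥ := Submodule.finrank_eq_zero.1 h0
      rw [h5, Submodule.mem_bot] at h1
      exact h2 h1
    omega
  have hker : finrank ℤ (LinearMap.ker dV) + 1 = T.card := by
    have := rn dV
    omega
  -- the units
  let A : (ι → ℤ) →ₗ[ℤ] V :=
    { toFun := fun m => ⟨divisor K (pw Q m), by
        rw [memV]
        intro P hP
        rw [divisor_apply]
        unfold pw
        have : ∀ s : Finset ι, P.ord (∏ i ∈ s, Q i ^ m i) = 0 := by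
          intro s
          induction s using Finset.induction_on with
          | empty => rw [Finset.prod_empty, P.ord_one]
          | insert i s hi ih =>
            rw [Finset.prod_insert hi, P.ord_mul (zpow_ne_zero _ (hQ i))
              (Finset.prod_ne_zero_iff.2 fun j _ => zpow_ne_zero _ (hQ j)), ih, P.ord_zpow,
              hQT i P hP, mul_zero, add_zero]
        exact this _⟩
      map_add' := fun m n => by
        apply Subtype.ext
        show divisor K (pw Q (m + n)) = divisor K (pw Q m) + divisor K (pw Q n)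
        rw [pw_add hQ, divisor_mul' K L (pw_ne hQ m) (pw_ne hQ n)]
      map_smul' := fun a m => by
        apply Subtype.ext
        show divisor K (pw Q (a • m)) = a • divisor K (pw Q m)
        ext P
        rw [Finsupp.smul_apply, divisor_apply, divisor_apply, smul_eq_mul, ← Place.ord_zpow]
        congr 1
        unfold pw
        rw [← Finset.prod_zpow]
        refine Finset.prod_congr rfl fun i _ => ?_
        rw [Pi.smul_apply, smul_eq_mul, mul_comm, zpow_mul] }
  have hAker : LinearMap.ker A = Submodule.span ℤ (Set.range E) := by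
    ext m
    rw [LinearMap.mem_ker, ← hrel]
    constructor
    · intro h P
      have h1 := congrArg (fun D : V => (D : Place K L →₀ ℤ) P) h
      exact h1
    · intro h
      apply Subtype.ext
      ext P
      exact h P
  have hAkr : finrank ℤ (LinearMap.ker A) = Fintype.card κ := by
    rw [hAker, finrank_span_eq_card hE]
  have hAr : finrank ℤ (LinearMap.range A) + Fintype.card κ = Fintype.card ι := by
    have h1 := rn A
    rw [hAkr] at h1
    simpa using h1
  have hAd : ∀ m, A m ∈ LinearMap.ker dV := by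
    intro m
    show ddeg (divisor K (pw Q m)) = 0
    exact ddeg_divisor _
  -- the map to the class group
  let j : LinearMap.ker dV →ₗ[ℤ] LinearMap.ker (degL K L) :=
    LinearMap.codRestrict _ (V.subtype.comp (LinearMap.ker dV).subtype) fun x => x.2
  have hj : ∀ x, ((j x : LinearMap.ker (degL K L)) : Place K L →₀ ℤ) = ((x : V) : Place K L →₀ ℤ) :=
    fun x => rfl
  let B : LinearMap.ker dV →ₗ[ℤ] Pic0 K L := (Submodule.mkQ _).comp j
  have hBs : Function.Surjective B := by
    intro c
    obtain ⟨D, rfl⟩ := Submodule.mkQ_surjective _ c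
    -- remove the places outside `T`
    choose! f hf0 hf1 hf2 using h4
    set g : L := ∏ P ∈ D.1.support.filter (fun P => P ∉ T), f P ^ (D.1 P) with hg
    have hg0 : g ≠ 0 := Finset.prod_ne_zero_iff.2 fun P hP =>
      zpow_ne_zero _ (hf0 P (Finset.mem_filter.1 hP).2)
    have hgP : ∀ P, P ∉ T → P.ord g = D.1 P := by
      intro P hP
      have key : ∀ s : Finset (Place K L), (∀ P' ∈ s, P' ∉ T) →
          P.ord (∏ P' ∈ s, f P' ^ (D.1 P')) = if P ∈ s then D.1 P else 0 := by
        intro s
        induction s using Finset.induction_on with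
        | empty =>
          intro _
          rw [Finset.prod_empty, P.ord_one]
          simp
        | insert P' s hP's ih =>
          intro hs
          have hP'T : P' ∉ T := hs P' (Finset.mem_insert_self _ _)
          have hsT : ∀ P'' ∈ s, P'' ∉ T := fun P'' h => hs P'' (Finset.mem_insert_of_mem h)
          rw [Finset.prod_insert hP's, P.ord_mul (zpow_ne_zero _ (hf0 P' hP'T))
            (Finset.prod_ne_zero_iff.2 fun P'' h => zpow_ne_zero _ (hf0 P'' (hsT P'' h))), ih hsT,
            P.ord_zpow]
          by_cases h : P = P'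
          · subst h
            rw [hf1 P hP, if_neg hP's, if_pos (Finset.mem_insert_self _ _)]
            ring
          · rw [hf2 P' hP'T P hP h, mul_zero, zero_add]
            have : P ∈ insert P' s ↔ P ∈ s := by
              rw [Finset.mem_insert]
              exact or_iff_right h
            simp only [this]
      rw [hg, key _ fun P' h => (Finset.mem_filter.1 h).2]
      by_cases h : P ∈ D.1.support.filter (fun P => P ∉ T)
      · rw [if_pos h]
      · rw [if_neg h]
        rw [Finset.mem_filter, not_and, Finsupp.mem_support_iff] at h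
        by_contra hc
        exact h (fun h' => hc h'.symm) hP
    have hDV : D.1 - divisor K g ∈ V := by
      rw [memV]
      intro P hP
      rw [Finsupp.sub_apply, divisor_apply, hgP P hP, sub_self]
    refine ⟨⟨⟨D.1 - divisor K g, hDV⟩, ?_⟩, ?_⟩
    · show ddeg (D.1 - divisor K g) = 0
      rw [ddeg_sub, ddeg_divisor, sub_zero]
      exact D.2
    · show Submodule.mkQ _ _ = Submodule.mkQ _ D
      rw [← sub_eq_zero, ← map_sub, ← LinearMap.mem_ker, Submodule.ker_mkQ]
      show D.1 - divisor K g - D.1 ∈ prin K L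
      refine ⟨g⁻¹, inv_ne_zero hg0, ?_⟩
      rw [divisor_inv' K L]
      abel
  have hBk : finrank ℤ (LinearMap.ker B) = finrank ℤ (LinearMap.range A) := by
    have h1 : (LinearMap.ker B).map (LinearMap.ker dV).subtype = LinearMap.range A := by
      ext x
      constructor
      · rintro ⟨y, hy, rfl⟩
        have hy' : Submodule.mkQ _ (j y) = 0 := hy
        rw [← LinearMap.mem_ker, Submodule.ker_mkQ] at hy'
        obtain ⟨f, hf0, hf⟩ := hy'
        have hf' : divisor K f = ((y : V) : Place K L →₀ ℤ) := hf
        obtain ⟨m, c, hc0, hc, hfm⟩ := hgen f hf0 fun P hP => by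
          rw [← divisor_apply, hf']
          exact (memV _).1 (y : V).2 P hP
        refine ⟨m, ?_⟩
        apply Subtype.ext
        show divisor K (pw Q m) = ((y : V) : Place K L →₀ ℤ)
        rw [← hf', hfm, divisor_mul' K L hc0 (pw_ne hQ m)]
        have : divisor K c = 0 := by
          ext P
          rw [divisor_apply, hc]
          rfl
        rw [this, zero_add]
      · rintro ⟨m, rfl⟩
        refine ⟨⟨A m, hAd m⟩, ?_, rfl⟩
        show Submodule.mkQ _ (j ⟨A m, hAd m⟩) = 0
        rw [← LinearMap.mem_ker, Submodule.ker_mkQ]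
        exact ⟨pw Q m, pw_ne hQ m, rfl⟩
    rw [← h1]
    exact (LinearEquiv.finrank_eq (Submodule.equivMapOfInjective _
      (Submodule.injective_subtype _) (LinearMap.ker B)))
  have hkfin : Module.Finite ℤ (LinearMap.ker dV) := inferInstance
  have hPfin : Module.Finite ℤ (Pic0 K L) := Module.Finite.of_surjective B hBs
  refine ⟨hPfin, ?_⟩
  have h5 := rn B
  rw [hBk, LinearMap.range_eq_top.2 hBs, finrank_top] at h5
  omega

end

end Pool.Agent.K6.H86.NP
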