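import Pool.Agent.K6.H86.NP.Cnt
import Pool.Agent.K6.H86.NP.Trd

/-!
# The number of the points of a family of hypersurfaces
-/

set_option autoImplicit false
set_option linter.all false

open MvPolynomial

namespace Pool.Agent.K6.H86.NP

open Pool.Agent.R410.NG (Asy Ff)
open Pool.Agent.R410.BS (landau_all good_le hom_le cF)
open Pool.Agent.R410.LW (FG frac_of_closure)

section
variable {A₀ : Type} [CommRing A₀] {F : Type} [Field F] {m : ℕ}

/-- the points of affine space over a base -/
noncomputable def mvE : (MvPolynomial (Fin m) A₀ →+* F) ≃ (A₀ →+* F) × (Fin m → F) where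
  toFun φ := (φ.comp C, fun i => φ (X i))
  invFun w := eval₂Hom w.1 w.2
  left_inv φ := by
    apply MvPolynomial.ringHom_ext
    · intro c
      simp
    · intro i
      simp
  right_inv w := by
    refine Prod.ext ?_ ?_
    · refine RingHom.ext fun c => ?_
      simp
    · funext i
      simp

theorem mvE_apply (φ : MvPolynomial (Fin m) A₀ →+* F) (H : MvPolynomial (Fin m) A₀) :
    φ H = eval (mvE φ).2 (map (mvE φ).1 H) := by
  conv_lhs => rw [← mvE.symm_apply_apply φ]
  show eval₂Hom (mvE φ).1 (mvE φ).2 H = _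
  rw [coe_eval₂Hom, eval₂_eq_eval_map]

variable [Finite F]

theorem zero_bound {A₀ : Type} [CommRing A₀] [Algebra.FiniteType ℤ A₀]
    {H : MvPolynomial (Fin m) A₀} (P : (A₀ →+* F) → Prop) (hP : ∀ φ, P φ → map φ H ≠ 0) :
    (Nat.card {φ : MvPolynomial (Fin m) A₀ →+* F // φ H = 0 ∧ P (φ.comp C)} : ℝ) * Nat.card F ≤
      Nat.card {φ : A₀ →+* F // P φ} * (H.totalDegree * (Nat.card F : ℝ) ^ m) := by
  classical
  have hfin : Finite (A₀ →+* F) := inferInstance
  let _ : Fintype F := Fintype.ofFinite F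
  let _ : Fintype {φ : A₀ →+* F // P φ} := Fintype.ofFinite _
  let E : {φ : MvPolynomial (Fin m) A₀ →+* F // φ H = 0 ∧ P (φ.comp C)} →
      Σ φ : {φ : A₀ →+* F // P φ}, {z : Fin m → F // eval z (map φ.1 H) = 0} :=
    fun φ => ⟨⟨φ.1.comp C, φ.2.2⟩, ⟨(mvE φ.1).2, (mvE_apply φ.1 H).symm.trans φ.2.1⟩⟩
  have hE : Function.Injective E := by
    intro φ φ' h
    apply Subtype.ext
    apply mvE.injective
    refine Prod.ext ?_ ?_
    · exact congrArg (fun w : (Σ φ : {φ : A₀ →+* F // P φ},
        {z : Fin m → F // eval z (map φ.1 H) = 0}) => w.1.1) h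
    · exact congrArg (fun w : (Σ φ : {φ : A₀ →+* F // P φ},
        {z : Fin m → F // eval z (map φ.1 H) = 0}) => w.2.1) h
  have hcard := Nat.card_le_card_of_injective E hE
  rw [Nat.card_sigma] at hcard
  have hcard' : (Nat.card {φ : MvPolynomial (Fin m) A₀ →+* F // φ H = 0 ∧ P (φ.comp C)} : ℝ) ≤
      ∑ φ : {φ : A₀ →+* F // P φ}, (Nat.card {z : Fin m → F // eval z (map φ.1 H) = 0} : ℝ) := by
    exact_mod_cast hcard
  refine (mul_le_mul_of_nonneg_right hcard' (Nat.cast_nonneg _)).trans ?_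
  rw [Finset.sum_mul]
  have h1 : ∀ φ ∈ (Finset.univ : Finset {φ : A₀ →+* F // P φ}),
      (Nat.card {z : Fin m → F // eval z (map φ.1 H) = 0} : ℝ) * Nat.card F ≤
        H.totalDegree * (Nat.card F : ℝ) ^ m := by
    intro φ _
    have h2 := Pool.Agent.H126R3.sz (map φ.1 H) (hP φ.1 φ.2)
    rw [Fintype.card_fin, ← Nat.card_eq_fintype_card] at h2
    refine h2.trans ?_
    have h3 : (map φ.1 H).totalDegree ≤ H.totalDegree :=
      Finset.sup_mono (MvPolynomial.support_map_subset _ _)
    gcongr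
  refine (Finset.sum_le_card_nsmul _ _ _ h1).trans (le_of_eq ?_)
  rw [nsmul_eq_mul, Finset.card_univ, ← Nat.card_eq_fintype_card]

end

section
attribute [local instance] MvPolynomial.algebraMvPolynomial

variable {A₀ M : Type} [CommRing A₀] [IsDomain A₀] [Algebra.FiniteType ℤ A₀] [Field M] [CharZero M]
  [Algebra A₀ M] [IsFractionRing A₀ M]

theorem clear_den {σ : Type} (y : MvPolynomial σ M) : ∃ (c : A₀) (y' : MvPolynomial σ A₀), c ≠ 0 ∧
    map (algebraMap A₀ M) y' = C (algebraMap A₀ M c) * y := by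
  have hloc : IsLocalization ((nonZeroDivisors A₀).map (C (σ := σ))) (MvPolynomial σ M) :=
    MvPolynomial.isLocalization (nonZeroDivisors A₀) M
  obtain ⟨⟨y', ⟨_, ⟨c, hc, rfl⟩⟩⟩, h⟩ := IsLocalization.surj ((nonZeroDivisors A₀).map (C (σ := σ))) y
  refine ⟨c, y', nonZeroDivisors.ne_zero hc, ?_⟩
  have h1 : y * map (algebraMap A₀ M) (C c) = map (algebraMap A₀ M) y' := h
  rw [← h1, map_C, mul_comm]

/-- **The number of the points of a family of hypersurfaces.** -/
theorem asy_poly {d : ℕ} (hd : Algebra.trdeg ℚ M = d) {n : ℕ} {H : MvPolynomial (Fin (n + 1)) A₀}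
    {c₀ : A₀} (hc0 : c₀ ≠ 0)
    (hcH : ∀ (F : Type) [Field F] (φ : A₀ →+* F), φ c₀ ≠ 0 → map φ H ≠ 0)
    {ι : Type} [Fintype ι] (Q : ι → MvPolynomial (Fin (n + 1)) M) (hQ : ∀ i, Prime (Q i))
    (hQH : ∀ i, Q i ∣ map (algebraMap A₀ M) H) (hne : ∀ i j, Q i ∣ Q j → i = j)
    (hall : ∀ P, Prime P → P ∣ map (algebraMap A₀ M) H → ∃ i, Q i ∣ P) :
    Asy (fun F _ _ => (Nat.card {φ : MvPolynomial (Fin (n + 1)) A₀ →+* F //
      φ H = 0 ∧ φ (C c₀) ≠ 0} : ℝ)) (d + n) (Fintype.card ι) := by
  classical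
  set j := algebraMap A₀ M with hj
  have hji : Function.Injective j := IsFractionRing.injective A₀ M
  have hJi : Function.Injective (map (σ := Fin (n + 1)) j) := map_injective _ hji
  have hH0 : map j H ≠ 0 := hcH M j fun h => hc0 (hji (h.trans (map_zero j).symm))
  have hpr : ∀ i, (Ideal.span {Q i}).IsPrime := fun i =>
    (Ideal.span_singleton_prime (hQ i).ne_zero).2 (hQ i)
  have hdom : ∀ i, IsDomain (MvPolynomial (Fin (n + 1)) M ⧸ Ideal.span {Q i}) := fun i =>
    (Ideal.Quotient.isDomain_iff_prime _).2 (hpr i)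
  let κ : ι → Type := fun i => FractionRing (MvPolynomial (Fin (n + 1)) M ⧸ Ideal.span {Q i})
  let π : ∀ i, MvPolynomial (Fin (n + 1)) M →+* κ i := fun i =>
    (algebraMap (MvPolynomial (Fin (n + 1)) M ⧸ Ideal.span {Q i}) (κ i)).comp (Ideal.Quotient.mk _)
  have hπ : ∀ i x, π i x = 0 ↔ Q i ∣ x := by
    intro i x
    show algebraMap (MvPolynomial (Fin (n + 1)) M ⧸ Ideal.span {Q i}) (κ i)
      (Ideal.Quotient.mk _ x) = 0 ↔ _
    rw [← Ideal.mem_span_singleton, ← Ideal.Quotient.eq_zero_iff_mem]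
    constructor
    · intro h
      exact IsFractionRing.injective _ (κ i) (h.trans (map_zero _).symm)
    · intro h
      rw [h, map_zero]
  have hcz : ∀ i, CharZero (κ i) := fun i =>
    charZero_of_injective_algebraMap (algebraMap M (κ i)).injective
  let τ : ∀ i, MvPolynomial (Fin (n + 1)) A₀ →+* κ i := fun i => (π i).comp (map j)
  have hτ : ∀ i x, τ i x = 0 ↔ Q i ∣ map j x := fun i x => hπ i (map j x)
  have hCne : ∀ i (c : A₀), c ≠ 0 → τ i (C c) ≠ 0 := by
    intro i c hc h
    rw [hτ, map_C] at h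
    exact (hQ i).not_unit (isUnit_of_dvd_unit h ((isUnit_iff_ne_zero.2 fun h0 => hc
      (hji (h0.trans (map_zero j).symm))).map C))
  -- the image generates the field
  have hcl : ∀ i, Subfield.closure (Set.range (τ i)) = ⊤ := by
    intro i
    set Cf := Subfield.closure (Set.range (τ i)) with hCf
    have h1 : ∀ c : M, π i (C c) ∈ Cf := by
      intro c
      obtain ⟨a, b, hb, rfl⟩ := IsFractionRing.div_surjective (A := A₀) c
      have h2 : π i (C (algebraMap A₀ M a / algebraMap A₀ M b)) = τ i (C a) / τ i (C b) := by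
        have hb0 : b ≠ 0 := nonZeroDivisors.ne_zero hb
        rw [eq_div_iff (hCne i b hb0)]
        show π i _ * π i (map j (C b)) = π i (map j (C a))
        rw [← map_mul, map_C, map_C, ← C_mul, div_mul_cancel₀]
        exact fun h0 => hb0 (hji (h0.trans (map_zero j).symm))
      rw [h2]
      exact div_mem (Subfield.subset_closure ⟨_, rfl⟩) (Subfield.subset_closure ⟨_, rfl⟩)
    have h2 : ∀ x, π i x ∈ Cf := by
      intro x
      induction x using MvPolynomial.induction_on with
      | C c => exact h1 c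
      | add p q hp hq => rw [map_add]; exact add_mem hp hq
      | mul_X p k hp =>
        rw [map_mul]
        refine mul_mem hp (Subfield.subset_closure ⟨X k, ?_⟩)
        show π i (map j (X k)) = _
        rw [map_X]
    rw [eq_top_iff]
    intro z _
    obtain ⟨a, b, hb, rfl⟩ := IsFractionRing.div_surjective
      (A := MvPolynomial (Fin (n + 1)) M ⧸ Ideal.span {Q i}) z
    obtain ⟨a, rfl⟩ := Ideal.Quotient.mk_surjective a
    obtain ⟨b, rfl⟩ := Ideal.Quotient.mk_surjective b
    exact div_mem (h2 a) (h2 b)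
  -- the transcendence degree
  have htr : ∀ i, Algebra.trdeg ℚ (κ i) = (d + n : ℕ) := by
    intro i
    let z : Fin (n + 1) → κ i := fun k => π i (X k)
    have haev : ∀ P : MvPolynomial (Fin (n + 1)) M, aeval z P = π i P := by
      intro P
      have h1 : ((aeval z : MvPolynomial (Fin (n + 1)) M →ₐ[M] κ i) :
          MvPolynomial (Fin (n + 1)) M →+* κ i) = π i := by
        apply MvPolynomial.ringHom_ext
        · intro c
          rw [RingHom.coe_coe, aeval_C]
          rfl
        · intro k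
          rw [RingHom.coe_coe, aeval_X]
      exact congrArg (fun f : MvPolynomial (Fin (n + 1)) M →+* κ i => f P) h1
    have hgen : IntermediateField.adjoin M (Set.range z) = ⊤ := by
      rw [eq_top_iff]
      intro x _
      obtain ⟨a, b, hb, rfl⟩ := IsFractionRing.div_surjective
        (A := MvPolynomial (Fin (n + 1)) M ⧸ Ideal.span {Q i}) x
      obtain ⟨a, rfl⟩ := Ideal.Quotient.mk_surjective a
      obtain ⟨b, rfl⟩ := Ideal.Quotient.mk_surjective b
      have h2 : ∀ x, π i x ∈ IntermediateField.adjoin M (Set.range z) := by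
        intro x
        induction x using MvPolynomial.induction_on with
        | C c => exact IntermediateField.algebraMap_mem _ c
        | add p q hp hq => rw [map_add]; exact add_mem hp hq
        | mul_X p k hp =>
          rw [map_mul]
          exact mul_mem hp (IntermediateField.subset_adjoin _ _ ⟨k, rfl⟩)
      exact div_mem (h2 a) (h2 b)
    have h3 : Algebra.trdeg M (κ i) = n := trdeg_hyp hgen (hQ i) fun P => by rw [haev, hπ]
    have h4 := trdeg_add_eq ℚ M (A := κ i)
    rw [hd, h3] at h4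
    rw [← h4]
    push_cast
    rfl
  have hft : Algebra.FiniteType ℤ (MvPolynomial (Fin (n + 1)) A₀) :=
    Algebra.FiniteType.trans (S := A₀) inferInstance inferInstance
  have hft' := Pool.Agent.R410.LW.ft_int _ hft
  have h := asy_union κ τ hcl htr (g := H) (c₀ := C c₀) (fun i => (hτ i H).2 (hQH i))
    (fun i => hCne i c₀ hc0) (fun i k hik => by
      obtain ⟨c, y, hc, hy⟩ := clear_den (A₀ := A₀) (Q k)
      refine ⟨y, ?_, ?_⟩
      · rw [hτ, hy]
        exact dvd_mul_left _ _
      · rw [ne_eq, hτ, hy]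
        intro h1
        have h2 : Q i ∣ Q k := ((hQ i).dvd_or_dvd h1).resolve_left fun h3 =>
          (hQ i).not_unit (isUnit_of_dvd_unit h3 ((isUnit_iff_ne_zero.2 fun h0 => hc
            (hji (h0.trans (map_zero j).symm))).map C))
        exact hik (hne i k h2)) ((nonZeroDivisors A₀).map (C (σ := Fin (n + 1)))) ?_ ?_
  · exact h
  · intro x hx
    obtain ⟨k, hk⟩ := dvd_pow_of hH0 (b := map j x) fun p hp hpH => by
      obtain ⟨i, hi⟩ := hall p hp hpH
      obtain ⟨w, hw⟩ := hi
      have h1 : Associated (Q i) p := by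
        have h2 := hp.irreducible.isUnit_or_isUnit hw
        rcases h2 with h2 | h2
        · exact ((hQ i).not_unit h2).elim
        · exact ⟨h2.unit, hw.symm⟩
      exact h1.symm.dvd.trans ((hτ i x).1 (hx i))
    obtain ⟨y, hy⟩ := hk
    obtain ⟨c, y', hc, hy'⟩ := clear_den (A₀ := A₀) y
    refine ⟨C c, ⟨c, mem_nonZeroDivisors_of_ne_zero hc, rfl⟩, k, y', ?_⟩
    apply hJi
    rw [map_mul, map_mul, map_pow, map_C, hy, hy']
    ring
  · rintro _ ⟨c, hc, rfl⟩
    have hc' : c ≠ 0 := nonZeroDivisors.ne_zero hc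
    obtain ⟨C1, N1, hC1, hN1, g1⟩ := good_le (R := A₀) (K := M) hji hd.le hc'
    refine ⟨C1 * H.totalDegree, N1, by positivity, hN1, fun F _ _ hF => ?_⟩
    have h1 := zero_bound (F := F) (H := H) (fun φ : A₀ →+* F => φ c₀ ≠ 0 ∧ φ c = 0)
      fun φ hφ => hcH F φ hφ.1
    have h2 := (g1 F hF).2
    have h3 : (Nat.card {φ : A₀ →+* F // φ c₀ ≠ 0 ∧ φ c = 0} : ℝ) ≤
        Nat.card {φ : A₀ →+* F // φ c = 0} := by
      have hfin : Finite (A₀ →+* F) := inferInstance
      exact_mod_cast Nat.card_le_card_of_injective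
        (fun φ : {φ : A₀ →+* F // φ c₀ ≠ 0 ∧ φ c = 0} => (⟨φ.1, φ.2.2⟩ : {φ : A₀ →+* F // φ c = 0}))
        (fun φ φ' h => Subtype.ext (congrArg (fun w => w.1) h))
    refine h1.trans ?_
    set q : ℝ := (Nat.card F : ℝ) with hq
    have hq0 : 0 ≤ q := Nat.cast_nonneg _
    calc (Nat.card {φ : A₀ →+* F // φ c₀ ≠ 0 ∧ φ c = 0} : ℝ) * (H.totalDegree * q ^ (n + 1)) ≤
        Nat.card {φ : A₀ →+* F // φ c = 0} * (H.totalDegree * q ^ (n + 1)) := by gcongr
      _ = (Nat.card {φ : A₀ →+* F // φ c = 0} * q) * (H.totalDegree * q ^ n) := by ring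
      _ ≤ (C1 * q ^ d) * (H.totalDegree * q ^ n) := by gcongr
      _ = C1 * H.totalDegree * q ^ (d + n) := by ring

end

end Pool.Agent.K6.H86.NP
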