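import Pool.Agent.K6.H86.NP.Cnv
import Pool.Agent.K6.H86.NP.Pol

/-!
# The number of the points on the horizontal divisors
-/

set_option autoImplicit false
set_option linter.all false

open Polynomial FF NumberField

namespace Pool.Agent.K6.H86.NP

open Pool.Agent.R410.LW (ev ev_C ev_X ev_eq ev_eq' FG)
open Pool.Agent.R410.NG (Asy Ff)

section
variable {K L : Type} [Field K] [CharZero K] [Field L] [Algebra K L] [IsFF K L]

instance charZero_RF (P : Place K L) : CharZero P.RF :=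
  charZero_of_injective_algebraMap (algebraMap K P.RF).injective

/-- **The number of the points of the horizontal divisor** `y = 0`. -/
theorem asy_places {R A : Subring L} {v : L} (hv : Transcendental K v) (fR : FGr R) (fA : FGr A)
    (hRA : R ≤ A) (hRK : ∀ x ∈ R, x ∈ Set.range (algebraMap K L)) (hvA : v ∈ A)
    (hfr : ∀ x : K, ∃ a ∈ R, ∃ b ∈ R, b ≠ 0 ∧ algebraMap K L x = a / b)
    (G : Finset L) (hA : A = AD R v G)
    (hG : ∀ z ∈ G, ∃ p : R[X][X], p.Monic ∧ EL R v z p = 0)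
    (hint : ∀ z : L, IsIntegral (Algebra.adjoin K ({v} : Set L)) z ↔ ∃ r ∈ R, r ≠ 0 ∧ r * z ∈ A)
    {y : L} (hy : y ∈ A) (hy0 : y ≠ 0) (T : Finset (Place K L))
    (hT : ∀ P, P ∈ T ↔ P.Reg v ∧ 0 < P.ord y) {N : L} (hN : N ∈ R) (hN0 : N ≠ 0) (b : R[X]) {c : L}
    (hc : c ∈ A) (hyb : y * c = eval₂ R.subtype v b)
    (hNb : ∀ (F : Type) [Field F] (φ : R →+* F), φ ⟨N, hN⟩ ≠ 0 → φ b.leadingCoeff ≠ 0) {e : ℕ}
    (he : Algebra.trdeg ℚ K = e) :
    Asy (fun F _ _ => (Nat.card {χ : A →+* F // χ ⟨y, hy⟩ = 0 ∧ χ ⟨N, hRA hN⟩ ≠ 0} : ℝ)) e T.card := by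
  classical
  have hft := fA.ft
  have hAint : ∀ x ∈ A, IsIntegral (Algebra.adjoin K ({v} : Set L)) x := fun x hx =>
    (hint x).2 ⟨1, R.one_mem, one_ne_zero, by rwa [one_mul]⟩
  have hReg : ∀ P : Place K L, P ∈ T → ∀ x : A, P.Reg (A.subtype x) := fun P hP x =>
    reg_of_int P ((hT P).1 hP).1 (hAint x.1 x.2)
  let τ : ∀ i : {P : Place K L // P ∈ T}, A →+* i.1.RF := fun i =>
    i.1.redHom A.subtype (hReg i.1 i.2)
  have hτ : ∀ (i : {P : Place K L // P ∈ T}) (x : A), τ i x = i.1.red (x : L) := fun i x => rfl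
  have hconst : ∀ (i : {P : Place K L // P ∈ T}) (x : L), x ∈ R → x ≠ 0 → i.1.red x ≠ 0 := by
    intro i x hx hx0
    obtain ⟨k, rfl⟩ := hRK x hx
    refine i.1.red_ne_zero hx0 (i.1.ord_eq_zero_of_isAlgebraic hx0 (isAlgebraic_algebraMap k))
  have hcl : ∀ i, Subfield.closure (Set.range (τ i)) = ⊤ := by
    intro i
    rw [eq_top_iff]
    intro z _
    obtain ⟨z', hz', hz⟩ := red_surj hv ((hT i.1).1 i.2).1 z
    obtain ⟨r, hr, hr0, hrz⟩ := (hint z').1 hz'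
    have h1 : z = τ i ⟨_, hrz⟩ / τ i ⟨r, hRA hr⟩ := by
      rw [hτ, hτ]
      show z = i.1.red (r * z') / i.1.red r
      rw [eq_div_iff (hconst i r hr hr0)]
      rw [i.1.red_mul (reg_of_int i.1 ((hT i.1).1 i.2).1 (hAint r (hRA hr)))
        (reg_of_int i.1 ((hT i.1).1 i.2).1 hz')]
      rw [show i.1.red z' = z from hz, mul_comm]
    rw [h1]
    exact div_mem (Subfield.subset_closure ⟨_, rfl⟩) (Subfield.subset_closure ⟨_, rfl⟩)
  have htr : ∀ i : {P : Place K L // P ∈ T}, Algebra.trdeg ℚ i.1.RF = e := by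
    intro i
    have h1 : Algebra.IsAlgebraic K i.1.RF := Algebra.IsAlgebraic.of_finite K i.1.RF
    have h2 : Algebra.trdeg K i.1.RF = 0 := _root_.trdeg_eq_zero_iff.2 h1
    have h4 := trdeg_add_eq ℚ K (A := i.1.RF)
    rw [he, h2, add_zero] at h4
    exact h4.symm
  -- the submonoid
  let S : Submonoid A :=
    { carrier := {c | (c : L) ∈ R ∧ (c : L) ≠ 0}
      one_mem' := ⟨R.one_mem, one_ne_zero⟩
      mul_mem' := fun {x y} hx hy => ⟨R.mul_mem hx.1 hy.1, mul_ne_zero hx.2 hy.2⟩ }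
  have h := asy_union (fun i : {P : Place K L // P ∈ T} => i.1.RF) τ hcl htr (g := ⟨y, hy⟩) (c₀ := ⟨N, hRA hN⟩) ?_ ?_ ?_ S ?_ ?_
  · rw [Fintype.card_coe] at h
    exact h
  · intro i
    rw [hτ]
    show i.1.red y = 0
    exact (i.1.red_eq_zero_iff (hReg i.1 i.2 ⟨y, hy⟩)).2 (Or.inr ((hT i.1).1 i.2).2)
  · intro i
    rw [hτ]
    exact hconst i N hN hN0
  · intro i j hij
    obtain ⟨z, hz, hz1, hz2⟩ := exists_sep hv ((hT i.1).1 i.2).1 ((hT j.1).1 j.2).1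
      (fun h => hij (Subtype.ext h))
    obtain ⟨r, hr, hr0, hrz⟩ := (hint z).1 hz
    refine ⟨⟨_, hrz⟩, ?_, ?_⟩
    · rw [hτ]
      show j.1.red (r * z) = 0
      rw [j.1.red_mul (reg_of_int j.1 ((hT j.1).1 j.2).1 (hAint r (hRA hr)))
        (reg_of_int j.1 ((hT j.1).1 j.2).1 hz), hz1, mul_zero]
    · rw [hτ]
      show i.1.red (r * z) ≠ 0
      rw [i.1.red_mul (reg_of_int i.1 ((hT i.1).1 i.2).1 (hAint r (hRA hr)))
        (reg_of_int i.1 ((hT i.1).1 i.2).1 hz)]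
      exact mul_ne_zero (hconst i r hr hr0) hz2
  · intro x hx
    let m : ℕ := ∑ P ∈ T, (P.ord y).natAbs
    have h1 : IsIntegral (Algebra.adjoin K ({v} : Set L)) ((x : L) ^ m / y) := by
      rw [int_iff hv]
      intro P hP
      by_cases hx0 : (x : L) ^ m / y = 0
      · rw [hx0]
        exact P.reg_zero
      have hxm : (x : L) ^ m ≠ 0 := fun h0 => hx0 (by rw [h0, zero_div])
      rw [P.reg_iff hx0, P.ord_div hxm hy0, P.ord_pow]
      have h2 := reg_of_int P hP (hAint _ x.2)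
      by_cases hPT : P ∈ T
      · have h3 : (P.ord y).natAbs ≤ m := Finset.single_le_sum (f := fun P => (P.ord y).natAbs)
          (fun _ _ => Nat.zero_le _) hPT
        have h4 := hx ⟨P, hPT⟩
        rw [hτ] at h4
        have h4' : P.red (x : L) = 0 := h4
        rw [P.red_eq_zero_iff h2] at h4'
        rcases h4' with h5 | h5
        · have h6 := ((hT P).1 hPT).2
          have hm0 : m ≠ 0 := by omega
          exact (hxm (by rw [h5, zero_pow hm0])).elim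
        · have h6 : (m : ℤ) ≤ (m : ℤ) * P.ord (x : L) :=
            le_mul_of_one_le_right (by positivity) h5
          omega
      · have h3 : P.ord y ≤ 0 := by
          by_contra hc'
          exact hPT ((hT P).2 ⟨hP, by omega⟩)
        have h4 : 0 ≤ (m : ℤ) * P.ord (x : L) := by
          rcases h2 with h5 | h5
          · rw [h5, P.ord_zero, mul_zero]
          · positivity
        omega
    obtain ⟨r, hr, hr0, hrz⟩ := (hint _).1 h1
    refine ⟨⟨r, hRA hr⟩, ⟨hr, hr0⟩, m, ⟨_, hrz⟩, ?_⟩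
    apply Subtype.ext
    show r * (x : L) ^ m = y * (r * ((x : L) ^ m / y))
    field_simp
  · rintro ⟨d, hd⟩ ⟨hdR, hd0⟩
    have hdR' : d ∈ R := hdR
    have hd0' : d ≠ 0 := hd0
    obtain ⟨C0, hC0⟩ := fib_bound fR hRA hvA G hA hG b
    obtain ⟨C1, m1, hC1, hm1, h1⟩ := base_le fR hRK he.le hdR' hd0'
    refine ⟨C0 * C1, m1, by positivity, hm1, fun F _ _ hF => ?_⟩
    have i0 := fin_hom fR F
    have i1 := fin_hom fA F
    have h2 := (h1 F hF).2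
    have h3 := fib_sum hRA (F := F) (fun φ : R →+* F => φ ⟨N, hN⟩ ≠ 0 ∧ φ ⟨d, hdR'⟩ = 0)
      (fun χ : A →+* F => χ ⟨y, hy⟩ = 0)
    have h4 : Nat.card {χ : A →+* F // χ ⟨y, hy⟩ = 0 ∧ χ ⟨N, hRA hN⟩ ≠ 0 ∧ χ ⟨d, hd⟩ = 0} =
        Nat.card {χ : A →+* F // ((rst hRA χ) ⟨N, hN⟩ ≠ 0 ∧ (rst hRA χ) ⟨d, hdR'⟩ = 0) ∧
          χ ⟨y, hy⟩ = 0} :=
      Nat.card_congr (Equiv.subtypeEquivRight fun χ => by
        constructor
        · rintro ⟨h1, h2, h3⟩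
          exact ⟨⟨h2, h3⟩, h1⟩
        · rintro ⟨⟨h2, h3⟩, h1⟩
          exact ⟨h1, h2, h3⟩)
    rw [h4, ← h3]
    let _ : Fintype {φ : R →+* F // φ ⟨N, hN⟩ ≠ 0 ∧ φ ⟨d, hdR'⟩ = 0} := Fintype.ofFinite _
    rw [finsum_eq_sum_of_fintype]
    have h5 : ∀ φ ∈ (Finset.univ : Finset {φ : R →+* F // φ ⟨N, hN⟩ ≠ 0 ∧ φ ⟨d, hdR'⟩ = 0}),
        (Nat.card {χ : A →+* F // Agr φ.1 χ ∧ χ ⟨y, hy⟩ = 0} : ℝ) ≤ C0 := by
      intro φ _
      have h6 := hC0 F φ.1 (hNb F φ.1 φ.2.1) (fun χ => Agr φ.1 χ ∧ χ ⟨y, hy⟩ = 0) (by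
        rintro χ ⟨h6, h7⟩
        refine ⟨h6, fun h8 => ?_⟩
        have h9 : (⟨eval₂ R.subtype v b, h8⟩ : A) = ⟨y, hy⟩ * ⟨c, hc⟩ := Subtype.ext hyb.symm
        rw [h9, map_mul, h7, zero_mul])
      exact_mod_cast h6
    have h6 := Finset.sum_le_card_nsmul _ _ _ h5
    rw [nsmul_eq_mul, Finset.card_univ, ← Nat.card_eq_fintype_card] at h6
    have h7 : (Nat.card {φ : R →+* F // φ ⟨N, hN⟩ ≠ 0 ∧ φ ⟨d, hdR'⟩ = 0} : ℝ) ≤
        Nat.card {φ : R →+* F // φ ⟨d, hdR'⟩ = 0} := by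
      exact_mod_cast Nat.card_le_card_of_injective
        (fun φ : {φ : R →+* F // φ ⟨N, hN⟩ ≠ 0 ∧ φ ⟨d, hdR'⟩ = 0} =>
          (⟨φ.1, φ.2.2⟩ : {φ : R →+* F // φ ⟨d, hdR'⟩ = 0}))
        (fun φ φ' h => Subtype.ext (congrArg (fun w => w.1) h))
    set q : ℝ := (Nat.card F : ℝ) with hq
    have hq0 : 0 ≤ q := Nat.cast_nonneg _
    calc (∑ φ : {φ : R →+* F // φ ⟨N, hN⟩ ≠ 0 ∧ φ ⟨d, hdR'⟩ = 0},
          (Nat.card {χ : A →+* F // Agr φ.1 χ ∧ χ ⟨y, hy⟩ = 0} : ℝ)) * q ≤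
        (Nat.card {φ : R →+* F // φ ⟨N, hN⟩ ≠ 0 ∧ φ ⟨d, hdR'⟩ = 0} * C0) * q := by
          gcongr
      _ ≤ (Nat.card {φ : R →+* F // φ ⟨d, hdR'⟩ = 0} * C0) * q := by gcongr
      _ = C0 * (Nat.card {φ : R →+* F // φ ⟨d, hdR'⟩ = 0} * q) := by ring
      _ ≤ C0 * (C1 * q ^ e) := by gcongr
      _ = C0 * C1 * q ^ e := by ring

end

end Pool.Agent.K6.H86.NP
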