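import Pool.Agent.K6.H86.NP.Ext

/-!
# Rings generated over a subring
-/

set_option autoImplicit false
set_option linter.all false

open Polynomial

namespace Pool.Agent.K6.H86.NP

open Pool.Agent.R410.LW (ev ev_C ev_X ev_eq ev_eq')

section
variable {L : Type} [Field L]

theorem locS_eq {A : Subring L} {a : L} (ha : a ∈ A) (ha0 : a ≠ 0) :
    locS A ha = A ⊔ Subring.closure {a⁻¹} := by
  apply le_antisymm
  · refine locS_le ha ha0 le_sup_left ?_
    exact (le_sup_right : Subring.closure {a⁻¹} ≤ A ⊔ Subring.closure {a⁻¹})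
      (Subring.subset_closure rfl)
  · refine sup_le (le_locS ha) ?_
    rw [Subring.closure_le]
    rintro x hx
    rw [Set.mem_singleton_iff.1 hx]
    exact inv_mem_locS ha

theorem FGr.locS {A : Subring L} (hA : FGr A) {a : L} (ha : a ∈ A) (ha0 : a ≠ 0) :
    FGr (locS A ha) := by
  rw [locS_eq ha ha0]
  exact hA.sup ⟨{a⁻¹}, by simp⟩

/-- the ring generated by `v` and the elements of `G` -/
def AD (S : Subring L) (v : L) (G : Finset L) : Subring L :=
  Subring.closure ((S : Set L) ∪ {v} ∪ (G : Set L))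

theorem le_AD (S : Subring L) (v : L) (G : Finset L) : S ≤ AD S v G := fun x hx =>
  Subring.subset_closure (Or.inl (Or.inl hx))

theorem v_mem_AD (S : Subring L) (v : L) (G : Finset L) : v ∈ AD S v G :=
  Subring.subset_closure (Or.inl (Or.inr rfl))

theorem g_mem_AD (S : Subring L) (v : L) {G : Finset L} {x : L} (hx : x ∈ G) : x ∈ AD S v G :=
  Subring.subset_closure (Or.inr hx)

theorem AD_le {S A : Subring L} {v : L} {G : Finset L} (h : S ≤ A) (hv : v ∈ A)
    (hG : ∀ x ∈ G, x ∈ A) : AD S v G ≤ A := by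
  unfold AD
  rw [Subring.closure_le]
  rintro x ((hx | hx) | hx)
  · exact h hx
  · rw [Set.mem_singleton_iff.1 hx]
    exact hv
  · exact hG x hx

theorem AD_mono {S S' : Subring L} (h : S ≤ S') (v : L) (G : Finset L) : AD S v G ≤ AD S' v G :=
  AD_le (h.trans (le_AD S' v G)) (v_mem_AD S' v G) fun x hx => g_mem_AD S' v hx

theorem fg_AD {S : Subring L} (hS : FGr S) (v : L) (G : Finset L) : FGr (AD S v G) := by
  classical
  obtain ⟨H, hH⟩ := hS
  refine ⟨H ∪ {v} ∪ G, ?_⟩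
  unfold AD
  rw [Finset.coe_union, Finset.coe_union, Finset.coe_singleton]
  apply le_antisymm
  · refine Subring.closure_mono ?_
    refine Set.union_subset_union_left _ (Set.union_subset_union_left _ ?_)
    rw [← hH]
    exact Subring.subset_closure
  · rw [Subring.closure_le]
    rintro x ((hx | hx) | hx)
    · have h1 : x ∈ Subring.closure (H : Set L) := by rw [hH]; exact hx
      exact Subring.closure_mono (fun y hy => Or.inl (Or.inl hy)) h1
    · exact Subring.subset_closure (Or.inl (Or.inr hx))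
    · exact Subring.subset_closure (Or.inr hx)

/-- **Spreading out.** -/
theorem spread {S₀ S : Subring L} (h : ∀ s ∈ S, ∃ c ∈ S₀, c ≠ 0 ∧ c * s ∈ S₀) {A A₀ : Subring L}
    (hA₀ : S₀ ≤ A₀) (Z : Set L) (hZ : Z ⊆ A₀) (hA : A ≤ S ⊔ Subring.closure Z) {y : L}
    (hy : y ∈ A) : ∃ c ∈ S₀, c ≠ 0 ∧ c * y ∈ A₀ := by
  let B : Subring L :=
    { carrier := {y | ∃ c ∈ S₀, c ≠ 0 ∧ c * y ∈ A₀}
      zero_mem' := ⟨1, S₀.one_mem, one_ne_zero, by rw [mul_zero]; exact A₀.zero_mem⟩
      one_mem' := ⟨1, S₀.one_mem, one_ne_zero, by rw [mul_one]; exact A₀.one_mem⟩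
      add_mem' := by
        rintro x y ⟨c, hc, hc0, hcx⟩ ⟨d, hd, hd0, hdy⟩
        refine ⟨c * d, S₀.mul_mem hc hd, mul_ne_zero hc0 hd0, ?_⟩
        have : c * d * (x + y) = d * (c * x) + c * (d * y) := by ring
        rw [this]
        exact A₀.add_mem (A₀.mul_mem (hA₀ hd) hcx) (A₀.mul_mem (hA₀ hc) hdy)
      mul_mem' := by
        rintro x y ⟨c, hc, hc0, hcx⟩ ⟨d, hd, hd0, hdy⟩
        refine ⟨c * d, S₀.mul_mem hc hd, mul_ne_zero hc0 hd0, ?_⟩
        have : c * d * (x * y) = (c * x) * (d * y) := by ring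
        rw [this]
        exact A₀.mul_mem hcx hdy
      neg_mem' := by
        rintro x ⟨c, hc, hc0, hcx⟩
        refine ⟨c, hc, hc0, ?_⟩
        rw [mul_neg]
        exact A₀.neg_mem hcx }
  have h1 : S ⊔ Subring.closure Z ≤ B := by
    refine sup_le ?_ ?_
    · intro s hs
      obtain ⟨c, hc, hc0, hcs⟩ := h s hs
      exact ⟨c, hc, hc0, hA₀ hcs⟩
    · rw [Subring.closure_le]
      intro z hz
      exact ⟨1, S₀.one_mem, one_ne_zero, by rw [one_mul]; exact hZ hz⟩
  exact h1 (hA hy)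

theorem spread_AD {S₀ S : Subring L} (h : ∀ s ∈ S, ∃ c ∈ S₀, c ≠ 0 ∧ c * s ∈ S₀) {v : L}
    {G : Finset L} {y : L} (hy : y ∈ AD S v G) : ∃ c ∈ S₀, c ≠ 0 ∧ c * y ∈ AD S₀ v G := by
  refine spread h (le_AD S₀ v G) ({v} ∪ (G : Set L)) ?_ (A := AD S v G) ?_ hy
  · rintro x (hx | hx)
    · rw [Set.mem_singleton_iff.1 hx]
      exact v_mem_AD S₀ v G
    · exact g_mem_AD S₀ v hx
  · refine AD_le le_sup_left ?_ ?_
    · exact (le_sup_right : Subring.closure ({v} ∪ (G : Set L)) ≤ _)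
        (Subring.subset_closure (Or.inl rfl))
    · intro x hx
      exact (le_sup_right : Subring.closure ({v} ∪ (G : Set L)) ≤ _)
        (Subring.subset_closure (Or.inr hx))

theorem spread_CC {S₀ S : Subring L} (h : ∀ s ∈ S, ∃ c ∈ S₀, c ≠ 0 ∧ c * s ∈ S₀) {u θ : L} {y : L}
    (hy : y ∈ CC S u θ) : ∃ c ∈ S₀, c ≠ 0 ∧ c * y ∈ CC S₀ u θ := by
  refine spread h (le_CC S₀ u θ) {u, θ} ?_ (A := CC S u θ) le_rfl hy
  rintro x hx
  simp only [Set.mem_insert_iff, Set.mem_singleton_iff] at hx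
  rcases hx with rfl | rfl
  · exact u_mem_CC S₀ x θ
  · exact t_mem_CC S₀ u x

theorem CC_mono {S S' : Subring L} (h : S ≤ S') (u θ : L) : CC S u θ ≤ CC S' u θ :=
  CC_le (h.trans (le_CC S' u θ)) (u_mem_CC S' u θ) (t_mem_CC S' u θ)

/-- a common denominator of finitely many elements -/
theorem common_den {S₀ A : Subring L} (hS : S₀ ≤ A) (G : Finset L)
    (h : ∀ y ∈ G, ∃ c ∈ S₀, c ≠ 0 ∧ c * y ∈ A) : ∃ c ∈ S₀, c ≠ 0 ∧ ∀ y ∈ G, c * y ∈ A := by
  classical
  choose! d hd hd0 hdy using h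
  refine ⟨∏ g ∈ G, d g, Subring.prod_mem _ fun g hg => hd g hg,
    Finset.prod_ne_zero_iff.2 fun g hg => hd0 g hg, fun y hy => ?_⟩
  rw [← Finset.prod_erase_mul G _ hy, mul_assoc]
  exact A.mul_mem (hS (Subring.prod_mem _ fun g' hg' => hd g' (Finset.mem_of_mem_erase hg')))
    (hdy y hy)

/-- the ring generated by a family -/
def PP {m : ℕ} (S : Subring L) (x : Fin m → L) : Subring L := S ⊔ Subring.closure (Set.range x)

theorem le_PP {m : ℕ} (S : Subring L) (x : Fin m → L) : S ≤ PP S x := le_sup_left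

theorem x_mem_PP {m : ℕ} (S : Subring L) (x : Fin m → L) (i : Fin m) : x i ∈ PP S x :=
  (le_sup_right : Subring.closure (Set.range x) ≤ S ⊔ _) (Subring.subset_closure ⟨i, rfl⟩)

theorem PP_le {m : ℕ} {S A : Subring L} {x : Fin m → L} (h : S ≤ A) (hx : ∀ i, x i ∈ A) :
    PP S x ≤ A := by
  refine sup_le h ?_
  rw [Subring.closure_le]
  rintro _ ⟨i, rfl⟩
  exact hx i

theorem PP_mono {m : ℕ} {S S' : Subring L} (h : S ≤ S') (x : Fin m → L) : PP S x ≤ PP S' x :=
  PP_le (h.trans (le_PP S' x)) (x_mem_PP S' x)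

theorem fg_PP {m : ℕ} {S : Subring L} (hS : FGr S) (x : Fin m → L) : FGr (PP S x) := by
  classical
  refine hS.sup ⟨Finset.univ.image x, ?_⟩
  rw [Finset.coe_image, Finset.coe_univ, Set.image_univ]

theorem spread_PP {m : ℕ} {S₀ S : Subring L} (h : ∀ s ∈ S, ∃ c ∈ S₀, c ≠ 0 ∧ c * s ∈ S₀)
    {x : Fin m → L} {y : L} (hy : y ∈ PP S x) : ∃ c ∈ S₀, c ≠ 0 ∧ c * y ∈ PP S₀ x := by
  refine spread h (le_PP S₀ x) (Set.range x) ?_ (A := PP S x) le_rfl hy
  rintro _ ⟨i, rfl⟩
  exact x_mem_PP S₀ x i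

/-- the evaluation of polynomials -/
noncomputable def evP {m : ℕ} (S : Subring L) (x : Fin m → L) : MvPolynomial (Fin m) S →+* L :=
  MvPolynomial.eval₂Hom S.subtype x

theorem evP_C {m : ℕ} (S : Subring L) (x : Fin m → L) (c : S) : evP S x (MvPolynomial.C c) = c := by
  unfold evP
  rw [MvPolynomial.coe_eval₂Hom, MvPolynomial.eval₂_C]
  rfl

theorem evP_X {m : ℕ} (S : Subring L) (x : Fin m → L) (i : Fin m) :
    evP S x (MvPolynomial.X i) = x i := by
  unfold evP
  rw [MvPolynomial.coe_eval₂Hom, MvPolynomial.eval₂_X]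

theorem evP_mem {m : ℕ} (S : Subring L) (x : Fin m → L) (p : MvPolynomial (Fin m) S) :
    evP S x p ∈ PP S x := by
  induction p using MvPolynomial.induction_on with
  | C c => rw [evP_C]; exact le_PP S x c.2
  | add p q hp hq => rw [map_add]; exact add_mem hp hq
  | mul_X p i hp => rw [map_mul, evP_X]; exact mul_mem hp (x_mem_PP S x i)

theorem mem_PP {m : ℕ} {S : Subring L} {x : Fin m → L} {y : L} :
    y ∈ PP S x ↔ ∃ p, evP S x p = y := by
  constructor
  · intro hy
    let B : Subring L :=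
      { carrier := {y | ∃ p, evP S x p = y}
        zero_mem' := ⟨0, map_zero _⟩
        one_mem' := ⟨1, map_one _⟩
        add_mem' := by
          rintro _ _ ⟨p, rfl⟩ ⟨q, rfl⟩
          exact ⟨p + q, map_add _ _ _⟩
        mul_mem' := by
          rintro _ _ ⟨p, rfl⟩ ⟨q, rfl⟩
          exact ⟨p * q, map_mul _ _ _⟩
        neg_mem' := by
          rintro _ ⟨p, rfl⟩
          refine ⟨MvPolynomial.C (-1) * p, ?_⟩
          rw [map_mul, evP_C]
          simp }
    have h : PP S x ≤ B := PP_le (fun c hc => ⟨MvPolynomial.C ⟨c, hc⟩, evP_C S x ⟨c, hc⟩⟩)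
      (fun i => ⟨MvPolynomial.X i, evP_X S x i⟩)
    exact h hy
  · rintro ⟨p, rfl⟩
    exact evP_mem S x p

variable {M : Type} [Field M] [Algebra M L]

theorem evP_toK {m : ℕ} {S : Subring L} (hS : ∀ x ∈ S, x ∈ Set.range (algebraMap M L))
    (x : Fin m → L) (p : MvPolynomial (Fin m) S) :
    evP S x p = MvPolynomial.aeval x (MvPolynomial.map (toK S hS) p) := by
  have h : evP S x = ((MvPolynomial.aeval x : MvPolynomial (Fin m) M →ₐ[M] L) :
      MvPolynomial (Fin m) M →+* L).comp (MvPolynomial.map (toK S hS)) := by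
    apply MvPolynomial.ringHom_ext
    · intro c
      rw [evP_C, RingHom.comp_apply, MvPolynomial.map_C, RingHom.coe_coe, MvPolynomial.aeval_C,
        algebraMap_toK]
    · intro i
      rw [evP_X, RingHom.comp_apply, MvPolynomial.map_X, RingHom.coe_coe, MvPolynomial.aeval_X]
  exact congrArg (fun g => g p) h

theorem evP_injective {m : ℕ} {S : Subring L} (hS : ∀ x ∈ S, x ∈ Set.range (algebraMap M L))
    {x : Fin m → L} (hx : AlgebraicIndependent M x) : Function.Injective (evP S x) := by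
  intro p q hpq
  rw [evP_toK hS, evP_toK hS] at hpq
  exact MvPolynomial.map_injective _ (toK_injective S hS) (hx hpq)

/-- the polynomial ring -/
noncomputable def evPe {m : ℕ} {S : Subring L} (hS : ∀ x ∈ S, x ∈ Set.range (algebraMap M L))
    {x : Fin m → L} (hx : AlgebraicIndependent M x) : MvPolynomial (Fin m) S ≃+* PP S x :=
  RingEquiv.ofBijective ((evP S x).codRestrict (PP S x) (evP_mem S x))
    ⟨fun p q h => evP_injective hS hx (congrArg Subtype.val h), fun ⟨y, hy⟩ => by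
      obtain ⟨p, hp⟩ := mem_PP.1 hy
      exact ⟨p, Subtype.ext hp⟩⟩

theorem evPe_apply {m : ℕ} {S : Subring L} (hS : ∀ x ∈ S, x ∈ Set.range (algebraMap M L))
    {x : Fin m → L} (hx : AlgebraicIndependent M x) (p : MvPolynomial (Fin m) S) :
    ((evPe hS hx p : PP S x) : L) = evP S x p := rfl

end

end Pool.Agent.K6.H86.NP
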