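import Mathlib

/-!
# Homomorphisms from subrings of a field to finite fields
-/

set_option autoImplicit false
set_option linter.all false

namespace Pool.Agent.K6.H86.NP

section
variable {L : Type} [Field L]

/-- The homomorphisms `φ` and `χ` from two subrings agree on the intersection. -/
def Agr {R A : Subring L} {F : Type} [Field F] (φ : R →+* F) (χ : A →+* F) : Prop :=
  ∀ (x : L) (hR : x ∈ R) (hA : x ∈ A), χ ⟨x, hA⟩ = φ ⟨x, hR⟩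

/-- The homomorphism `χ` from a subring lies above `ψ`. -/
def Ov {O : Type} [CommRing O] (ρ : O →+* L) {A : Subring L} {F : Type} [Field F] (ψ : O →+* F)
    (χ : A →+* F) : Prop := ∀ (o : O) (h : ρ o ∈ A), χ ⟨ρ o, h⟩ = ψ o

/-- the fractions of the elements of `A` by powers of `a` -/
def locS (A : Subring L) {a : L} (ha : a ∈ A) : Subring L where
  carrier := {b | ∃ n : ℕ, a ^ n * b ∈ A}
  zero_mem' := ⟨0, by simp [A.zero_mem]⟩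
  one_mem' := ⟨0, by simp [A.one_mem]⟩
  add_mem' := by
    rintro x y ⟨n, hn⟩ ⟨m, hm⟩
    refine ⟨n + m, ?_⟩
    have : a ^ (n + m) * (x + y) = a ^ m * (a ^ n * x) + a ^ n * (a ^ m * y) := by ring
    rw [this]
    exact A.add_mem (A.mul_mem (A.pow_mem ha _) hn) (A.mul_mem (A.pow_mem ha _) hm)
  mul_mem' := by
    rintro x y ⟨n, hn⟩ ⟨m, hm⟩
    refine ⟨n + m, ?_⟩
    have : a ^ (n + m) * (x * y) = (a ^ n * x) * (a ^ m * y) := by ring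
    rw [this]
    exact A.mul_mem hn hm
  neg_mem' := by
    rintro x ⟨n, hn⟩
    refine ⟨n, ?_⟩
    rw [mul_neg]
    exact A.neg_mem hn

theorem mem_locS {A : Subring L} {a : L} {ha : a ∈ A} {b : L} :
    b ∈ locS A ha ↔ ∃ n : ℕ, a ^ n * b ∈ A := Iff.rfl

theorem le_locS {A : Subring L} {a : L} (ha : a ∈ A) : A ≤ locS A ha :=
  fun x hx => ⟨0, by simpa using hx⟩

theorem inv_mem_locS {A : Subring L} {a : L} (ha : a ∈ A) : a⁻¹ ∈ locS A ha := by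
  by_cases h0 : a = 0
  · subst h0
    rw [inv_zero]
    exact (locS A ha).zero_mem
  · refine ⟨1, ?_⟩
    rw [pow_one, mul_inv_cancel₀ h0]
    exact A.one_mem

/-- a subring which contains `A` and the inverse of `a` -/
theorem locS_le {A B : Subring L} {a : L} (ha : a ∈ A) (ha0 : a ≠ 0) (h : A ≤ B) (hi : a⁻¹ ∈ B) :
    locS A ha ≤ B := by
  rintro b ⟨n, hn⟩
  have : b = (a⁻¹) ^ n * (a ^ n * b) := by
    rw [← mul_assoc, ← mul_pow, inv_mul_cancel₀ ha0, one_pow, one_mul]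
  rw [this]
  exact B.mul_mem (B.pow_mem hi n) (h hn)

/-- the inverse of a divisor -/
theorem inv_mem_of_dvd {B : Subring L} {a b c : L} (h : a = b * c) (ha0 : a ≠ 0) (hi : a⁻¹ ∈ B)
    (hc : c ∈ B) : b⁻¹ ∈ B := by
  subst h
  have hb : b ≠ 0 := left_ne_zero_of_mul ha0
  have hc0 : c ≠ 0 := right_ne_zero_of_mul ha0
  have : b⁻¹ = (b * c)⁻¹ * c := by
    field_simp
  rw [this]
  exact B.mul_mem hi hc

section ext
variable {A B : Subring L} (hAB : A ≤ B) {a : L} (ha : a ∈ A)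
  (h : ∀ b ∈ B, ∃ n : ℕ, a ^ n * b ∈ A) {F : Type} [Field F]

theorem ext_val (χ : A →+* F) (hχ : χ ⟨a, ha⟩ ≠ 0) (b : L) (n m : ℕ) (hn : a ^ n * b ∈ A)
    (hm : a ^ m * b ∈ A) : χ ⟨_, hn⟩ / χ ⟨a, ha⟩ ^ n = χ ⟨_, hm⟩ / χ ⟨a, ha⟩ ^ m := by
  rw [div_eq_div_iff (pow_ne_zero _ hχ) (pow_ne_zero _ hχ), ← map_pow, ← map_pow, ← map_mul,
    ← map_mul]
  congr 1
  apply Subtype.ext
  show a ^ n * b * a ^ m = a ^ m * b * a ^ n
  ring

/-- the extension as a function -/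
noncomputable def extFun (χ : A →+* F) (b : B) : F :=
  χ ⟨_, (h b.1 b.2).choose_spec⟩ / χ ⟨a, ha⟩ ^ (h b.1 b.2).choose

theorem extFun_eq (χ : A →+* F) (hχ : χ ⟨a, ha⟩ ≠ 0) (b : B) (m : ℕ) (hm : a ^ m * b.1 ∈ A) :
    extFun ha h χ b = χ ⟨_, hm⟩ / χ ⟨a, ha⟩ ^ m :=
  ext_val ha χ hχ b.1 _ m _ hm

theorem extFun_eq0 (χ : A →+* F) (hχ : χ ⟨a, ha⟩ ≠ 0) (b : B) (hb : b.1 ∈ A) :
    extFun ha h χ b = χ ⟨b.1, hb⟩ := by
  have h0 : a ^ 0 * b.1 ∈ A := by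
    rw [pow_zero, one_mul]
    exact hb
  rw [extFun_eq ha h χ hχ b 0 h0, pow_zero (χ ⟨a, ha⟩), div_one]
  congr 1
  apply Subtype.ext
  show a ^ 0 * b.1 = b.1
  simp

/-- the extension -/
noncomputable def extHom (χ : A →+* F) (hχ : χ ⟨a, ha⟩ ≠ 0) : B →+* F where
  toFun := extFun ha h χ
  map_one' := by
    rw [extFun_eq0 ha h χ hχ 1 A.one_mem]
    exact map_one χ
  map_zero' := by
    rw [extFun_eq0 ha h χ hχ 0 A.zero_mem]
    exact map_zero χ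
  map_add' x y := by
    obtain ⟨n, hx⟩ := h x.1 x.2
    obtain ⟨m, hy⟩ := h y.1 y.2
    have hxy : a ^ (n + m) * (x + y).1 ∈ A := by
      have : a ^ (n + m) * (x + y).1 = a ^ m * (a ^ n * x.1) + a ^ n * (a ^ m * y.1) := by
        show a ^ (n + m) * (x.1 + y.1) = _
        ring
      rw [this]
      exact A.add_mem (A.mul_mem (A.pow_mem ha _) hx) (A.mul_mem (A.pow_mem ha _) hy)
    rw [extFun_eq ha h χ hχ _ _ hxy, extFun_eq ha h χ hχ _ _ hx, extFun_eq ha h χ hχ _ _ hy]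
    have e2 : (⟨_, hxy⟩ : A) = (⟨a, ha⟩ : A) ^ m * ⟨_, hx⟩ + (⟨a, ha⟩ : A) ^ n * ⟨_, hy⟩ := by
      apply Subtype.ext
      show a ^ (n + m) * (x.1 + y.1) = a ^ m * (a ^ n * x.1) + a ^ n * (a ^ m * y.1)
      ring
    rw [e2, map_add, map_mul, map_mul, map_pow, map_pow, pow_add]
    have h0 : χ ⟨a, ha⟩ ^ n ≠ 0 := pow_ne_zero _ hχ
    have h1 : χ ⟨a, ha⟩ ^ m ≠ 0 := pow_ne_zero _ hχ
    field_simp
  map_mul' x y := by
    obtain ⟨n, hx⟩ := h x.1 x.2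
    obtain ⟨m, hy⟩ := h y.1 y.2
    have hxy : a ^ (n + m) * (x * y).1 ∈ A := by
      have : a ^ (n + m) * (x * y).1 = (a ^ n * x.1) * (a ^ m * y.1) := by
        show a ^ (n + m) * (x.1 * y.1) = _
        ring
      rw [this]
      exact A.mul_mem hx hy
    rw [extFun_eq ha h χ hχ _ _ hxy, extFun_eq ha h χ hχ _ _ hx, extFun_eq ha h χ hχ _ _ hy]
    have e2 : (⟨_, hxy⟩ : A) = ⟨_, hx⟩ * ⟨_, hy⟩ := by
      apply Subtype.ext
      show a ^ (n + m) * (x.1 * y.1) = (a ^ n * x.1) * (a ^ m * y.1)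
      ring
    rw [e2, map_mul, pow_add, mul_div_mul_comm]

theorem extHom_agr (χ : A →+* F) (hχ : χ ⟨a, ha⟩ ≠ 0) : Agr χ (extHom (B := B) ha h χ hχ) := by
  intro x hA hB
  exact extFun_eq0 ha h χ hχ ⟨x, hB⟩ hA

include hAB in
theorem ext_unique (χ χ' : B →+* F) (hχ : χ ⟨a, hAB ha⟩ ≠ 0)
    (he : ∀ x (hx : x ∈ A), χ ⟨x, hAB hx⟩ = χ' ⟨x, hAB hx⟩) (h : ∀ b ∈ B, ∃ n : ℕ, a ^ n * b ∈ A) :
    χ = χ' := by
  refine RingHom.ext fun b => ?_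
  obtain ⟨n, hn⟩ := h b.1 b.2
  have e1 := he _ hn
  have e2 : (⟨_, hAB hn⟩ : B) = (⟨a, hAB ha⟩ : B) ^ n * b := Subtype.ext rfl
  rw [e2, map_mul, map_mul, map_pow, map_pow, ← he a ha] at e1
  exact mul_left_cancel₀ (pow_ne_zero _ hχ) e1

end ext

/-- restriction to a smaller ring -/
def rst {A B : Subring L} (hAB : A ≤ B) {F : Type} [Field F] (χ : B →+* F) : A →+* F :=
  χ.comp (Subring.inclusion hAB)

theorem rst_apply {A B : Subring L} (hAB : A ≤ B) {F : Type} [Field F] (χ : B →+* F) (x : L)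
    (hx : x ∈ A) : rst hAB χ ⟨x, hx⟩ = χ ⟨x, hAB hx⟩ := rfl

/-- **The homomorphisms from a localization.** -/
theorem loc_card {A B : Subring L} (hAB : A ≤ B) {a : L} (ha : a ∈ A)
    (h : ∀ b ∈ B, ∃ n : ℕ, a ^ n * b ∈ A) {F : Type} [Field F] (P : (A →+* F) → Prop)
    (P' : (B →+* F) → Prop) (hP : ∀ χ : B →+* F, P' χ ↔ P (rst hAB χ)) :
    Nat.card {χ : B →+* F // P' χ ∧ χ ⟨a, hAB ha⟩ ≠ 0} =
      Nat.card {χ : A →+* F // P χ ∧ χ ⟨a, ha⟩ ≠ 0} := by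
  refine Nat.card_congr (Equiv.ofBijective (fun χ => ⟨rst hAB χ.1, (hP _).1 χ.2.1, χ.2.2⟩) ⟨?_, ?_⟩)
  · intro χ χ' hχ
    apply Subtype.ext
    refine ext_unique hAB ha χ.1 χ'.1 χ.2.2 ?_ h
    intro x hx
    exact congrArg (fun f : {χ : A →+* F // P χ ∧ χ ⟨a, ha⟩ ≠ 0} => f.1 ⟨x, hx⟩) hχ
  · rintro ⟨χ, h1, h2⟩
    have h3 : rst hAB (extHom ha h χ h2) = χ := by
      refine RingHom.ext fun x => ?_
      exact extHom_agr ha h χ h2 x.1 x.2 (hAB x.2)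
    refine ⟨⟨extHom ha h χ h2, ?_, ?_⟩, Subtype.ext h3⟩
    · rw [hP, h3]
      exact h1
    · rw [extHom_agr ha h χ h2 a ha (hAB ha)]
      exact h2

/-- the same ring of fractions -/
theorem loc_loc {A B : Subring L} {a b : L} (ha : a ∈ A) (hb : b ∈ B) (ha0 : a ≠ 0) (hb0 : b ≠ 0)
    (h : locS A ha = locS B hb) {F : Type} [Field F] {O : Type} [CommRing O] (ρ : O →+* L)
    (hρA : ∀ o, ρ o ∈ A) (hρB : ∀ o, ρ o ∈ B) (ψ : O →+* F) :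
    Nat.card {χ : A →+* F // Ov ρ ψ χ ∧ χ ⟨a, ha⟩ ≠ 0} =
      Nat.card {χ : B →+* F // Ov ρ ψ χ ∧ χ ⟨b, hb⟩ ≠ 0} := by
  have key : ∀ {A : Subring L} {a : L} (ha : a ∈ A) (ha0 : a ≠ 0) (hρA : ∀ o, ρ o ∈ A),
      Nat.card {χ : A →+* F // Ov ρ ψ χ ∧ χ ⟨a, ha⟩ ≠ 0} =
        Nat.card {χ : locS A ha →+* F // Ov ρ ψ χ} := by
    intro A a ha ha0 hρA
    rw [← loc_card (le_locS ha) ha (fun b hb => hb) (fun χ => Ov ρ ψ χ) (fun χ => Ov ρ ψ χ)]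
    · refine Nat.card_congr (Equiv.subtypeEquivRight fun χ => ?_)
      refine ⟨fun h => h.1, fun h => ⟨h, fun h0 => ?_⟩⟩
      have h1 : (⟨a, le_locS ha ha⟩ : locS A ha) * ⟨a⁻¹, inv_mem_locS ha⟩ = 1 :=
        Subtype.ext (mul_inv_cancel₀ ha0)
      have h2 := congrArg χ h1
      rw [map_mul, h0, zero_mul, map_one] at h2
      exact zero_ne_one h2
    · intro χ
      constructor
      · intro h o ho
        exact h o (le_locS ha ho)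
      · intro h o ho
        exact h o (hρA o)
  rw [key ha ha0 hρA, key hb hb0 hρB]
  have e : ∀ X Y : Subring L, X = Y →
      Nat.card {χ : X →+* F // Ov ρ ψ χ} = Nat.card {χ : Y →+* F // Ov ρ ψ χ} := by
    rintro X _ rfl
    rfl
  exact e _ _ h

/-! ### the points of the curve -/

/-- the number of the points of the fibre over `φ` -/
noncomputable def pts (R A₁ A₂ : Subring L) (u : L) (F : Type) [Field F] (φ : R →+* F) : ℕ :=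
  Nat.card {χ : A₁ →+* F // Agr φ χ} +
    Nat.card {χ : A₂ →+* F // Agr φ χ ∧ ∀ h : u⁻¹ ∈ A₂, χ ⟨u⁻¹, h⟩ = 0}

theorem agr_card {R A R' A' : Subring L} (hR : R ≤ R') (h1 : A ≤ A') (hRA : R ≤ A) (hRA' : R' ≤ A')
    {s : L} (hs : s ∈ R) (e0 : ∀ b ∈ R', ∃ n : ℕ, s ^ n * b ∈ R)
    (e1 : ∀ b ∈ A', ∃ n : ℕ, s ^ n * b ∈ A) {F : Type} [Field F] (φ : R →+* F)
    (hφ : φ ⟨s, hs⟩ ≠ 0) (φ' : R' →+* F) (hφ' : Agr φ φ') (Z : (A →+* F) → Prop)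
    (Z' : (A' →+* F) → Prop) (hZ : ∀ χ : A' →+* F, Z' χ ↔ Z (rst h1 χ)) :
    Nat.card {χ : A →+* F // Agr φ χ ∧ Z χ} = Nat.card {χ : A' →+* F // Agr φ' χ ∧ Z' χ} := by
  have key : ∀ χ : A →+* F, Agr φ χ → χ ⟨s, hRA hs⟩ ≠ 0 := by
    intro χ hχ
    rw [hχ s hs (hRA hs)]
    exact hφ
  have key' : ∀ χ : A' →+* F, Agr φ' χ → χ ⟨s, hRA' (hR hs)⟩ ≠ 0 := by
    intro χ hχ
    rw [hχ s (hR hs) (hRA' (hR hs)), hφ' s hs (hR hs)]
    exact hφ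
  have h2 := loc_card h1 (hRA hs) e1 (fun χ => Agr φ χ ∧ Z χ) (fun χ => Agr φ' χ ∧ Z' χ) (F := F) (by
    intro χ
    rw [hZ]
    refine and_congr_left fun _ => ?_
    constructor
    · intro h x hx hA
      rw [rst_apply, h x (hR hx) (h1 hA), hφ' x hx (hR hx)]
    · intro h x hx hA
      obtain ⟨n, hn⟩ := e0 x hx
      have hsA : s ∈ A' := hRA' (hR hs)
      have e2 : (⟨_, hRA' (hR hn)⟩ : A') = (⟨s, hsA⟩ : A') ^ n * ⟨x, hA⟩ := Subtype.ext rfl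
      have e3 : (⟨_, hR hn⟩ : R') = (⟨s, hR hs⟩ : R') ^ n * ⟨x, hx⟩ := Subtype.ext rfl
      have e4 : χ ⟨_, hRA' (hR hn)⟩ = φ' ⟨_, hR hn⟩ := by
        have := h _ hn (hRA hn)
        rw [rst_apply] at this
        rw [this, hφ' _ hn (hR hn)]
      have e5 : χ ⟨s, hsA⟩ = φ' ⟨s, hR hs⟩ := by
        have := h s hs (hRA hs)
        rw [rst_apply] at this
        rw [this, hφ' _ hs (hR hs)]
      rw [e2, e3, map_mul, map_mul, map_pow, map_pow, e5] at e4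
      refine mul_left_cancel₀ (pow_ne_zero n ?_) e4
      rw [hφ' s hs (hR hs)]
      exact hφ)
  have h3 : Nat.card {χ : A →+* F // Agr φ χ ∧ Z χ} =
      Nat.card {χ : A →+* F // (Agr φ χ ∧ Z χ) ∧ χ ⟨s, hRA hs⟩ ≠ 0} :=
    Nat.card_congr (Equiv.subtypeEquivRight fun χ => ⟨fun h => ⟨h, key χ h.1⟩, fun h => h.1⟩)
  have h4 : Nat.card {χ : A' →+* F // Agr φ' χ ∧ Z' χ} =
      Nat.card {χ : A' →+* F // (Agr φ' χ ∧ Z' χ) ∧ χ ⟨s, h1 (hRA hs)⟩ ≠ 0} :=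
    Nat.card_congr (Equiv.subtypeEquivRight fun χ => ⟨fun h => ⟨h, key' χ h.1⟩, fun h => h.1⟩)
  rw [h3, h4, h2]

/-- **The points of the fibres of two models.** -/
theorem pts_cmp {R A₁ A₂ R' A₁' A₂' : Subring L} {u : L} (hR : R ≤ R') (h1 : A₁ ≤ A₁')
    (h2 : A₂ ≤ A₂') (hRA1 : R ≤ A₁) (hRA2 : R ≤ A₂) (hRA1' : R' ≤ A₁') (hRA2' : R' ≤ A₂')
    (hu : u⁻¹ ∈ A₂) {s : L} (hs : s ∈ R) (e0 : ∀ b ∈ R', ∃ n : ℕ, s ^ n * b ∈ R)
    (e1 : ∀ b ∈ A₁', ∃ n : ℕ, s ^ n * b ∈ A₁) (e2 : ∀ b ∈ A₂', ∃ n : ℕ, s ^ n * b ∈ A₂)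
    {F : Type} [Field F] (φ : R →+* F) (hφ : φ ⟨s, hs⟩ ≠ 0) (φ' : R' →+* F) (hφ' : Agr φ φ') :
    pts R A₁ A₂ u F φ = pts R' A₁' A₂' u F φ' := by
  unfold pts
  congr 1
  · have := agr_card hR h1 hRA1 hRA1' hs e0 e1 φ hφ φ' hφ' (fun _ => True) (fun _ => True)
      fun _ => Iff.rfl
    simpa using this
  · refine agr_card hR h2 hRA2 hRA2' hs e0 e2 φ hφ φ' hφ' _ _ ?_
    intro χ
    constructor
    · intro h hu'
      exact h (h2 hu')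
    · intro h hu'
      exact h hu

end

end Pool.Agent.K6.H86.NP
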