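import Pool.Agent.K6.H86.NP.Mdl
import Pool.Agent.R410.BS.Cod2

/-!
# The sums over the fibres
-/

set_option autoImplicit false
set_option linter.all false

open Polynomial

namespace Pool.Agent.K6.H86.NP

open Pool.Agent.R410.BS (good_le hom_le)

section
variable {L : Type} [Field L]

theorem fin_hom {A : Subring L} (hA : FGr A) (F : Type) [Field F] [Finite F] : Finite (A →+* F) :=
  @Pool.Agent.TH958.An.finite_hom A _ hA.ft F _ _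

/-- the sum of `#X_φ - q - 1` over the points `φ` above `ψ` with `N ≠ 0` -/
noncomputable def TT (R A₁ A₂ : Subring L) (u : L) {O : Type} [CommRing O] (ρ : O →+* L) (F : Type)
    [Field F] (ψ : O →+* F) (N : L) : ℝ :=
  ∑ᶠ φ : {φ : R →+* F // Ov ρ ψ φ ∧ ∀ h : N ∈ R, φ ⟨N, h⟩ ≠ 0},
    ((pts R A₁ A₂ u F φ.1 : ℝ) - Nat.card F - 1)

/-- the points of a scheme over a base -/
noncomputable def fibEquiv {R A : Subring L} (hRA : R ≤ A) {F : Type} [Field F] (P : (R →+* F) → Prop)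
    (Z : (A →+* F) → Prop) : {χ : A →+* F // P (rst hRA χ) ∧ Z χ} ≃
      Σ φ : {φ : R →+* F // P φ}, {χ : A →+* F // Agr φ.1 χ ∧ Z χ} where
  toFun χ := ⟨⟨rst hRA χ.1, χ.2.1⟩, ⟨χ.1, fun x hR hA => rfl, χ.2.2⟩⟩
  invFun w := ⟨w.2.1, by
    have h : rst hRA w.2.1 = w.1.1 := RingHom.ext fun x => w.2.2.1 x.1 x.2 (hRA x.2)
    rw [h]
    exact w.1.2, w.2.2.2⟩
  left_inv χ := rfl
  right_inv w := by
    obtain ⟨⟨φ, hφ⟩, χ, h1, h2⟩ := w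
    have h : rst hRA χ = φ := RingHom.ext fun x => h1 x.1 x.2 (hRA x.2)
    subst h
    rfl

theorem fib_sum {R A : Subring L} (hRA : R ≤ A) {F : Type} [Field F] [Finite (R →+* F)]
    [Finite (A →+* F)] (P : (R →+* F) → Prop) (Z : (A →+* F) → Prop) :
    ∑ᶠ φ : {φ : R →+* F // P φ}, (Nat.card {χ : A →+* F // Agr φ.1 χ ∧ Z χ} : ℝ) =
      Nat.card {χ : A →+* F // P (rst hRA χ) ∧ Z χ} := by
  classical
  let _ : Fintype {φ : R →+* F // P φ} := Fintype.ofFinite _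
  rw [finsum_eq_sum_of_fintype, Nat.card_congr (fibEquiv hRA P Z), Nat.card_sigma]
  push_cast
  rfl

theorem ov_rst {R A : Subring L} (hRA : R ≤ A) {O : Type} [CommRing O] {ρ : O →+* L}
    (hρ : ∀ o, ρ o ∈ R) {F : Type} [Field F] (ψ : O →+* F) (χ : A →+* F) :
    Ov ρ ψ (rst hRA χ) ↔ Ov ρ ψ χ :=
  ⟨fun h o ho => h o (hρ o), fun h o ho => h o (hRA ho)⟩

/-- **The sum over the fibres as a difference of numbers of points.** -/
theorem TT_eq {R A₁ A₂ : Subring L} {u : L} (fR : FGr R) (f1 : FGr A₁) (f2 : FGr A₂) (h1 : R ≤ A₁)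
    (h2 : R ≤ A₂) (hu : u⁻¹ ∈ A₂) {O : Type} [CommRing O] {ρ : O →+* L} (hρ : ∀ o, ρ o ∈ R) {F : Type}
    [Field F] [Finite F] (ψ : O →+* F) {N : L} (hN : N ∈ R) :
    TT R A₁ A₂ u ρ F ψ N =
      Nat.card {χ : A₁ →+* F // Ov ρ ψ χ ∧ χ ⟨N, h1 hN⟩ ≠ 0} +
      Nat.card {χ : A₂ →+* F // (Ov ρ ψ χ ∧ χ ⟨N, h2 hN⟩ ≠ 0) ∧ χ ⟨u⁻¹, hu⟩ = 0} -
      (Nat.card F + 1) * Nat.card {φ : R →+* F // Ov ρ ψ φ ∧ φ ⟨N, hN⟩ ≠ 0} := by
  classical
  have i0 := fin_hom fR F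
  have i1 := fin_hom f1 F
  have i2 := fin_hom f2 F
  let P : (R →+* F) → Prop := fun φ => Ov ρ ψ φ ∧ φ ⟨N, hN⟩ ≠ 0
  have e0 : TT R A₁ A₂ u ρ F ψ N = ∑ᶠ φ : {φ : R →+* F // P φ},
      ((pts R A₁ A₂ u F φ.1 : ℝ) - Nat.card F - 1) := by
    unfold TT
    refine finsum_comp_equiv (f := fun φ : {φ : R →+* F // P φ} =>
      ((pts R A₁ A₂ u F φ.1 : ℝ) - Nat.card F - 1)) (Equiv.subtypeEquivRight fun φ => ?_)
    refine and_congr_right fun _ => ⟨fun h => h hN, fun h _ => h⟩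
  have s1 := fib_sum h1 P (fun _ => True)
  have s2 := fib_sum h2 P (fun χ => χ ⟨u⁻¹, hu⟩ = 0)
  let _ : Fintype {φ : R →+* F // P φ} := Fintype.ofFinite _
  rw [finsum_eq_sum_of_fintype] at s1 s2
  have c1 : (Nat.card {χ : A₁ →+* F // P (rst h1 χ) ∧ True} : ℝ) =
      Nat.card {χ : A₁ →+* F // Ov ρ ψ χ ∧ χ ⟨N, h1 hN⟩ ≠ 0} := by
    congr 1
    refine Nat.card_congr (Equiv.subtypeEquivRight fun χ => ?_)
    rw [and_true]
    exact and_congr (ov_rst h1 hρ ψ χ) Iff.rfl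
  have c2 : (Nat.card {χ : A₂ →+* F // P (rst h2 χ) ∧ χ ⟨u⁻¹, hu⟩ = 0} : ℝ) =
      Nat.card {χ : A₂ →+* F // (Ov ρ ψ χ ∧ χ ⟨N, h2 hN⟩ ≠ 0) ∧ χ ⟨u⁻¹, hu⟩ = 0} := by
    congr 1
    refine Nat.card_congr (Equiv.subtypeEquivRight fun χ => ?_)
    exact and_congr_left fun _ => and_congr (ov_rst h2 hρ ψ χ) Iff.rfl
  rw [c1] at s1
  rw [c2] at s2
  rw [e0, finsum_eq_sum_of_fintype, ← s1, ← s2, Finset.sum_sub_distrib, Finset.sum_sub_distrib,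
    Finset.sum_const, Finset.sum_const, Finset.card_univ, nsmul_eq_mul, nsmul_eq_mul,
    Nat.card_eq_fintype_card (α := {φ : R →+* F // Ov ρ ψ φ ∧ φ ⟨N, hN⟩ ≠ 0}), mul_one]
  have e1 : ∀ φ : {φ : R →+* F // P φ}, (pts R A₁ A₂ u F φ.1 : ℝ) =
      (Nat.card {χ : A₁ →+* F // Agr φ.1 χ ∧ True} : ℝ) +
        (Nat.card {χ : A₂ →+* F // Agr φ.1 χ ∧ χ ⟨u⁻¹, hu⟩ = 0} : ℝ) := by
    intro φ
    unfold pts
    push_cast
    congr 1
    · congr 1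
      exact Nat.card_congr (Equiv.subtypeEquivRight fun χ => by simp)
    · congr 1
      exact Nat.card_congr (Equiv.subtypeEquivRight fun χ =>
        and_congr_right fun _ => ⟨fun h => h hu, fun h _ => h⟩)
  rw [Finset.sum_congr rfl fun φ _ => e1 φ, Finset.sum_add_distrib]
  ring

/-- the sum over all the points of the base -/
theorem TT_sum {R A₁ A₂ : Subring L} {u : L} (fR : FGr R) {O : Type} [CommRing O] {ρ : O →+* L}
    (hρ : ∀ o, ρ o ∈ R) {F : Type} [Field F] [Finite F] [Finite (O →+* F)] (N : L) :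
    ∑ᶠ ψ : O →+* F, TT R A₁ A₂ u ρ F ψ N =
      TT R A₁ A₂ u (Int.castRingHom L) F (Int.castRingHom F) N := by
  classical
  have i0 := fin_hom fR F
  let _ : Fintype (O →+* F) := Fintype.ofFinite _
  unfold TT
  rw [finsum_eq_sum_of_fintype]
  let E : {φ : R →+* F // Ov (Int.castRingHom L) (Int.castRingHom F) φ ∧ ∀ h : N ∈ R, φ ⟨N, h⟩ ≠ 0} ≃
      Σ ψ : O →+* F, {φ : R →+* F // Ov ρ ψ φ ∧ ∀ h : N ∈ R, φ ⟨N, h⟩ ≠ 0} :=
    { toFun := fun φ => ⟨φ.1.comp (ρ.codRestrict R hρ), ⟨φ.1, fun o ho => rfl, φ.2.2⟩⟩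
      invFun := fun w => ⟨w.2.1, fun o ho => by
        have : (⟨Int.castRingHom L o, ho⟩ : R) = (o : R) := Subtype.ext (by simp)
        rw [this, map_intCast]
        simp, w.2.2.2⟩
      left_inv := fun φ => rfl
      right_inv := fun w => by
        obtain ⟨ψ, φ, h1, h2⟩ := w
        have h : φ.comp (ρ.codRestrict R hρ) = ψ := RingHom.ext fun o => h1 o (hρ o)
        subst h
        rfl }
  let _ : Fintype {φ : R →+* F // Ov (Int.castRingHom L) (Int.castRingHom F) φ ∧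
    ∀ h : N ∈ R, φ ⟨N, h⟩ ≠ 0} := Fintype.ofFinite _
  let _ : ∀ ψ : O →+* F, Fintype {φ : R →+* F // Ov ρ ψ φ ∧ ∀ h : N ∈ R, φ ⟨N, h⟩ ≠ 0} :=
    fun ψ => Fintype.ofFinite _
  rw [finsum_eq_sum_of_fintype, ← E.symm.sum_comp]
  rw [Fintype.sum_sigma]
  refine Finset.sum_congr rfl fun ψ _ => ?_
  rw [finsum_eq_sum_of_fintype]
  rfl

/-! ### comparison -/

variable {K : Type} [Field K] [Algebra K L]

/-- **The Weil bound for the fibres with `N ≠ 0`.** -/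
def Good (R A₁ A₂ : Subring L) (u : L) (N : L) : Prop :=
  ∃ C : ℝ, ∀ (F : Type) [Field F] [Finite F] (φ : R →+* F), (∀ h : N ∈ R, φ ⟨N, h⟩ ≠ 0) →
    |(pts R A₁ A₂ u F φ : ℝ) - Nat.card F - 1| ≤ C * √(Nat.card F : ℝ)

theorem Good.mul {R A₁ A₂ : Subring L} {u N : L} (h : Good R A₁ A₂ u N) (hN : N ∈ R) {s : L}
    (hs : s ∈ R) : Good R A₁ A₂ u (N * s) := by
  obtain ⟨C, hC⟩ := h
  refine ⟨C, fun F _ _ φ hφ => hC F φ fun _ h0 => ?_⟩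
  refine hφ (R.mul_mem hN hs) ?_
  have : (⟨N * s, R.mul_mem hN hs⟩ : R) = ⟨N, hN⟩ * ⟨s, hs⟩ := rfl
  rw [this, map_mul, h0, zero_mul]

/-- the embedding in `K` -/
noncomputable def toK (R : Subring L) (h : ∀ x ∈ R, x ∈ Set.range (algebraMap K L)) : R →+* K :=
  ((RingEquiv.ofBijective (algebraMap K L).rangeRestrict
    ⟨fun x y hxy => (algebraMap K L).injective (congrArg Subtype.val hxy),
      (algebraMap K L).rangeRestrict_surjective⟩).symm : (algebraMap K L).range →+* K).comp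
    (Subring.inclusion (fun x hx => h x hx : R ≤ (algebraMap K L).range))

theorem algebraMap_toK (R : Subring L) (h : ∀ x ∈ R, x ∈ Set.range (algebraMap K L)) (x : R) :
    algebraMap K L (toK R h x) = x := by
  have h1 := (RingEquiv.ofBijective (algebraMap K L).rangeRestrict
    ⟨fun x y hxy => (algebraMap K L).injective (congrArg Subtype.val hxy),
      (algebraMap K L).rangeRestrict_surjective⟩).apply_symm_apply
      (Subring.inclusion (fun x hx => h x hx : R ≤ (algebraMap K L).range) x)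
  exact congrArg Subtype.val h1

theorem toK_injective (R : Subring L) (h : ∀ x ∈ R, x ∈ Set.range (algebraMap K L)) :
    Function.Injective (toK R h) := by
  intro x y hxy
  apply Subtype.ext
  rw [← algebraMap_toK R h x, ← algebraMap_toK R h y, hxy]

/-- bounds for the number of the points of the base -/
theorem base_le [CharZero K] {R : Subring L} (fR : FGr R)
    (h : ∀ x ∈ R, x ∈ Set.range (algebraMap K L)) {e : ℕ} (he : Algebra.trdeg ℚ K ≤ e) {s : L}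
    (hs : s ∈ R) (hs0 : s ≠ 0) : ∃ (C : ℝ) (m : ℕ), 0 ≤ C ∧ m ≠ 0 ∧
      ∀ (F : Type) [Field F] [Finite F], ((m : ℕ) : F) ≠ 0 →
        (Nat.card (R →+* F) : ℝ) ≤ C * (Nat.card F : ℝ) ^ e ∧
        (Nat.card {φ : R →+* F // φ ⟨s, hs⟩ = 0} : ℝ) * Nat.card F ≤ C * (Nat.card F : ℝ) ^ e := by
  have := fR.ft
  let _ : Algebra R K := (toK R h).toAlgebra
  exact good_le (R := R) (K := K) (toK_injective R h) he (u := ⟨s, hs⟩)
    fun h0 => hs0 (congrArg Subtype.val h0)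

/-- a multiple of a good denominator gives nearly the same sums -/
theorem near_mul [CharZero K] {R A₁ A₂ : Subring L} {u : L} (fR : FGr R)
    (h : ∀ x ∈ R, x ∈ Set.range (algebraMap K L)) {e : ℕ} (he : Algebra.trdeg ℚ K ≤ e) {N s : L}
    (hN : N ∈ R) (hg : Good R A₁ A₂ u N) (hs : s ∈ R) (hs0 : s ≠ 0) {O : Type} [CommRing O]
    (ρ : O →+* L) : ∃ (C : ℝ) (m : ℕ), 0 ≤ C ∧ m ≠ 0 ∧
      ∀ (F : Type) [Field F] [Finite F], ((m : ℕ) : F) ≠ 0 → ∀ ψ : O →+* F,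
        |TT R A₁ A₂ u ρ F ψ N - TT R A₁ A₂ u ρ F ψ (N * s)| * √(Nat.card F : ℝ) ≤
          C * (Nat.card F : ℝ) ^ e := by
  classical
  obtain ⟨C, m, hC, hm, hb⟩ := base_le fR h he hs hs0
  obtain ⟨D, hD⟩ := hg
  refine ⟨|D| * C, m, by positivity, hm, fun F _ _ hF ψ => ?_⟩
  have i0 := fin_hom fR F
  have hb2 := (hb F hF).2
  let _ : Fintype (R →+* F) := Fintype.ofFinite _
  have key : ∀ N' : L, N' ∈ R → TT R A₁ A₂ u ρ F ψ N' =
      ∑ φ ∈ Finset.univ.filter (fun φ : R →+* F => Ov ρ ψ φ ∧ ∀ h : N' ∈ R, φ ⟨N', h⟩ ≠ 0),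
        ((pts R A₁ A₂ u F φ : ℝ) - Nat.card F - 1) := by
    intro N' _
    unfold TT
    let _ : Fintype {φ : R →+* F // Ov ρ ψ φ ∧ ∀ h : N' ∈ R, φ ⟨N', h⟩ ≠ 0} := Fintype.ofFinite _
    rw [finsum_eq_sum_of_fintype]
    rw [Finset.sum_subtype (p := fun φ : R →+* F => Ov ρ ψ φ ∧ ∀ h : N' ∈ R, φ ⟨N', h⟩ ≠ 0)
      (Finset.univ.filter (fun φ : R →+* F => Ov ρ ψ φ ∧ ∀ h : N' ∈ R, φ ⟨N', h⟩ ≠ 0))
      (by intro φ; simp) (fun φ => ((pts R A₁ A₂ u F φ : ℝ) - Nat.card F - 1))]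
  have hNs := R.mul_mem hN hs
  rw [key N hN, key (N * s) hNs]
  set U := Finset.univ.filter (fun φ : R →+* F => Ov ρ ψ φ ∧ ∀ h : N ∈ R, φ ⟨N, h⟩ ≠ 0) with hU
  set V := Finset.univ.filter (fun φ : R →+* F => Ov ρ ψ φ ∧ ∀ h : N * s ∈ R, φ ⟨N * s, h⟩ ≠ 0)
    with hV
  have hmul : ∀ φ : R →+* F, φ ⟨N * s, hNs⟩ = φ ⟨N, hN⟩ * φ ⟨s, hs⟩ := fun φ => by
    rw [← map_mul]
    rfl
  have hVU : V ⊆ U := by
    intro φ hφ
    rw [hV, Finset.mem_filter] at hφ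
    rw [hU, Finset.mem_filter]
    refine ⟨hφ.1, hφ.2.1, fun _ h0 => hφ.2.2 hNs ?_⟩
    rw [hmul, h0, zero_mul]
  rw [← Finset.sum_sdiff hVU, add_sub_cancel_right]
  have hcard : ((U \ V).card : ℝ) ≤ Nat.card {φ : R →+* F // φ ⟨s, hs⟩ = 0} := by
    rw [Nat.card_eq_fintype_card, Fintype.card_subtype]
    have : U \ V ⊆ Finset.univ.filter fun φ : R →+* F => φ ⟨s, hs⟩ = 0 := by
      intro φ hφ
      rw [Finset.mem_sdiff, hU, hV, Finset.mem_filter, Finset.mem_filter] at hφ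
      rw [Finset.mem_filter]
      refine ⟨Finset.mem_univ _, ?_⟩
      by_contra hc
      apply hφ.2
      refine ⟨Finset.mem_univ _, hφ.1.2.1, fun _ => ?_⟩
      rw [hmul]
      exact mul_ne_zero (hφ.1.2.2 hN) hc
    exact_mod_cast Finset.card_le_card this
  set q : ℝ := (Nat.card F : ℝ) with hq
  have hq0 : 0 ≤ q := Nat.cast_nonneg _
  have hs2 : √q * √q = q := Real.mul_self_sqrt hq0
  have h1 : |∑ φ ∈ U \ V, ((pts R A₁ A₂ u F φ : ℝ) - q - 1)| ≤ (U \ V).card * (|D| * √q) := by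
    refine (Finset.abs_sum_le_sum_abs _ _).trans ((Finset.sum_le_card_nsmul _ _ (|D| * √q) ?_).trans
      (le_of_eq (nsmul_eq_mul _ _)))
    intro φ hφ
    rw [Finset.mem_sdiff, hU, Finset.mem_filter] at hφ
    exact (hD F φ hφ.1.2.2).trans (mul_le_mul_of_nonneg_right (le_abs_self D) (Real.sqrt_nonneg _))
  calc |∑ φ ∈ U \ V, ((pts R A₁ A₂ u F φ : ℝ) - q - 1)| * √q ≤ (U \ V).card * (|D| * √q) * √q :=
        mul_le_mul_of_nonneg_right h1 (Real.sqrt_nonneg _)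
    _ = |D| * ((U \ V).card * (√q * √q)) := by ring
    _ = |D| * ((U \ V).card * q) := by rw [hs2]
    _ ≤ |D| * (Nat.card {φ : R →+* F // φ ⟨s, hs⟩ = 0} * q) := by
        gcongr
    _ ≤ |D| * (C * q ^ e) := by gcongr
    _ = |D| * C * q ^ e := by ring

/-- the sums for two models -/
theorem TT_cmp {R A₁ A₂ R' A₁' A₂' : Subring L} {u : L} (h : IsModel K u R A₁ A₂)
    (h' : IsModel K u R' A₁' A₂') (hR : R ≤ R') (h1 : A₁ ≤ A₁') (h2 : A₂ ≤ A₂') {s : L} (hs : s ∈ R)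
    (e0 : ∀ b ∈ R', ∃ n : ℕ, s ^ n * b ∈ R)
    (e1 : ∀ b ∈ A₁', ∃ n : ℕ, s ^ n * b ∈ A₁) (e2 : ∀ b ∈ A₂', ∃ n : ℕ, s ^ n * b ∈ A₂) {O : Type}
    [CommRing O] (ρ : O →+* L) (hρ : ∀ o, ρ o ∈ R) {F : Type} [Field F] [Finite F] (ψ : O →+* F) :
    TT R A₁ A₂ u ρ F ψ s = TT R' A₁' A₂' u ρ F ψ s := by
  classical
  unfold TT
  let E : {φ : R' →+* F // Ov ρ ψ φ ∧ ∀ h : s ∈ R', φ ⟨s, h⟩ ≠ 0} →
      {φ : R →+* F // Ov ρ ψ φ ∧ ∀ h : s ∈ R, φ ⟨s, h⟩ ≠ 0} := fun φ =>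
    ⟨rst hR φ.1, (ov_rst hR hρ ψ φ.1).2 φ.2.1, fun h => φ.2.2 (hR h)⟩
  have hE : Function.Bijective E := by
    constructor
    · intro φ φ' hφ
      apply Subtype.ext
      refine ext_unique hR hs φ.1 φ'.1 (φ.2.2 (hR hs)) ?_ e0
      intro x hx
      exact congrArg (fun f : {φ : R →+* F // Ov ρ ψ φ ∧ ∀ h : s ∈ R, φ ⟨s, h⟩ ≠ 0} => f.1 ⟨x, hx⟩) hφ
    · rintro ⟨φ, a1, a2⟩
      have h3 : rst hR (extHom hs e0 φ (a2 hs)) = φ := by
        refine RingHom.ext fun x => ?_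
        exact extHom_agr hs e0 φ (a2 hs) x.1 x.2 (hR x.2)
      refine ⟨⟨extHom hs e0 φ (a2 hs), ?_, ?_⟩, Subtype.ext h3⟩
      · rw [← ov_rst hR hρ, h3]
        exact a1
      · intro h4
        rw [extHom_agr hs e0 φ (a2 hs) s hs (hR hs)]
        exact a2 hs
  rw [← finsum_comp_equiv (Equiv.ofBijective E hE)]
  refine finsum_congr fun φ => ?_
  have h5 : pts R A₁ A₂ u F (E φ).1 = pts R' A₁' A₂' u F φ.1 :=
    pts_cmp hR h1 h2 h.le₁ h.le₂ h'.le₁ h'.le₂ h.mem₂ hs e0 e1 e2 (E φ).1 ((E φ).2.2 hs) φ.1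
      fun x hx hx' => rfl
  show ((pts R A₁ A₂ u F (E φ).1 : ℝ) - Nat.card F - 1) = _
  rw [h5]

/-- the transfer of the bound to a smaller model -/
theorem Good.down {R A₁ A₂ R' A₁' A₂' : Subring L} {u : L} (h : IsModel K u R A₁ A₂)
    (h' : IsModel K u R' A₁' A₂') (hR : R ≤ R') (h1 : A₁ ≤ A₁') (h2 : A₂ ≤ A₂') {s : L} (hs : s ∈ R)
    (e0 : ∀ b ∈ R', ∃ n : ℕ, s ^ n * b ∈ R)
    (e1 : ∀ b ∈ A₁', ∃ n : ℕ, s ^ n * b ∈ A₁) (e2 : ∀ b ∈ A₂', ∃ n : ℕ, s ^ n * b ∈ A₂)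
    (hg : Good R' A₁' A₂' u s) : Good R A₁ A₂ u s := by
  obtain ⟨C, hC⟩ := hg
  refine ⟨C, fun F _ _ φ hφ => ?_⟩
  have hs0 := hφ hs
  have h5 := pts_cmp hR h1 h2 h.le₁ h.le₂ h'.le₁ h'.le₂ h.mem₂ hs e0 e1 e2 φ hs0
    (extHom hs e0 φ hs0) (extHom_agr hs e0 φ hs0)
  rw [h5]
  refine hC F _ fun hsR' => ?_
  rw [extHom_agr hs e0 φ hs0 s hs hsR']
  exact hs0

/-- the transfer of the bound to a larger model -/
theorem Good.up {R A₁ A₂ R' A₁' A₂' : Subring L} {u : L} (h : IsModel K u R A₁ A₂)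
    (h' : IsModel K u R' A₁' A₂') (hR : R ≤ R') (h1 : A₁ ≤ A₁') (h2 : A₂ ≤ A₂') {s : L} (hs : s ∈ R)
    (e0 : ∀ b ∈ R', ∃ n : ℕ, s ^ n * b ∈ R)
    (e1 : ∀ b ∈ A₁', ∃ n : ℕ, s ^ n * b ∈ A₁) (e2 : ∀ b ∈ A₂', ∃ n : ℕ, s ^ n * b ∈ A₂)
    (hg : Good R A₁ A₂ u s) : Good R' A₁' A₂' u s := by
  obtain ⟨C, hC⟩ := hg
  refine ⟨C, fun F _ _ φ hφ => ?_⟩
  have h5 := pts_cmp hR h1 h2 h.le₁ h.le₂ h'.le₁ h'.le₂ h.mem₂ hs e0 e1 e2 (rst hR φ) (hφ (hR hs)) φ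
    fun x hx hx' => rfl
  rw [← h5]
  exact hC F _ fun hsR => hφ (hR hs)

end

end Pool.Agent.K6.H86.NP
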