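import Pool.Agent.K6.H86.NP.Tf
import Pool.Agent.R410.LW.Main

/-!
# The Weil bound for the fibres of a model
-/

set_option autoImplicit false
set_option linter.all false

open Polynomial

namespace Pool.Agent.K6.H86.NP

open Pool.Agent.R410.LW (ev ev_C ev_X ev_eq ev_eq' bn_poly bezout curve_le)
open Pool.Agent.R410.BS (fib_count)

/-- the Weil bound and the irreducibility for a family of plane curves -/
theorem weil_fam {A : Type} [CommRing A] [IsDomain A] [CharZero A] {k₀ kb : Type} [Field k₀]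
    [Algebra A k₀] [IsFractionRing A k₀] [Field kb] [Algebra k₀ kb] [IsAlgClosed kb] {f : A[X][X]}
    (hf : f.Monic) (hf0 : 0 < f.natDegree)
    (hirr : Irreducible (f.map (mapRingHom ((algebraMap k₀ kb).comp (algebraMap A k₀))))) :
    ∃ t₀ : A, t₀ ≠ 0 ∧ (∀ (F : Type) [Field F] (φ : A →+* F), φ t₀ ≠ 0 →
      Irreducible (f.map (mapRingHom φ))) ∧
      ∃ W : ℝ, 0 ≤ W ∧ ∀ (k : Type) [Field k] [Finite k] (ψ : A →+* k), ψ t₀ ≠ 0 →
        |(Nat.card {z : k × k // ev ψ z f = 0} : ℝ) - Nat.card k| ≤ W * √(Nat.card k : ℝ) := by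
  classical
  set ι : A →+* kb := (algebraMap k₀ kb).comp (algebraMap A k₀) with hι
  have hιi : Function.Injective ι := (algebraMap k₀ kb).injective.comp (IsFractionRing.injective A k₀)
  obtain ⟨D, hD, hDirr⟩ := bn_poly (k := k₀) (kb := kb) f hf hf0 hirr
  obtain ⟨a₁, b₁, D₁, hD₁, hab⟩ := bezout hιi hf hirr
  set l := D₁.leadingCoeff with hl
  have hl0 : l ≠ 0 := leadingCoeff_ne_zero.2 hD₁
  obtain ⟨dd, hdd⟩ : ∃ dd : ℕ, ∀ i, (f.coeff i).natDegree ≤ dd := by
    refine ⟨f.support.sup fun i => (f.coeff i).natDegree, fun i => ?_⟩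
    by_cases hi : i ∈ f.support
    · exact Finset.le_sup (f := fun i => (f.coeff i).natDegree) hi
    · rw [notMem_support_iff.1 hi, natDegree_zero]
      exact Nat.zero_le _
  refine ⟨D * l, mul_ne_zero hD hl0, ?_, |Pool.Agent.R410.PW.WC f.natDegree dd D₁.natDegree|,
    abs_nonneg _, ?_⟩
  · intro F _ φ hφ
    rw [map_mul] at hφ
    exact hDirr F φ (left_ne_zero_of_mul hφ)
  intro k _ _ ψ hψ
  rw [map_mul] at hψ
  have k4 := left_ne_zero_of_mul hψ
  have k3 := right_ne_zero_of_mul hψ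
  have hfm : (f.map (mapRingHom ψ)).Monic := hf.map _
  have hfd : (f.map (mapRingHom ψ)).natDegree = f.natDegree := hf.natDegree_map _
  have hirr' : Irreducible ((f.map (mapRingHom ψ)).map
      (mapRingHom (algebraMap k (AlgebraicClosure k)))) := by
    have h := hDirr (AlgebraicClosure k) ((algebraMap k (AlgebraicClosure k)).comp ψ) (by
      rw [RingHom.comp_apply]
      exact (_root_.map_ne_zero _).2 k4)
    rw [Polynomial.map_map]
    have h5 : (mapRingHom (algebraMap k (AlgebraicClosure k))).comp (mapRingHom ψ) =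
        mapRingHom ((algebraMap k (AlgebraicClosure k)).comp ψ) := by
      rw [mapRingHom_comp]
    rw [h5]
    exact h
  have hab' : a₁.map (mapRingHom ψ) * f.map (mapRingHom ψ) +
      b₁.map (mapRingHom ψ) * derivative (f.map (mapRingHom ψ)) = C (D₁.map ψ) := by
    have h := congrArg (Polynomial.map (mapRingHom ψ)) hab
    rw [Polynomial.map_add, Polynomial.map_mul, Polynomial.map_mul, Polynomial.map_C] at h
    rw [derivative_map]
    exact h
  have hD' : D₁.map ψ ≠ 0 := by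
    intro h
    apply k3
    have := congrArg (fun p => p.coeff D₁.natDegree) h
    simp only [coeff_map, coeff_zero] at this
    rw [hl, leadingCoeff]
    exact this
  have hw := Pool.Agent.R410.PW.weil (F := k) (AlgebraicClosure k) (f := f.map (mapRingHom ψ)) hfm
    (by rw [hfd]; exact hf0) hab' hD' (δ := D₁.natDegree) natDegree_map_le (d := dd)
    (fun i => by
      rw [coeff_map]
      exact natDegree_map_le.trans (hdd i)) hirr'
  rw [hfd] at hw
  have hnc : ({z : k × k | evalEval z.1 z.2 (f.map (mapRingHom ψ)) = 0}.ncard : ℝ) =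
      Nat.card {z : k × k // ev ψ z f = 0} := by
    rw [← Nat.card_coe_set_eq]
    congr 1
    exact Nat.card_congr (Equiv.subtypeEquivRight fun z => by
      rw [Set.mem_ofPred_eq, ev_eq])
  rw [hnc] at hw
  exact hw.trans (mul_le_mul_of_nonneg_right (le_abs_self _) (Real.sqrt_nonneg _))

section
variable {L : Type} [Field L]

/-- the value of a polynomial in two variables over `R` at `(u, θ)` -/
noncomputable abbrev EL (R : Subring L) (u θ : L) := ev R.subtype (u, θ)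

theorem EL_CC (R : Subring L) (u θ : L) (c : R) : EL R u θ (C (C c)) = c := by
  rw [EL, ev_C, eval₂_C]
  rfl

theorem EL_CX (R : Subring L) (u θ : L) : EL R u θ (C X) = u := by
  rw [EL, ev_C, eval₂_X]

theorem EL_X (R : Subring L) (u θ : L) : EL R u θ X = θ := by
  rw [EL, ev_X]

theorem EL_C (R : Subring L) (u θ : L) (p : R[X]) : EL R u θ (C p) = eval₂ R.subtype u p := by
  rw [EL, ev_C]

/-- the ring `R[u, θ]` -/
def CC (R : Subring L) (u θ : L) : Subring L := R ⊔ Subring.closure {u, θ}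

theorem le_CC (R : Subring L) (u θ : L) : R ≤ CC R u θ := le_sup_left

theorem u_mem_CC (R : Subring L) (u θ : L) : u ∈ CC R u θ :=
  (le_sup_right : Subring.closure {u, θ} ≤ R ⊔ Subring.closure {u, θ})
    (Subring.subset_closure (by simp))

theorem t_mem_CC (R : Subring L) (u θ : L) : θ ∈ CC R u θ :=
  (le_sup_right : Subring.closure {u, θ} ≤ R ⊔ Subring.closure {u, θ})
    (Subring.subset_closure (by simp))

theorem CC_le {R A : Subring L} {u θ : L} (h : R ≤ A) (hu : u ∈ A) (hθ : θ ∈ A) :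
    CC R u θ ≤ A := by
  refine sup_le h ?_
  rw [Subring.closure_le]
  rintro x hx
  simp only [Set.mem_insert_iff, Set.mem_singleton_iff] at hx
  rcases hx with rfl | rfl
  · exact hu
  · exact hθ

theorem eval_mem {R A : Subring L} (h : R ≤ A) {u : L} (hu : u ∈ A) (q : R[X]) :
    eval₂ R.subtype u q ∈ A := by
  induction q using Polynomial.induction_on' with
  | add p q hp hq => rw [eval₂_add]; exact add_mem hp hq
  | monomial n c =>
    rw [eval₂_monomial]
    exact mul_mem (h c.2) (pow_mem hu n)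

theorem EL_mem' {R A : Subring L} (h : R ≤ A) {u θ : L} (hu : u ∈ A) (hθ : θ ∈ A) (p : R[X][X]) :
    EL R u θ p ∈ A := by
  induction p using Polynomial.induction_on' with
  | add p q hp hq => rw [map_add]; exact add_mem hp hq
  | monomial n c =>
    rw [← C_mul_X_pow_eq_monomial, map_mul, map_pow, EL_C, EL_X]
    exact mul_mem (eval_mem h hu c) (pow_mem hθ n)

theorem EL_mem (R : Subring L) (u θ : L) (p : R[X][X]) : EL R u θ p ∈ CC R u θ :=
  EL_mem' (le_CC R u θ) (u_mem_CC R u θ) (t_mem_CC R u θ) p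

/-- the homomorphism onto `R[u, θ]` -/
noncomputable def toCC (R : Subring L) (u θ : L) :=
  (EL R u θ).codRestrict (CC R u θ) (EL_mem R u θ)

theorem toCC_apply (R : Subring L) (u θ : L) (p : R[X][X]) : (toCC R u θ p : L) = EL R u θ p := rfl

theorem mem_CC {R : Subring L} {u θ x : L} : x ∈ CC R u θ ↔ ∃ p, EL R u θ p = x := by
  constructor
  · intro hx
    let B : Subring L :=
      { carrier := {x | ∃ p, EL R u θ p = x}
        zero_mem' := ⟨0, map_zero _⟩
        one_mem' := ⟨1, map_one _⟩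
        add_mem' := by
          rintro _ _ ⟨p, rfl⟩ ⟨q, rfl⟩
          exact ⟨p + q, map_add _ _ _⟩
        mul_mem' := by
          rintro _ _ ⟨p, rfl⟩ ⟨q, rfl⟩
          exact ⟨p * q, map_mul _ _ _⟩
        neg_mem' := by
          rintro _ ⟨p, rfl⟩
          refine ⟨C (C (-1)) * p, ?_⟩
          rw [map_mul, EL_CC]
          simp }
    have h : CC R u θ ≤ B := CC_le (fun c hc => ⟨C (C ⟨c, hc⟩), EL_CC R u θ ⟨c, hc⟩⟩)
      ⟨C X, EL_CX R u θ⟩ ⟨X, EL_X R u θ⟩
    exact h hx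
  · rintro ⟨p, rfl⟩
    exact EL_mem R u θ p

theorem toCC_surjective (R : Subring L) (u θ : L) : Function.Surjective (toCC R u θ) := by
  rintro ⟨x, hx⟩
  obtain ⟨p, hp⟩ := mem_CC.1 hx
  exact ⟨p, Subtype.ext hp⟩

theorem lift_exists {A B F : Type} [CommRing A] [CommRing B] [Field F] (g : A →+* B)
    (hg : Function.Surjective g) (h : A →+* F) (hle : ∀ x, g x = 0 → h x = 0) :
    ∃ χ : B →+* F, ∀ x, χ (g x) = h x :=
  ⟨g.liftOfSurjective hg ⟨h, hle⟩, fun x =>
    RingHom.liftOfRightInverse_comp_apply g _ (Function.rightInverse_surjInv hg) ⟨h, hle⟩ x⟩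

/-- **The points of the plane model.** -/
theorem plane_card {R : Subring L} {u θ : L} {f : R[X][X]} (hker : ∀ p, EL R u θ p = 0 ↔ f ∣ p)
    {F : Type} [Field F] (φ : R →+* F) (G : R[X][X]) :
    Nat.card {χ : CC R u θ →+* F // Agr φ χ ∧ χ ⟨EL R u θ G, EL_mem R u θ G⟩ ≠ 0} =
      Nat.card {z : F × F // ev φ z f = 0 ∧ ev φ z G ≠ 0} := by
  have key : ∀ χ : CC R u θ →+* F, Agr φ χ →
      ev φ (χ ⟨u, u_mem_CC R u θ⟩, χ ⟨θ, t_mem_CC R u θ⟩) = χ.comp (toCC R u θ) := by
    intro χ hχ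
    apply Polynomial.ringHom_ext
    · intro p
      rw [ev_C]
      have h2 : (eval₂RingHom φ (χ ⟨u, u_mem_CC R u θ⟩)) = (χ.comp (toCC R u θ)).comp C := by
        apply Polynomial.ringHom_ext
        · intro a
          rw [coe_eval₂RingHom, eval₂_C]
          show φ a = χ (toCC R u θ (C (C a)))
          have h3 : toCC R u θ (C (C a)) = ⟨a, le_CC R u θ a.2⟩ :=
            Subtype.ext (EL_CC R u θ a)
          rw [h3]
          exact (hχ a.1 a.2 _).symm
        · rw [coe_eval₂RingHom, eval₂_X]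
          show _ = χ (toCC R u θ (C X))
          have h3 : toCC R u θ (C X) = ⟨u, u_mem_CC R u θ⟩ := Subtype.ext (EL_CX R u θ)
          rw [h3]
      exact congrArg (fun g => g p) h2
    · rw [ev_X]
      show _ = χ (toCC R u θ X)
      have h3 : toCC R u θ X = ⟨θ, t_mem_CC R u θ⟩ := Subtype.ext (EL_X R u θ)
      rw [h3]
  let toF : {χ : CC R u θ →+* F // Agr φ χ ∧ χ ⟨EL R u θ G, EL_mem R u θ G⟩ ≠ 0} →
      {z : F × F // ev φ z f = 0 ∧ ev φ z G ≠ 0} := fun χ =>
    ⟨(χ.1 ⟨u, u_mem_CC R u θ⟩, χ.1 ⟨θ, t_mem_CC R u θ⟩), by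
      rw [key χ.1 χ.2.1]
      have : toCC R u θ f = 0 := Subtype.ext ((hker f).2 dvd_rfl)
      rw [RingHom.comp_apply, this, map_zero], by
      rw [key χ.1 χ.2.1]
      exact χ.2.2⟩
  refine Nat.card_congr (Equiv.ofBijective toF ⟨?_, ?_⟩)
  · intro χ χ' h
    apply Subtype.ext
    have h1 := key χ.1 χ.2.1
    have h2 := key χ'.1 χ'.2.1
    have h3 : (χ.1 ⟨u, u_mem_CC R u θ⟩, χ.1 ⟨θ, t_mem_CC R u θ⟩) =
      (χ'.1 ⟨u, u_mem_CC R u θ⟩, χ'.1 ⟨θ, t_mem_CC R u θ⟩) := congrArg Subtype.val h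
    rw [h3, h2] at h1
    refine RingHom.ext fun x => ?_
    obtain ⟨x, rfl⟩ := toCC_surjective R u θ x
    exact (congrArg (fun g => g x) h1).symm
  · rintro ⟨z, hz, hG⟩
    obtain ⟨χ, hχ⟩ : ∃ χ : CC R u θ →+* F, ∀ p, χ (toCC R u θ p) = ev φ z p := by
      refine lift_exists (toCC R u θ) (toCC_surjective R u θ) (ev φ z) ?_
      intro p hp
      have hp' : EL R u θ p = 0 := congrArg Subtype.val hp
      rw [hker] at hp'
      obtain ⟨c, rfl⟩ := hp'
      rw [map_mul, hz, zero_mul]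
    have hχ' : ∀ (x : L) p (h : EL R u θ p = x) (h' : x ∈ CC R u θ),
        χ ⟨x, h'⟩ = ev φ z p := by
      intro x p h h'
      have h3 : (⟨x, h'⟩ : CC R u θ) = toCC R u θ p := Subtype.ext h.symm
      rw [h3, hχ]
    refine ⟨⟨χ, ?_, ?_⟩, ?_⟩
    · intro x hx hx'
      rw [hχ' x (C (C ⟨x, hx⟩)) (EL_CC R u θ ⟨x, hx⟩), ev_C, eval₂_C]
    · rw [hχ' _ G rfl]
      exact hG
    · apply Subtype.ext
      refine Prod.ext ?_ ?_
      · show χ ⟨u, _⟩ = z.1
        rw [hχ' u (C X) (EL_CX R u θ), ev_C, eval₂_X]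
      · show χ ⟨θ, _⟩ = z.2
        rw [hχ' θ X (EL_X R u θ), ev_X]

/-- **A uniform bound** for the number of the points of a fibre in which `b(v) = 0`. -/
theorem fib_bound {R Q : Subring L} (fR : FGr R) (hRQ : R ≤ Q) {v : L} (hv : v ∈ Q) (G : Finset L)
    (hG : Q = Subring.closure ((R : Set L) ∪ {v} ∪ (G : Set L)))
    (hint : ∀ g ∈ G, ∃ p : R[X][X], p.Monic ∧ EL R v g p = 0) (b : R[X]) :
    ∃ C : ℕ, ∀ (F : Type) [Field F] [Finite F] (φ : R →+* F), φ b.leadingCoeff ≠ 0 →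
      ∀ (Z : (Q →+* F) → Prop), (∀ χ, Z χ → Agr φ χ ∧ ∀ h : eval₂ R.subtype v b ∈ Q,
        χ ⟨eval₂ R.subtype v b, h⟩ = 0) → Nat.card {χ : Q →+* F // Z χ} ≤ C := by
  classical
  have hft := fR.ft
  let S := Polynomial R
  let θ₀ : S →+* Q := eval₂RingHom (Subring.inclusion hRQ) ⟨v, hv⟩
  letI iA : Algebra S Q := θ₀.toAlgebra
  have hθ₀ : ∀ p : S, ((θ₀ p : Q) : L) = eval₂ R.subtype v p := by
    intro p
    have h1 : (Q.subtype).comp θ₀ = eval₂RingHom R.subtype v := by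
      apply Polynomial.ringHom_ext
      · intro c
        show ((eval₂ (Subring.inclusion hRQ) ⟨v, hv⟩ (C c) : Q) : L) = _
        rw [eval₂_C, coe_eval₂RingHom, eval₂_C]
        rfl
      · show ((eval₂ (Subring.inclusion hRQ) ⟨v, hv⟩ X : Q) : L) = _
        rw [eval₂_X, coe_eval₂RingHom, eval₂_X]
    exact congrArg (fun g => g p) h1
  have hGQ : ∀ g ∈ G, g ∈ Q := fun g hg => by
    rw [hG]
    exact Subring.subset_closure (Or.inr hg)
  choose! P hPm hP0 using hint
  let G' : Finset Q := G.attach.image fun g => ⟨g.1, hGQ g.1 g.2⟩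
  have hG' : Algebra.adjoin S (G' : Set Q) = ⊤ := by
    rw [eq_top_iff]
    rintro ⟨x, hx⟩ -
    have key : ∀ (y : L), y ∈ Subring.closure ((R : Set L) ∪ {v} ∪ (G : Set L)) →
        ∀ (hyQ : y ∈ Q), (⟨y, hyQ⟩ : Q) ∈ Algebra.adjoin S (G' : Set Q) := by
      intro y hy
      induction hy using Subring.closure_induction with
      | mem y hy =>
        intro hyQ
        rcases hy with (hy | hy) | hy
        · have h1 : (⟨y, hyQ⟩ : Q) = algebraMap S Q (C ⟨y, hy⟩) := by
            apply Subtype.ext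
            show y = ((θ₀ (C ⟨y, hy⟩) : Q) : L)
            rw [hθ₀, eval₂_C]
            rfl
          rw [h1]
          exact Subalgebra.algebraMap_mem _ _
        · rw [Set.mem_singleton_iff] at hy
          have h1 : (⟨y, hyQ⟩ : Q) = algebraMap S Q X := by
            apply Subtype.ext
            show y = ((θ₀ X : Q) : L)
            rw [hθ₀, eval₂_X]
            exact hy
          rw [h1]
          exact Subalgebra.algebraMap_mem _ _
        · refine Algebra.subset_adjoin ?_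
          rw [Finset.coe_image]
          exact ⟨⟨y, hy⟩, by simp, rfl⟩
      | zero => intro _; exact zero_mem _
      | one => intro _; exact one_mem _
      | add y z hy hz h1 h2 =>
        intro _
        have hyA : y ∈ Q := by rw [hG]; exact hy
        have hzA : z ∈ Q := by rw [hG]; exact hz
        exact add_mem (h1 hyA) (h2 hzA)
      | neg y hy h1 =>
        intro _
        have hyA : y ∈ Q := by rw [hG]; exact hy
        exact neg_mem (h1 hyA)
      | mul y z hy hz h1 h2 =>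
        intro _
        have hyA : y ∈ Q := by rw [hG]; exact hy
        have hzA : z ∈ Q := by rw [hG]; exact hz
        exact mul_mem (h1 hyA) (h2 hzA)
    exact key x (by rw [← hG]; exact hx) hx
  have hQ0 : ∀ g ∈ G', aeval g (P g.1) = 0 := by
    intro g hg
    obtain ⟨g', -, rfl⟩ := Finset.mem_image.1 hg
    apply Subtype.ext
    have h1 : ((Q.subtype).comp ((aeval (⟨g'.1, hGQ g'.1 g'.2⟩ : Q) : S[X] →ₐ[S] Q) : S[X] →+* Q)) =
        EL R v g'.1 := by
      apply Polynomial.ringHom_ext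
      · intro p
        rw [RingHom.comp_apply, RingHom.coe_coe, aeval_C, EL_C]
        exact hθ₀ p
      · rw [RingHom.comp_apply, RingHom.coe_coe, aeval_X, EL_X]
        rfl
    exact (congrArg (fun f => f (P g'.1)) h1).trans (hP0 g'.1 g'.2)
  refine ⟨b.natDegree * ∏ g ∈ G', (P g.1).natDegree, ?_⟩
  intro F _ _ φ hφ Z hZ
  have hftS : Algebra.FiniteType ℤ S := Algebra.FiniteType.trans (S := R) inferInstance inferInstance
  have hftS' := Pool.Agent.R410.LW.ft_int _ hftS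
  have hfinS : Finite (S →+* F) := @Pool.Agent.TH958.An.finite_hom S _ hftS' F _ _
  have hftQ : FGr Q := by
    obtain ⟨H, hH⟩ := fR
    refine ⟨H ∪ {v} ∪ G, ?_⟩
    rw [Finset.coe_union, Finset.coe_union, Finset.coe_singleton, hG]
    apply le_antisymm
    · refine Subring.closure_mono ?_
      refine Set.union_subset_union_left _ (Set.union_subset_union_left _ ?_)
      rw [← hH]
      exact Subring.subset_closure
    · rw [Subring.closure_le]
      rintro x ((hx | hx) | hx)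
      · have h1 : x ∈ Subring.closure (H : Set L) := by rw [hH]; exact hx
        exact Subring.closure_mono (fun y hy => Or.inl (Or.inl hy)) h1
      · exact Subring.subset_closure (Or.inl (Or.inr hx))
      · exact Subring.subset_closure (Or.inr hx)
  have hfinQ := fin_hom hftQ F
  let T : Set (S →+* F) := {ψ | ψ.comp C = φ ∧ ψ b = 0}
  have hb0 : b.map φ ≠ 0 := by
    intro h
    apply hφ
    have := congrArg (fun p => p.coeff b.natDegree) h
    simpa [coeff_map] using this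
  have hT : Nat.card T ≤ b.natDegree := by
    let j : T → {x : F // x ∈ (b.map φ).roots.toFinset} := fun ψ => ⟨ψ.1 X, by
      rw [Multiset.mem_toFinset, mem_roots hb0, IsRoot.def, eval_map]
      have h1 : ψ.1 = eval₂RingHom φ (ψ.1 X) := by
        apply Polynomial.ringHom_ext
        · intro c
          rw [coe_eval₂RingHom, eval₂_C, ← ψ.2.1]
          rfl
        · rw [coe_eval₂RingHom, eval₂_X]
      have h2 := ψ.2.2
      rw [h1] at h2
      exact h2⟩
    have hj : Function.Injective j := by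
      intro ψ ψ' h
      apply Subtype.ext
      apply Polynomial.ringHom_ext
      · intro c
        have h1 := congrArg (fun f : R →+* F => f c) (ψ.2.1.trans ψ'.2.1.symm)
        exact h1
      · exact congrArg Subtype.val h
    refine (Nat.card_le_card_of_injective j hj).trans ?_
    rw [Nat.card_eq_fintype_card, Fintype.card_coe]
    exact (Multiset.toFinset_card_le _).trans ((card_roots' _).trans natDegree_map_le)
  have h1 := fib_count (F := F) G' hG' (fun g => P g.1) hQ0 T (fun ψ _ g hg => by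
    obtain ⟨g', -, rfl⟩ := Finset.mem_image.1 hg
    exact ((hPm g'.1 g'.2).map ψ).ne_zero)
  have h2 : Nat.card {χ : Q →+* F // Z χ} ≤
      Nat.card {χ : Q →+* F // χ.comp (algebraMap S Q) ∈ T} := by
    refine Nat.card_le_card_of_injective (fun χ => ⟨χ.1, ?_, ?_⟩) ?_
    · refine RingHom.ext fun c => ?_
      have h3 : (algebraMap S Q) (C c) = ⟨c.1, hRQ c.2⟩ := by
        apply Subtype.ext
        show ((θ₀ (C c) : Q) : L) = _
        rw [hθ₀, eval₂_C]
        rfl
      show χ.1 ((algebraMap S Q) (C c)) = φ c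
      rw [h3]
      exact (hZ χ.1 χ.2).1 c.1 c.2 (hRQ c.2)
    · have h3 : eval₂ R.subtype v b ∈ Q := by
        rw [← hθ₀]
        exact (θ₀ b).2
      have h4 : (algebraMap S Q) b = ⟨eval₂ R.subtype v b, h3⟩ := Subtype.ext (hθ₀ b)
      show χ.1 ((algebraMap S Q) b) = 0
      rw [h4]
      exact (hZ χ.1 χ.2).2 h3
    · intro χ χ' h
      exact Subtype.ext (congrArg (fun w => w.1) h)
  exact h2.trans (h1.trans (Nat.mul_le_mul_right _ hT))

theorem card_split {α : Type} [Finite α] (P Z : α → Prop) :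
    Nat.card {x // P x} = Nat.card {x // P x ∧ Z x} + Nat.card {x // P x ∧ ¬ Z x} := by
  classical
  let _ : Fintype α := Fintype.ofFinite α
  simp only [Nat.card_eq_fintype_card, Fintype.card_subtype]
  rw [← Finset.card_union_of_disjoint]
  · congr 1
    ext x
    simp only [Finset.mem_filter, Finset.mem_univ, true_and, Finset.mem_union]
    tauto
  · rw [Finset.disjoint_left]
    intro x h1 h2
    exact (Finset.mem_filter.1 h2).2.2 (Finset.mem_filter.1 h1).2.2

/-- **The Weil bound for a prepared model.** -/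
theorem good_of {K : Type} [Field K] [CharZero K] [Algebra K L] {R A₁ A₂ : Subring L} {u θ : L}
    (fR : FGr R) (hK : ∀ x ∈ R, x ∈ Set.range (algebraMap K L))
    (frac : ∀ x : K, ∃ a ∈ R, ∃ b ∈ R, b ≠ 0 ∧ algebraMap K L x = a / b)
    {f : R[X][X]} (hf : f.Monic) (hf0 : 0 < f.natDegree) {Om : Type} [Field Om] [IsAlgClosed Om]
    [Algebra K Om] (hirr : Irreducible (f.map (mapRingHom ((algebraMap K Om).comp (toK R hK)))))
    (hker : ∀ p, EL R u θ p = 0 ↔ f ∣ p) (hθ : θ ∈ A₁) (h1 : R ≤ A₁) (h2 : R ≤ A₂) (hu : u ∈ A₁)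
    (hui : u⁻¹ ∈ A₂) (G₁ G₂ : Finset L)
    (hA₁ : A₁ = Subring.closure ((R : Set L) ∪ {u} ∪ (G₁ : Set L)))
    (hint₁ : ∀ g ∈ G₁, ∃ p : R[X][X], p.Monic ∧ EL R u g p = 0)
    (hA₂ : A₂ = Subring.closure ((R : Set L) ∪ {u⁻¹} ∪ (G₂ : Set L)))
    (hint₂ : ∀ g ∈ G₂, ∃ p : R[X][X], p.Monic ∧ EL R u⁻¹ g p = 0) {g : L} (hg : g ∈ CC R u θ)
    (hgA : ∀ b ∈ A₁, ∃ n : ℕ, g ^ n * b ∈ CC R u θ) (b₀ : R[X]) (hb₀ : b₀ ≠ 0) {c' : L}
    (hc' : c' ∈ CC R u θ) (hgb : g * c' = eval₂ R.subtype u b₀) :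
    ∃ t₀ ∈ R, t₀ ≠ 0 ∧ (∀ s ∈ R, Good R A₁ A₂ u (t₀ * s)) ∧
      ∀ (F : Type) [Field F] (φ : R →+* F), (∀ h : t₀ ∈ R, φ ⟨t₀, h⟩ ≠ 0) →
        Irreducible (f.map (mapRingHom φ)) ∧ φ b₀.leadingCoeff ≠ 0 := by
  classical
  let _ : Algebra R K := (toK R hK).toAlgebra
  have hfr : IsFractionRing R K := by
    have hf : FaithfulSMul R K := (faithfulSMul_iff_algebraMap_injective R K).2 (toK_injective R hK)
    refine IsFractionRing.of_field R K fun z => ?_
    obtain ⟨a, ha, b, hb, hb0, hz⟩ := frac z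
    refine ⟨⟨a, ha⟩, ⟨b, hb⟩, ?_⟩
    apply (algebraMap K L).injective
    rw [map_div₀]
    show _ = algebraMap K L (toK R hK ⟨a, ha⟩) / algebraMap K L (toK R hK ⟨b, hb⟩)
    rw [algebraMap_toK, algebraMap_toK, hz]
  have hCZ : CharZero R := (toK R hK).charZero
  obtain ⟨t₀, ht₀, hirrF, W, hW, hwe⟩ := weil_fam (A := R) (k₀ := K) (kb := Om) hf hf0 hirr
  have hCA : CC R u θ ≤ A₁ := CC_le h1 hu hθ
  obtain ⟨C2, hC2⟩ := fib_bound fR h1 hu G₁ hA₁ hint₁ b₀
  have hCC : CC R u θ = Subring.closure ((R : Set L) ∪ {u} ∪ (({θ} : Finset L) : Set L)) := by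
    apply le_antisymm
    · refine CC_le ?_ ?_ ?_
      · intro x hx
        exact Subring.subset_closure (Or.inl (Or.inl hx))
      · exact Subring.subset_closure (Or.inl (Or.inr rfl))
      · exact Subring.subset_closure (Or.inr (by simp))
    · rw [Subring.closure_le]
      rintro x ((hx | hx) | hx)
      · exact le_CC R u θ hx
      · rw [Set.mem_singleton_iff.1 hx]
        exact u_mem_CC R u θ
      · rw [Finset.coe_singleton, Set.mem_singleton_iff] at hx
        rw [hx]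
        exact t_mem_CC R u θ
  obtain ⟨C1, hC1⟩ := fib_bound fR (le_CC R u θ) (u_mem_CC R u θ) {θ} hCC (fun g hg => by
    rw [Finset.mem_singleton] at hg
    subst hg
    exact ⟨f, hf, (hker f).2 dvd_rfl⟩) b₀
  obtain ⟨C3, hC3⟩ := fib_bound fR h2 hui G₂ hA₂ hint₂ X
  have fC : FGr (CC R u θ) := by
    refine fR.sup ⟨{u, θ}, by simp⟩
  have fgg : ∀ (v : L) (G : Finset L),
      FGr (Subring.closure ((R : Set L) ∪ {v} ∪ (G : Set L))) := by
    intro v G
    obtain ⟨H, hH⟩ := fR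
    refine ⟨H ∪ {v} ∪ G, ?_⟩
    rw [Finset.coe_union, Finset.coe_union, Finset.coe_singleton]
    apply le_antisymm
    · refine Subring.closure_mono ?_
      refine Set.union_subset_union_left _ (Set.union_subset_union_left _ ?_)
      rw [← hH]
      exact Subring.subset_closure
    · rw [Subring.closure_le]
      rintro x ((hx | hx) | hx)
      · have h1 : x ∈ Subring.closure (H : Set L) := by rw [hH]; exact hx
        exact Subring.closure_mono (fun y hy => Or.inl (Or.inl hy)) h1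
      · exact Subring.subset_closure (Or.inl (Or.inr hx))
      · exact Subring.subset_closure (Or.inr hx)
  have f1 : FGr A₁ := by rw [hA₁]; exact fgg u G₁
  have f2 : FGr A₂ := by rw [hA₂]; exact fgg u⁻¹ G₂
  have hl0 : b₀.leadingCoeff ≠ 0 := leadingCoeff_ne_zero.2 hb₀
  refine ⟨((t₀ * b₀.leadingCoeff : R) : L), (t₀ * b₀.leadingCoeff).2, ?_, ?_, ?_⟩
  · intro h
    exact mul_ne_zero ht₀ hl0 (Subtype.ext h)
  · intro s hs
    refine ⟨W + C1 + C2 + C3 + 1, ?_⟩
    intro F _ _ φ hφ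
    have hφ' := hφ (R.mul_mem (t₀ * b₀.leadingCoeff).2 hs)
    have e1 : (⟨((t₀ * b₀.leadingCoeff : R) : L) * s, R.mul_mem (t₀ * b₀.leadingCoeff).2 hs⟩ : R) =
      t₀ * b₀.leadingCoeff * ⟨s, hs⟩ := rfl
    rw [e1, map_mul, map_mul] at hφ'
    have k1 : φ t₀ ≠ 0 := left_ne_zero_of_mul (left_ne_zero_of_mul hφ')
    have k2 : φ b₀.leadingCoeff ≠ 0 := right_ne_zero_of_mul (left_ne_zero_of_mul hφ')
    have i1 := fin_hom f1 F
    have i2 := fin_hom f2 F
    have iC := fin_hom fC F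
    have hgA1 : g ∈ A₁ := hCA hg
    -- the affine part
    have s1 := card_split (α := A₁ →+* F) (fun χ => Agr φ χ) (fun χ => χ ⟨g, hgA1⟩ ≠ 0)
    have s2 := card_split (α := CC R u θ →+* F) (fun χ => Agr φ χ) (fun χ => χ ⟨g, hg⟩ ≠ 0)
    have s3 := loc_card hCA hg hgA (F := F) (fun χ => Agr φ χ) (fun χ => Agr φ χ) (by
      intro χ
      constructor
      · intro h x hx hx'
        exact h x hx (hCA hx')
      · intro h x hx hx'
        exact h x hx (le_CC R u θ hx))
    have s4 : Nat.card {χ : CC R u θ →+* F // Agr φ χ} =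
        Nat.card {z : F × F // ev φ z f = 0} := by
      have h5 := plane_card hker φ 1
      rw [show Nat.card {z : F × F // ev φ z f = 0 ∧ ev φ z 1 ≠ 0} =
        Nat.card {z : F × F // ev φ z f = 0} from Nat.card_congr (Equiv.subtypeEquivRight fun z => by
          rw [map_one]; simp)] at h5
      rw [← h5]
      refine Nat.card_congr (Equiv.subtypeEquivRight fun χ => ?_)
      have h6 : (⟨EL R u θ 1, EL_mem R u θ 1⟩ : CC R u θ) = 1 := Subtype.ext (map_one _)
      rw [h6, map_one]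
      simp
    have b1 := hC1 F φ k2 (fun χ => Agr φ χ ∧ ¬ χ ⟨g, hg⟩ ≠ 0) (by
      rintro χ ⟨h3, h4⟩
      refine ⟨h3, fun h => ?_⟩
      rw [not_not] at h4
      have h5 : (⟨eval₂ R.subtype u b₀, h⟩ : CC R u θ) = ⟨g, hg⟩ * ⟨c', hc'⟩ := Subtype.ext hgb.symm
      rw [h5, map_mul, h4, zero_mul])
    have b2 := hC2 F φ k2 (fun χ => Agr φ χ ∧ ¬ χ ⟨g, hgA1⟩ ≠ 0) (by
      rintro χ ⟨h3, h4⟩
      refine ⟨h3, fun h => ?_⟩
      rw [not_not] at h4
      have h5 : (⟨eval₂ R.subtype u b₀, h⟩ : A₁) = ⟨g, hgA1⟩ * ⟨c', hCA hc'⟩ :=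
        Subtype.ext hgb.symm
      rw [h5, map_mul, h4, zero_mul])
    have b3 := hC3 F φ (by rw [leadingCoeff_X, map_one]; exact one_ne_zero)
      (fun χ => Agr φ χ ∧ ∀ h : u⁻¹ ∈ A₂, χ ⟨u⁻¹, h⟩ = 0) (by
      rintro χ ⟨h3, h4⟩
      refine ⟨h3, fun h => ?_⟩
      have h5 : (⟨eval₂ R.subtype u⁻¹ X, h⟩ : A₂) = ⟨u⁻¹, hui⟩ := Subtype.ext (eval₂_X _ _)
      rw [h5]
      exact h4 hui)
    have w := hwe F φ k1
    unfold pts
    rw [s1, s3]
    have hq1 : (1 : ℝ) ≤ √(Nat.card F : ℝ) := by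
      rw [Real.one_le_sqrt]
      exact_mod_cast Nat.card_pos
    rw [← s4, s2] at w
    push_cast at w ⊢
    have b1' : (Nat.card {χ : CC R u θ →+* F // Agr φ χ ∧ ¬ χ ⟨g, hg⟩ ≠ 0} : ℝ) ≤ C1 := by
      exact_mod_cast b1
    have b2' : (Nat.card {χ : A₁ →+* F // Agr φ χ ∧ ¬ χ ⟨g, hgA1⟩ ≠ 0} : ℝ) ≤ C2 := by
      exact_mod_cast b2
    have b3' : (Nat.card {χ : A₂ →+* F // Agr φ χ ∧ ∀ h : u⁻¹ ∈ A₂, χ ⟨u⁻¹, h⟩ = 0} : ℝ) ≤ C3 := by
      exact_mod_cast b3
    have p1 : (0 : ℝ) ≤ (Nat.card {χ : CC R u θ →+* F // Agr φ χ ∧ ¬ χ ⟨g, hg⟩ ≠ 0} : ℝ) :=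
      Nat.cast_nonneg _
    have p2 : (0 : ℝ) ≤ (Nat.card {χ : A₁ →+* F // Agr φ χ ∧ ¬ χ ⟨g, hgA1⟩ ≠ 0} : ℝ) :=
      Nat.cast_nonneg _
    have p3 : (0 : ℝ) ≤ (Nat.card {χ : A₂ →+* F // Agr φ χ ∧ ∀ h : u⁻¹ ∈ A₂, χ ⟨u⁻¹, h⟩ = 0} : ℝ) :=
      Nat.cast_nonneg _
    set x1 := (Nat.card {χ : CC R u θ →+* F // Agr φ χ ∧ χ ⟨g, hg⟩ ≠ 0} : ℝ)
    set x2 := (Nat.card {χ : CC R u θ →+* F // Agr φ χ ∧ ¬ χ ⟨g, hg⟩ ≠ 0} : ℝ)
    set x3 := (Nat.card {χ : A₁ →+* F // Agr φ χ ∧ ¬ χ ⟨g, hgA1⟩ ≠ 0} : ℝ)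
    set x4 := (Nat.card {χ : A₂ →+* F // Agr φ χ ∧ ∀ h : u⁻¹ ∈ A₂, χ ⟨u⁻¹, h⟩ = 0} : ℝ)
    set sq := √(Nat.card F : ℝ)
    have c1 : (0 : ℝ) ≤ (C1 + C2 + C3 + 1) * (sq - 1) := by
      have : (0 : ℝ) ≤ C1 + C2 + C3 + 1 := by positivity
      exact mul_nonneg this (by linarith)
    rw [abs_le] at w ⊢
    constructor <;> nlinarith [w.1, w.2]
  · intro F _ φ hφ
    have h5 := hφ (t₀ * b₀.leadingCoeff).2
    have e1 : (⟨((t₀ * b₀.leadingCoeff : R) : L), (t₀ * b₀.leadingCoeff).2⟩ : R) =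
      t₀ * b₀.leadingCoeff := rfl
    rw [e1, map_mul] at h5
    exact ⟨hirrF F φ (left_ne_zero_of_mul h5), right_ne_zero_of_mul h5⟩

end

end Pool.Agent.K6.H86.NP
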